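import Pool.Agent.T2H31.Triv

/-! The measure of the exceptional set. -/

set_option autoImplicit false

namespace Pool.Agent.T2H31

open Complex MeasureTheory Set Function UpperHalfPlane ModularGroup
open scoped ENNReal NNReal MatrixGroups Modular

theorem lintegral_inv_sq {y₀ : ℝ} (hy : 0 < y₀) :
    ∫⁻ y in Ici y₀, ENNReal.ofReal (1 / y ^ 2) = ENNReal.ofReal (1 / y₀) := by
  have h1 : ∫ y in Ioi y₀, y ^ (-2 : ℝ) = 1 / y₀ := by
    rw [integral_Ioi_rpow_of_lt (by norm_num) hy]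
    norm_num
    rw [Real.rpow_neg_one]
  have h2 : IntegrableOn (fun y : ℝ => y ^ (-2 : ℝ)) (Ioi y₀) := integrableOn_Ioi_rpow_of_lt (by norm_num) hy
  rw [← h1, ofReal_integral_eq_lintegral_ofReal h2]
  · rw [setLIntegral_congr Ioi_ae_eq_Ici.symm]
    refine setLIntegral_congr_fun measurableSet_Ioi fun y hy' => ?_
    have : 0 < y := hy.trans hy'
    show ENNReal.ofReal (1 / y ^ 2) = ENNReal.ofReal (y ^ (-2 : ℝ))
    rw [Real.rpow_neg this.le, Real.rpow_two, one_div]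
  · filter_upwards [ae_restrict_mem measurableSet_Ioi] with y hy'
    have : 0 < y := hy.trans hy'
    exact Real.rpow_nonneg this.le _

theorem lintegral_strip (α β : ℝ) {y₀ : ℝ} (hy : 0 < y₀) :
    ∫⁻ z in {z : ℂ | z.re ∈ Icc α β ∧ y₀ ≤ z.im}, ENNReal.ofReal (1 / z.im ^ 2) ≤
      ENNReal.ofReal (β - α) * ENNReal.ofReal (1 / y₀) := by
  have hmp := Complex.volume_preserving_equiv_real_prod
  have hs : {z : ℂ | z.re ∈ Icc α β ∧ y₀ ≤ z.im} =
      Complex.measurableEquivRealProd ⁻¹' (Icc α β ×ˢ Ici y₀) := by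
    ext z
    simp [Complex.measurableEquivRealProd_apply]
  have hm : Measurable fun q : ℝ × ℝ => ENNReal.ofReal (1 / q.2 ^ 2) := by fun_prop
  have := hmp.setLIntegral_comp_preimage (measurableSet_Icc.prod measurableSet_Ici) hm (s := Icc α β ×ˢ Ici y₀)
  rw [hs]
  have e : ∫⁻ z in Complex.measurableEquivRealProd ⁻¹' (Icc α β ×ˢ Ici y₀), ENNReal.ofReal (1 / z.im ^ 2) =
      ∫⁻ q in Icc α β ×ˢ Ici y₀, ENNReal.ofReal (1 / q.2 ^ 2) := by
    rw [← this]
    rfl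
  rw [e, Measure.volume_eq_prod, ← Measure.prod_restrict, lintegral_prod _ hm.aemeasurable]
  simp only
  rw [lintegral_const, lintegral_inv_sq hy, Measure.restrict_apply MeasurableSet.univ, univ_inter,
    Real.volume_Icc, mul_comm]

theorem vol_strip (α β : ℝ) {y₀ : ℝ} (hy : 0 < y₀) :
    (volume : Measure ℍ) {z : ℍ | z.re ∈ Icc α β ∧ y₀ ≤ z.im} ≤
      ENNReal.ofReal (β - α) * ENNReal.ofReal (1 / y₀) := by
  have hms : MeasurableSet {z : ℍ | z.re ∈ Icc α β ∧ y₀ ≤ z.im} := by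
    have h1 : Measurable fun z : ℍ => z.re := by
      have : (fun z : ℍ => z.re) = fun z : ℍ => (z : ℂ).re := rfl
      rw [this]; fun_prop
    have h2 : Measurable fun z : ℍ => z.im := by
      have : (fun z : ℍ => z.im) = fun z : ℍ => (z : ℂ).im := rfl
      rw [this]; fun_prop
    exact (h1 measurableSet_Icc).inter (h2 measurableSet_Ici)
  rw [← setLIntegral_one, lintegral_H measurable_const hms]
  simp only [one_mul]
  refine le_trans (lintegral_mono_set ?_) (lintegral_strip α β hy)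
  rintro _ ⟨z, hz, rfl⟩
  exact hz

theorem bad_cases {ε : ℝ} {X : ℕ} (hX : 1 ≤ X) (hε0 : 0 < ε) (hε : ε * X ≤ 1 / 2) {z : ℍ}
    (hz : z ∈ (𝒟 : Set ℍ)) (hb : ¬ Good ε X z) :
    (1 / (ε * X) ≤ z.im) ∨ ∃ c ∈ Finset.Icc (-(2 * X : ℤ)) (2 * X), ∃ e ∈ Finset.Icc (-(3 * X : ℤ)) (3 * X),
      |z.re + e / (2 * c)| ≤ ε * X / 2 := by
  have hy := z.im_pos
  obtain ⟨hy2, hx⟩ := fd_bounds hz
  have hXr : (1 : ℝ) ≤ X := by exact_mod_cast hX
  have hε1 : ε ≤ 1 / 2 := by nlinarith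
  rw [Good] at hb
  push Not at hb
  obtain ⟨a, b, c, d, h1, h2, h3, h4⟩ := hb
  set D : ℤ := a * d - b * c with hD
  have hD1 : (1 : ℝ) ≤ D := by exact_mod_cast h1
  have hD2 : (D : ℝ) ≤ (X : ℝ) ^ 2 := by exact_mod_cast h2
  have hsD : Real.sqrt (D : ℝ) ≤ X := by
    rw [Real.sqrt_le_left (by positivity)]
    exact hD2
  have hsD2 : Real.sqrt (D : ℝ) ^ 2 = D := Real.sq_sqrt (by linarith)
  have hsD0 : 0 ≤ Real.sqrt (D : ℝ) := Real.sqrt_nonneg _
  have hQn := norm_nonneg (Qf a b c d z)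
  have e1 := entries_sq a b c d z
  have hD' : (a * d - b * c : ℝ) = D := by rw [hD]; push_cast; ring
  rw [hD'] at e1
  have hQ2 : ‖Qf a b c d z‖ ^ 2 ≤ z.im ^ 2 * D := by
    have : ‖Qf a b c d z‖ ≤ Real.sqrt (D : ℝ) * z.im := by
      refine h3.trans ?_
      have : ε * Real.sqrt (D : ℝ) ≤ 1 * Real.sqrt (D : ℝ) := by gcongr; linarith
      nlinarith
    calc ‖Qf a b c d z‖ ^ 2 ≤ (Real.sqrt (D : ℝ) * z.im) ^ 2 := by gcongr
      _ = z.im ^ 2 * D := by rw [mul_pow, hsD2]; ring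
  have hcy : (c * z.im) ^ 2 ≤ 3 * D := by
    have h6 : z.im ^ 2 * (c * z.im) ^ 2 ≤ z.im ^ 2 * (3 * D) := by
      have : 0 ≤ z.im ^ 2 * ((c * z.re + d) ^ 2 + (a - c * z.re) ^ 2) := by positivity
      nlinarith
    exact le_of_mul_le_mul_left h6 (by positivity)
  have hc2 : (c : ℝ) ^ 2 ≤ (2 * X) ^ 2 := by
    have : (c : ℝ) ^ 2 * (3 / 4) ≤ 3 * X ^ 2 := by
      calc (c : ℝ) ^ 2 * (3 / 4) ≤ (c : ℝ) ^ 2 * z.im ^ 2 := by gcongr
        _ = (c * z.im) ^ 2 := by ring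
        _ ≤ 3 * D := hcy
        _ ≤ 3 * X ^ 2 := by linarith
    nlinarith
  have hc := abs_le.1 (abs_le_of_sq_le_sq hc2 (by positivity))
  have hcZ : -(2 * X : ℤ) ≤ c ∧ c ≤ 2 * X := by
    constructor
    · exact_mod_cast hc.1
    · exact_mod_cast hc.2
  have hlin : |2 * c * z.re + (d - a)| ≤ ε * X := by
    have h7 := (abs_im_le a b c d z).trans h3
    have h8 : z.im * |2 * c * z.re + (d - a)| ≤ z.im * (ε * X) := by
      refine h7.trans ?_
      have : ε * Real.sqrt (D : ℝ) ≤ ε * X := by gcongr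
      nlinarith
    exact le_of_mul_le_mul_left h8 hy
  have hcx : |(c : ℝ) * z.re| ≤ X := by
    rw [abs_mul]
    have h9 : |(c : ℝ)| ≤ 2 * X := abs_le.2 ⟨hc.1, hc.2⟩
    calc |(c : ℝ)| * |z.re| ≤ (2 * X) * (1 / 2) := by gcongr
      _ = X := by ring
  have hcx' := abs_le.1 hcx
  have hlin' := abs_le.1 hlin
  have he1 : -(3 * X : ℝ) ≤ d - a := by linarith
  have he2 : (d - a : ℝ) ≤ 3 * X := by linarith
  have heZ : -(3 * X : ℤ) ≤ d - a ∧ d - a ≤ 3 * X := by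
    constructor
    · exact_mod_cast he1
    · exact_mod_cast he2
  by_cases hc0 : c = 0
  · left
    have hda : a = d := by
      rw [hc0] at hlin'
      simp only [Int.cast_zero, mul_zero, zero_mul, zero_add] at hlin'
      have k1 : (d - a : ℝ) < 1 := by linarith
      have k2 : (-1 : ℝ) < d - a := by linarith
      have k3 : d - a < 1 := by exact_mod_cast k1
      have k4 : -1 < d - a := by exact_mod_cast k2
      omega
    have hb0 : b ≠ 0 := fun hb0 => h4 hc0 hb0 hda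
    have hb1 : (1 : ℝ) ≤ |(b : ℝ)| := by exact_mod_cast Int.one_le_abs hb0
    have hQb : ‖Qf a b c d z‖ = |(b : ℝ)| := by
      rw [Qf, hc0, hda]
      simp
    rw [hQb] at h3
    rw [div_le_iff₀ (by positivity)]
    have : ε * Real.sqrt (D : ℝ) * z.im ≤ ε * X * z.im := by gcongr
    linarith
  · right
    refine ⟨c, Finset.mem_Icc.2 hcZ, d - a, Finset.mem_Icc.2 heZ, ?_⟩
    have hcr : (c : ℝ) ≠ 0 := by exact_mod_cast hc0
    have hc1 : (1 : ℝ) ≤ |(c : ℝ)| := by exact_mod_cast Int.one_le_abs hc0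
    have e : z.re + ((d - a : ℤ) : ℝ) / (2 * c) = (2 * c * z.re + (d - a)) / (2 * c) := by
      push_cast
      field_simp
    rw [e, abs_div, div_le_iff₀ (by positivity), abs_mul, abs_two]
    have : 0 ≤ ε * X := by positivity
    nlinarith

theorem bad_meas {ε : ℝ} {X : ℕ} (hX : 1 ≤ X) (hε0 : 0 < ε) (hε : ε * X ≤ 1 / 2) :
    (volume : Measure ℍ) {z : ℍ | z ∈ (𝒟 : Set ℍ) ∧ ¬ Good ε X z} ≤ ENNReal.ofReal (45 * X ^ 3 * ε) := by
  have hXr : (1 : ℝ) ≤ X := by exact_mod_cast hX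
  have hεX : 0 < ε * X := by positivity
  set I := Finset.Icc (-(2 * X : ℤ)) (2 * X) ×ˢ Finset.Icc (-(3 * X : ℤ)) (3 * X) with hI
  have hsub : {z : ℍ | z ∈ (𝒟 : Set ℍ) ∧ ¬ Good ε X z} ⊆
      {z : ℍ | z.re ∈ Icc (-(1 / 2 : ℝ)) (1 / 2) ∧ 1 / (ε * X) ≤ z.im} ∪
      ⋃ p ∈ I, {z : ℍ | z.re ∈ Icc (-((p.2 : ℝ) / (2 * p.1)) - ε * X / 2) (-((p.2 : ℝ) / (2 * p.1)) + ε * X / 2) ∧
        4 / 5 ≤ z.im} := by
    rintro z ⟨hz, hb⟩
    rcases bad_cases hX hε0 hε hz hb with h | ⟨c, hc, e, he, h⟩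
    · left
      exact ⟨abs_le.1 (fd_bounds hz).2, h⟩
    · right
      rw [mem_iUnion₂]
      refine ⟨(c, e), Finset.mem_product.2 ⟨hc, he⟩, ?_, fd_im hz⟩
      have := abs_le.1 h
      simp only [mem_Icc]
      constructor <;> linarith
  have hcard : I.card = (4 * X + 1) * (6 * X + 1) := by
    rw [hI, Finset.card_product, Int.card_Icc, Int.card_Icc]
    congr 1 <;> omega
  calc (volume : Measure ℍ) {z : ℍ | z ∈ (𝒟 : Set ℍ) ∧ ¬ Good ε X z} ≤ _ := measure_mono hsub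
    _ ≤ (volume : Measure ℍ) {z : ℍ | z.re ∈ Icc (-(1 / 2 : ℝ)) (1 / 2) ∧ 1 / (ε * X) ≤ z.im} +
        (volume : Measure ℍ) (⋃ p ∈ I, {z : ℍ | z.re ∈ Icc (-((p.2 : ℝ) / (2 * p.1)) - ε * X / 2)
          (-((p.2 : ℝ) / (2 * p.1)) + ε * X / 2) ∧ 4 / 5 ≤ z.im}) := measure_union_le _ _
    _ ≤ ENNReal.ofReal (ε * X) + ∑ p ∈ I, ENNReal.ofReal (5 / 4 * (ε * X)) := by
        refine add_le_add ?_ ((measure_biUnion_finset_le _ _).trans (Finset.sum_le_sum fun p _ => ?_))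
        · refine (vol_strip _ _ (by positivity)).trans ?_
          rw [← ENNReal.ofReal_mul (by norm_num)]
          apply ENNReal.ofReal_le_ofReal
          rw [one_div_one_div]
          linarith
        · refine (vol_strip _ _ (by norm_num)).trans ?_
          rw [← ENNReal.ofReal_mul (by linarith)]
          apply ENNReal.ofReal_le_ofReal
          norm_num
          linarith
    _ = ENNReal.ofReal (ε * X + ((4 * X + 1) * (6 * X + 1) : ℕ) * (5 / 4 * (ε * X))) := by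
        rw [Finset.sum_const, hcard, nsmul_eq_mul, ENNReal.ofReal_add (by positivity) (by positivity),
          ENNReal.ofReal_mul (p := (((4 * X + 1) * (6 * X + 1) : ℕ) : ℝ)) (by positivity),
          ENNReal.ofReal_natCast]
    _ ≤ _ := by
        apply ENNReal.ofReal_le_ofReal
        push_cast
        have h1 : ((4 * X + 1) * (6 * X + 1) : ℝ) ≤ 35 * X ^ 2 := by nlinarith
        have h2 : (1 : ℝ) ≤ X ^ 2 := by nlinarith
        have h3 : 1 + ((4 * X + 1) * (6 * X + 1) : ℝ) * (5 / 4) ≤ 45 * X ^ 2 := by nlinarith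
        calc ε * X + (4 * X + 1) * (6 * X + 1) * (5 / 4 * (ε * X)) =
            (1 + ((4 * X + 1) * (6 * X + 1) : ℝ) * (5 / 4)) * (ε * X) := by ring
          _ ≤ (45 * X ^ 2) * (ε * X) := by gcongr
          _ = 45 * X ^ 3 * ε := by ring

end Pool.Agent.T2H31
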