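import Pool.Agent.T2H31.Good0

/-! The measure of the exceptional set for `Γ₀(N)`. -/

set_option autoImplicit false

namespace Pool.Agent.T2H31

open Complex MeasureTheory Set Function UpperHalfPlane ModularGroup
open scoped ENNReal NNReal MatrixGroups Modular

theorem conj_alg {a b c d p q r s z : ℂ} (h : r * z + s ≠ 0) :
    c * ((p * z + q) / (r * z + s)) ^ 2 + (d - a) * ((p * z + q) / (r * z + s)) - b =
      (((-r * a + p * c) * p + (-r * b + p * d) * r) * z ^ 2 +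
        (((-r * a + p * c) * q + (-r * b + p * d) * s) - ((s * a - q * c) * p + (s * b - q * d) * r)) * z -
        ((s * a - q * c) * q + (s * b - q * d) * s)) / (r * z + s) ^ 2 := by
  rw [eq_div_iff (pow_ne_zero 2 h), sub_mul, add_mul, div_pow, mul_div_assoc', div_mul_cancel₀ _ (pow_ne_zero 2 h)]
  have e : (d - a) * ((p * z + q) / (r * z + s)) * (r * z + s) ^ 2 = (d - a) * (p * z + q) * (r * z + s) := by
    rw [sq, mul_assoc, ← mul_assoc ((p * z + q) / (r * z + s)), div_mul_cancel₀ _ h]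
    ring
  rw [e]
  ring

/-- conjugation of forms -/
theorem Qf_conj (δ : SL(2, ℤ)) (a b c d : ℤ) (z : ℍ) :
    ‖Qf a b c d ((δ • z : ℍ) : ℂ)‖ * z.im =
      ‖Qf ((δ 1 1 * a - δ 0 1 * c) * δ 0 0 + (δ 1 1 * b - δ 0 1 * d) * δ 1 0)
        ((δ 1 1 * a - δ 0 1 * c) * δ 0 1 + (δ 1 1 * b - δ 0 1 * d) * δ 1 1)
        ((-δ 1 0 * a + δ 0 0 * c) * δ 0 0 + (-δ 1 0 * b + δ 0 0 * d) * δ 1 0)
        ((-δ 1 0 * a + δ 0 0 * c) * δ 0 1 + (-δ 1 0 * b + δ 0 0 * d) * δ 1 1) z‖ * (δ • z : ℍ).im := by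
  have hne : ((δ 1 0 : ℤ) : ℂ) * z + (δ 1 1 : ℤ) ≠ 0 := denom_ne δ z.im_pos
  have hn0 : ‖((δ 1 0 : ℤ) : ℂ) * z + (δ 1 1 : ℤ)‖ ≠ 0 := norm_ne_zero_iff.2 hne
  have e : Qf a b c d ((δ • z : ℍ) : ℂ) =
      Qf ((δ 1 1 * a - δ 0 1 * c) * δ 0 0 + (δ 1 1 * b - δ 0 1 * d) * δ 1 0)
        ((δ 1 1 * a - δ 0 1 * c) * δ 0 1 + (δ 1 1 * b - δ 0 1 * d) * δ 1 1)
        ((-δ 1 0 * a + δ 0 0 * c) * δ 0 0 + (-δ 1 0 * b + δ 0 0 * d) * δ 1 0)
        ((-δ 1 0 * a + δ 0 0 * c) * δ 0 1 + (-δ 1 0 * b + δ 0 0 * d) * δ 1 1) z /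
        (((δ 1 0 : ℤ) : ℂ) * z + (δ 1 1 : ℤ)) ^ 2 := by
    rw [coe_smul]
    simp only [Qf]
    push_cast
    exact conj_alg hne
  rw [e, norm_div, norm_pow, im_smul']
  field_simp

theorem bad_conj {N X : ℕ} {ε : ℝ} {δ : SL(2, ℤ)} {v : ℍ} (h : ¬ GoodN N ε X (δ • v)) :
    ∃ a b c d : ℤ, (N : ℤ) ∣ (δ 1 1) ^ 2 * c + (δ 1 0) * (δ 1 1) * (a - d) - (δ 1 0) ^ 2 * b ∧
      1 ≤ a * d - b * c ∧ a * d - b * c ≤ X ^ 2 ∧
      ‖Qf a b c d v‖ ≤ ε * Real.sqrt ((a * d - b * c : ℤ) : ℝ) * v.im ∧ ¬ (c = 0 ∧ b = 0 ∧ a = d) := by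
  rw [GoodN] at h
  push Not at h
  obtain ⟨a, b, c, d, h0, h1, h2, h3, h4⟩ := h
  have hdet := δ.det_coe
  rw [Matrix.det_fin_two] at hdet
  set p := δ 0 0 with hp
  set q := δ 0 1 with hq
  set r := δ 1 0 with hr
  set s := δ 1 1 with hs
  have hdet2 : ((s * a - q * c) * p + (s * b - q * d) * r) * ((-r * a + p * c) * q + (-r * b + p * d) * s) -
      ((s * a - q * c) * q + (s * b - q * d) * s) * ((-r * a + p * c) * p + (-r * b + p * d) * r) =
      a * d - b * c := by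
    have : ((s * a - q * c) * p + (s * b - q * d) * r) * ((-r * a + p * c) * q + (-r * b + p * d) * s) -
      ((s * a - q * c) * q + (s * b - q * d) * s) * ((-r * a + p * c) * p + (-r * b + p * d) * r) =
      (a * d - b * c) * (p * s - q * r) ^ 2 := by ring
    rw [this, hdet]
    ring
  refine ⟨(s * a - q * c) * p + (s * b - q * d) * r, (s * a - q * c) * q + (s * b - q * d) * s,
    (-r * a + p * c) * p + (-r * b + p * d) * r, (-r * a + p * c) * q + (-r * b + p * d) * s, ?_, ?_, ?_, ?_, ?_⟩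
  · have e : s ^ 2 * ((-r * a + p * c) * p + (-r * b + p * d) * r) +
        r * s * ((s * a - q * c) * p + (s * b - q * d) * r - ((-r * a + p * c) * q + (-r * b + p * d) * s)) -
        r ^ 2 * ((s * a - q * c) * q + (s * b - q * d) * s) = c * (p * s - q * r) ^ 2 := by ring
    rw [e, hdet]
    simpa using h0
  · rw [hdet2]; exact h1
  · rw [hdet2]; exact h2
  · rw [hdet2]
    have hc := Qf_conj δ a b c d v
    have hv := v.im_pos
    have hδv := (δ • v).im_pos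
    have h5 : ‖Qf a b c d ((δ • v : ℍ) : ℂ)‖ * v.im ≤
        ε * Real.sqrt ((a * d - b * c : ℤ) : ℝ) * (δ • v).im * v.im := by gcongr
    rw [hc] at h5
    have h6 : ‖Qf ((s * a - q * c) * p + (s * b - q * d) * r) ((s * a - q * c) * q + (s * b - q * d) * s)
        ((-r * a + p * c) * p + (-r * b + p * d) * r) ((-r * a + p * c) * q + (-r * b + p * d) * s) v‖ *
        (δ • v : ℍ).im ≤ (ε * Real.sqrt ((a * d - b * c : ℤ) : ℝ) * v.im) * (δ • v : ℍ).im := by
      refine h5.trans (le_of_eq ?_)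
      ring
    exact le_of_mul_le_mul_right h6 hδv
  · rintro ⟨k1, k2, k3⟩
    -- the conjugate of a scalar is a scalar
    have e1 : c = 0 := by
      have : c * (p * s - q * r) ^ 2 = s ^ 2 * ((-r * a + p * c) * p + (-r * b + p * d) * r) +
        r * s * (((s * a - q * c) * p + (s * b - q * d) * r) - ((-r * a + p * c) * q + (-r * b + p * d) * s)) -
        r ^ 2 * ((s * a - q * c) * q + (s * b - q * d) * s) := by ring
      rw [hdet, k1, k2, k3] at this
      simpa using this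
    have e2 : b = 0 := by
      have : b * (p * s - q * r) ^ 2 = -q ^ 2 * ((-r * a + p * c) * p + (-r * b + p * d) * r) -
        p * q * (((s * a - q * c) * p + (s * b - q * d) * r) - ((-r * a + p * c) * q + (-r * b + p * d) * s)) +
        p ^ 2 * ((s * a - q * c) * q + (s * b - q * d) * s) := by ring
      rw [hdet, k1, k2, k3] at this
      simpa using this
    have e3 : a = d := by
      have : (a - d) * (p * s - q * r) ^ 2 = (p * s + q * r) *
        (((s * a - q * c) * p + (s * b - q * d) * r) - ((-r * a + p * c) * q + (-r * b + p * d) * s)) +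
        2 * q * s * ((-r * a + p * c) * p + (-r * b + p * d) * r) -
        2 * p * r * ((s * a - q * c) * q + (s * b - q * d) * s) := by ring
      rw [hdet, k1, k2, k3] at this
      have h7 : a - d = 0 := by simpa using this
      linarith
    exact h4 e1 e2 e3

/-- the entries of a matrix which nearly fixes a point of the fundamental domain -/
theorem near_cases {ε : ℝ} {X : ℕ} (hX : 1 ≤ X) (hε0 : 0 < ε) (hε : ε * X ≤ 1 / 2) {z : ℍ}
    (hz : z ∈ (𝒟 : Set ℍ)) {a b c d : ℤ} (h1 : 1 ≤ a * d - b * c) (h2 : a * d - b * c ≤ X ^ 2)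
    (h3 : ‖Qf a b c d z‖ ≤ ε * Real.sqrt ((a * d - b * c : ℤ) : ℝ) * z.im) :
    |2 * c * z.re + (d - a)| ≤ ε * X ∧ c ∈ Finset.Icc (-(2 * X : ℤ)) (2 * X) ∧
      (d - a) ∈ Finset.Icc (-(3 * X : ℤ)) (3 * X) ∧
      (c = 0 → a = d ∧ |(b : ℝ)| ≤ ε * X * z.im) ∧
      (c ≠ 0 → b ∈ Finset.Icc (-(7 * X ^ 2 : ℤ)) (7 * X ^ 2)) := by
  have hy := z.im_pos
  obtain ⟨hy2, hx⟩ := fd_bounds hz
  have hXr : (1 : ℝ) ≤ X := by exact_mod_cast hX
  have hε1 : ε ≤ 1 / 2 := by nlinarith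
  set D : ℤ := a * d - b * c with hD
  have hD1 : (1 : ℝ) ≤ D := by exact_mod_cast h1
  have hD2 : (D : ℝ) ≤ (X : ℝ) ^ 2 := by exact_mod_cast h2
  have hsD : Real.sqrt (D : ℝ) ≤ X := by
    rw [Real.sqrt_le_left (by positivity)]
    exact hD2
  have hsD2 : Real.sqrt (D : ℝ) ^ 2 = D := Real.sq_sqrt (by linarith)
  have hsD0 : 0 ≤ Real.sqrt (D : ℝ) := Real.sqrt_nonneg _
  have hQn := norm_nonneg (Qf a b c d z)
  have e1 := entries_sq a b c d z
  have hD' : (a * d - b * c : ℝ) = D := by rw [hD]; push_cast; ring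
  rw [hD'] at e1
  have hQ1 : ‖Qf a b c d z‖ ≤ ε * X * z.im := by
    refine h3.trans ?_
    gcongr
  have hQ2 : ‖Qf a b c d z‖ ^ 2 ≤ z.im ^ 2 * D := by
    have : ‖Qf a b c d z‖ ≤ Real.sqrt (D : ℝ) * z.im := by
      refine h3.trans ?_
      have : ε * Real.sqrt (D : ℝ) ≤ 1 * Real.sqrt (D : ℝ) := by gcongr; linarith
      nlinarith
    calc ‖Qf a b c d z‖ ^ 2 ≤ (Real.sqrt (D : ℝ) * z.im) ^ 2 := by gcongr
      _ = z.im ^ 2 * D := by rw [mul_pow, hsD2]; ring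
  have hcy : (c * z.im) ^ 2 ≤ 3 * D := by
    have h6 : z.im ^ 2 * (c * z.im) ^ 2 ≤ z.im ^ 2 * (3 * D) := by
      have : 0 ≤ z.im ^ 2 * ((c * z.re + d) ^ 2 + (a - c * z.re) ^ 2) := by positivity
      nlinarith
    exact le_of_mul_le_mul_left h6 (by positivity)
  have hcy2 : |(c : ℝ) * z.im| ≤ 2 * X := by
    apply abs_le_of_sq_le_sq
    · nlinarith
    · positivity
  have hc2 : (c : ℝ) ^ 2 ≤ (2 * X) ^ 2 := by
    have : (c : ℝ) ^ 2 * (3 / 4) ≤ 3 * X ^ 2 := by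
      calc (c : ℝ) ^ 2 * (3 / 4) ≤ (c : ℝ) ^ 2 * z.im ^ 2 := by gcongr
        _ = (c * z.im) ^ 2 := by ring
        _ ≤ 3 * D := hcy
        _ ≤ 3 * X ^ 2 := by linarith
    nlinarith
  have hc := abs_le.1 (abs_le_of_sq_le_sq hc2 (by positivity))
  have hcZ : -(2 * X : ℤ) ≤ c ∧ c ≤ 2 * X := by
    constructor
    · exact_mod_cast hc.1
    · exact_mod_cast hc.2
  have hlin : |2 * c * z.re + (d - a)| ≤ ε * X := by
    have h7 := (abs_im_le a b c d z).trans h3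
    have h8 : z.im * |2 * c * z.re + (d - a)| ≤ z.im * (ε * X) := by
      refine h7.trans ?_
      have : ε * Real.sqrt (D : ℝ) ≤ ε * X := by gcongr
      nlinarith
    exact le_of_mul_le_mul_left h8 hy
  have h9 : |(c : ℝ)| ≤ 2 * X := abs_le.2 ⟨hc.1, hc.2⟩
  have hcx : |(c : ℝ) * z.re| ≤ X := by
    rw [abs_mul]
    calc |(c : ℝ)| * |z.re| ≤ (2 * X) * (1 / 2) := by gcongr
      _ = X := by ring
  have hcx' := abs_le.1 hcx
  have hlin' := abs_le.1 hlin
  have he1 : -(3 * X : ℝ) ≤ d - a := by linarith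
  have he2 : (d - a : ℝ) ≤ 3 * X := by linarith
  have heZ : -(3 * X : ℤ) ≤ d - a ∧ d - a ≤ 3 * X := by
    constructor
    · exact_mod_cast he1
    · exact_mod_cast he2
  refine ⟨hlin, Finset.mem_Icc.2 hcZ, Finset.mem_Icc.2 heZ, ?_, ?_⟩
  · intro hc0
    have hda : a = d := by
      rw [hc0] at hlin'
      simp only [Int.cast_zero, mul_zero, zero_mul, zero_add] at hlin'
      have k1 : (d - a : ℝ) < 1 := by linarith
      have k2 : (-1 : ℝ) < d - a := by linarith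
      have k3 : d - a < 1 := by exact_mod_cast k1
      have k4 : -1 < d - a := by exact_mod_cast k2
      omega
    refine ⟨hda, ?_⟩
    have hQb : ‖Qf a b c d z‖ = |(b : ℝ)| := by
      rw [Qf, hc0, hda]
      simp
    rw [← hQb]
    exact hQ1
  · intro hc0
    have hc1 : (1 : ℝ) ≤ |(c : ℝ)| := by exact_mod_cast Int.one_le_abs hc0
    have hy3 : z.im ≤ 2 * X := by
      rw [abs_mul, abs_of_pos hy] at hcy2
      calc z.im = 1 * z.im := (one_mul _).symm
        _ ≤ |(c : ℝ)| * z.im := by gcongr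
        _ ≤ 2 * X := hcy2
    have hre := (abs_re_le a b c d z).trans hQ1
    have t1 : ε * X * z.im ≤ X ^ 2 := by
      calc ε * X * z.im ≤ 1 / 2 * (2 * X) := by gcongr
        _ = X * 1 := by ring
        _ ≤ X * X := by gcongr
        _ = X ^ 2 := (sq _).symm
    have t2 : |(c : ℝ) * z.im ^ 2| ≤ 4 * X ^ 2 := by
      have : (c : ℝ) * z.im ^ 2 = (c * z.im) * z.im := by ring
      rw [this, abs_mul, abs_of_pos hy]
      calc |(c : ℝ) * z.im| * z.im ≤ (2 * X) * (2 * X) := by gcongr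
        _ = 4 * X ^ 2 := by ring
    have t3 : |(c : ℝ) * z.re ^ 2| ≤ X ^ 2 / 2 := by
      have : (c : ℝ) * z.re ^ 2 = (c * z.re) * z.re := by ring
      rw [this, abs_mul]
      calc |(c : ℝ) * z.re| * |z.re| ≤ X * (1 / 2) := by gcongr
        _ ≤ X * (X / 2) := by gcongr
        _ = X ^ 2 / 2 := by ring
    have t4 : |((d : ℝ) - a) * z.re| ≤ 3 * X ^ 2 / 2 := by
      rw [abs_mul]
      calc |(d : ℝ) - a| * |z.re| ≤ (3 * X) * (1 / 2) := by
            gcongr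
            exact abs_le.2 ⟨he1, he2⟩
        _ ≤ (3 * X) * (X / 2) := by gcongr
        _ = 3 * X ^ 2 / 2 := by ring
    have u2 := abs_le.1 t2
    have u3 := abs_le.1 t3
    have u4 := abs_le.1 t4
    have u5 := abs_le.1 (hre.trans t1)
    have e5 : (c : ℝ) * (z.re ^ 2 - z.im ^ 2) = c * z.re ^ 2 - c * z.im ^ 2 := by ring
    rw [e5] at u5
    have b1 : (b : ℝ) ≤ 7 * X ^ 2 := by linarith
    have b2 : -(7 * X ^ 2 : ℝ) ≤ b := by linarith
    rw [Finset.mem_Icc]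
    constructor
    · exact_mod_cast b2
    · exact_mod_cast b1

/-- a quadratic congruence modulo a prime has at most two solutions -/
theorem roots_le {N : ℕ} (hN : N.Prime) {c e b : ℤ} (hc : ¬ (N : ℤ) ∣ c) :
    ((Finset.univ : Finset (Fin N)).filter fun j : Fin N =>
      (N : ℤ) ∣ ((j : ℕ) : ℤ) ^ 2 * c - ((j : ℕ) : ℤ) * e - b).card ≤ 2 := by
  by_contra hlt
  push Not at hlt
  obtain ⟨x, y, z, hx, hy, hz, hxy, hxz, hyz⟩ := Finset.two_lt_card_iff.1 hlt
  rw [Finset.mem_filter] at hx hy hz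
  have hNp : Prime (N : ℤ) := Nat.prime_iff_prime_int.1 hN
  have hdiff : ∀ u v : Fin N, u ≠ v → ¬ (N : ℤ) ∣ ((u : ℕ) : ℤ) - ((v : ℕ) : ℤ) := by
    intro u v huv h
    apply huv
    ext
    have h1 : (((u : ℕ) : ℤ) - ((v : ℕ) : ℤ)) = 0 := by
      apply Int.eq_zero_of_abs_lt_dvd h
      have := u.2
      have := v.2
      rw [abs_lt]
      constructor <;> omega
    omega
  have hs : ∀ u v : Fin N, u ≠ v → (N : ℤ) ∣ ((u : ℕ) : ℤ) ^ 2 * c - ((u : ℕ) : ℤ) * e - b →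
      (N : ℤ) ∣ ((v : ℕ) : ℤ) ^ 2 * c - ((v : ℕ) : ℤ) * e - b →
      (N : ℤ) ∣ (((u : ℕ) : ℤ) + (v : ℕ)) * c - e := by
    intro u v huv h1 h2
    have h3 := dvd_sub h1 h2
    have e1 : ((u : ℕ) : ℤ) ^ 2 * c - ((u : ℕ) : ℤ) * e - b - (((v : ℕ) : ℤ) ^ 2 * c - ((v : ℕ) : ℤ) * e - b) =
        (((u : ℕ) : ℤ) - ((v : ℕ) : ℤ)) * ((((u : ℕ) : ℤ) + (v : ℕ)) * c - e) := by ring
    rw [e1] at h3
    exact (hNp.dvd_or_dvd h3).resolve_left (hdiff u v huv)
  have k1 := hs x y hxy hx.2 hy.2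
  have k2 := hs x z hxz hx.2 hz.2
  have k3 := dvd_sub k1 k2
  have e2 : (((x : ℕ) : ℤ) + (y : ℕ)) * c - e - ((((x : ℕ) : ℤ) + (z : ℕ)) * c - e) =
      (((y : ℕ) : ℤ) - ((z : ℕ) : ℤ)) * c := by ring
  rw [e2] at k3
  rcases hNp.dvd_or_dvd k3 with h | h
  · exact hdiff y z hyz h
  · exact hc h

theorem good_smul {ε : ℝ} {X : ℕ} (δ : SL(2, ℤ)) {v : ℍ} (h : Good ε X v) : Good ε X (δ • v) := by
  have h0 : GoodN 1 ε X v := fun a b c d _ h1 h2 h3 => h a b c d h1 h2 h3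
  have h1 : GoodN 1 ε X (δ • v) := by
    by_contra hb
    obtain ⟨a, b, c, d, -, h1, h2, h3, h4⟩ := bad_conj hb
    exact h4 (h a b c d h1 h2 h3)
  exact fun a b c d k1 k2 k3 => h1 a b c d (by simp) k1 k2 k3

theorem bad_meas0 {N : ℕ} (hN : N.Prime) {ε : ℝ} {X : ℕ} (hX : 1 ≤ X) (hε0 : 0 < ε) (hε : ε * X ≤ 1 / 2) :
    ∑ r : Option (Fin N), (volume : Measure ℍ) {v : ℍ | v ∈ (𝒟 : Set ℍ) ∧ ¬ GoodN N ε X (rep N r • v)} ≤
      ENNReal.ofReal (1400 * X ^ 5 * ε) := by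
  have hXr : (1 : ℝ) ≤ X := by exact_mod_cast hX
  have hNr : (0 : ℝ) < N := by exact_mod_cast hN.pos
  have hεX : 0 < ε * X := by positivity
  by_cases hNX : N ≤ 2 * X
  · -- small level
    have h1 : ∀ r : Option (Fin N), (volume : Measure ℍ) {v : ℍ | v ∈ (𝒟 : Set ℍ) ∧ ¬ GoodN N ε X (rep N r • v)} ≤
        ENNReal.ofReal (45 * X ^ 3 * ε) := by
      intro r
      refine (measure_mono ?_).trans (bad_meas hX hε0 hε)
      rintro v ⟨hv, hb⟩
      refine ⟨hv, fun hg => hb ?_⟩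
      have := good_smul (rep N r) hg
      exact fun a b c d _ k1 k2 k3 => this a b c d k1 k2 k3
    refine (Finset.sum_le_sum fun r _ => h1 r).trans ?_
    rw [Finset.sum_const, Finset.card_univ, Fintype.card_option, Fintype.card_fin, nsmul_eq_mul,
      ← ENNReal.ofReal_natCast, ← ENNReal.ofReal_mul (by positivity)]
    apply ENNReal.ofReal_le_ofReal
    have h2 : ((N + 1 : ℕ) : ℝ) ≤ 3 * X := by
      have : N + 1 ≤ 3 * X := by omega
      exact_mod_cast this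
    have h3 : (X : ℝ) ^ 4 ≤ X ^ 5 := pow_le_pow_right₀ hXr (by norm_num)
    calc ((N + 1 : ℕ) : ℝ) * (45 * X ^ 3 * ε) ≤ (3 * X) * (45 * X ^ 3 * ε) := by gcongr
      _ = 135 * X ^ 4 * ε := by ring
      _ ≤ 135 * X ^ 5 * ε := by gcongr
      _ ≤ 1400 * X ^ 5 * ε := by gcongr; norm_num
  · push Not at hNX
    set Bx := (Finset.Icc (-(2 * X : ℤ)) (2 * X)) ×ˢ ((Finset.Icc (-(3 * X : ℤ)) (3 * X)) ×ˢ
      (Finset.Icc (-(7 * X ^ 2 : ℤ)) (7 * X ^ 2))) with hBx
    have hndvd : ∀ c ∈ Finset.Icc (-(2 * X : ℤ)) (2 * X), (N : ℤ) ∣ c → c = 0 := by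
      intro c hc hdvd
      rw [Finset.mem_Icc] at hc
      apply Int.eq_zero_of_abs_lt_dvd hdvd
      rw [abs_lt]
      constructor <;> omega
    -- the cusp at infinity
    have hnone : (volume : Measure ℍ) {v : ℍ | v ∈ (𝒟 : Set ℍ) ∧ ¬ GoodN N ε X (rep N none • v)} ≤
        ENNReal.ofReal (ε * X) := by
      have hsub : {v : ℍ | v ∈ (𝒟 : Set ℍ) ∧ ¬ GoodN N ε X (rep N none • v)} ⊆
          {z : ℍ | z.re ∈ Icc (-(1 / 2 : ℝ)) (1 / 2) ∧ 1 / (ε * X) ≤ z.im} := by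
        rintro v ⟨hv, hb⟩
        obtain ⟨a, b, c, d, h0, h1, h2, h3, h4⟩ := bad_conj hb
        obtain ⟨k1, k2, k3, k4, k5⟩ := near_cases hX hε0 hε hv h1 h2 h3
        have h0' : (N : ℤ) ∣ c := by simpa [rep] using h0
        have hc0 := hndvd c k2 h0'
        obtain ⟨k6, k7⟩ := k4 hc0
        have hb0 : b ≠ 0 := fun h => h4 ⟨hc0, h, k6⟩
        have hb1 : (1 : ℝ) ≤ |(b : ℝ)| := by exact_mod_cast Int.one_le_abs hb0
        refine ⟨abs_le.1 (fd_bounds hv).2, ?_⟩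
        rw [div_le_iff₀ hεX]
        linarith
      refine (measure_mono hsub).trans ((vol_strip _ _ (by positivity)).trans ?_)
      rw [← ENNReal.ofReal_mul (by norm_num)]
      apply ENNReal.ofReal_le_ofReal
      rw [one_div_one_div]
      linarith
    have hsome : ∀ j : Fin N, (volume : Measure ℍ) {v : ℍ | v ∈ (𝒟 : Set ℍ) ∧
        ¬ GoodN N ε X (rep N (some j) • v)} ≤ ENNReal.ofReal (ε * X / N) +
        ∑ t ∈ Bx, if (¬ (N : ℤ) ∣ t.1) ∧ (N : ℤ) ∣ ((j : ℕ) : ℤ) ^ 2 * t.1 - ((j : ℕ) : ℤ) * t.2.1 - t.2.2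
          then ENNReal.ofReal (5 / 4 * (ε * X)) else 0 := by
      intro j
      have hsub : {v : ℍ | v ∈ (𝒟 : Set ℍ) ∧ ¬ GoodN N ε X (rep N (some j) • v)} ⊆
          {z : ℍ | z.re ∈ Icc (-(1 / 2 : ℝ)) (1 / 2) ∧ N / (ε * X) ≤ z.im} ∪
          ⋃ t ∈ Bx.filter fun t => (¬ (N : ℤ) ∣ t.1) ∧
            (N : ℤ) ∣ ((j : ℕ) : ℤ) ^ 2 * t.1 - ((j : ℕ) : ℤ) * t.2.1 - t.2.2,
            {z : ℍ | z.re ∈ Icc (-((t.2.1 : ℝ) / (2 * t.1)) - ε * X / 2) (-((t.2.1 : ℝ) / (2 * t.1)) + ε * X / 2) ∧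
              4 / 5 ≤ z.im} := by
        rintro v ⟨hv, hb⟩
        obtain ⟨a, b, c, d, h0, h1, h2, h3, h4⟩ := bad_conj hb
        obtain ⟨k1, k2, k3, k4, k5⟩ := near_cases hX hε0 hε hv h1 h2 h3
        have hvy := v.im_pos
        have h0' : (N : ℤ) ∣ ((j : ℕ) : ℤ) ^ 2 * c - ((j : ℕ) : ℤ) * (d - a) - b := by
          rw [rep_some] at h0
          simp at h0
          have e : ((j : ℕ) : ℤ) ^ 2 * c - ((j : ℕ) : ℤ) * (d - a) - b =
              ((j : ℕ) : ℤ) ^ 2 * c + ((j : ℕ) : ℤ) * (a - d) - b := by ring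
          rw [e]
          exact h0
        by_cases hc0 : c = 0
        · left
          obtain ⟨k6, k7⟩ := k4 hc0
          have hb0 : b ≠ 0 := fun h => h4 ⟨hc0, h, k6⟩
          rw [hc0, k6] at h0'
          simp at h0'
          have hbN : (N : ℤ) ≤ |b| := Int.le_of_dvd (abs_pos.2 hb0) ((dvd_abs _ _).2 h0')
          have hbN' : (N : ℝ) ≤ |(b : ℝ)| := by exact_mod_cast hbN
          refine ⟨abs_le.1 (fd_bounds hv).2, ?_⟩
          rw [div_le_iff₀ hεX]
          linarith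
        · right
          rw [mem_iUnion₂]
          refine ⟨(c, d - a, b), ?_, ?_, fd_im hv⟩
          · rw [Finset.mem_filter, hBx, Finset.mem_product, Finset.mem_product]
            exact ⟨⟨k2, k3, k5 hc0⟩, fun h => hc0 (hndvd c k2 h), h0'⟩
          · have hcr : (c : ℝ) ≠ 0 := by exact_mod_cast hc0
            have hc1 : (1 : ℝ) ≤ |(c : ℝ)| := by exact_mod_cast Int.one_le_abs hc0
            have e : v.re + ((d - a : ℤ) : ℝ) / (2 * c) = (2 * c * v.re + (d - a)) / (2 * c) := by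
              push_cast
              field_simp
            have h5 : |v.re + ((d - a : ℤ) : ℝ) / (2 * c)| ≤ ε * X / 2 := by
              rw [e, abs_div, div_le_iff₀ (by positivity), abs_mul, abs_two]
              nlinarith
            have := abs_le.1 h5
            simp only [mem_Icc]
            constructor <;> linarith
      refine (measure_mono hsub).trans ((measure_union_le _ _).trans (add_le_add ?_ ?_))
      · refine (vol_strip _ _ (by positivity)).trans ?_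
        rw [← ENNReal.ofReal_mul (by norm_num)]
        apply ENNReal.ofReal_le_ofReal
        rw [one_div_div]
        linarith
      · rw [← Finset.sum_filter]
        refine (measure_biUnion_finset_le _ _).trans (Finset.sum_le_sum fun t _ => ?_)
        refine (vol_strip _ _ (by norm_num)).trans ?_
        rw [← ENNReal.ofReal_mul (by linarith)]
        apply ENNReal.ofReal_le_ofReal
        norm_num
        linarith
    rw [Fintype.sum_option]
    have hcard : (Bx.card : ℝ) ≤ 525 * X ^ 4 := by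
      rw [hBx, Finset.card_product, Finset.card_product, Int.card_Icc, Int.card_Icc, Int.card_Icc]
      have c1 : (2 * (X : ℤ) + 1 - -(2 * X)).toNat = 4 * X + 1 := by omega
      have c2 : (3 * (X : ℤ) + 1 - -(3 * X)).toNat = 6 * X + 1 := by omega
      have c3 : (7 * (X : ℤ) ^ 2 + 1 - -(7 * X ^ 2)).toNat = 14 * X ^ 2 + 1 := by
        have : (7 * (X : ℤ) ^ 2 + 1 - -(7 * X ^ 2)) = ((14 * X ^ 2 + 1 : ℕ) : ℤ) := by push_cast; ring
        rw [this, Int.toNat_natCast]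
      rw [c1, c2, c3]
      push_cast
      have d1 : (4 * X + 1 : ℝ) ≤ 5 * X := by linarith
      have d2 : (6 * X + 1 : ℝ) ≤ 7 * X := by linarith
      have d3 : (14 * X ^ 2 + 1 : ℝ) ≤ 15 * X ^ 2 := by nlinarith
      calc (4 * (X : ℝ) + 1) * ((6 * (X : ℝ) + 1) * (14 * (X : ℝ) ^ 2 + 1)) ≤
          (5 * (X : ℝ)) * ((7 * (X : ℝ)) * (15 * (X : ℝ) ^ 2)) := by gcongr
        _ = 525 * (X : ℝ) ^ 4 := by ring
    calc (volume : Measure ℍ) {v : ℍ | v ∈ (𝒟 : Set ℍ) ∧ ¬ GoodN N ε X (rep N none • v)} +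
        ∑ j : Fin N, (volume : Measure ℍ) {v : ℍ | v ∈ (𝒟 : Set ℍ) ∧ ¬ GoodN N ε X (rep N (some j) • v)} ≤
        ENNReal.ofReal (ε * X) + ∑ j : Fin N, (ENNReal.ofReal (ε * X / N) +
        ∑ t ∈ Bx, if (¬ (N : ℤ) ∣ t.1) ∧ (N : ℤ) ∣ ((j : ℕ) : ℤ) ^ 2 * t.1 - ((j : ℕ) : ℤ) * t.2.1 - t.2.2
          then ENNReal.ofReal (5 / 4 * (ε * X)) else 0) :=
          add_le_add hnone (Finset.sum_le_sum fun j _ => hsome j)
      _ = ENNReal.ofReal (ε * X) + (N * ENNReal.ofReal (ε * X / N) +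
        ∑ t ∈ Bx, ∑ j : Fin N, if (¬ (N : ℤ) ∣ t.1) ∧
          (N : ℤ) ∣ ((j : ℕ) : ℤ) ^ 2 * t.1 - ((j : ℕ) : ℤ) * t.2.1 - t.2.2
          then ENNReal.ofReal (5 / 4 * (ε * X)) else 0) := by
          rw [Finset.sum_add_distrib, Finset.sum_const, Finset.card_univ, Fintype.card_fin, nsmul_eq_mul,
            Finset.sum_comm]
      _ ≤ ENNReal.ofReal (ε * X) + (ENNReal.ofReal (ε * X) +
        ∑ t ∈ Bx, 2 * ENNReal.ofReal (5 / 4 * (ε * X))) := by
          refine add_le_add le_rfl (add_le_add ?_ (Finset.sum_le_sum fun t _ => ?_))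
          · rw [← ENNReal.ofReal_natCast, ← ENNReal.ofReal_mul (by positivity)]
            apply ENNReal.ofReal_le_ofReal
            field_simp
            exact le_rfl
          · by_cases ht : (N : ℤ) ∣ t.1
            · have : ∀ j : Fin N, (if (¬ (N : ℤ) ∣ t.1) ∧
                (N : ℤ) ∣ ((j : ℕ) : ℤ) ^ 2 * t.1 - ((j : ℕ) : ℤ) * t.2.1 - t.2.2
                then ENNReal.ofReal (5 / 4 * (ε * X)) else 0) = 0 := fun j => if_neg fun h => h.1 ht
              simp_rw [this]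
              simp
            · have h5 := roots_le hN (e := t.2.1) (b := t.2.2) ht
              have : ∀ j : Fin N, (if (¬ (N : ℤ) ∣ t.1) ∧
                (N : ℤ) ∣ ((j : ℕ) : ℤ) ^ 2 * t.1 - ((j : ℕ) : ℤ) * t.2.1 - t.2.2
                then ENNReal.ofReal (5 / 4 * (ε * X)) else 0) =
                if (N : ℤ) ∣ ((j : ℕ) : ℤ) ^ 2 * t.1 - ((j : ℕ) : ℤ) * t.2.1 - t.2.2
                then ENNReal.ofReal (5 / 4 * (ε * X)) else 0 := by
                intro j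
                simp only [ht, not_false_eq_true, true_and]
              simp_rw [this]
              rw [← Finset.sum_filter, Finset.sum_const, nsmul_eq_mul]
              gcongr
              exact_mod_cast h5
      _ = ENNReal.ofReal (ε * X + (ε * X + Bx.card * (2 * (5 / 4 * (ε * X))))) := by
          rw [Finset.sum_const, nsmul_eq_mul, ENNReal.ofReal_add (by positivity) (by positivity),
            ENNReal.ofReal_add (by positivity) (by positivity),
            ENNReal.ofReal_mul (p := (Bx.card : ℝ)) (by positivity),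
            ENNReal.ofReal_mul (p := 2) (by positivity), ENNReal.ofReal_natCast]
          norm_num
      _ ≤ ENNReal.ofReal (1400 * X ^ 5 * ε) := by
          apply ENNReal.ofReal_le_ofReal
          have h6 : (1 : ℝ) ≤ X ^ 4 := one_le_pow₀ hXr
          have h7 : 1 + (1 + (Bx.card : ℝ) * (2 * (5 / 4))) ≤ 1400 * X ^ 4 := by nlinarith
          calc ε * X + (ε * X + (Bx.card : ℝ) * (2 * (5 / 4 * (ε * X)))) =
              (1 + (1 + (Bx.card : ℝ) * (2 * (5 / 4)))) * (ε * X) := by ring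
            _ ≤ (1400 * X ^ 4) * (ε * X) := by gcongr
            _ = 1400 * X ^ 5 * ε := by ring

end Pool.Agent.T2H31
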