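import Pool.Agent.T2H31.Unfold

/-! Hecke points and their multiplicity. -/

set_option autoImplicit false

namespace Pool.Agent.T2H31

open Complex MeasureTheory Set Function UpperHalfPlane ModularGroup
open scoped ENNReal NNReal MatrixGroups Modular

theorem coe_smul (g : SL(2, ℤ)) (z : ℍ) :
    ((g • z : ℍ) : ℂ) = ((g 0 0 : ℤ) * z + (g 0 1 : ℤ)) / ((g 1 0 : ℤ) * z + (g 1 1 : ℤ)) := by
  rw [UpperHalfPlane.specialLinearGroup_apply]
  simp

theorem dist_smul' (g : SL(2, ℤ)) (z w : ℍ) : dist (g • z) (g • w) = dist z w := by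
  have h : ∀ z : ℍ, g • z = (Matrix.SpecialLinearGroup.map (Int.castRingHom ℝ) g : SL(2, ℝ)) • z := by
    intro z
    ext
    rw [coe_smul, UpperHalfPlane.specialLinearGroup_apply]
    simp
  rw [h, h, dist_smul]

theorem im_smul' (g : SL(2, ℤ)) (z : ℍ) :
    (g • z : ℍ).im = z.im / ‖((g 1 0 : ℤ) : ℂ) * z + (g 1 1 : ℤ)‖ ^ 2 := by
  rw [ModularGroup.im_smul_eq_div_normSq, ModularGroup.denom_apply, Complex.normSq_eq_norm_sq]

/-- the point `(a z + b) / d` -/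
noncomputable def hp (q : ℕ × ℕ × ℕ) (z : ℍ) : ℍ := ofComplex ((q.1 * z + q.2.1) / q.2.2)

theorem hp_im_pos {q : ℕ × ℕ × ℕ} (h1 : 0 < q.1) (h2 : 0 < q.2.2) (z : ℍ) :
    0 < (((q.1 : ℂ) * z + q.2.1) / q.2.2).im := by
  have : (((q.1 : ℂ) * z + q.2.1) / q.2.2).im = q.1 * z.im / q.2.2 := by
    rw [Complex.div_natCast_im]
    simp
  rw [this]
  have := z.im_pos
  positivity

theorem coe_hp {q : ℕ × ℕ × ℕ} (h1 : 0 < q.1) (h2 : 0 < q.2.2) (z : ℍ) :
    ((hp q z : ℍ) : ℂ) = (q.1 * z + q.2.1) / q.2.2 := by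
  rw [hp, ofComplex_apply_of_im_pos (hp_im_pos h1 h2 z)]

theorem im_hp {q : ℕ × ℕ × ℕ} (h1 : 0 < q.1) (h2 : 0 < q.2.2) (z : ℍ) :
    (hp q z).im = q.1 * z.im / q.2.2 := by
  rw [← UpperHalfPlane.coe_im, coe_hp h1 h2, Complex.div_natCast_im]
  simp

theorem cont_hp {q : ℕ × ℕ × ℕ} (h1 : 0 < q.1) (h2 : 0 < q.2.2) : Continuous (hp q) := by
  rw [continuous_induced_rng]
  have : (UpperHalfPlane.coe ∘ hp q) = fun z : ℍ => ((q.1 : ℂ) * z + q.2.1) / q.2.2 := by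
    funext z
    exact coe_hp h1 h2 z
  rw [this]
  fun_prop

/-- the binary form attached to an integral matrix -/
def Qf (a b c d : ℤ) (z : ℂ) : ℂ := c * z ^ 2 + (d - a) * z - b

/-- `z` is not nearly fixed by an integral matrix of small determinant -/
def Good (ε : ℝ) (X : ℕ) (z : ℍ) : Prop := ∀ a b c d : ℤ, 1 ≤ a * d - b * c → a * d - b * c ≤ X ^ 2 →
  ‖Qf a b c d z‖ ≤ ε * Real.sqrt ((a * d - b * c : ℤ) : ℝ) * z.im → c = 0 ∧ b = 0 ∧ a = d

theorem sinh_le {x : ℝ} (h0 : 0 ≤ x) (h1 : x ≤ 1) : Real.sinh x ≤ 2 * x := by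
  have h2 : Real.exp x ≤ 1 + x + x ^ 2 := by
    have := Real.abs_exp_sub_one_sub_id_le (x := x) (by rw [abs_of_nonneg h0]; exact h1)
    have := (abs_le.1 this).2
    linarith
  have h3 : 1 - x ≤ Real.exp (-x) := by
    have := Real.add_one_le_exp (-x)
    linarith
  rw [Real.sinh_eq]
  nlinarith

theorem dist_of_EB {u w : ℍ} {ρ : ℝ} (h0 : 0 ≤ ρ) (hρ : ρ ≤ 1 / 2) (h : u ∈ EB w ρ) : dist u w ≤ 2 * ρ := by
  have h1 := dist_le_dist_coe_div_sqrt u w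
  have hu := (im_bounds (z := (u : ℂ)) hρ h).1
  have hw := w.im_pos
  have h2 : w.im / 2 ≤ Real.sqrt (u.im * w.im) := by
    apply Real.le_sqrt_of_sq_le
    rw [UpperHalfPlane.coe_im] at hu
    nlinarith
  refine h1.trans ?_
  rw [div_le_iff₀ (by positivity)]
  have h3 : dist (u : ℂ) (w : ℂ) ≤ ρ * w.im := h
  nlinarith

/-- the key computation: two Hecke points which are close modulo `SL(2, ℤ)` -/
theorem form_small {q q' : ℕ × ℕ × ℕ} (h1 : 0 < q.1) (h2 : 0 < q.2.2) (h1' : 0 < q'.1) (h2' : 0 < q'.2.2)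
    (z : ℍ) (g : SL(2, ℤ)) {ρ : ℝ} (h0 : 0 ≤ ρ) (hρ : ρ ≤ 1 / 2)
    (h : dist (hp q z) (g • hp q' z) ≤ 4 * ρ) :
    ‖Qf (q.2.2 * (g 0 0 * q'.1) - q.2.1 * (g 1 0 * q'.1))
        (q.2.2 * (g 0 0 * q'.2.1 + g 0 1 * q'.2.2) - q.2.1 * (g 1 0 * q'.2.1 + g 1 1 * q'.2.2))
        (q.1 * (g 1 0 * q'.1)) (q.1 * (g 1 0 * q'.2.1 + g 1 1 * q'.2.2)) z‖ ≤
      (8 * ρ) * Real.sqrt ((q.1 * q.2.2 * (q'.1 * q'.2.2) : ℕ) : ℝ) * z.im := by
  have hz := z.im_pos
  obtain ⟨a, b, d⟩ := q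
  obtain ⟨a', b', d'⟩ := q'
  simp only at h1 h2 h1' h2' h ⊢
  have e1 := coe_hp (q := (a, b, d)) h1 h2 z
  have e2 := coe_hp (q := (a', b', d')) h1' h2' z
  have i1 := im_hp (q := (a, b, d)) h1 h2 z
  have i2 := im_hp (q := (a', b', d')) h1' h2' z
  simp only at e1 e2 i1 i2
  have e3 := coe_smul g (hp (a', b', d') z)
  have i3 := im_smul' g (hp (a', b', d') z)
  rw [e2] at e3 i3
  rw [i2] at i3
  have ha : (0 : ℝ) < a := by exact_mod_cast h1
  have hd : (0 : ℝ) < d := by exact_mod_cast h2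
  have ha' : (0 : ℝ) < a' := by exact_mod_cast h1'
  have hd' : (0 : ℝ) < d' := by exact_mod_cast h2'
  have hdc : (d : ℂ) ≠ 0 := by exact_mod_cast h2.ne'
  have hdc' : (d' : ℂ) ≠ 0 := by exact_mod_cast h2'.ne'
  set D : ℂ := (g 1 0 : ℤ) * (a' * z + b') + (g 1 1 : ℤ) * d' with hD
  have hden : ((g 1 0 : ℤ) : ℂ) * ((a' * z + b') / d') + (g 1 1 : ℤ) = D / d' := by
    rw [hD]; field_simp
  have hDne : D / d' ≠ 0 := by
    rw [← hden]
    intro h0
    have h5 := (g • hp (a', b', d') z).im_pos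
    rw [i3, h0] at h5
    simp at h5
  have hD0 : D ≠ 0 := fun h => hDne (by rw [h, zero_div])
  have hnD : 0 < ‖D‖ := norm_pos_iff.2 hD0
  rw [hden] at e3 i3
  -- the distance
  have hs := sinh_half_dist (hp (a, b, d) z) (g • hp (a', b', d') z)
  have hs2 : Real.sinh (dist (hp (a, b, d) z) (g • hp (a', b', d') z) / 2) ≤ 4 * ρ := by
    have h6 : Real.sinh (dist (hp (a, b, d) z) (g • hp (a', b', d') z) / 2) ≤ Real.sinh (2 * ρ) :=
      Real.sinh_le_sinh.2 (by linarith)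
    have h7 := sinh_le (x := 2 * ρ) (by linarith) (by linarith)
    linarith
  have hprod : (hp (a, b, d) z).im * (g • hp (a', b', d') z).im =
      (Real.sqrt ((a * d * (a' * d') : ℕ) : ℝ) * z.im / (d * ‖D‖)) ^ 2 := by
    rw [i1, i3, div_pow, mul_pow, Real.sq_sqrt (by positivity), norm_div, Complex.norm_natCast]
    push_cast
    field_simp
  rw [hprod, Real.sqrt_sq (by positivity)] at hs
  rw [hs, div_le_iff₀ (by positivity), Complex.dist_eq, e1, e3] at hs2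
  have hQ : ((a : ℂ) * z + b) / d - ((g 0 0 : ℤ) * ((a' * z + b') / d') + (g 0 1 : ℤ)) / (D / d') =
      Qf (d * (g 0 0 * a') - b * (g 1 0 * a'))
        (d * (g 0 0 * b' + g 0 1 * d') - b * (g 1 0 * b' + g 1 1 * d'))
        (a * (g 1 0 * a')) (a * (g 1 0 * b' + g 1 1 * d')) z / (d * D) := by
    rw [Qf]
    field_simp
    rw [hD]
    push_cast
    ring
  rw [hQ, norm_div, norm_mul, Complex.norm_natCast, div_le_iff₀ (by positivity)] at hs2
  refine hs2.trans (le_of_eq ?_)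
  field_simp
  ring

end Pool.Agent.T2H31
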