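import Pool.Agent.T2H31.Local
import Pool.Agent.T2H31.Geom

/-! The Laplacian and holomorphic changes of variable. -/

set_option autoImplicit false

namespace Pool.Agent.T2H31

open Complex MeasureTheory Set Function UpperHalfPlane ModularGroup
open scoped ENNReal NNReal MatrixGroups Modular

theorem second_dir {G : ℂ → ℝ} {U : Set ℂ} (hU : IsOpen U) (hG : ContDiffOn ℝ 2 G U) {z : ℂ} (hz : z ∈ U)
    (v : ℂ) : HasDerivAt (fun t : ℝ => fderiv ℝ G (z + t * v) v) (fderiv ℝ (fderiv ℝ G) z v v) 0 := by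
  have h1 : HasFDerivAt (fderiv ℝ G) (fderiv ℝ (fderiv ℝ G) z) (z + (0 : ℝ) * v) := by
    simp only [ofReal_zero, zero_mul, add_zero]
    exact (((hG.fderiv_of_isOpen hU (m := 1) (by norm_num)).contDiffAt
      (hU.mem_nhds hz)).differentiableAt (by norm_num)).hasFDerivAt
  have h2 : HasDerivAt (fun t : ℝ => z + t * v) v 0 := by
    have := ((Complex.ofRealCLM.hasDerivAt (x := (0 : ℝ))).mul_const v).const_add z
    simpa using this
  have h3 := h1.comp_hasDerivAt (0 : ℝ) h2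
  have h4 := h3.clm_apply (hasDerivAt_const (0 : ℝ) v)
  refine h4.congr_deriv ?_
  simp

theorem lapl_comp {F : ℂ → ℝ} {φ : ℂ → ℂ} {U V : Set ℂ} (hU : IsOpen U) (hV : IsOpen V)
    (hφ : DifferentiableOn ℂ φ U) (hF : ContDiffOn ℝ 2 F V) (hmap : MapsTo φ U V) {z : ℂ} (hz : z ∈ U) :
    ContDiffOn ℝ 2 (F ∘ φ) U ∧ lapl (F ∘ φ) z = ‖deriv φ z‖ ^ 2 * lapl F (φ z) := by
  have hφ2 : ContDiffOn ℝ 2 φ U := ((hφ.contDiffOn hU (n := 2))).restrict_scalars ℝ
  have hG : ContDiffOn ℝ 2 (F ∘ φ) U := hF.comp hφ2 hmap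
  refine ⟨hG, ?_⟩
  have hdφ : DifferentiableOn ℂ (deriv φ) U := hφ.deriv hU
  -- the first derivative
  have hfd : ∀ w ∈ U, ∀ v : ℂ, fderiv ℝ (F ∘ φ) w v = fderiv ℝ F (φ w) (deriv φ w * v) := by
    intro w hw v
    have h1 : HasFDerivAt F (fderiv ℝ F (φ w)) (φ w) :=
      ((hF.contDiffAt (hV.mem_nhds (hmap hw))).differentiableAt (by norm_num)).hasFDerivAt
    have h2 : HasDerivAt φ (deriv φ w) w := (hφ.differentiableAt (hU.mem_nhds hw)).hasDerivAt
    have h3 := h2.hasFDerivAt.restrictScalars ℝ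
    have h4 := (h1.comp w h3).fderiv
    rw [h4]
    simp [mul_comm]
  have key : ∀ v : ℂ, fderiv ℝ (fderiv ℝ (F ∘ φ)) z v v =
      fderiv ℝ (fderiv ℝ F) (φ z) (deriv φ z * v) (deriv φ z * v) +
        fderiv ℝ F (φ z) (deriv (deriv φ) z * v * v) := by
    intro v
    have h1 := second_dir hU hG hz v
    have h2 : HasDerivAt (fun t : ℝ => z + t * v) v 0 := by
      have := ((Complex.ofRealCLM.hasDerivAt (x := (0 : ℝ))).mul_const v).const_add z
      simpa using this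
    have hz0 : z + (0 : ℝ) * v = z := by simp
    have h3 : HasDerivAt (fun t : ℝ => φ (z + t * v)) (deriv φ z * v) 0 := by
      have h := (hφ.differentiableAt (hU.mem_nhds hz)).hasDerivAt
      rw [← hz0] at h
      have h' := h.scomp (0 : ℝ) h2
      rw [smul_eq_mul, mul_comm, hz0] at h'
      exact h'
    have h4 : HasDerivAt (fun t : ℝ => deriv φ (z + t * v) * v) (deriv (deriv φ) z * v * v) 0 := by
      have h := (hdφ.differentiableAt (hU.mem_nhds hz)).hasDerivAt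
      rw [← hz0] at h
      have h' := (h.scomp (0 : ℝ) h2).mul_const v
      rw [smul_eq_mul, mul_comm v, hz0] at h'
      exact h'
    have h5 : HasFDerivAt (fderiv ℝ F) (fderiv ℝ (fderiv ℝ F) (φ z)) (φ (z + (0 : ℝ) * v)) := by
      rw [hz0]
      exact (((hF.fderiv_of_isOpen hV (m := 1) (by norm_num)).contDiffAt
        (hV.mem_nhds (hmap hz))).differentiableAt (by norm_num)).hasFDerivAt
    have h6 := (h5.comp_hasDerivAt (0 : ℝ) h3).clm_apply h4
    have h7 : (fun t : ℝ => fderiv ℝ (F ∘ φ) (z + t * v) v) =ᶠ[nhds 0]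
        fun t : ℝ => fderiv ℝ F (φ (z + t * v)) (deriv φ (z + t * v) * v) := by
      have hc : ContinuousAt (fun t : ℝ => z + t * v) 0 := h2.continuousAt
      have hmem : U ∈ nhds (z + (0 : ℝ) * v) := by
        rw [hz0]
        exact hU.mem_nhds hz
      filter_upwards [hc.preimage_mem_nhds hmem] with t ht
      exact hfd _ ht v
    have h8 := (h1.congr_of_eventuallyEq h7.symm).unique h6
    rw [h8]
    simp [hz0, Function.comp]
  rw [lapl, key 1, key Complex.I, lapl]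
  set c := deriv φ z with hc
  set B := fderiv ℝ (fderiv ℝ F) (φ z) with hB
  have e1 : deriv (deriv φ) z * Complex.I * Complex.I = -(deriv (deriv φ) z * 1 * 1) := by
    rw [mul_assoc, I_mul_I]
    ring
  rw [e1, map_neg]
  have e2 : c * 1 = c.re • (1 : ℂ) + c.im • Complex.I := by
    simp only [mul_one, real_smul]
    exact (re_add_im c).symm
  have e3 : c * Complex.I = (-c.im) • (1 : ℂ) + c.re • Complex.I := by
    simp only [real_smul]
    apply Complex.ext <;> simp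
  rw [e2, e3]
  simp only [map_add, map_smul, add_apply, smul_apply, smul_eq_mul]
  rw [← Complex.normSq_eq_norm_sq, Complex.normSq_apply]
  ring

/-- Möbius transformations -/
noncomputable def mob (g : SL(2, ℤ)) (z : ℂ) : ℂ :=
  ((g 0 0 : ℤ) * z + (g 0 1 : ℤ)) / ((g 1 0 : ℤ) * z + (g 1 1 : ℤ))

theorem denom_ne (g : SL(2, ℤ)) {z : ℂ} (hz : z ∈ HH) : ((g 1 0 : ℤ) : ℂ) * z + (g 1 1 : ℤ) ≠ 0 := by
  intro h
  have h1 : ((g 1 0 : ℤ) : ℝ) * z.im = 0 := by
    have := congrArg Complex.im h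
    simpa using this
  have hz' : 0 < z.im := hz
  have h2 : g 1 0 = 0 := by
    rcases mul_eq_zero.1 h1 with h | h
    · exact_mod_cast h
    · exact absurd h hz'.ne'
  rw [h2] at h
  have h3 : g 1 1 = 0 := by
    simp only [Int.cast_zero, zero_mul, zero_add] at h
    exact_mod_cast h
  have hdet := g.det_coe
  rw [Matrix.det_fin_two, h2, h3] at hdet
  simp at hdet

theorem coe_smul' (g : SL(2, ℤ)) (z : ℍ) : ((g • z : ℍ) : ℂ) = mob g z := coe_smul g z

theorem mob_mem (g : SL(2, ℤ)) {z : ℂ} (hz : z ∈ HH) : mob g z ∈ HH := by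
  have := (g • (⟨z, hz⟩ : ℍ)).im_pos
  rw [← UpperHalfPlane.coe_im, coe_smul'] at this
  exact this

theorem hasDerivAt_mob (g : SL(2, ℤ)) {z : ℂ} (hz : z ∈ HH) :
    HasDerivAt (mob g) (1 / ((g 1 0 : ℤ) * z + (g 1 1 : ℤ)) ^ 2) z := by
  have h0 := denom_ne g hz
  have h1 : HasDerivAt (fun z : ℂ => ((g 0 0 : ℤ) : ℂ) * z + (g 0 1 : ℤ)) ((g 0 0 : ℤ) : ℂ) z := by
    simpa using ((hasDerivAt_id z).const_mul ((g 0 0 : ℤ) : ℂ)).add_const ((g 0 1 : ℤ) : ℂ)
  have h2 : HasDerivAt (fun z : ℂ => ((g 1 0 : ℤ) : ℂ) * z + (g 1 1 : ℤ)) ((g 1 0 : ℤ) : ℂ) z := by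
    simpa using ((hasDerivAt_id z).const_mul ((g 1 0 : ℤ) : ℂ)).add_const ((g 1 1 : ℤ) : ℂ)
  have h3 := h1.div h2 h0
  refine h3.congr_deriv ?_
  have hdet : ((g 0 0 : ℤ) : ℂ) * (g 1 1 : ℤ) - (g 0 1 : ℤ) * (g 1 0 : ℤ) = 1 := by
    have := g.det_coe
    rw [Matrix.det_fin_two] at this
    exact_mod_cast this
  congr 1
  linear_combination hdet

theorem fc_smul (f : ℍ → ℝ) (g : SL(2, ℤ)) : EqOn (fc fun z => f (g • z)) (fc f ∘ mob g) HH := by
  intro z hz
  have hz' : 0 < z.im := hz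
  simp only [fc, comp_apply]
  congr 1
  ext
  rw [coe_smul', ofComplex_apply_of_im_pos hz', ofComplex_apply_of_im_pos (mob_mem g hz)]

theorem smooth_smul {f : ℍ → ℝ} (hf : Smooth2 f) (g : SL(2, ℤ)) : Smooth2 fun z => f (g • z) := by
  have hd : DifferentiableOn ℂ (mob g) HH := fun z hz =>
    (hasDerivAt_mob g hz).differentiableAt.differentiableWithinAt
  have h := (lapl_comp isOpen_HH isOpen_HH hd hf (fun z hz => mob_mem g hz)
    (z := Complex.I) (by show 0 < Complex.I.im; simp)).1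
  exact h.congr (fc_smul f g)

theorem hyp_smul {f : ℍ → ℝ} (hf : Smooth2 f) (g : SL(2, ℤ)) (z : ℍ) :
    hyp (fun z => f (g • z)) z = hyp f (g • z) := by
  have hd : DifferentiableOn ℂ (mob g) HH := fun z hz =>
    (hasDerivAt_mob g hz).differentiableAt.differentiableWithinAt
  have h := (lapl_comp isOpen_HH isOpen_HH hd hf (fun z hz => mob_mem g hz) (z := z) z.im_pos).2
  have he : (fc fun z => f (g • z)) =ᶠ[nhds (z : ℂ)] (fc f ∘ mob g) := by
    filter_upwards [isOpen_HH.mem_nhds z.im_pos] with w hw using fc_smul f g hw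
  rw [hyp, lapl_congr he, h, hyp, coe_smul', im_smul', (hasDerivAt_mob g z.im_pos).deriv, norm_div, norm_one,
    norm_pow]
  have h0 : ‖((g 1 0 : ℤ) : ℂ) * z + (g 1 1 : ℤ)‖ ≠ 0 := norm_ne_zero_iff.2 (denom_ne g z.im_pos)
  field_simp

end Pool.Agent.T2H31
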