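import Pool.Agent.T2H31.Hecke2

/-! Growth of the Chebyshev polynomials outside `[-2, 2]`. -/

set_option autoImplicit false

namespace Pool.Agent.T2H31

theorem UU_diff {a b : ℝ} (hab : a * b = 1) (r : ℕ) :
    UU (a + b) (r + 2) - UU (a + b) r = a ^ (r + 2) + b ^ (r + 2) ∧
      UU (a + b) (r + 3) - UU (a + b) (r + 1) = a ^ (r + 3) + b ^ (r + 3) := by
  induction r with
  | zero =>
    constructor
    · simp only [UU]
      linear_combination 2 * hab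
    · simp only [UU]
      linear_combination 3 * (a + b) * hab
  | succ r ih =>
    refine ⟨ih.2, ?_⟩
    show UU (a + b) (r + 4) - UU (a + b) (r + 2) = a ^ (r + 4) + b ^ (r + 4)
    have h1 : UU (a + b) (r + 4) = (a + b) * UU (a + b) (r + 3) - UU (a + b) (r + 2) := by
      rw [show r + 4 = r + 2 + 2 by ring, UU]
    have h2 : UU (a + b) (r + 2) = (a + b) * UU (a + b) (r + 1) - UU (a + b) r := by
      rw [UU]
    have h3 : a ^ (r + 4) + b ^ (r + 4) = (a + b) * (a ^ (r + 3) + b ^ (r + 3)) -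
        (a * b) * (a ^ (r + 2) + b ^ (r + 2)) := by ring
    rw [h1, h3, hab]
    linear_combination (a + b) * ih.2 - ih.1 - h2

theorem mono_add_inv {u v : ℝ} (hu : 1 ≤ u) (huv : u ≤ v) : u + u⁻¹ ≤ v + v⁻¹ := by
  have hv : 1 ≤ v := hu.trans huv
  have hu0 : 0 < u := by linarith
  have hv0 : 0 < v := by linarith
  have e : v + v⁻¹ - (u + u⁻¹) = (v - u) * (1 - (u * v)⁻¹) := by
    field_simp
    ring
  have h1 : (u * v)⁻¹ ≤ 1 := inv_le_one_of_one_le₀ (one_le_mul_of_one_le_of_one_le hu hv)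
  have h2 : 0 ≤ (v - u) * (1 - (u * v)⁻¹) := mul_nonneg (by linarith) (by linarith)
  linarith

/-- the even Chebyshev polynomials -/
noncomputable def VV (x : ℝ) (s : ℕ) : ℝ := UU x (2 * s)

theorem VV_zero (x : ℝ) : VV x 0 = 1 := by simp [VV, UU]

theorem exists_root {x : ℝ} (hx : 2 ≤ |x|) : ∃ a : ℝ, 1 ≤ |a| ∧ x = a + a⁻¹ := by
  have hx2 : 4 ≤ x ^ 2 := by
    rw [← sq_abs]
    nlinarith
  have hpos : ∀ y : ℝ, 2 ≤ y → ∃ a : ℝ, 1 ≤ a ∧ y = a + a⁻¹ := by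
    intro y hy
    have h1 : 0 ≤ y ^ 2 - 4 := by nlinarith
    have hs := Real.sq_sqrt h1
    have hs0 := Real.sqrt_nonneg (y ^ 2 - 4)
    set w := Real.sqrt (y ^ 2 - 4)
    refine ⟨(y + w) / 2, by linarith, ?_⟩
    have h2 : (y + w) ≠ 0 := by
      have : 0 < y + w := by linarith
      exact this.ne'
    field_simp
    nlinarith
  rcases le_abs.1 hx with h | h
  · obtain ⟨a, ha, e⟩ := hpos x h
    exact ⟨a, by rw [abs_of_nonneg (by linarith)]; exact ha, e⟩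
  · obtain ⟨a, ha, e⟩ := hpos (-x) h
    refine ⟨-a, by rw [abs_neg, abs_of_nonneg (by linarith)]; exact ha, ?_⟩
    rw [inv_neg]
    linarith

/-- increments of `VV` above the threshold -/
theorem VV_step {x α : ℝ} (hα : 1 ≤ α) (hx : α + α⁻¹ ≤ |x|) (s : ℕ) :
    (α ^ 2) ^ (s + 1) + ((α ^ 2) ^ (s + 1))⁻¹ ≤ VV x (s + 1) - VV x s := by
  have h2 : 2 ≤ |x| := by
    have := mono_add_inv (le_refl (1 : ℝ)) hα
    norm_num at this
    linarith
  obtain ⟨a, ha, rfl⟩ := exists_root h2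
  have ha0 : a ≠ 0 := by
    rintro rfl
    norm_num at ha
  have h3 := (UU_diff (mul_inv_cancel₀ ha0) (2 * s)).1
  rw [VV, VV, show 2 * (s + 1) = 2 * s + 2 by ring, h3]
  have hae : |a + a⁻¹| = |a| + |a|⁻¹ := by
    rcases abs_cases a with ⟨h, h'⟩ | ⟨h, h'⟩
    · rw [h, abs_of_nonneg]
      positivity
    · rw [h, ← neg_inv, ← abs_neg, abs_of_nonneg]
      · ring
      · have : 0 < -a := by linarith
        have h5 : 0 < (-a)⁻¹ := by positivity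
        rw [← neg_inv] at h5
        linarith
  rw [hae] at hx
  have haα : α ≤ |a| := by
    by_contra hlt
    push Not at hlt
    have e : α + α⁻¹ - (|a| + |a|⁻¹) = (α - |a|) * (1 - (|a| * α)⁻¹) := by
      have h6 : |a| ≠ 0 := by positivity
      have h7 : α ≠ 0 := by positivity
      field_simp
      ring
    have h8 : 1 < |a| * α := by nlinarith
    have h9 : (|a| * α)⁻¹ < 1 := inv_lt_one_of_one_lt₀ h8
    have : 0 < (α - |a|) * (1 - (|a| * α)⁻¹) := mul_pos (by linarith) (by linarith)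
    linarith
  have h10 : (1 : ℝ) ≤ (α ^ 2) ^ (s + 1) := one_le_pow₀ (one_le_pow₀ hα)
  have h11 : (α ^ 2) ^ (s + 1) ≤ (a ^ 2) ^ (s + 1) := by
    rw [← sq_abs a]
    gcongr
  have h12 := mono_add_inv h10 h11
  refine h12.trans (le_of_eq ?_)
  rw [show 2 * s + 2 = 2 * (s + 1) by ring, pow_mul, pow_mul, inv_pow, inv_pow]

theorem VV_mono {x α : ℝ} (hα : 1 ≤ α) (hx : α + α⁻¹ ≤ |x|) (s : ℕ) : VV x s ≤ VV x (s + 1) := by
  have := VV_step hα hx s
  have h1 : 0 < (α ^ 2) ^ (s + 1) + ((α ^ 2) ^ (s + 1))⁻¹ := by positivity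
  linarith

theorem VV_pos {x α : ℝ} (hα : 1 ≤ α) (hx : α + α⁻¹ ≤ |x|) (s : ℕ) : 1 ≤ VV x s := by
  induction s with
  | zero => rw [VV_zero]
  | succ s ih => exact ih.trans (VV_mono hα hx s)

theorem VV_step_eq {α : ℝ} (hα : 1 ≤ α) (s : ℕ) :
    VV (α + α⁻¹) (s + 1) - VV (α + α⁻¹) s = (α ^ 2) ^ (s + 1) + ((α ^ 2) ^ (s + 1))⁻¹ := by
  have ha0 : α ≠ 0 := by positivity
  have h3 := (UU_diff (mul_inv_cancel₀ ha0) (2 * s)).1
  rw [VV, VV, show 2 * (s + 1) = 2 * s + 2 by ring, h3,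
    show 2 * s + 2 = 2 * (s + 1) by ring, pow_mul, pow_mul, inv_pow, inv_pow]

theorem VV_compare {x α : ℝ} (hα : 1 ≤ α) (hx : α + α⁻¹ ≤ |x|) (s : ℕ) :
    VV (α + α⁻¹) s ≤ VV x s := by
  induction s with
  | zero => rw [VV_zero, VV_zero]
  | succ s ih =>
    have h1 := VV_step hα hx s
    have h2 := VV_step_eq hα s
    linarith

theorem VV_lower {α : ℝ} (hα : 1 ≤ α) (j t : ℕ) : (t + 1) * (α ^ 2) ^ j ≤ VV (α + α⁻¹) (j + t) := by
  have hy : (1 : ℝ) ≤ α ^ 2 := one_le_pow₀ hα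
  have h0 : ∀ j, (α ^ 2) ^ j ≤ VV (α + α⁻¹) j := by
    intro j
    rcases j with _ | j
    · rw [VV_zero, pow_zero]
    · have h1 := VV_step_eq hα j
      have h2 := VV_pos hα (le_abs_self (α + α⁻¹)) j
      have h3 : 0 < ((α ^ 2) ^ (j + 1))⁻¹ := by positivity
      linarith
  induction t with
  | zero =>
    simpa using h0 j
  | succ t ih =>
    have h1 := VV_step_eq hα (j + t)
    have h3 : 0 < ((α ^ 2) ^ (j + t + 1))⁻¹ := by positivity
    have h4 : (α ^ 2) ^ j ≤ (α ^ 2) ^ (j + t + 1) := pow_le_pow_right₀ hy (by omega)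
    rw [show j + (t + 1) = j + t + 1 by ring]
    push_cast
    linarith

theorem sum_sq_lower (n : ℕ) : (n : ℝ) ^ 3 / 3 ≤ ∑ t ∈ Finset.range n, ((t : ℝ) + 1) ^ 2 := by
  induction n with
  | zero => simp
  | succ n ih =>
    rw [Finset.sum_range_succ]
    push_cast
    nlinarith [(Nat.cast_nonneg n : (0 : ℝ) ≤ n)]

/-- the main lower bound -/
theorem sum_VV {α : ℝ} (hα : 1 ≤ α) (M : ℕ) :
    ((M : ℝ) + 1) ^ 3 / 24 * (α ^ 2) ^ M ≤ ∑ s ∈ Finset.range (M + 1), VV (α + α⁻¹) s ^ 2 := by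
  have hy : (1 : ℝ) ≤ α ^ 2 := one_le_pow₀ hα
  set j := (M + 1) / 2 with hj
  set n := M + 1 - j with hn
  have hjn : j + n = M + 1 := by omega
  have h2j : M ≤ 2 * j := by omega
  have h2n : M + 1 ≤ 2 * n := by omega
  have e : ∑ s ∈ Finset.range (M + 1), VV (α + α⁻¹) s ^ 2 =
      ∑ s ∈ Finset.range j, VV (α + α⁻¹) s ^ 2 + ∑ t ∈ Finset.range n, VV (α + α⁻¹) (j + t) ^ 2 := by
    rw [← hjn, Finset.sum_range_add]
  have h1 : ∑ t ∈ Finset.range n, ((t : ℝ) + 1) ^ 2 * (α ^ 2) ^ M ≤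
      ∑ t ∈ Finset.range n, VV (α + α⁻¹) (j + t) ^ 2 := by
    refine Finset.sum_le_sum fun t _ => ?_
    have h3 := VV_lower hα j t
    calc ((t : ℝ) + 1) ^ 2 * (α ^ 2) ^ M ≤ ((t : ℝ) + 1) ^ 2 * (α ^ 2) ^ (2 * j) := by gcongr
      _ = (((t : ℝ) + 1) * (α ^ 2) ^ j) ^ 2 := by ring
      _ ≤ _ := by gcongr
  have h4 : 0 ≤ ∑ s ∈ Finset.range j, VV (α + α⁻¹) s ^ 2 := Finset.sum_nonneg fun _ _ => sq_nonneg _
  rw [e]
  rw [← Finset.sum_mul] at h1
  have h5 := sum_sq_lower n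
  have h6 : ((M : ℝ) + 1) ^ 3 / 24 ≤ (n : ℝ) ^ 3 / 3 := by
    have h7 : (M : ℝ) + 1 ≤ 2 * n := by exact_mod_cast h2n
    have h8 : ((M : ℝ) + 1) ^ 3 ≤ (2 * n) ^ 3 := by gcongr
    have h9 : (2 * (n : ℝ)) ^ 3 = 8 * n ^ 3 := by ring
    rw [h9] at h8
    linarith
  have h10 : ((M : ℝ) + 1) ^ 3 / 24 * (α ^ 2) ^ M ≤ (∑ t ∈ Finset.range n, ((t : ℝ) + 1) ^ 2) * (α ^ 2) ^ M := by
    gcongr
    exact h6.trans h5
  linarith

end Pool.Agent.T2H31
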