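import Pool.Agent.T2H31.Main

/-! Counting. -/

set_option autoImplicit false

namespace Pool.Agent.T2H31

open Complex MeasureTheory Set Function UpperHalfPlane ModularGroup
open scoped ENNReal NNReal MatrixGroups Modular

section
variable {ι : Type*} [Fintype ι] {f : ι → ℍ → ℝ} {lam : ι → ℝ} {L : ℝ} (S : Sys f lam L)
include S

omit S in
theorem energy_const (hL : 1 ≤ L) {ρ : ℝ} (hρ : ρ = 1 / (16 * Real.sqrt L)) :
    4 / ρ ^ 2 + 4 * ρ ^ 2 * L ^ 2 ≤ 1025 * L := by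
  have hs : Real.sqrt L ^ 2 = L := Real.sq_sqrt (by linarith)
  have hs0 : 0 < Real.sqrt L := Real.sqrt_pos.2 (by linarith)
  have h1 : ρ ^ 2 = 1 / (256 * L) := by
    rw [hρ, div_pow, mul_pow, hs]
    norm_num
  rw [h1]
  have h2 : 4 / (1 / (256 * L)) = 1024 * L := by field_simp; norm_num
  have h3 : 4 * (1 / (256 * L)) * L ^ 2 = L / 64 := by field_simp; norm_num
  rw [h2, h3]
  linarith

omit S in
theorem rho_le (hL : 1 ≤ L) {ρ : ℝ} (hρ : ρ = 1 / (16 * Real.sqrt L)) : 0 < ρ ∧ ρ ≤ 1 / 16 := by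
  have hs1 : 1 ≤ Real.sqrt L := Real.one_le_sqrt.2 hL
  rw [hρ]
  refine ⟨by positivity, ?_⟩
  rw [div_le_div_iff₀ (by positivity) (by norm_num)]
  linarith

/-- the pointwise bound at a good point -/
theorem Sys.good_bound (hL : 1 ≤ L) {X : ℕ} (c : ℕ × ℕ × ℕ → ℝ) (σ : ι → ℝ) (hσ : ∀ j, 1 ≤ σ j ^ 2)
    (hT : ∀ (j : ι) (z : ℍ), ∑ q ∈ IX X, c q * f j (hp q z) = σ j * f j z) {z : ℍ}
    (hz : Good (1 / (2 * Real.sqrt L)) X z) :
    ∑ j, f j z ^ 2 ≤ 2050 * L * ∑ q ∈ IX X, c q ^ 2 := by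
  obtain ⟨ρ, hρ⟩ : ∃ ρ : ℝ, ρ = 1 / (16 * Real.sqrt L) := ⟨_, rfl⟩
  obtain ⟨h0, h16⟩ := rho_le hL hρ
  have hs0 : 0 < Real.sqrt L := Real.sqrt_pos.2 (by linarith)
  have h8 : 8 * ρ = 1 / (2 * Real.sqrt L) := by rw [hρ]; field_simp; norm_num
  rw [← h8] at hz
  set a : ι → ℝ := fun j => σ j * f j z with ha
  have key := S.point_sum' (IX X) (fun q => hp q z) h0 (by linarith) (M := 2) (by norm_num)
    (fun v _ => by
      have := mult_good h0.le (by linarith) hz v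
      simpa using this) a
  have hE := energy_const hL hρ
  set s := ∑ j, a j ^ 2 with hs
  have hs_nonneg : 0 ≤ s := Finset.sum_nonneg fun j _ => sq_nonneg _
  have hc0 : 0 ≤ ∑ q ∈ IX X, c q ^ 2 := Finset.sum_nonneg fun j _ => sq_nonneg _
  have e1 : s = ∑ q ∈ IX X, c q * ∑ j, a j * f j (hp q z) := by
    calc s = ∑ j, a j * (σ j * f j z) := by
          rw [hs]
          refine Finset.sum_congr rfl fun j _ => ?_
          rw [ha]
          ring
      _ = ∑ j, a j * ∑ q ∈ IX X, c q * f j (hp q z) := by simp_rw [hT]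
      _ = ∑ j, ∑ q ∈ IX X, c q * (a j * f j (hp q z)) := by
          refine Finset.sum_congr rfl fun j _ => ?_
          rw [Finset.mul_sum]
          refine Finset.sum_congr rfl fun q _ => by ring
      _ = ∑ q ∈ IX X, ∑ j, c q * (a j * f j (hp q z)) := Finset.sum_comm
      _ = _ := by
          refine Finset.sum_congr rfl fun q _ => ?_
          rw [Finset.mul_sum]
  have cs := Finset.sum_mul_sq_le_sq_mul_sq (IX X) c fun q => ∑ j, a j * f j (hp q z)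
  rw [← e1] at cs
  have h1 : s ^ 2 ≤ (2050 * L * ∑ q ∈ IX X, c q ^ 2) * s := by
    calc s ^ 2 ≤ (∑ q ∈ IX X, c q ^ 2) * ∑ q ∈ IX X, (∑ j, a j * f j (hp q z)) ^ 2 := cs
      _ ≤ (∑ q ∈ IX X, c q ^ 2) * (2 * ((4 / ρ ^ 2 + 4 * ρ ^ 2 * L ^ 2) * s)) := by gcongr
      _ ≤ (∑ q ∈ IX X, c q ^ 2) * (2 * ((1025 * L) * s)) := by gcongr
      _ = _ := by ring
  have h2 : s ≤ 2050 * L * ∑ q ∈ IX X, c q ^ 2 := by
    rcases hs_nonneg.eq_or_lt with h | h
    · rw [← h]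
      positivity
    · rw [sq] at h1
      exact le_of_mul_le_mul_right h1 h
  refine le_trans ?_ h2
  rw [hs]
  refine Finset.sum_le_sum fun j _ => ?_
  rw [ha]
  simp only [mul_pow]
  nlinarith [hσ j, sq_nonneg (f j z)]

/-- the trivial pointwise bound -/
theorem Sys.triv_bound (hL : 1 ≤ L) {z : ℍ} (hz : z ∈ (𝒟 : Set ℍ)) (hy : z.im ≤ 2 * Real.sqrt L) :
    ∑ j, f j z ^ 2 ≤ 194481 * 1025 * L := by
  obtain ⟨ρ, hρ⟩ : ∃ ρ : ℝ, ρ = 1 / (16 * Real.sqrt L) := ⟨_, rfl⟩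
  obtain ⟨h0, h16⟩ := rho_le hL hρ
  have hs0 : 0 < Real.sqrt L := Real.sqrt_pos.2 (by linarith)
  have h8 : 8 * ρ * z.im ≤ 1 := by
    have : 8 * ρ = 1 / (2 * Real.sqrt L) := by rw [hρ]; field_simp; norm_num
    rw [this, one_div_mul_eq_div, div_le_one (by positivity)]
    exact hy
  have key := S.point_sum' ({()} : Finset Unit) (fun _ => z) h0 (by linarith) (M := 194481) (by norm_num)
    (fun v _ => by
      have := mult_triv h0.le (by linarith) hz h8 v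
      simpa using this) (fun j => f j z)
  have hE := energy_const hL hρ
  rw [Finset.sum_singleton] at key
  have e : ∑ j, f j z * f j z = ∑ j, f j z ^ 2 := Finset.sum_congr rfl fun j _ => (sq _).symm
  rw [e] at key
  set s := ∑ j, f j z ^ 2 with hs
  have hs_nonneg : 0 ≤ s := Finset.sum_nonneg fun j _ => sq_nonneg _
  have h1 : s * s ≤ (194481 * 1025 * L) * s := by
    calc s * s = s ^ 2 := (sq s).symm
      _ ≤ 194481 * ((4 / ρ ^ 2 + 4 * ρ ^ 2 * L ^ 2) * s) := key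
      _ ≤ 194481 * ((1025 * L) * s) := by gcongr
      _ = _ := by ring
  rcases hs_nonneg.eq_or_lt with h | h
  · rw [← h]
    positivity
  · exact le_of_mul_le_mul_right h1 h

omit S in
theorem vol_fd : (volume : Measure ℍ) (𝒟 : Set ℍ) ≤ ENNReal.ofReal (5 / 4) := by
  have hsub : (𝒟 : Set ℍ) ⊆ {z : ℍ | z.re ∈ Icc (-(1 / 2) : ℝ) (1 / 2) ∧ 4 / 5 ≤ z.im} := by
    intro z hz
    exact ⟨abs_le.1 (fd_bounds hz).2, fd_im hz⟩
  refine (measure_mono hsub).trans ((vol_strip _ _ (by norm_num)).trans ?_)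
  rw [← ENNReal.ofReal_mul (by norm_num)]
  apply ENNReal.ofReal_le_ofReal
  norm_num

theorem Sys.count (hL : 1 ≤ L)
    (hcusp : ∀ (j : ι) (y : ℝ), 0 < y → ∫ x in (-(1 / 2) : ℝ)..(1 / 2), fc (f j) (pt y x) = 0)
    {X : ℕ} (hX : 1 ≤ X) (hXL : (X : ℝ) ≤ Real.sqrt L)
    (c : ℕ × ℕ × ℕ → ℝ) (σ : ι → ℝ) (hσ : ∀ j, 1 ≤ σ j ^ 2)
    (hT : ∀ (j : ι) (z : ℍ), ∑ q ∈ IX X, c q * f j (hp q z) = σ j * f j z) :
    (Fintype.card ι : ℝ) ≤ 5125 * L * (∑ q ∈ IX X, c q ^ 2) + 9000000000 * X ^ 3 * Real.sqrt L := by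
  have hs0 : 0 < Real.sqrt L := Real.sqrt_pos.2 (by linarith)
  have hs1 : 1 ≤ Real.sqrt L := Real.one_le_sqrt.2 hL
  have hsq : Real.sqrt L ^ 2 = L := Real.sq_sqrt (by linarith)
  have hc0 : 0 ≤ ∑ q ∈ IX X, c q ^ 2 := Finset.sum_nonneg fun j _ => sq_nonneg _
  set K1 : ℝ := 2050 * L * ∑ q ∈ IX X, c q ^ 2 with hK1
  set K2 : ℝ := 194481 * 1025 * L with hK2
  have hK10 : 0 ≤ K1 := by positivity
  have hK20 : 0 ≤ K2 := by positivity
  set ε : ℝ := 1 / (2 * Real.sqrt L) with hε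
  have hε0 : 0 < ε := by positivity
  have hεX : ε * X ≤ 1 / 2 := by
    rw [hε, one_div_mul_eq_div, div_le_iff₀ (by positivity)]
    linarith
  set B := toMeasurable (volume : Measure ℍ) {z : ℍ | z ∈ (𝒟 : Set ℍ) ∧ ¬ Good ε X z} with hB
  have hBm : MeasurableSet B := measurableSet_toMeasurable _ _
  have hBv : (volume : Measure ℍ) B ≤ ENNReal.ofReal (45 * X ^ 3 * ε) := by
    rw [hB, measure_toMeasurable]
    exact bad_meas hX hε0 hεX
  have hlow : MeasurableSet ((𝒟 : Set ℍ) ∩ {u | u.im ≤ 2 * Real.sqrt L}) :=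
    meas_fd.inter (meas_im measurableSet_Iic)
  have hone : ∀ j, ∫⁻ u in 𝒟, ENNReal.ofReal (f j u ^ 2) = 1 := by
    intro j
    rw [← ofReal_integral_eq_lintegral_ofReal (S.sq_int j) (Filter.Eventually.of_forall fun u => sq_nonneg _),
      S.norm j, ENNReal.ofReal_one]
  have hmj : ∀ j, Measurable fun u : ℍ => ENNReal.ofReal (f j u ^ 2) := by
    intro j
    have := (cont_f (S.smooth j)).measurable
    fun_prop
  have h1 : (Fintype.card ι : ℝ≥0∞) ≤ 2 * ∫⁻ u in 𝒟 ∩ {u | u.im ≤ 2 * Real.sqrt L},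
      ENNReal.ofReal (∑ j, f j u ^ 2) := by
    calc (Fintype.card ι : ℝ≥0∞) = ∑ j : ι, ∫⁻ u in 𝒟, ENNReal.ofReal (f j u ^ 2) := by
          simp_rw [hone]
          rw [Finset.sum_const, nsmul_eq_mul, mul_one, Finset.card_univ]
      _ ≤ ∑ j : ι, 2 * ∫⁻ u in 𝒟 ∩ {u | u.im ≤ 2 * Real.sqrt L}, ENNReal.ofReal (f j u ^ 2) := by
          refine Finset.sum_le_sum fun j _ => ?_
          refine mass_low (S.smooth j) (S.inv j) (S.lap j) (hcusp j) ?_ hs1 ?_
          · rw [hone j]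
            exact ENNReal.one_ne_top
          · rw [hsq]
            exact (le_abs_self _).trans (S.bound j)
      _ = 2 * ∑ j : ι, ∫⁻ u in 𝒟 ∩ {u | u.im ≤ 2 * Real.sqrt L}, ENNReal.ofReal (f j u ^ 2) := by
          rw [Finset.mul_sum]
      _ = 2 * ∫⁻ u in 𝒟 ∩ {u | u.im ≤ 2 * Real.sqrt L}, ∑ j : ι, ENNReal.ofReal (f j u ^ 2) := by
          rw [lintegral_finsetSum _ fun j _ => hmj j]
      _ = _ := by
          congr 1
          refine lintegral_congr fun u => ?_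
          rw [ENNReal.ofReal_sum_of_nonneg fun j _ => sq_nonneg _]
  have h2 : ∫⁻ u in 𝒟 ∩ {u | u.im ≤ 2 * Real.sqrt L}, ENNReal.ofReal (∑ j, f j u ^ 2) ≤
      ENNReal.ofReal (K1 * (5 / 4) + K2 * (45 * X ^ 3 * ε)) := by
    calc ∫⁻ u in 𝒟 ∩ {u | u.im ≤ 2 * Real.sqrt L}, ENNReal.ofReal (∑ j, f j u ^ 2) ≤
        ∫⁻ u in 𝒟 ∩ {u | u.im ≤ 2 * Real.sqrt L}, (ENNReal.ofReal K1 +
          B.indicator (fun _ => ENNReal.ofReal K2) u) := by
          refine setLIntegral_mono' hlow fun u hu => ?_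
          by_cases hg : Good ε X u
          · exact (ENNReal.ofReal_le_ofReal (S.good_bound hL c σ hσ hT hg)).trans le_self_add
          · have hmem : u ∈ B := subset_toMeasurable _ _ ⟨hu.1, hg⟩
            rw [indicator_of_mem hmem]
            exact (ENNReal.ofReal_le_ofReal (S.triv_bound hL hu.1 hu.2)).trans le_add_self
      _ = ENNReal.ofReal K1 * volume ((𝒟 : Set ℍ) ∩ {u | u.im ≤ 2 * Real.sqrt L}) +
          ∫⁻ u in 𝒟 ∩ {u | u.im ≤ 2 * Real.sqrt L}, B.indicator (fun _ => ENNReal.ofReal K2) u := by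
          rw [lintegral_add_left measurable_const, setLIntegral_const]
      _ ≤ ENNReal.ofReal K1 * ENNReal.ofReal (5 / 4) + ENNReal.ofReal K2 * ENNReal.ofReal (45 * X ^ 3 * ε) := by
          refine add_le_add (mul_le_mul_right ((measure_mono inter_subset_left).trans vol_fd) _) ?_
          refine (setLIntegral_le_lintegral _ _).trans ?_
          rw [lintegral_indicator_const hBm]
          exact mul_le_mul_right hBv _
      _ = _ := by
          rw [ENNReal.ofReal_add (by positivity) (by positivity), ENNReal.ofReal_mul hK10,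
            ENNReal.ofReal_mul hK20]
  have h3 : (Fintype.card ι : ℝ≥0∞) ≤ ENNReal.ofReal (2 * (K1 * (5 / 4) + K2 * (45 * X ^ 3 * ε))) := by
    refine h1.trans ((mul_le_mul_right h2 _).trans_eq ?_)
    rw [ENNReal.ofReal_mul (p := 2) (by norm_num)]
    norm_num
  rw [← ENNReal.ofReal_natCast, ENNReal.ofReal_le_ofReal_iff (by positivity)] at h3
  have h4 : K2 * (45 * X ^ 3 * ε) = (194481 * 1025 * 45 / 2) * (X ^ 3 * Real.sqrt L) := by
    rw [hK2, hε]
    nth_rewrite 1 [← hsq]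
    field_simp
  rw [h4] at h3
  have h5 : 0 ≤ (X : ℝ) ^ 3 * Real.sqrt L := by positivity
  have h6 : (2 : ℝ) * (K1 * (5 / 4)) = 5125 * L * ∑ q ∈ IX X, c q ^ 2 := by
    rw [hK1]
    ring
  nlinarith

end

end Pool.Agent.T2H31
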