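import Pool.Agent.T2H31.Final

/-! The density theorem in terms of `T`. -/

set_option autoImplicit false

namespace Pool.Agent.T2H31

open Complex MeasureTheory Set Function UpperHalfPlane ModularGroup
open scoped MatrixGroups Modular

theorem ww_bound {T : ℝ} (hT : 2 ≤ T) {k : ℕ} (hk : 1 ≤ k) {p : ℕ} (hp' : p.Prime)
    (hpT : (p : ℝ) ≤ T ^ (1 / (8 * k) : ℝ)) {θ : ℝ} (hθ : 0 ≤ θ) {M : ℕ}
    (hM : M = ⌊Real.log T / (8 * k * Real.log p)⌋₊) :
    ww M ((p : ℝ) ^ θ) ≤ 192 * (8 * k) ^ 3 * ((Real.log p / Real.log T) ^ 3 * T ^ (-(θ / (8 * k)))) ∧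
      (p : ℝ) ^ (2 * M) ≤ T ^ (1 / (4 * k) : ℝ) := by
  have hk' : (1 : ℝ) ≤ k := by exact_mod_cast hk
  have hp2 : (2 : ℝ) ≤ p := by exact_mod_cast hp'.two_le
  have hp0 : (0 : ℝ) < p := by linarith
  have hT0 : 0 < T := by linarith
  have hlp : 0 < Real.log p := Real.log_pos (by linarith)
  have hlT : 0 < Real.log T := Real.log_pos (by linarith)
  set y := Real.log T / (8 * k * Real.log p) with hy
  have hy1 : 1 ≤ y := by
    rw [hy, le_div_iff₀ (by positivity), one_mul]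
    have := Real.log_le_log hp0 hpT
    rw [Real.log_rpow hT0, one_div_mul_eq_div, le_div_iff₀ (by positivity)] at this
    linarith
  have hMy : (M : ℝ) ≤ y := by
    rw [hM]
    exact Nat.floor_le (by linarith)
  have hyM : y < M + 1 := by
    rw [hM]
    exact Nat.lt_floor_add_one y
  have hM1 : 1 ≤ M := by
    rw [hM]
    exact Nat.le_floor (by simpa using hy1)
  have hM1' : (1 : ℝ) ≤ M := by exact_mod_cast hM1
  have hMy2 : y / 2 ≤ M := by linarith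
  have hyl : y * Real.log p = Real.log T / (8 * k) := by
    rw [hy]
    field_simp
  constructor
  · have h1 : T ^ (θ / (8 * k)) ≤ (((p : ℝ) ^ θ) ^ 2) ^ M := by
      rw [← Real.rpow_natCast (((p : ℝ) ^ θ) ^ 2) M, ← Real.rpow_natCast ((p : ℝ) ^ θ) 2,
        ← Real.rpow_mul hp0.le, ← Real.rpow_mul hp0.le, Real.rpow_def_of_pos hT0, Real.rpow_def_of_pos hp0]
      apply Real.exp_le_exp.2
      push_cast
      have h2 : Real.log T * (θ / (8 * k)) = θ * (y * Real.log p) := by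
        rw [hyl]
        ring
      rw [h2]
      have h3 : Real.log p * (θ * 2 * M) = θ * (2 * M * Real.log p) := by ring
      rw [h3]
      gcongr
      linarith
    have h4 : T ^ (-(θ / (8 * k))) = (T ^ (θ / (8 * k)))⁻¹ := Real.rpow_neg hT0.le _
    have h5 : 0 < T ^ (θ / (8 * k)) := Real.rpow_pos_of_pos hT0 _
    have h6 : ((8 * k : ℝ)) ^ 3 * (Real.log p / Real.log T) ^ 3 = (y ^ 3)⁻¹ := by
      rw [hy]
      field_simp
    have h7 : y ^ 3 ≤ ((M : ℝ) + 1) ^ 3 := by gcongr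
    have h8 : 0 < y ^ 3 := by positivity
    calc ww M ((p : ℝ) ^ θ) = 192 * ((((M : ℝ) + 1) ^ 3)⁻¹ * ((((p : ℝ) ^ θ) ^ 2) ^ M)⁻¹) := by
          rw [ww, div_eq_mul_inv, mul_inv]
      _ ≤ 192 * ((y ^ 3)⁻¹ * (T ^ (θ / (8 * k)))⁻¹) := by gcongr
      _ = _ := by
          rw [h4, ← h6]
          ring
  · rw [← Real.rpow_natCast, Real.rpow_def_of_pos hT0, Real.rpow_def_of_pos hp0]
    apply Real.exp_le_exp.2
    push_cast
    have h2 : Real.log T * (1 / (4 * k)) = 2 * (y * Real.log p) := by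
      rw [hyl]
      field_simp
      norm_num
    rw [h2]
    nlinarith

theorem final_T {T : ℝ} (hT : 2 ≤ T) {k : ℕ} (hk : 1 ≤ k) {P : Finset ℕ}
    (hP : ∀ p ∈ P, p.Prime ∧ (p : ℝ) ≤ T ^ (1 / (8 * k) : ℝ)) {θ : ℕ → ℝ} (hθ : ∀ p ∈ P, 0 ≤ θ p)
    {ι : Type*} [Fintype ι] {f : ι → ℍ → ℝ} {lam : ι → ℝ} (S : Sys f lam (1 / 4 + T ^ 2))
    (hcusp : ∀ (j : ι) (y : ℝ), 0 < y → ∫ x in (-(1 / 2) : ℝ)..(1 / 2), fc (f j) (pt y x) = 0)
    (a : ι → ℕ → ℝ) (hH : ∀ j, ∀ p ∈ P, HeckeP (f j) p (a j p))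
    (ha : ∀ j, k ≤ (P.filter fun p : ℕ => (p : ℝ) ^ θ p + (p : ℝ) ^ (-θ p) ≤ |a j p|).card) :
    (Fintype.card ι : ℝ) ≤ 10000 * (192 * (8 * k) ^ 3) ^ k * T ^ 2 *
        (∑ p ∈ P, (Real.log p / Real.log T) ^ 3 * T ^ (-(θ p / (8 * k)))) ^ k +
      20000000000 * T ^ (15 / 8 : ℝ) := by
  have hk' : (1 : ℝ) ≤ k := by exact_mod_cast hk
  have hT0 : 0 < T := by linarith
  set L : ℝ := 1 / 4 + T ^ 2 with hL
  have hL1 : 1 ≤ L := by nlinarith
  set M : ℕ → ℕ := fun p => ⌊Real.log T / (8 * k * Real.log p)⌋₊ with hM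
  have hα : ∀ p ∈ P, 1 ≤ (p : ℝ) ^ θ p := by
    intro p hp
    apply Real.one_le_rpow _ (hθ p hp)
    exact_mod_cast (hP p hp).1.one_lt.le
  have hneg : ∀ p ∈ P, (p : ℝ) ^ (-θ p) = ((p : ℝ) ^ θ p)⁻¹ := fun p _ => Real.rpow_neg (by positivity) _
  have hb := fun p (hp : p ∈ P) => ww_bound hT hk (hP p hp).1 (hP p hp).2 (hθ p hp) (M := M p) rfl
  have key := S.count_exceptions hL1 hcusp P (fun p hp => (hP p hp).1) (fun p => (p : ℝ) ^ θ p) hα M a hH k
    (by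
      intro j
      refine (ha j).trans (le_of_eq ?_)
      congr 1
      refine Finset.filter_congr fun p hp => ?_
      rw [hneg p hp])
    (X := T ^ (1 / (4 * k) : ℝ)) (fun p hp => (hb p hp).2)
  refine key.trans ?_
  have h1 : ∑ p ∈ P, ww (M p) ((p : ℝ) ^ θ p) ≤ 192 * (8 * k) ^ 3 *
      ∑ p ∈ P, (Real.log p / Real.log T) ^ 3 * T ^ (-(θ p / (8 * k))) := by
    rw [Finset.mul_sum]
    exact Finset.sum_le_sum fun p hp => (hb p hp).1
  have hw0 : 0 ≤ ∑ p ∈ P, ww (M p) ((p : ℝ) ^ θ p) := by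
    refine Finset.sum_nonneg fun p _ => ?_
    unfold ww
    positivity
  set Z := ∑ p ∈ P, (Real.log p / Real.log T) ^ 3 * T ^ (-(θ p / (8 * k))) with hZ
  have hLT : L ≤ 5 / 4 * T ^ 2 := by
    rw [hL]
    nlinarith
  have hsL : Real.sqrt L ≤ 2 * T := by
    rw [Real.sqrt_le_left (by positivity)]
    nlinarith
  have hcardP : (P.card : ℝ) ≤ T ^ (1 / (8 * k) : ℝ) := by
    have hsub : P ⊆ Finset.Icc 1 ⌊T ^ (1 / (8 * k) : ℝ)⌋₊ := by
      intro p hp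
      rw [Finset.mem_Icc]
      exact ⟨(hP p hp).1.one_lt.le, Nat.le_floor (hP p hp).2⟩
    have h2 := Finset.card_le_card hsub
    rw [Nat.card_Icc, Nat.add_sub_cancel] at h2
    calc (P.card : ℝ) ≤ (⌊T ^ (1 / (8 * k) : ℝ)⌋₊ : ℝ) := by exact_mod_cast h2
      _ ≤ _ := Nat.floor_le (by positivity)
  have hcardk : (P.card : ℝ) ^ k ≤ T ^ (1 / 8 : ℝ) := by
    calc (P.card : ℝ) ^ k ≤ (T ^ (1 / (8 * k) : ℝ)) ^ k := by gcongr
      _ = T ^ (1 / 8 : ℝ) := by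
          rw [← Real.rpow_natCast, ← Real.rpow_mul hT0.le]
          congr 1
          field_simp
  have hXk : ((T ^ (1 / (4 * k) : ℝ)) ^ k) ^ 3 = T ^ (3 / 4 : ℝ) := by
    rw [← Real.rpow_natCast, ← Real.rpow_natCast, ← Real.rpow_mul hT0.le, ← Real.rpow_mul hT0.le]
    congr 1
    push_cast
    field_simp
  refine add_le_add ?_ ?_
  · calc 5125 * L * (∑ p ∈ P, ww (M p) ((p : ℝ) ^ θ p)) ^ k ≤
        5125 * (5 / 4 * T ^ 2) * (192 * (8 * k) ^ 3 * Z) ^ k := by gcongr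
      _ = (5125 * (5 / 4)) * ((192 * (8 * k) ^ 3) ^ k * T ^ 2 * Z ^ k) := by
          rw [mul_pow]
          ring
      _ ≤ 10000 * ((192 * (8 * k) ^ 3) ^ k * T ^ 2 * Z ^ k) := by
          have hZ0 : 0 ≤ Z := by
            refine Finset.sum_nonneg fun p hp => ?_
            have h3 : 0 ≤ Real.log p := Real.log_nonneg (by exact_mod_cast (hP p hp).1.one_lt.le)
            have h4 : 0 ≤ Real.log T := Real.log_nonneg (by linarith)
            positivity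
          gcongr
          norm_num
      _ = _ := by ring
  · rw [hXk]
    calc 10000000000 * (P.card : ℝ) ^ k * T ^ (3 / 4 : ℝ) * Real.sqrt L ≤
        10000000000 * T ^ (1 / 8 : ℝ) * T ^ (3 / 4 : ℝ) * (2 * T) := by gcongr
      _ = 20000000000 * (T ^ (1 / 8 : ℝ) * T ^ (3 / 4 : ℝ) * T ^ (1 : ℝ)) := by
          rw [Real.rpow_one]
          ring
      _ = 20000000000 * T ^ (15 / 8 : ℝ) := by
          rw [← Real.rpow_add hT0, ← Real.rpow_add hT0]
          norm_num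

end Pool.Agent.T2H31
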