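import Pool.Agent.T2H31.Bad1
import Pool.Agent.T2H31.Last

/-! Counting for `Γ₀(N)`. -/

set_option autoImplicit false

namespace Pool.Agent.T2H31

open Complex MeasureTheory Set Function UpperHalfPlane ModularGroup
open scoped ENNReal NNReal MatrixGroups Modular

theorem countable_Gamma0 (N : ℕ) : Countable (CongruenceSubgroup.Gamma0 N) := by
  have := countableSL
  infer_instance

section
variable {N : ℕ} {ι : Type*} [Fintype ι] {f : ι → ℍ → ℝ} {lam : ι → ℝ} {L : ℝ}
  (S : Sys0 (CongruenceSubgroup.Gamma0 N) (rep N) f lam L)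
include S

/-- the pointwise bound at a good point -/
theorem Sys0.good_bound (hN : N.Prime) (hL : 1 ≤ L) {X : ℕ} (c : ℕ × ℕ × ℕ → ℝ) (σ : ι → ℝ)
    (hσ : ∀ j, 1 ≤ σ j ^ 2)
    (hT : ∀ (j : ι) (z : ℍ), ∑ q ∈ IX X, c q * f j (hp q z) = σ j * f j z) {z : ℍ}
    (hz : GoodN N (1 / (2 * Real.sqrt L)) X z) :
    ∑ j, f j z ^ 2 ≤ 2050 * L * ∑ q ∈ IX X, c q ^ 2 := by
  obtain ⟨ρ, hρ⟩ : ∃ ρ : ℝ, ρ = 1 / (16 * Real.sqrt L) := ⟨_, rfl⟩
  obtain ⟨h0, h16⟩ := rho_le hL hρ
  have hs0 : 0 < Real.sqrt L := Real.sqrt_pos.2 (by linarith)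
  have h8 : 8 * ρ = 1 / (2 * Real.sqrt L) := by rw [hρ]; field_simp; norm_num
  rw [← h8] at hz
  set a : ι → ℝ := fun j => σ j * f j z with ha
  have key := S.point_sum (hcovN hN) (IX X) (fun q => hp q z) h0 (by linarith) (M := 2) (by norm_num)
    (fun v => by
      have := mult_goodN h0.le (by linarith) hz v
      simpa using this) a
  have hE := energy_const hL hρ
  set s := ∑ j, a j ^ 2 with hs
  have hs_nonneg : 0 ≤ s := Finset.sum_nonneg fun j _ => sq_nonneg _
  have hc0 : 0 ≤ ∑ q ∈ IX X, c q ^ 2 := Finset.sum_nonneg fun j _ => sq_nonneg _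
  have e1 : s = ∑ q ∈ IX X, c q * ∑ j, a j * f j (hp q z) := by
    calc s = ∑ j, a j * (σ j * f j z) := by
          rw [hs]
          refine Finset.sum_congr rfl fun j _ => ?_
          rw [ha]
          ring
      _ = ∑ j, a j * ∑ q ∈ IX X, c q * f j (hp q z) := by simp_rw [hT]
      _ = ∑ j, ∑ q ∈ IX X, c q * (a j * f j (hp q z)) := by
          refine Finset.sum_congr rfl fun j _ => ?_
          rw [Finset.mul_sum]
          refine Finset.sum_congr rfl fun q _ => by ring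
      _ = ∑ q ∈ IX X, ∑ j, c q * (a j * f j (hp q z)) := Finset.sum_comm
      _ = _ := by
          refine Finset.sum_congr rfl fun q _ => ?_
          rw [Finset.mul_sum]
  have cs := Finset.sum_mul_sq_le_sq_mul_sq (IX X) c fun q => ∑ j, a j * f j (hp q z)
  rw [← e1] at cs
  have h1 : s ^ 2 ≤ (2050 * L * ∑ q ∈ IX X, c q ^ 2) * s := by
    calc s ^ 2 ≤ (∑ q ∈ IX X, c q ^ 2) * ∑ q ∈ IX X, (∑ j, a j * f j (hp q z)) ^ 2 := cs
      _ ≤ (∑ q ∈ IX X, c q ^ 2) * (2 * ((4 / ρ ^ 2 + 4 * ρ ^ 2 * L ^ 2) * s)) := by gcongr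
      _ ≤ (∑ q ∈ IX X, c q ^ 2) * (2 * ((1025 * L) * s)) := by gcongr
      _ = _ := by ring
  have h2 : s ≤ 2050 * L * ∑ q ∈ IX X, c q ^ 2 := by
    rcases hs_nonneg.eq_or_lt with h | h
    · rw [← h]
      positivity
    · rw [sq] at h1
      exact le_of_mul_le_mul_right h1 h
  refine le_trans ?_ h2
  rw [hs]
  refine Finset.sum_le_sum fun j _ => ?_
  rw [ha]
  simp only [mul_pow]
  nlinarith [hσ j, sq_nonneg (f j z)]

/-- the trivial pointwise bound -/
theorem Sys0.triv_bound (hN : N.Prime) (hL : 1 ≤ L) {v : ℍ} (hv : v ∈ (𝒟 : Set ℍ)) (r : Option (Fin N))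
    (hy : v.im ≤ hgt N (Real.sqrt L) r) :
    ∑ j, f j (rep N r • v) ^ 2 ≤ 194481 * 1025 * L := by
  obtain ⟨ρ, hρ⟩ : ∃ ρ : ℝ, ρ = 1 / (16 * Real.sqrt L) := ⟨_, rfl⟩
  obtain ⟨h0, h16⟩ := rho_le hL hρ
  have hs0 : 0 < Real.sqrt L := Real.sqrt_pos.2 (by linarith)
  have hN1 : (1 : ℝ) ≤ N := by exact_mod_cast hN.one_lt.le
  have h8 : 8 * ρ = 1 / (2 * Real.sqrt L) := by rw [hρ]; field_simp; norm_num
  have hnear : Near (CongruenceSubgroup.Gamma0 N) (rep N r • v) ρ 194481 := by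
    refine near_rep hN.pos h0.le h16 hv r (fun hr => ?_) ?_
    · rw [h8, one_div_mul_eq_div, div_le_one (by positivity)]
      rw [hr] at hy
      exact hy
    · rw [h8, one_div_mul_eq_div, div_le_iff₀ (by positivity)]
      refine hy.trans ?_
      rcases r with _ | j
      · rw [hgt]
        nlinarith
      · rw [hgt]
        exact le_of_eq (by ring)
  set z := rep N r • v with hz
  have key := S.point_sum (hcovN hN) ({()} : Finset Unit) (fun _ => z) h0 (by linarith) (M := 194481)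
    (by norm_num)
    (fun w => by
      have := mult_near h0.le (by linarith) hnear w
      simpa using this) (fun j => f j z)
  have hE := energy_const hL hρ
  rw [Finset.sum_singleton] at key
  have e : ∑ j, f j z * f j z = ∑ j, f j z ^ 2 := Finset.sum_congr rfl fun j _ => (sq _).symm
  rw [e] at key
  set s := ∑ j, f j z ^ 2 with hs
  have hs_nonneg : 0 ≤ s := Finset.sum_nonneg fun j _ => sq_nonneg _
  have h1 : s * s ≤ (194481 * 1025 * L) * s := by
    calc s * s = s ^ 2 := (sq s).symm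
      _ ≤ 194481 * ((4 / ρ ^ 2 + 4 * ρ ^ 2 * L ^ 2) * s) := key
      _ ≤ 194481 * ((1025 * L) * s) := by gcongr
      _ = _ := by ring
  rcases hs_nonneg.eq_or_lt with h | h
  · rw [← h]
    positivity
  · exact le_of_mul_le_mul_right h1 h

theorem Sys0.count (hN : N.Prime) (hL : 1 ≤ L)
    (hcusp : ∀ (j : ι) (y : ℝ), 0 < y → ∫ x in (-(1 / 2) : ℝ)..(1 / 2), fc (f j) (pt y x) = 0)
    (hcusp0 : ∀ (j : ι) (y : ℝ), 0 < y → ∫ x in (-(1 / 2) : ℝ)..(-(1 / 2) + N),
      fc (fun u => f j (ModularGroup.S • u)) (pt y x) = 0)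
    {X : ℕ} (hX : 1 ≤ X) (c : ℕ × ℕ × ℕ → ℝ) (σ : ι → ℝ) (hσ : ∀ j, 1 ≤ σ j ^ 2)
    (hT : ∀ (j : ι) (z : ℍ), ∑ q ∈ IX X, c q * f j (hp q z) = σ j * f j z) :
    (Fintype.card ι : ℝ) ≤ 5125 * ((N + 1) * L) * (∑ q ∈ IX X, c q ^ 2) +
      2000000000000 * X ^ 5 * (Real.sqrt N * Real.sqrt L) := by
  have hXr : (1 : ℝ) ≤ X := by exact_mod_cast hX
  have hN1 : (1 : ℝ) ≤ N := by exact_mod_cast hN.one_lt.le
  have hsN1 : 1 ≤ Real.sqrt N := Real.one_le_sqrt.2 hN1
  have hs0 : 0 < Real.sqrt L := Real.sqrt_pos.2 (by linarith)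
  have hs1 : 1 ≤ Real.sqrt L := Real.one_le_sqrt.2 hL
  have hsq : Real.sqrt L ^ 2 = L := Real.sq_sqrt (by linarith)
  have hc0 : 0 ≤ ∑ q ∈ IX X, c q ^ 2 := Finset.sum_nonneg fun j _ => sq_nonneg _
  set K1 : ℝ := 2050 * L * ∑ q ∈ IX X, c q ^ 2 with hK1
  set K2 : ℝ := 194481 * 1025 * L with hK2
  have hK10 : 0 ≤ K1 := by positivity
  have hK20 : 0 ≤ K2 := by positivity
  set ε : ℝ := 1 / (2 * Real.sqrt L) with hε
  have hε0 : 0 < ε := by positivity
  have hε1 : ε ≤ 1 / 2 := by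
    rw [hε, div_le_div_iff₀ (by positivity) (by norm_num)]
    linarith
  -- the measure of the bad set
  obtain ⟨m, hm0, hm, hmK⟩ : ∃ m : ℝ, 0 ≤ m ∧ ∑ r : Option (Fin N), (volume : Measure ℍ) {v : ℍ | v ∈ (𝒟 : Set ℍ) ∧
      ¬ GoodN N ε X (rep N r • v)} ≤ ENNReal.ofReal m ∧
      2 * (K2 * m) ≤ 2000000000000 * X ^ 5 * (Real.sqrt N * Real.sqrt L) := by
    by_cases hXL : (X : ℝ) ≤ Real.sqrt L
    · refine ⟨1400 * X ^ 5 * ε, by positivity, bad_meas0 hN hX hε0 ?_, ?_⟩
      · rw [hε, one_div_mul_eq_div, div_le_iff₀ (by positivity)]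
        linarith
      · have h4 : K2 * (1400 * X ^ 5 * ε) = (194481 * 1025 * 700) * (X ^ 5 * Real.sqrt L) := by
          rw [hK2, hε]
          nth_rewrite 1 [← hsq]
          field_simp
          norm_num
        rw [h4]
        have h5 : (X : ℝ) ^ 5 * Real.sqrt L ≤ X ^ 5 * (Real.sqrt N * Real.sqrt L) := by
          gcongr
          exact le_mul_of_one_le_left hs0.le hsN1
        have h6 : 0 ≤ (X : ℝ) ^ 5 * Real.sqrt L := by positivity
        nlinarith
    · push Not at hXL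
      refine ⟨2700 * X ^ 3 * Real.sqrt N, by positivity, bad_meas1 hN hX hε0 hε1, ?_⟩
      have h4 : L ≤ X * Real.sqrt L := by
        calc L = Real.sqrt L * Real.sqrt L := by rw [← sq, hsq]
          _ ≤ X * Real.sqrt L := by gcongr
      have h7 : (X : ℝ) ^ 4 ≤ X ^ 5 := pow_le_pow_right₀ hXr (by norm_num)
      have h5 : 2 * (K2 * (2700 * X ^ 3 * Real.sqrt N)) ≤
          1100000000000 * (X ^ 5 * (Real.sqrt N * Real.sqrt L)) := by
        calc 2 * (K2 * (2700 * X ^ 3 * Real.sqrt N)) =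
            (2 * 194481 * 1025 * 2700) * (L * (X ^ 3 * Real.sqrt N)) := by rw [hK2]; ring
          _ ≤ 1100000000000 * ((X * Real.sqrt L) * (X ^ 3 * Real.sqrt N)) := by
              gcongr
              norm_num
          _ = 1100000000000 * (X ^ 4 * (Real.sqrt N * Real.sqrt L)) := by ring
          _ ≤ 1100000000000 * (X ^ 5 * (Real.sqrt N * Real.sqrt L)) := by gcongr
      have h6 : 0 ≤ (X : ℝ) ^ 5 * (Real.sqrt N * Real.sqrt L) := by positivity
      linarith
  set B : Option (Fin N) → Set ℍ := fun r =>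
    toMeasurable (volume : Measure ℍ) {v : ℍ | v ∈ (𝒟 : Set ℍ) ∧ ¬ GoodN N ε X (rep N r • v)} with hB
  have hBm : ∀ r, MeasurableSet (B r) := fun r => measurableSet_toMeasurable _ _
  have hBv : ∑ r, (volume : Measure ℍ) (B r) ≤ ENNReal.ofReal m := by
    simp only [hB, measure_toMeasurable]
    exact hm
  have hlow : ∀ r, MeasurableSet ((𝒟 : Set ℍ) ∩ {u | u.im ≤ hgt N (Real.sqrt L) r}) := fun r =>
    meas_fd.inter (meas_im measurableSet_Iic)
  have hone : ∀ j, ∑ r : Option (Fin N), ∫⁻ u in 𝒟, ENNReal.ofReal (f j (rep N r • u) ^ 2) = 1 := by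
    intro j
    have h1 : ∀ r, ∫⁻ u in 𝒟, ENNReal.ofReal (f j (rep N r • u) ^ 2) =
        ENNReal.ofReal (∫ u in 𝒟, f j (rep N r • u) ^ 2) := fun r =>
      (ofReal_integral_eq_lintegral_ofReal (S.sq_int j r) (Filter.Eventually.of_forall fun u => sq_nonneg _)).symm
    simp_rw [h1]
    rw [← ENNReal.ofReal_sum_of_nonneg fun r _ => integral_nonneg fun u => sq_nonneg _, S.norm j,
      ENNReal.ofReal_one]
  have hmj : ∀ j r, Measurable fun u : ℍ => ENNReal.ofReal (f j (rep N r • u) ^ 2) := by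
    intro j r
    have := (S.cont j r).measurable
    exact (this.pow_const 2).ennreal_ofReal
  have h1 : (Fintype.card ι : ℝ≥0∞) ≤ 2 * ∑ r : Option (Fin N),
      ∫⁻ u in 𝒟 ∩ {u | u.im ≤ hgt N (Real.sqrt L) r}, ENNReal.ofReal (∑ j, f j (rep N r • u) ^ 2) := by
    calc (Fintype.card ι : ℝ≥0∞) =
        ∑ j : ι, ∑ r : Option (Fin N), ∫⁻ u in 𝒟, ENNReal.ofReal (f j (rep N r • u) ^ 2) := by
          simp_rw [hone]
          rw [Finset.sum_const, nsmul_eq_mul, mul_one, Finset.card_univ]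
      _ ≤ ∑ j : ι, 2 * ∑ r : Option (Fin N),
          ∫⁻ u in 𝒟 ∩ {u | u.im ≤ hgt N (Real.sqrt L) r}, ENNReal.ofReal (f j (rep N r • u) ^ 2) := by
          refine Finset.sum_le_sum fun j _ => ?_
          refine mass_lowN hN.one_lt.le (S.smooth j) (S.inv j) (S.lap j) (hcusp j) (hcusp0 j) (fun r => ?_) hs1 ?_
          · exact ne_top_of_le_ne_top ENNReal.one_ne_top ((Finset.single_le_sum
              (f := fun r => ∫⁻ u in 𝒟, ENNReal.ofReal (f j (rep N r • u) ^ 2))
              (fun _ _ => zero_le) (Finset.mem_univ r)).trans_eq (hone j))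
          · rw [hsq]
            exact (le_abs_self _).trans (S.bound j)
      _ = 2 * ∑ j : ι, ∑ r : Option (Fin N),
          ∫⁻ u in 𝒟 ∩ {u | u.im ≤ hgt N (Real.sqrt L) r}, ENNReal.ofReal (f j (rep N r • u) ^ 2) := by
          rw [Finset.mul_sum]
      _ = _ := by
          rw [Finset.sum_comm]
          congr 1
          refine Finset.sum_congr rfl fun r _ => ?_
          rw [← lintegral_finsetSum _ fun j _ => hmj j r]
          refine lintegral_congr fun u => ?_
          rw [ENNReal.ofReal_sum_of_nonneg fun j _ => sq_nonneg _]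
  have h2 : ∀ r : Option (Fin N), ∫⁻ u in 𝒟 ∩ {u | u.im ≤ hgt N (Real.sqrt L) r},
      ENNReal.ofReal (∑ j, f j (rep N r • u) ^ 2) ≤
      ENNReal.ofReal (K1 * (5 / 4)) + ENNReal.ofReal K2 * (volume : Measure ℍ) (B r) := by
    intro r
    calc ∫⁻ u in 𝒟 ∩ {u | u.im ≤ hgt N (Real.sqrt L) r}, ENNReal.ofReal (∑ j, f j (rep N r • u) ^ 2) ≤
        ∫⁻ u in 𝒟 ∩ {u | u.im ≤ hgt N (Real.sqrt L) r}, (ENNReal.ofReal K1 +
          (B r).indicator (fun _ => ENNReal.ofReal K2) u) := by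
          refine setLIntegral_mono' (hlow r) fun u hu => ?_
          by_cases hg : GoodN N ε X (rep N r • u)
          · exact (ENNReal.ofReal_le_ofReal (S.good_bound hN hL c σ hσ hT hg)).trans le_self_add
          · have hmem : u ∈ B r := subset_toMeasurable _ _ ⟨hu.1, hg⟩
            rw [indicator_of_mem hmem]
            exact (ENNReal.ofReal_le_ofReal (S.triv_bound hN hL hu.1 r hu.2)).trans le_add_self
      _ = ENNReal.ofReal K1 * volume ((𝒟 : Set ℍ) ∩ {u | u.im ≤ hgt N (Real.sqrt L) r}) +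
          ∫⁻ u in 𝒟 ∩ {u | u.im ≤ hgt N (Real.sqrt L) r}, (B r).indicator (fun _ => ENNReal.ofReal K2) u := by
          rw [lintegral_add_left measurable_const, setLIntegral_const]
      _ ≤ ENNReal.ofReal K1 * ENNReal.ofReal (5 / 4) + ENNReal.ofReal K2 * (volume : Measure ℍ) (B r) := by
          refine add_le_add (mul_le_mul_right ((measure_mono inter_subset_left).trans vol_fd') _) ?_
          refine (setLIntegral_le_lintegral _ _).trans ?_
          rw [lintegral_indicator_const (hBm r)]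
      _ = _ := by
          rw [ENNReal.ofReal_mul hK10]
  have h3 : (Fintype.card ι : ℝ≥0∞) ≤ ENNReal.ofReal (2 * ((N + 1) * (K1 * (5 / 4)) + K2 * m)) := by
    calc (Fintype.card ι : ℝ≥0∞) ≤ 2 * ∑ r : Option (Fin N),
        ∫⁻ u in 𝒟 ∩ {u | u.im ≤ hgt N (Real.sqrt L) r}, ENNReal.ofReal (∑ j, f j (rep N r • u) ^ 2) := h1
      _ ≤ 2 * ∑ r : Option (Fin N), (ENNReal.ofReal (K1 * (5 / 4)) +
          ENNReal.ofReal K2 * (volume : Measure ℍ) (B r)) :=
          mul_le_mul_right (Finset.sum_le_sum fun r _ => h2 r) _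
      _ = 2 * ((N + 1) * ENNReal.ofReal (K1 * (5 / 4)) +
          ENNReal.ofReal K2 * ∑ r : Option (Fin N), (volume : Measure ℍ) (B r)) := by
          rw [Finset.sum_add_distrib, Finset.sum_const, Finset.card_univ, Fintype.card_option,
            Fintype.card_fin, nsmul_eq_mul, Finset.mul_sum]
          push_cast
          rfl
      _ ≤ 2 * ((N + 1) * ENNReal.ofReal (K1 * (5 / 4)) + ENNReal.ofReal K2 * ENNReal.ofReal m) := by
          gcongr
      _ = _ := by
          rw [ENNReal.ofReal_mul (p := 2) (by norm_num), ENNReal.ofReal_add (by positivity) (by positivity),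
            ENNReal.ofReal_mul (p := (N + 1 : ℝ)) (by positivity), ENNReal.ofReal_mul hK20]
          congr 3
          · norm_num
          · rw [ENNReal.ofReal_add (by positivity) (by norm_num), ENNReal.ofReal_natCast, ENNReal.ofReal_one]
  rw [← ENNReal.ofReal_natCast, ENNReal.ofReal_le_ofReal_iff (by positivity)] at h3
  have h6 : (2 : ℝ) * ((N + 1) * (K1 * (5 / 4))) = 5125 * ((N + 1) * L) * ∑ q ∈ IX X, c q ^ 2 := by
    rw [hK1]
    ring
  rw [← h6]
  linarith

end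

end Pool.Agent.T2H31
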