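import Pool.Agent.T2H31.Bad0

/-! Mass below a height for `Γ₀(N)`. -/

set_option autoImplicit false

namespace Pool.Agent.T2H31

open Complex MeasureTheory Set Function UpperHalfPlane ModularGroup
open scoped ENNReal NNReal MatrixGroups Modular

theorem coe_Tpow (j : ℤ) (u : ℍ) : ((ModularGroup.T ^ j • u : ℍ) : ℂ) = u + j := by
  rw [UpperHalfPlane.modular_T_zpow_smul]
  show (((j : ℝ) +ᵥ u : ℍ) : ℂ) = u + j
  simp [add_comm]

theorem fc_Tpow (g : ℍ → ℝ) (j : ℤ) {z : ℂ} (hz : z ∈ HH) :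
    fc (fun u => g (ModularGroup.T ^ j • u)) z = fc g (z + j) := by
  have hz' : 0 < z.im := hz
  have hz1 : 0 < (z + j).im := by simpa using hz'
  simp only [fc]
  congr 1
  apply UpperHalfPlane.ext
  rw [coe_Tpow, ofComplex_apply_of_im_pos hz', ofComplex_apply_of_im_pos hz1]

theorem smooth_Tpow {g : ℍ → ℝ} (hg : Smooth2 g) (j : ℤ) : Smooth2 fun u => g (ModularGroup.T ^ j • u) :=
  smooth_smul hg _

/-- the strips over the translates of the fundamental strip -/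
theorem strip_sum {g : ℍ → ℝ} (hg : Smooth2 g) (N : ℕ) {J : Set ℝ} (hJ : MeasurableSet J) (hJ0 : J ⊆ Ioi 0) :
    ∑ j : Fin N, ∫⁻ u in ST J, ENNReal.ofReal (g (ModularGroup.T ^ ((j : ℕ) : ℤ) • u) ^ 2) =
      ∫⁻ y in J, ENNReal.ofReal (MW (fc g) (-(1 / 2)) N y * (1 / y ^ 2)) := by
  have h1 : ∀ j : Fin N, ∫⁻ u in ST J, ENNReal.ofReal (g (ModularGroup.T ^ ((j : ℕ) : ℤ) • u) ^ 2) =
      ∫⁻ y in J, ENNReal.ofReal ((∫ x in (-(1 / 2) + (j : ℕ) : ℝ)..(-(1 / 2) + ((j : ℕ) + 1 : ℕ)),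
        fc g (pt y x) ^ 2) * (1 / y ^ 2)) := by
    intro j
    rw [strip_eq (smooth_Tpow hg _) hJ hJ0]
    refine setLIntegral_congr_fun hJ fun y hy => ?_
    have hy0 : 0 < y := hJ0 hy
    congr 2
    rw [MM]
    have e : ∀ x : ℝ, fc (fun u => g (ModularGroup.T ^ ((j : ℕ) : ℤ) • u)) (pt y x) ^ 2 =
        (fun x : ℝ => fc g (pt y x) ^ 2) (x + (j : ℕ)) := by
      intro x
      rw [fc_Tpow g _ (pt_mem hy0 x)]
      simp only
      congr 2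
      simp only [pt]
      push_cast
      ring
    rw [intervalIntegral.integral_congr fun x _ => e x,
      intervalIntegral.integral_comp_add_right (fun x : ℝ => fc g (pt y x) ^ 2)]
    congr 1
    push_cast
    ring
  simp_rw [h1]
  have hnn : ∀ (j : ℕ) (y : ℝ), 0 < y → 0 ≤ (∫ x in (-(1 / 2) + j : ℝ)..(-(1 / 2) + (j + 1 : ℕ)),
      fc g (pt y x) ^ 2) * (1 / y ^ 2) := by
    intro j y hy
    refine mul_nonneg (intervalIntegral.integral_nonneg ?_ fun x _ => sq_nonneg _) (by positivity)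
    push_cast
    linarith
  have hmeas : ∀ j : ℕ, AEMeasurable (fun y : ℝ => ENNReal.ofReal
      ((∫ x in (-(1 / 2) + j : ℝ)..(-(1 / 2) + (j + 1 : ℕ)), fc g (pt y x) ^ 2) * (1 / y ^ 2)))
      (volume.restrict J) := by
    intro j
    have hc : ContinuousOn (fun y : ℝ => ∫ x in (-(1 / 2) + j : ℝ)..(-(1 / 2) + (j + 1 : ℕ)),
        fc g (pt y x) ^ 2) (Ioi 0) := fun y hy =>
      (deriv_M' hg _ _ hy).continuousAt.continuousWithinAt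
    have h2 : AEMeasurable (fun y : ℝ => ∫ x in (-(1 / 2) + j : ℝ)..(-(1 / 2) + (j + 1 : ℕ)),
        fc g (pt y x) ^ 2) (volume.restrict J) := (hc.mono hJ0).aemeasurable hJ
    have h3 : Measurable fun y : ℝ => 1 / y ^ 2 := by fun_prop
    exact (h2.mul h3.aemeasurable).ennreal_ofReal
  have h5 := lintegral_finsetSum' (μ := volume.restrict J) (Finset.univ : Finset (Fin N))
    (f := fun (j : Fin N) (y : ℝ) => ENNReal.ofReal
      ((∫ x in (-(1 / 2) + (j : ℕ) : ℝ)..(-(1 / 2) + ((j : ℕ) + 1 : ℕ)), fc g (pt y x) ^ 2) * (1 / y ^ 2)))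
    fun j _ => hmeas j
  rw [← h5]
  refine setLIntegral_congr_fun hJ fun y hy => ?_
  have hy0 : 0 < y := hJ0 hy
  show ∑ j : Fin N, ENNReal.ofReal
      ((∫ x in (-(1 / 2) + (j : ℕ) : ℝ)..(-(1 / 2) + ((j : ℕ) + 1 : ℕ)), fc g (pt y x) ^ 2) * (1 / y ^ 2)) = _
  rw [← ENNReal.ofReal_sum_of_nonneg fun j _ => hnn _ y hy0, ← Finset.sum_mul]
  congr 2
  rw [MW]
  have hci : Continuous fun x : ℝ => fc g (pt y x) ^ 2 := (cont_pt_x (oF hg) hy0).pow 2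
  have h4 := intervalIntegral.sum_integral_adjacent_intervals (a := fun j : ℕ => (-(1 / 2) + j : ℝ))
    (f := fun x : ℝ => fc g (pt y x) ^ 2) (n := N) (μ := volume) fun k _ => hci.intervalIntegrable _ _
  rw [← Fin.sum_univ_eq_sum_range (fun j : ℕ => ∫ x in (-(1 / 2) + j : ℝ)..(-(1 / 2) + (j + 1 : ℕ)),
    fc g (pt y x) ^ 2) N] at h4
  rw [h4]
  simp

theorem mass_low_strip {f : ℍ → ℝ} (hf : Smooth2 f) (hper : ∀ z ∈ HH, fc f (z + 1) = fc f z)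
    {lam : ℝ} (hlap : ∀ u : ℍ, hyp f u = -lam * f u)
    (hcusp : ∀ y : ℝ, 0 < y → ∫ x in (-(1 / 2) : ℝ)..(1 / 2), fc f (pt y x) = 0)
    (hL2 : ∫⁻ u in 𝒟, ENNReal.ofReal (f u ^ 2) ≠ ⊤) {Y : ℝ} (hY : 1 ≤ Y) (hl : lam ≤ Y ^ 2) :
    ∫⁻ u in 𝒟, ENNReal.ofReal (f u ^ 2) ≤
      2 * ∫⁻ u in 𝒟 ∩ {u | u.im ≤ 2 * Y}, ENNReal.ofReal (f u ^ 2) := by
  have hY0 : 0 < Y := by linarith
  have hlap' : ∀ z ∈ HH, z.im ^ 2 * lapl (fc f) z = -lam * fc f z := by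
    intro z hz
    have h := hlap ⟨z, hz⟩
    rw [hyp] at h
    rw [fc, ofComplex_apply_of_im_pos hz]
    exact h
  have hfin : ∫⁻ y in Ici Y, ENNReal.ofReal (MM (fc f) y * (1 / y ^ 2)) ≠ ⊤ := by
    rw [← strip_eq hf measurableSet_Ici fun y hy => hY0.trans_le hy, ← fd_high hY]
    exact ne_top_of_le_ne_top hL2 (lintegral_mono_set inter_subset_left)
  have htail := tail_le hf hper hlap' hcusp hY0 hl hfin
  rw [← strip_eq hf measurableSet_Ici fun y hy => (by linarith : (0 : ℝ) < 2 * Y).trans_le hy,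
    ← strip_eq hf measurableSet_Icc fun y hy => hY0.trans_le hy.1, ← fd_high (by linarith)] at htail
  have hsub : (𝒟 : Set ℍ) ⊆ (𝒟 ∩ {u | u.im ≤ 2 * Y}) ∪ (𝒟 ∩ {u | 2 * Y ≤ u.im}) := by
    intro u hu
    rcases le_total u.im (2 * Y) with h | h
    · exact Or.inl ⟨hu, h⟩
    · exact Or.inr ⟨hu, h⟩
  have hsub2 : ST (Icc Y (2 * Y)) ⊆ (𝒟 ∩ {u | u.im ≤ 2 * Y} : Set ℍ) := by
    intro u hu
    have h1 : u ∈ (𝒟 : Set ℍ) ∩ {u | Y ≤ u.im} := by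
      rw [fd_high hY]
      exact ⟨hu.1, hu.2.1⟩
    exact ⟨h1.1, hu.2.2⟩
  calc ∫⁻ u in 𝒟, ENNReal.ofReal (f u ^ 2) ≤
      ∫⁻ u in (𝒟 ∩ {u | u.im ≤ 2 * Y}) ∪ (𝒟 ∩ {u | 2 * Y ≤ u.im}), ENNReal.ofReal (f u ^ 2) :=
        lintegral_mono_set hsub
    _ ≤ (∫⁻ u in 𝒟 ∩ {u | u.im ≤ 2 * Y}, ENNReal.ofReal (f u ^ 2)) +
        ∫⁻ u in 𝒟 ∩ {u | 2 * Y ≤ u.im}, ENNReal.ofReal (f u ^ 2) := lintegral_union_le _ _ _
    _ ≤ (∫⁻ u in 𝒟 ∩ {u | u.im ≤ 2 * Y}, ENNReal.ofReal (f u ^ 2)) +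
        ∫⁻ u in 𝒟 ∩ {u | u.im ≤ 2 * Y}, ENNReal.ofReal (f u ^ 2) := by
        exact add_le_add le_rfl (htail.trans (lintegral_mono_set hsub2))
    _ = 2 * ∫⁻ u in 𝒟 ∩ {u | u.im ≤ 2 * Y}, ENNReal.ofReal (f u ^ 2) := (two_mul _).symm

/-- the same at a cusp of width `N` -/
theorem mass_low_wide {g : ℍ → ℝ} (hg : Smooth2 g) {N : ℕ} (hN : 1 ≤ N)
    (hper : ∀ z ∈ HH, fc g (z + (N : ℝ)) = fc g z)
    {lam : ℝ} (hlap : ∀ u : ℍ, hyp g u = -lam * g u)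
    (hcusp : ∀ y : ℝ, 0 < y → ∫ x in (-(1 / 2) : ℝ)..(-(1 / 2) + N), fc g (pt y x) = 0)
    (hL2 : ∀ j : Fin N, ∫⁻ u in 𝒟, ENNReal.ofReal (g (ModularGroup.T ^ ((j : ℕ) : ℤ) • u) ^ 2) ≠ ⊤)
    {Y : ℝ} (hY : 1 ≤ Y) (hl : lam ≤ Y ^ 2) :
    ∑ j : Fin N, ∫⁻ u in 𝒟, ENNReal.ofReal (g (ModularGroup.T ^ ((j : ℕ) : ℤ) • u) ^ 2) ≤
      2 * ∑ j : Fin N, ∫⁻ u in 𝒟 ∩ {u | u.im ≤ 2 * (N * Y)},
        ENNReal.ofReal (g (ModularGroup.T ^ ((j : ℕ) : ℤ) • u) ^ 2) := by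
  have hNr : (1 : ℝ) ≤ N := by exact_mod_cast hN
  have hNY : 1 ≤ N * Y := by nlinarith
  have hY0 : 0 < N * Y := by linarith
  have hlap' : ∀ z ∈ HH, z.im ^ 2 * lapl (fc g) z = -lam * fc g z := by
    intro z hz
    have h := hlap ⟨z, hz⟩
    rw [hyp] at h
    rw [fc, ofComplex_apply_of_im_pos hz]
    exact h
  have hfin : ∫⁻ y in Ici (N * Y), ENNReal.ofReal (MW (fc g) (-(1 / 2)) N y * (1 / y ^ 2)) ≠ ⊤ := by
    rw [← strip_sum hg N measurableSet_Ici fun y hy => hY0.trans_le hy, ← fd_high hNY]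
    rw [ENNReal.sum_ne_top]
    exact fun j _ => ne_top_of_le_ne_top (hL2 j) (lintegral_mono_set inter_subset_left)
  have htail := tail_leW (a := -(1 / 2)) hg (w := N) (by positivity) hper hlap' hcusp hY0
    (by rw [mul_pow, mul_comm]; gcongr) hfin
  rw [← strip_sum hg N measurableSet_Ici fun y hy => (by linarith : (0 : ℝ) < 2 * (N * Y)).trans_le hy,
    ← strip_sum hg N measurableSet_Icc fun y hy => hY0.trans_le hy.1, ← fd_high (by linarith)] at htail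
  have hsub : (𝒟 : Set ℍ) ⊆ (𝒟 ∩ {u | u.im ≤ 2 * (N * Y)}) ∪ (𝒟 ∩ {u | 2 * (N * Y) ≤ u.im}) := by
    intro u hu
    rcases le_total u.im (2 * (N * Y)) with h | h
    · exact Or.inl ⟨hu, h⟩
    · exact Or.inr ⟨hu, h⟩
  have hsub2 : ST (Icc (N * Y) (2 * (N * Y))) ⊆ (𝒟 ∩ {u | u.im ≤ 2 * (N * Y)} : Set ℍ) := by
    intro u hu
    have h1 : u ∈ (𝒟 : Set ℍ) ∩ {u | N * Y ≤ u.im} := by
      rw [fd_high hNY]
      exact ⟨hu.1, hu.2.1⟩
    exact ⟨h1.1, hu.2.2⟩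
  calc ∑ j : Fin N, ∫⁻ u in 𝒟, ENNReal.ofReal (g (ModularGroup.T ^ ((j : ℕ) : ℤ) • u) ^ 2) ≤
      ∑ j : Fin N, ((∫⁻ u in 𝒟 ∩ {u | u.im ≤ 2 * (N * Y)},
        ENNReal.ofReal (g (ModularGroup.T ^ ((j : ℕ) : ℤ) • u) ^ 2)) +
        ∫⁻ u in 𝒟 ∩ {u | 2 * (N * Y) ≤ u.im}, ENNReal.ofReal (g (ModularGroup.T ^ ((j : ℕ) : ℤ) • u) ^ 2)) :=
        Finset.sum_le_sum fun j _ => (lintegral_mono_set hsub).trans (lintegral_union_le _ _ _)
    _ = (∑ j : Fin N, ∫⁻ u in 𝒟 ∩ {u | u.im ≤ 2 * (N * Y)},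
        ENNReal.ofReal (g (ModularGroup.T ^ ((j : ℕ) : ℤ) • u) ^ 2)) +
        ∑ j : Fin N, ∫⁻ u in 𝒟 ∩ {u | 2 * (N * Y) ≤ u.im},
          ENNReal.ofReal (g (ModularGroup.T ^ ((j : ℕ) : ℤ) • u) ^ 2) := Finset.sum_add_distrib
    _ ≤ (∑ j : Fin N, ∫⁻ u in 𝒟 ∩ {u | u.im ≤ 2 * (N * Y)},
        ENNReal.ofReal (g (ModularGroup.T ^ ((j : ℕ) : ℤ) • u) ^ 2)) +
        ∑ j : Fin N, ∫⁻ u in 𝒟 ∩ {u | u.im ≤ 2 * (N * Y)},
          ENNReal.ofReal (g (ModularGroup.T ^ ((j : ℕ) : ℤ) • u) ^ 2) :=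
        add_le_add le_rfl (htail.trans (Finset.sum_le_sum fun j _ => lintegral_mono_set hsub2))
    _ = _ := (two_mul _).symm

/-- the height below which half of the mass sits -/
noncomputable def hgt (N : ℕ) (Y : ℝ) : Option (Fin N) → ℝ
  | none => 2 * Y
  | some _ => 2 * (N * Y)

theorem mass_lowN {N : ℕ} (hN : 1 ≤ N) {f : ℍ → ℝ} (hf : Smooth2 f)
    (hinv : ∀ (γ : CongruenceSubgroup.Gamma0 N) (z : ℍ), f ((γ : SL(2, ℤ)) • z) = f z)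
    {lam : ℝ} (hlap : ∀ u : ℍ, hyp f u = -lam * f u)
    (hcusp : ∀ y : ℝ, 0 < y → ∫ x in (-(1 / 2) : ℝ)..(1 / 2), fc f (pt y x) = 0)
    (hcusp0 : ∀ y : ℝ, 0 < y → ∫ x in (-(1 / 2) : ℝ)..(-(1 / 2) + N),
      fc (fun u => f (ModularGroup.S • u)) (pt y x) = 0)
    (hL2 : ∀ r : Option (Fin N), ∫⁻ u in 𝒟, ENNReal.ofReal (f (rep N r • u) ^ 2) ≠ ⊤)
    {Y : ℝ} (hY : 1 ≤ Y) (hl : lam ≤ Y ^ 2) :
    ∑ r : Option (Fin N), ∫⁻ u in 𝒟, ENNReal.ofReal (f (rep N r • u) ^ 2) ≤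
      2 * ∑ r : Option (Fin N), ∫⁻ u in 𝒟 ∩ {u | u.im ≤ hgt N Y r}, ENNReal.ofReal (f (rep N r • u) ^ 2) := by
  have hper : ∀ z ∈ HH, fc f (z + 1) = fc f z := by
    intro z hz
    have hT : ModularGroup.T ∈ CongruenceSubgroup.Gamma0 N := mem_of_dvd (by simp [ModularGroup.coe_T])
    have h := fc_Tpow f 1 hz
    have e : fc (fun u => f (ModularGroup.T ^ (1 : ℤ) • u)) z = fc f z := by
      simp only [fc, zpow_one]
      exact hinv ⟨_, hT⟩ _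
    rw [e] at h
    rw [h]
    simp
  have hperN : ∀ z ∈ HH, fc (fun u => f (ModularGroup.S • u)) (z + (N : ℝ)) =
      fc (fun u => f (ModularGroup.S • u)) z := by
    intro z hz
    have h := fc_Tpow (fun u => f (ModularGroup.S • u)) (N : ℤ) hz
    have hmem : ModularGroup.S * ModularGroup.T ^ (N : ℤ) * ModularGroup.S⁻¹ ∈ CongruenceSubgroup.Gamma0 N := by
      apply mem_of_dvd
      rw [conj_entry, ModularGroup.coe_S, ModularGroup.coe_T_zpow]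
      simp
    have e : fc (fun u => f (ModularGroup.S • ModularGroup.T ^ (N : ℤ) • u)) z =
        fc (fun u => f (ModularGroup.S • u)) z := by
      simp only [fc]
      have h3 := hinv ⟨_, hmem⟩ (ModularGroup.S • (ofComplex z : ℍ))
      rw [← h3]
      congr 1
      simp only [← mul_smul]
      congr 1
      group
    rw [e] at h
    rw [h]
    congr 1
  have h1 := mass_low_strip hf hper hlap hcusp (by simpa [rep] using hL2 none) hY hl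
  have h2 := mass_low_wide (g := fun u => f (ModularGroup.S • u)) (smooth_smul hf _) hN hperN (fun u => by
      rw [hyp_smul hf]
      exact hlap _) hcusp0 (fun j => by
        have := hL2 (some j)
        simpa only [rep, mul_smul] using this) hY hl
  rw [Fintype.sum_option, Fintype.sum_option, mul_add]
  refine add_le_add ?_ ?_
  · simpa only [rep, one_smul, hgt] using h1
  · simpa only [rep, mul_smul, hgt] using h2

end Pool.Agent.T2H31
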