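import Pool.Agent.T2H31.Bad

/-! The mean square on horocycles. -/

set_option autoImplicit false

namespace Pool.Agent.T2H31

open Complex MeasureTheory Set Function

theorem hasDerivAt_param_on {G G' : ℝ → ℝ → ℝ} {U : Set ℝ} (hU : IsOpen U)
    (hG : ContinuousOn (uncurry G) (U ×ˢ univ)) (hG' : ContinuousOn (uncurry G') (U ×ˢ univ))
    (h : ∀ r ∈ U, ∀ θ, HasDerivAt (fun s => G s θ) (G' r θ) r) (a b : ℝ) {r : ℝ} (hr : r ∈ U) :
    HasDerivAt (fun s => ∫ θ in a..b, G s θ) (∫ θ in a..b, G' r θ) r := by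
  obtain ⟨δ, hδ, hsub⟩ := Metric.nhds_basis_closedBall.mem_iff.1 (hU.mem_nhds hr)
  have hcomp : IsCompact ((Metric.closedBall r δ) ×ˢ (uIcc a b)) :=
    (isCompact_closedBall r δ).prod isCompact_uIcc
  obtain ⟨C, hC⟩ := hcomp.exists_bound_of_continuousOn (f := uncurry G')
    (hG'.mono (prod_mono hsub (subset_univ _)))
  have hc : ∀ (H : ℝ → ℝ → ℝ), ContinuousOn (uncurry H) (U ×ˢ univ) → ∀ x ∈ U, Continuous (H x) := by
    intro H hH x hx
    have : H x = fun θ => uncurry H (x, θ) := rfl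
    rw [this]
    exact hH.comp_continuous (by fun_prop) fun θ => ⟨hx, mem_univ _⟩
  refine (intervalIntegral.hasDerivAt_integral_of_dominated_loc_of_deriv_le (bound := fun _ => C)
    (F' := G') (Metric.ball_mem_nhds r hδ) ?_ ?_ ?_ ?_ ?_ ?_).2
  · filter_upwards [Metric.ball_mem_nhds r hδ] with x hx
    exact (hc G hG x (hsub (Metric.ball_subset_closedBall hx))).aestronglyMeasurable
  · exact (hc G hG r hr).intervalIntegrable _ _
  · exact (hc G' hG' r hr).aestronglyMeasurable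
  · refine Filter.Eventually.of_forall fun θ hθ x hx => ?_
    exact hC (x, θ) ⟨Metric.ball_subset_closedBall hx, uIoc_subset_uIcc hθ⟩
  · exact intervalIntegrable_const
  · exact Filter.Eventually.of_forall fun θ _ x hx => h x (hsub (Metric.ball_subset_closedBall hx)) θ

/-- the point `x + i y` -/
noncomputable def pt (y x : ℝ) : ℂ := (x : ℂ) + (y : ℂ) * I

theorem pt_mem {y : ℝ} (hy : 0 < y) (x : ℝ) : pt y x ∈ HH := by
  show 0 < (pt y x).im
  simpa [pt] using hy

theorem cont_pt : Continuous (uncurry pt) := by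
  unfold pt uncurry; fun_prop

theorem deriv_pt_y (y x : ℝ) : HasDerivAt (fun s : ℝ => pt s x) I y := by
  have := ((Complex.ofRealCLM.hasDerivAt (x := y)).mul_const I).const_add (x : ℂ)
  simpa [pt] using this

theorem deriv_pt_x (y x : ℝ) : HasDerivAt (fun s : ℝ => pt y s) 1 x := by
  have := ((Complex.ofRealCLM.hasDerivAt (x := x))).add_const ((y : ℂ) * I)
  simpa [pt] using this

section
variable {F : ℂ → ℝ} (hF : ContDiffOn ℝ 2 F HH)
include hF

theorem oF : ContinuousOn F HH := hF.continuousOn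
theorem oF1 : ContinuousOn (fderiv ℝ F) HH := hF.continuousOn_fderiv_of_isOpen isOpen_HH (by norm_num)
theorem oF2 : ContinuousOn (fderiv ℝ (fderiv ℝ F)) HH :=
  (hF.fderiv_of_isOpen isOpen_HH (m := 1) (by norm_num)).continuousOn_fderiv_of_isOpen isOpen_HH (by norm_num)
theorem odF {z : ℂ} (hz : z ∈ HH) : HasFDerivAt F (fderiv ℝ F z) z :=
  ((hF.contDiffAt (isOpen_HH.mem_nhds hz)).differentiableAt (by norm_num)).hasFDerivAt
theorem odF1 {z : ℂ} (hz : z ∈ HH) : HasFDerivAt (fderiv ℝ F) (fderiv ℝ (fderiv ℝ F) z) z :=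
  (((hF.fderiv_of_isOpen isOpen_HH (m := 1) (by norm_num)).contDiffAt
    (isOpen_HH.mem_nhds hz)).differentiableAt (by norm_num)).hasFDerivAt

omit hF in
theorem cont_pt_comp {E : Type*} [TopologicalSpace E] {H : ℂ → E} (hH : ContinuousOn H HH) :
    ContinuousOn (fun p : ℝ × ℝ => H (pt p.1 p.2)) (Ioi 0 ×ˢ univ) :=
  hH.comp cont_pt.continuousOn fun p hp => pt_mem hp.1 _

omit hF in
theorem cont_pt_x {E : Type*} [TopologicalSpace E] {H : ℂ → E} (hH : ContinuousOn H HH) {y : ℝ} (hy : 0 < y) :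
    Continuous fun x : ℝ => H (pt y x) :=
  hH.comp_continuous (by unfold pt; fun_prop) fun x => pt_mem hy x

theorem deriv_M {y : ℝ} (hy : 0 < y) :
    HasDerivAt (fun s : ℝ => ∫ x in (-(1 / 2) : ℝ)..(1 / 2), F (pt s x) ^ 2)
      (∫ x in (-(1 / 2) : ℝ)..(1 / 2), 2 * F (pt y x) * fderiv ℝ F (pt y x) I) y := by
  have c0 := cont_pt_comp (oF hF)
  have c1 := cont_pt_comp (oF1 hF)
  refine hasDerivAt_param_on (G := fun s x => F (pt s x) ^ 2)
    (G' := fun s x => 2 * F (pt s x) * fderiv ℝ F (pt s x) I) isOpen_Ioi ?_ ?_ ?_ _ _ hy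
  · exact c0.pow 2
  · exact (continuousOn_const.mul c0).mul (c1.clm_apply continuousOn_const)
  · intro r hr x
    have := ((odF hF (pt_mem hr x)).comp_hasDerivAt r (deriv_pt_y r x)).pow 2
    refine this.congr_deriv ?_
    simp [Function.comp]

theorem deriv_N {y : ℝ} (hy : 0 < y) :
    HasDerivAt (fun s : ℝ => ∫ x in (-(1 / 2) : ℝ)..(1 / 2), 2 * F (pt s x) * fderiv ℝ F (pt s x) I)
      (∫ x in (-(1 / 2) : ℝ)..(1 / 2), (2 * (fderiv ℝ F (pt y x) I) ^ 2 +
        2 * F (pt y x) * fderiv ℝ (fderiv ℝ F) (pt y x) I I)) y := by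
  have c0 := cont_pt_comp (oF hF)
  have c1 := cont_pt_comp (oF1 hF)
  have c2 := cont_pt_comp (oF2 hF)
  refine hasDerivAt_param_on (G := fun s x => 2 * F (pt s x) * fderiv ℝ F (pt s x) I)
    (G' := fun s x => 2 * (fderiv ℝ F (pt s x) I) ^ 2 +
        2 * F (pt s x) * fderiv ℝ (fderiv ℝ F) (pt s x) I I) isOpen_Ioi ?_ ?_ ?_ _ _ hy
  · exact (continuousOn_const.mul c0).mul (c1.clm_apply continuousOn_const)
  · exact (continuousOn_const.mul ((c1.clm_apply continuousOn_const).pow 2)).add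
      ((continuousOn_const.mul c0).mul ((c2.clm_apply continuousOn_const).clm_apply continuousOn_const))
  · intro r hr x
    have h1 := ((odF hF (pt_mem hr x)).comp_hasDerivAt r (deriv_pt_y r x)).const_mul 2
    have h2 := (odF1 hF (pt_mem hr x)).comp_hasDerivAt r (deriv_pt_y r x)
    have h3 := h2.clm_apply (hasDerivAt_const r I)
    have h4 := h1.mul h3
    refine h4.congr_deriv ?_
    simp only [Function.comp, map_zero, zero_add]
    ring

omit hF in
theorem fderiv_per (hper : ∀ z ∈ HH, F (z + 1) = F z) {z : ℂ} (hz : z ∈ HH) :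
    fderiv ℝ F (z + 1) = fderiv ℝ F z := by
  have h1 : (fun w => F (w + 1)) =ᶠ[nhds z] F := by
    filter_upwards [isOpen_HH.mem_nhds hz] with w hw using hper w hw
  rw [← h1.fderiv_eq, fderiv_comp_add_right]

theorem by_parts (hper : ∀ z ∈ HH, F (z + 1) = F z) {y : ℝ} (hy : 0 < y) :
    ∫ x in (-(1 / 2) : ℝ)..(1 / 2), F (pt y x) * fderiv ℝ (fderiv ℝ F) (pt y x) 1 1 =
      - ∫ x in (-(1 / 2) : ℝ)..(1 / 2), (fderiv ℝ F (pt y x) 1) ^ 2 := by
  have c0 := cont_pt_x (oF hF) hy
  have c1 := cont_pt_x (oF1 hF) hy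
  have c2 := cont_pt_x (oF2 hF) hy
  have hd : ∀ x : ℝ, HasDerivAt (fun x : ℝ => F (pt y x) * fderiv ℝ F (pt y x) 1)
      ((fderiv ℝ F (pt y x) 1) ^ 2 + F (pt y x) * fderiv ℝ (fderiv ℝ F) (pt y x) 1 1) x := by
    intro x
    have h1 := (odF hF (pt_mem hy x)).comp_hasDerivAt x (deriv_pt_x y x)
    have h2 := (odF1 hF (pt_mem hy x)).comp_hasDerivAt x (deriv_pt_x y x)
    have h3 := h2.clm_apply (hasDerivAt_const x 1)
    have h4 := h1.mul h3
    refine h4.congr_deriv ?_
    simp only [Function.comp, map_zero, zero_add]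
    ring
  have i1 : Continuous fun x : ℝ => (fderiv ℝ F (pt y x) 1) ^ 2 := (c1.clm_apply continuous_const).pow 2
  have i2 : Continuous fun x : ℝ => F (pt y x) * fderiv ℝ (fderiv ℝ F) (pt y x) 1 1 :=
    c0.mul ((c2.clm_apply continuous_const).clm_apply continuous_const)
  have h0 : ∫ x in (-(1 / 2) : ℝ)..(1 / 2), ((fderiv ℝ F (pt y x) 1) ^ 2 +
      F (pt y x) * fderiv ℝ (fderiv ℝ F) (pt y x) 1 1) = 0 := by
    rw [intervalIntegral.integral_eq_sub_of_hasDerivAt (fun x _ => hd x)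
      ((i1.add i2).intervalIntegrable _ _)]
    have e : pt y (1 / 2) = pt y (-(1 / 2)) + 1 := by
      unfold pt; push_cast; ring
    rw [e, hper _ (pt_mem hy _), fderiv_per hper (pt_mem hy _), sub_self]
  rw [intervalIntegral.integral_add (i1.intervalIntegrable _ _) (i2.intervalIntegrable _ _)] at h0
  linarith

theorem poincare {y : ℝ} (hy : 0 < y) (hmean : ∫ x in (-(1 / 2) : ℝ)..(1 / 2), F (pt y x) = 0) :
    ∫ x in (-(1 / 2) : ℝ)..(1 / 2), F (pt y x) ^ 2 ≤
      ∫ x in (-(1 / 2) : ℝ)..(1 / 2), (fderiv ℝ F (pt y x) 1) ^ 2 := by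
  have c0 := cont_pt_x (oF hF) hy
  have c1 := cont_pt_x (oF1 hF) hy
  have i0 : Continuous fun x : ℝ => fderiv ℝ F (pt y x) 1 := c1.clm_apply continuous_const
  set K := ∫ x in (-(1 / 2) : ℝ)..(1 / 2), (fderiv ℝ F (pt y x) 1) ^ 2 with hK
  have hK0 : 0 ≤ K := intervalIntegral.integral_nonneg (by norm_num) fun x _ => sq_nonneg _
  have hA : ∀ s ∈ Icc (-(1 / 2) : ℝ) (1 / 2), ∀ t ∈ Icc (-(1 / 2) : ℝ) (1 / 2), s ≤ t →
      |F (pt y t) - F (pt y s)| ≤ Real.sqrt K := by
    intro s hs t ht hst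
    have e : F (pt y t) - F (pt y s) = ∫ x in s..t, fderiv ℝ F (pt y x) 1 := by
      rw [intervalIntegral.integral_eq_sub_of_hasDerivAt
        (fun x _ => (odF hF (pt_mem hy x)).comp_hasDerivAt x (deriv_pt_x y x))
        (i0.intervalIntegrable _ _)]
      rfl
    rw [e]
    apply Real.abs_le_sqrt
    have h1 := cs_weight (w := fun _ => 1) continuous_const
      (f := fun x => fderiv ℝ F (pt y x) 1) i0 hst (fun _ _ => zero_le_one)
    simp only [one_mul, intervalIntegral.integral_const, smul_eq_mul, mul_one] at h1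
    have h2 : ∫ x in s..t, (fderiv ℝ F (pt y x) 1) ^ 2 ≤ K := by
      rw [hK]
      apply intervalIntegral.integral_mono_interval hs.1 hst ht.2
      · exact Filter.Eventually.of_forall fun x => sq_nonneg _
      · exact (i0.pow 2).intervalIntegrable _ _
    have h3 : 0 ≤ ∫ x in s..t, (fderiv ℝ F (pt y x) 1) ^ 2 :=
      intervalIntegral.integral_nonneg hst fun x _ => sq_nonneg _
    have h4 : t - s ≤ 1 := by linarith [hs.1, ht.2]
    nlinarith
  have hB : ∀ s ∈ Icc (-(1 / 2) : ℝ) (1 / 2), ∀ t ∈ Icc (-(1 / 2) : ℝ) (1 / 2),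
      |F (pt y t) - F (pt y s)| ≤ Real.sqrt K := by
    intro s hs t ht
    rcases le_total s t with h | h
    · exact hA s hs t ht h
    · rw [abs_sub_comm]; exact hA t ht s hs h
  have hC : ∀ t ∈ Icc (-(1 / 2) : ℝ) (1 / 2), F (pt y t) ^ 2 ≤ K := by
    intro t ht
    have e : F (pt y t) = ∫ s in (-(1 / 2) : ℝ)..(1 / 2), (F (pt y t) - F (pt y s)) := by
      rw [intervalIntegral.integral_sub (intervalIntegrable_const)
        (c0.intervalIntegrable _ _), hmean, intervalIntegral.integral_const]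
      norm_num
    have h5 : |F (pt y t)| ≤ Real.sqrt K := by
      rw [e, ← Real.norm_eq_abs]
      have := intervalIntegral.norm_integral_le_of_norm_le_const
        (f := fun s => F (pt y t) - F (pt y s)) (a := -(1 / 2)) (b := 1 / 2) (C := Real.sqrt K) (by
          intro s hs
          rw [uIoc_of_le (by norm_num)] at hs
          exact hB s (Ioc_subset_Icc_self hs) t ht)
      norm_num at this
      exact this
    rw [← sq_abs]
    calc |F (pt y t)| ^ 2 ≤ Real.sqrt K ^ 2 := by gcongr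
      _ = K := Real.sq_sqrt hK0
  have := intervalIntegral.integral_mono_on (f := fun x => F (pt y x) ^ 2) (g := fun _ => K)
    (a := -(1 / 2)) (b := 1 / 2) (μ := volume) (by norm_num)
    ((c0.pow 2).intervalIntegrable _ _) intervalIntegrable_const hC
  rw [intervalIntegral.integral_const] at this
  norm_num at this
  exact this

end

end Pool.Agent.T2H31
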