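import Pool.Agent.T2H31.Cusp1

/-! The mass in the cusp. -/

set_option autoImplicit false

namespace Pool.Agent.T2H31

open Complex MeasureTheory Set Function
open scoped ENNReal

/-- the mean square on the horocycle of height `y` -/
noncomputable def MM (F : ℂ → ℝ) (y : ℝ) : ℝ := ∫ x in (-(1 / 2) : ℝ)..(1 / 2), F (pt y x) ^ 2

noncomputable def NN (F : ℂ → ℝ) (y : ℝ) : ℝ :=
  ∫ x in (-(1 / 2) : ℝ)..(1 / 2), 2 * F (pt y x) * fderiv ℝ F (pt y x) I

theorem MM_nonneg (F : ℂ → ℝ) (y : ℝ) : 0 ≤ MM F y :=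
  intervalIntegral.integral_nonneg (by norm_num) fun x _ => sq_nonneg _

theorem lintegral_inv_sq_Icc {Y : ℝ} (hY : 0 < Y) :
    ∫⁻ y in Icc Y (2 * Y), ENNReal.ofReal (1 / y ^ 2) = ENNReal.ofReal (1 / (2 * Y)) := by
  have h1 : ∫⁻ y in Ici Y, ENNReal.ofReal (1 / y ^ 2) =
      (∫⁻ y in Ico Y (2 * Y), ENNReal.ofReal (1 / y ^ 2)) + ∫⁻ y in Ici (2 * Y), ENNReal.ofReal (1 / y ^ 2) := by
    have hd : Disjoint (Ico Y (2 * Y)) (Ici (2 * Y)) :=
      Set.disjoint_left.2 fun y h1 h2 => absurd h1.2 (not_lt.2 h2)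
    rw [← Ico_union_Ici_eq_Ici (by linarith : Y ≤ 2 * Y), lintegral_union measurableSet_Ici hd]
  rw [lintegral_inv_sq hY, lintegral_inv_sq (by linarith : (0 : ℝ) < 2 * Y)] at h1
  have h2 : ENNReal.ofReal (1 / Y) = ENNReal.ofReal (1 / (2 * Y)) + ENNReal.ofReal (1 / (2 * Y)) := by
    rw [← ENNReal.ofReal_add (by positivity) (by positivity)]
    congr 1
    field_simp
    norm_num
  rw [h2] at h1
  have h3 : ENNReal.ofReal (1 / (2 * Y)) = ∫⁻ y in Ico Y (2 * Y), ENNReal.ofReal (1 / y ^ 2) := by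
    have hne : ENNReal.ofReal (1 / (2 * Y)) ≠ ⊤ := ENNReal.ofReal_ne_top
    exact (ENNReal.add_left_inj hne).1 h1
  rw [h3]
  exact setLIntegral_congr Ico_ae_eq_Icc.symm

section
variable {F : ℂ → ℝ} (hF : ContDiffOn ℝ 2 F HH) (hper : ∀ z ∈ HH, F (z + 1) = F z) {lam : ℝ}
  (hlap : ∀ z ∈ HH, z.im ^ 2 * lapl F z = -lam * F z)
  (hmean : ∀ y : ℝ, 0 < y → ∫ x in (-(1 / 2) : ℝ)..(1 / 2), F (pt y x) = 0)
include hF hper hlap hmean

theorem deriv_NN_nonneg {y : ℝ} (hy : 0 < y) (hl : lam ≤ y ^ 2) :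
    0 ≤ ∫ x in (-(1 / 2) : ℝ)..(1 / 2), (2 * (fderiv ℝ F (pt y x) I) ^ 2 +
        2 * F (pt y x) * fderiv ℝ (fderiv ℝ F) (pt y x) I I) := by
  have c0 := cont_pt_x (oF hF) hy
  have c1 := cont_pt_x (oF1 hF) hy
  have c2 := cont_pt_x (oF2 hF) hy
  have i1 : Continuous fun x : ℝ => (fderiv ℝ F (pt y x) I) ^ 2 := (c1.clm_apply continuous_const).pow 2
  have i2 : Continuous fun x : ℝ => F (pt y x) * fderiv ℝ (fderiv ℝ F) (pt y x) 1 1 :=
    c0.mul ((c2.clm_apply continuous_const).clm_apply continuous_const)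
  have i3 : Continuous fun x : ℝ => F (pt y x) ^ 2 := c0.pow 2
  have e : ∀ x : ℝ, 2 * (fderiv ℝ F (pt y x) I) ^ 2 + 2 * F (pt y x) * fderiv ℝ (fderiv ℝ F) (pt y x) I I =
      (2 * (fderiv ℝ F (pt y x) I) ^ 2 + (-(2 * (lam / y ^ 2))) * F (pt y x) ^ 2) +
        (-2) * (F (pt y x) * fderiv ℝ (fderiv ℝ F) (pt y x) 1 1) := by
    intro x
    have h := hlap _ (pt_mem hy x)
    have him : (pt y x).im = y := by simp [pt]
    rw [him, lapl] at h
    have h2 : fderiv ℝ (fderiv ℝ F) (pt y x) I I = -lam / y ^ 2 * F (pt y x) -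
        fderiv ℝ (fderiv ℝ F) (pt y x) 1 1 := by
      have hy2 : y ^ 2 ≠ 0 := by positivity
      field_simp
      linarith
    rw [h2]
    ring
  simp_rw [e]
  have j1 : Continuous fun x : ℝ => 2 * (fderiv ℝ F (pt y x) I) ^ 2 := continuous_const.mul i1
  have j2 : Continuous fun x : ℝ => (-2) * (F (pt y x) * fderiv ℝ (fderiv ℝ F) (pt y x) 1 1) :=
    continuous_const.mul i2
  have j3 : Continuous fun x : ℝ => (-(2 * (lam / y ^ 2))) * F (pt y x) ^ 2 := continuous_const.mul i3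
  have j4 : Continuous fun x : ℝ => 2 * (fderiv ℝ F (pt y x) I) ^ 2 +
      (-(2 * (lam / y ^ 2))) * F (pt y x) ^ 2 := j1.add j3
  rw [intervalIntegral.integral_add (j4.intervalIntegrable _ _) (j2.intervalIntegrable _ _),
    intervalIntegral.integral_add (j1.intervalIntegrable _ _) (j3.intervalIntegrable _ _),
    intervalIntegral.integral_const_mul, intervalIntegral.integral_const_mul,
    intervalIntegral.integral_const_mul, by_parts hF hper hy]
  have hp := poincare hF hy (hmean y hy)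
  have hM := MM_nonneg F y
  rw [MM] at hM
  have h1 : 0 ≤ ∫ x in (-(1 / 2) : ℝ)..(1 / 2), (fderiv ℝ F (pt y x) I) ^ 2 :=
    intervalIntegral.integral_nonneg (by norm_num) fun x _ => sq_nonneg _
  have h2 : lam / y ^ 2 ≤ 1 := by
    rw [div_le_one (by positivity)]
    exact hl
  nlinarith

theorem NN_mono {Y : ℝ} (hY : 0 < Y) (hl : lam ≤ Y ^ 2) : MonotoneOn (NN F) (Ici Y) := by
  have hd : ∀ y ∈ Ici Y, HasDerivAt (NN F) (∫ x in (-(1 / 2) : ℝ)..(1 / 2), (2 * (fderiv ℝ F (pt y x) I) ^ 2 +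
        2 * F (pt y x) * fderiv ℝ (fderiv ℝ F) (pt y x) I I)) y := fun y hy => deriv_N hF (hY.trans_le hy)
  refine monotoneOn_of_deriv_nonneg (convex_Ici Y) (fun y hy => (hd y hy).continuousAt.continuousWithinAt)
    (fun y hy => (hd y (interior_subset hy)).differentiableAt.differentiableWithinAt) fun y hy => ?_
  rw [(hd y (interior_subset hy)).deriv]
  have hy' : Y ≤ y := interior_subset hy
  refine deriv_NN_nonneg hF hper hlap hmean (hY.trans_le hy') (hl.trans ?_)
  gcongr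

theorem NN_nonpos {Y : ℝ} (hY : 0 < Y) (hl : lam ≤ Y ^ 2)
    (hfin : ∫⁻ y in Ici Y, ENNReal.ofReal (MM F y * (1 / y ^ 2)) ≠ ⊤) : ∀ y ∈ Ici Y, NN F y ≤ 0 := by
  intro y₁ hy₁
  by_contra hneg
  push Not at hneg
  set c := NN F y₁ with hc
  have hy0 : 0 < y₁ := hY.trans_le hy₁
  have hmono := NN_mono hF hper hlap hmean hY hl
  have hgrow : ∀ y, y₁ ≤ y → c * (y - y₁) ≤ MM F y := by
    intro y hy
    have h1 : ∫ t in y₁..y, NN F t = MM F y - MM F y₁ := by
      refine intervalIntegral.integral_eq_sub_of_hasDerivAt (fun t ht => ?_) ?_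
      · rw [uIcc_of_le hy] at ht
        exact deriv_M hF (hy0.trans_le ht.1)
      · refine ContinuousOn.intervalIntegrable fun t ht => ?_
        rw [uIcc_of_le hy] at ht
        exact (deriv_N hF (hy0.trans_le ht.1)).continuousAt.continuousWithinAt
    have h2 : ∫ t in y₁..y, c ≤ ∫ t in y₁..y, NN F t := by
      refine intervalIntegral.integral_mono_on hy intervalIntegrable_const ?_ fun t ht => ?_
      · refine ContinuousOn.intervalIntegrable fun t ht => ?_
        rw [uIcc_of_le hy] at ht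
        exact (deriv_N hF (hy0.trans_le ht.1)).continuousAt.continuousWithinAt
      · exact hmono hy₁ (le_trans hy₁ ht.1) ht.1
    rw [intervalIntegral.integral_const, smul_eq_mul, h1] at h2
    have := MM_nonneg F y₁
    linarith
  apply hfin
  have h3 : ∫⁻ y in Ioi (2 * y₁), ENNReal.ofReal (c / 2 * y⁻¹) = ⊤ := by
    by_contra h
    have h4 : IntegrableOn (fun y : ℝ => c / 2 * y⁻¹) (Ioi (2 * y₁)) := by
      refine ⟨by fun_prop, ?_⟩
      rw [hasFiniteIntegral_iff_ofReal]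
      · exact lt_top_iff_ne_top.2 h
      · filter_upwards [ae_restrict_mem measurableSet_Ioi] with y hy
        have : 0 < y := lt_trans (by linarith) (mem_Ioi.1 hy)
        simp only [Pi.zero_apply]
        positivity
    have h5 : IntegrableOn (fun y : ℝ => y⁻¹) (Ioi (2 * y₁)) := by
      have := h4.const_mul (2 / c)
      refine this.congr ?_
      refine Filter.Eventually.of_forall fun y => ?_
      simp only
      field_simp
    exact not_integrableOn_Ioi_inv h5
  rw [← top_le_iff, ← h3]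
  calc ∫⁻ y in Ioi (2 * y₁), ENNReal.ofReal (c / 2 * y⁻¹) ≤
      ∫⁻ y in Ioi (2 * y₁), ENNReal.ofReal (MM F y * (1 / y ^ 2)) := by
        refine setLIntegral_mono' measurableSet_Ioi fun y hy => ?_
        apply ENNReal.ofReal_le_ofReal
        have hy2 : 2 * y₁ < y := hy
        have hyp : 0 < y := by linarith
        have h6 := hgrow y (by linarith)
        have h7 : c / 2 * y ≤ MM F y := by nlinarith
        have : c / 2 * y⁻¹ = (c / 2 * y) * (1 / y ^ 2) := by field_simp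
        rw [this]
        gcongr
    _ ≤ ∫⁻ y in Ici Y, ENNReal.ofReal (MM F y * (1 / y ^ 2)) := by
        refine lintegral_mono_set fun y hy => ?_
        have h8 : 2 * y₁ < y := hy
        have h9 : Y ≤ y₁ := hy₁
        show Y ≤ y
        linarith

theorem MM_anti {Y : ℝ} (hY : 0 < Y) (hl : lam ≤ Y ^ 2)
    (hfin : ∫⁻ y in Ici Y, ENNReal.ofReal (MM F y * (1 / y ^ 2)) ≠ ⊤) : AntitoneOn (MM F) (Ici Y) := by
  have hd : ∀ y ∈ Ici Y, HasDerivAt (MM F) (NN F y) y := fun y hy => deriv_M hF (hY.trans_le hy)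
  refine antitoneOn_of_deriv_nonpos (convex_Ici Y) (fun y hy => (hd y hy).continuousAt.continuousWithinAt)
    (fun y hy => (hd y (interior_subset hy)).differentiableAt.differentiableWithinAt) fun y hy => ?_
  rw [(hd y (interior_subset hy)).deriv]
  exact NN_nonpos hF hper hlap hmean hY hl hfin y (interior_subset hy)

theorem tail_le {Y : ℝ} (hY : 0 < Y) (hl : lam ≤ Y ^ 2)
    (hfin : ∫⁻ y in Ici Y, ENNReal.ofReal (MM F y * (1 / y ^ 2)) ≠ ⊤) :
    ∫⁻ y in Ici (2 * Y), ENNReal.ofReal (MM F y * (1 / y ^ 2)) ≤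
      ∫⁻ y in Icc Y (2 * Y), ENNReal.ofReal (MM F y * (1 / y ^ 2)) := by
  have hanti := MM_anti hF hper hlap hmean hY hl hfin
  have hM := MM_nonneg F (2 * Y)
  have m : Measurable fun y : ℝ => ENNReal.ofReal (1 / y ^ 2) := by fun_prop
  calc ∫⁻ y in Ici (2 * Y), ENNReal.ofReal (MM F y * (1 / y ^ 2)) ≤
      ∫⁻ y in Ici (2 * Y), ENNReal.ofReal (MM F (2 * Y)) * ENNReal.ofReal (1 / y ^ 2) := by
        refine setLIntegral_mono' measurableSet_Ici fun y hy => ?_
        have hy2 : 2 * Y ≤ y := hy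
        rw [← ENNReal.ofReal_mul hM]
        apply ENNReal.ofReal_le_ofReal
        gcongr
        exact hanti (show Y ≤ 2 * Y by linarith) (show Y ≤ y by linarith) hy2
    _ = ENNReal.ofReal (MM F (2 * Y)) * ENNReal.ofReal (1 / (2 * Y)) := by
        rw [lintegral_const_mul _ m, lintegral_inv_sq (by linarith)]
    _ = ∫⁻ y in Icc Y (2 * Y), ENNReal.ofReal (MM F (2 * Y)) * ENNReal.ofReal (1 / y ^ 2) := by
        rw [lintegral_const_mul _ m, lintegral_inv_sq_Icc hY]
    _ ≤ _ := by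
        refine setLIntegral_mono' measurableSet_Icc fun y hy => ?_
        rw [← ENNReal.ofReal_mul hM]
        apply ENNReal.ofReal_le_ofReal
        gcongr
        exact hanti hy.1 (show Y ≤ 2 * Y by linarith) hy.2

end

end Pool.Agent.T2H31
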