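import Pool.Agent.T2H31.Cusp2

/-! Mass below a height. -/

set_option autoImplicit false

namespace Pool.Agent.T2H31

open Complex MeasureTheory Set Function UpperHalfPlane ModularGroup
open scoped ENNReal NNReal MatrixGroups Modular

/-- the strip `|x| ≤ 1/2`, `y ∈ J` -/
def ST (J : Set ℝ) : Set ℍ := {u : ℍ | u.re ∈ Icc (-(1 / 2) : ℝ) (1 / 2) ∧ u.im ∈ J}

theorem meas_re : Measurable fun z : ℍ => z.re := by
  have : (fun z : ℍ => z.re) = fun z : ℍ => (z : ℂ).re := rfl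
  rw [this]; fun_prop

theorem meas_im : Measurable fun z : ℍ => z.im := by
  have : (fun z : ℍ => z.im) = fun z : ℍ => (z : ℂ).im := rfl
  rw [this]; fun_prop

theorem meas_ST {J : Set ℝ} (hJ : MeasurableSet J) : MeasurableSet (ST J) :=
  (meas_re measurableSet_Icc).inter (meas_im hJ)

theorem strip_eq {f : ℍ → ℝ} (hf : Smooth2 f) {J : Set ℝ} (hJ : MeasurableSet J) (hJ0 : J ⊆ Ioi 0) :
    ∫⁻ u in ST J, ENNReal.ofReal (f u ^ 2) = ∫⁻ y in J, ENNReal.ofReal (MM (fc f) y * (1 / y ^ 2)) := by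
  have hmf : Measurable fun u : ℍ => ENNReal.ofReal (f u ^ 2) := by
    have := (cont_f hf).measurable
    fun_prop
  rw [lintegral_H hmf (meas_ST hJ)]
  have hs : ((↑) : ℍ → ℂ) '' ST J =
      Complex.measurableEquivRealProd ⁻¹' (Icc (-(1 / 2) : ℝ) (1 / 2) ×ˢ J) := by
    ext z
    constructor
    · rintro ⟨u, hu, rfl⟩
      exact ⟨hu.1, hu.2⟩
    · intro hz
      have hz' : 0 < z.im := hJ0 hz.2
      exact ⟨⟨z, hz'⟩, ⟨hz.1, hz.2⟩, rfl⟩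
  have hmp := Complex.volume_preserving_equiv_real_prod
  have e : (fun z : ℂ => ENNReal.ofReal (f (ofComplex z) ^ 2) * ENNReal.ofReal (1 / z.im ^ 2)) =
      fun z : ℂ => (fun q : ℝ × ℝ => ENNReal.ofReal (fc f (pt q.2 q.1) ^ 2) * ENNReal.ofReal (1 / q.2 ^ 2))
        (Complex.measurableEquivRealProd z) := by
    funext z
    simp only [Complex.measurableEquivRealProd_apply, pt, Complex.re_add_im, fc]
  rw [hs, e]
  rw [hmp.setLIntegral_comp_preimage_emb Complex.measurableEquivRealProd.measurableEmbedding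
    (f := fun q : ℝ × ℝ => ENNReal.ofReal (fc f (pt q.2 q.1) ^ 2) * ENNReal.ofReal (1 / q.2 ^ 2))]
  have hms : MeasurableSet (Icc (-(1 / 2) : ℝ) (1 / 2) ×ˢ J) := measurableSet_Icc.prod hJ
  have hcont : ContinuousOn (fun q : ℝ × ℝ => fc f (pt q.2 q.1)) (Icc (-(1 / 2) : ℝ) (1 / 2) ×ˢ J) := by
    refine (contOn_fc hf).comp ?_ fun q hq => pt_mem (hJ0 hq.2) _
    unfold pt
    fun_prop
  have hae : AEMeasurable (fun q : ℝ × ℝ => ENNReal.ofReal (fc f (pt q.2 q.1) ^ 2) *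
      ENNReal.ofReal (1 / q.2 ^ 2)) (volume.restrict (Icc (-(1 / 2) : ℝ) (1 / 2) ×ˢ J)) := by
    have h1 := (hcont.aemeasurable hms (μ := volume))
    have h2 : AEMeasurable (fun q : ℝ × ℝ => ENNReal.ofReal (fc f (pt q.2 q.1) ^ 2))
        (volume.restrict (Icc (-(1 / 2) : ℝ) (1 / 2) ×ˢ J)) := (h1.pow_const 2).ennreal_ofReal
    have h3 : Measurable (fun q : ℝ × ℝ => ENNReal.ofReal (1 / q.2 ^ 2)) := by fun_prop
    exact h2.mul h3.aemeasurable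
  rw [Measure.volume_eq_prod, ← Measure.prod_restrict] at hae ⊢
  rw [lintegral_prod_symm _ hae]
  refine setLIntegral_congr_fun hJ fun y hy => ?_
  have hy0 : 0 < y := hJ0 hy
  simp only
  rw [lintegral_mul_const' _ _ ENNReal.ofReal_ne_top, ENNReal.ofReal_mul (MM_nonneg _ _)]
  congr 1
  rw [MM, intervalIntegral.integral_of_le (by norm_num), ← integral_Icc_eq_integral_Ioc,
    ofReal_integral_eq_lintegral_ofReal]
  · exact (((cont_pt_x (contOn_fc hf) hy0).pow 2).integrableOn_Icc)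
  · exact Filter.Eventually.of_forall fun x => sq_nonneg _

theorem fd_high {Y : ℝ} (hY : 1 ≤ Y) : (𝒟 : Set ℍ) ∩ {u | Y ≤ u.im} = ST (Ici Y) := by
  ext u
  simp only [mem_inter_iff, ST, fd, mem_setOf_eq]
  constructor
  · rintro ⟨⟨h1, h2⟩, h3⟩
    exact ⟨⟨(abs_le.1 h2).1, (abs_le.1 h2).2⟩, h3⟩
  · rintro ⟨⟨h1, h2⟩, h3⟩
    refine ⟨⟨?_, abs_le.2 ⟨h1, h2⟩⟩, h3⟩
    have h4 : Y ≤ u.im := h3
    rw [Complex.normSq_apply]
    have h5 : (u : ℂ).im = u.im := rfl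
    rw [h5]
    nlinarith [mul_self_nonneg (u : ℂ).re]

/-- the mass of a cusp form high in the cusp is at most the mass just below -/
theorem mass_low {f : ℍ → ℝ} (hf : Smooth2 f) (hinv : ∀ (γ : SL(2, ℤ)) (z : ℍ), f (γ • z) = f z)
    {lam : ℝ} (hlap : ∀ u : ℍ, hyp f u = -lam * f u)
    (hcusp : ∀ y : ℝ, 0 < y → ∫ x in (-(1 / 2) : ℝ)..(1 / 2), fc f (pt y x) = 0)
    (hL2 : ∫⁻ u in 𝒟, ENNReal.ofReal (f u ^ 2) ≠ ⊤) {Y : ℝ} (hY : 1 ≤ Y) (hl : lam ≤ Y ^ 2) :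
    ∫⁻ u in 𝒟, ENNReal.ofReal (f u ^ 2) ≤
      2 * ∫⁻ u in 𝒟 ∩ {u | u.im ≤ 2 * Y}, ENNReal.ofReal (f u ^ 2) := by
  have hY0 : 0 < Y := by linarith
  have hper : ∀ z ∈ HH, fc f (z + 1) = fc f z := by
    intro z hz
    have hz1 : 0 < (z + 1).im := by
      have : 0 < z.im := hz
      simpa using this
    have h := hinv ModularGroup.T ⟨z, hz⟩
    have e : ModularGroup.T • (⟨z, hz⟩ : ℍ) = ⟨z + 1, hz1⟩ := by
      apply UpperHalfPlane.ext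
      rw [UpperHalfPlane.modular_T_smul]
      show ((1 : ℝ) +ᵥ (⟨z, hz⟩ : ℍ) : ℍ).1 = z + 1
      simp [add_comm]
    rw [e] at h
    rw [fc, fc, ofComplex_apply_of_im_pos hz1, ofComplex_apply_of_im_pos hz]
    exact h
  have hlap' : ∀ z ∈ HH, z.im ^ 2 * lapl (fc f) z = -lam * fc f z := by
    intro z hz
    have h := hlap ⟨z, hz⟩
    rw [hyp] at h
    rw [fc, ofComplex_apply_of_im_pos hz]
    exact h
  have hfin : ∫⁻ y in Ici Y, ENNReal.ofReal (MM (fc f) y * (1 / y ^ 2)) ≠ ⊤ := by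
    rw [← strip_eq hf measurableSet_Ici fun y hy => hY0.trans_le hy, ← fd_high hY]
    exact ne_top_of_le_ne_top hL2 (lintegral_mono_set inter_subset_left)
  have htail := tail_le hf hper hlap' hcusp hY0 hl hfin
  rw [← strip_eq hf measurableSet_Ici fun y hy => (by linarith : (0 : ℝ) < 2 * Y).trans_le hy,
    ← strip_eq hf measurableSet_Icc fun y hy => hY0.trans_le hy.1, ← fd_high (by linarith)] at htail
  have hsub : (𝒟 : Set ℍ) ⊆ (𝒟 ∩ {u | u.im ≤ 2 * Y}) ∪ (𝒟 ∩ {u | 2 * Y ≤ u.im}) := by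
    intro u hu
    rcases le_total u.im (2 * Y) with h | h
    · exact Or.inl ⟨hu, h⟩
    · exact Or.inr ⟨hu, h⟩
  have hsub2 : ST (Icc Y (2 * Y)) ⊆ (𝒟 ∩ {u | u.im ≤ 2 * Y} : Set ℍ) := by
    intro u hu
    have h1 : u ∈ (𝒟 : Set ℍ) ∩ {u | Y ≤ u.im} := by
      rw [fd_high hY]
      exact ⟨hu.1, hu.2.1⟩
    exact ⟨h1.1, hu.2.2⟩
  calc ∫⁻ u in 𝒟, ENNReal.ofReal (f u ^ 2) ≤
      ∫⁻ u in (𝒟 ∩ {u | u.im ≤ 2 * Y}) ∪ (𝒟 ∩ {u | 2 * Y ≤ u.im}), ENNReal.ofReal (f u ^ 2) :=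
        lintegral_mono_set hsub
    _ ≤ (∫⁻ u in 𝒟 ∩ {u | u.im ≤ 2 * Y}, ENNReal.ofReal (f u ^ 2)) +
        ∫⁻ u in 𝒟 ∩ {u | 2 * Y ≤ u.im}, ENNReal.ofReal (f u ^ 2) := lintegral_union_le _ _ _
    _ ≤ (∫⁻ u in 𝒟 ∩ {u | u.im ≤ 2 * Y}, ENNReal.ofReal (f u ^ 2)) +
        ∫⁻ u in 𝒟 ∩ {u | u.im ≤ 2 * Y}, ENNReal.ofReal (f u ^ 2) := by
        exact add_le_add le_rfl (htail.trans (lintegral_mono_set hsub2))
    _ = 2 * ∫⁻ u in 𝒟 ∩ {u | u.im ≤ 2 * Y}, ENNReal.ofReal (f u ^ 2) := (two_mul _).symm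

end Pool.Agent.T2H31
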