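import Pool.Agent.T2H31.Cusp3

/-! The mass in a cusp of width `w`. -/

set_option autoImplicit false

namespace Pool.Agent.T2H31

open Complex MeasureTheory Set Function
open scoped ENNReal

section
variable {F : ℂ → ℝ} (hF : ContDiffOn ℝ 2 F HH)
include hF

theorem deriv_M' (a b : ℝ) {y : ℝ} (hy : 0 < y) :
    HasDerivAt (fun s : ℝ => ∫ x in a..b, F (pt s x) ^ 2)
      (∫ x in a..b, 2 * F (pt y x) * fderiv ℝ F (pt y x) I) y := by
  have c0 := cont_pt_comp (oF hF)
  have c1 := cont_pt_comp (oF1 hF)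
  refine hasDerivAt_param_on (G := fun s x => F (pt s x) ^ 2)
    (G' := fun s x => 2 * F (pt s x) * fderiv ℝ F (pt s x) I) isOpen_Ioi ?_ ?_ ?_ _ _ hy
  · exact c0.pow 2
  · exact (continuousOn_const.mul c0).mul (c1.clm_apply continuousOn_const)
  · intro r hr x
    have := ((odF hF (pt_mem hr x)).comp_hasDerivAt r (deriv_pt_y r x)).pow 2
    refine this.congr_deriv ?_
    simp [Function.comp]

theorem deriv_N' (a b : ℝ) {y : ℝ} (hy : 0 < y) :
    HasDerivAt (fun s : ℝ => ∫ x in a..b, 2 * F (pt s x) * fderiv ℝ F (pt s x) I)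
      (∫ x in a..b, (2 * (fderiv ℝ F (pt y x) I) ^ 2 +
        2 * F (pt y x) * fderiv ℝ (fderiv ℝ F) (pt y x) I I)) y := by
  have c0 := cont_pt_comp (oF hF)
  have c1 := cont_pt_comp (oF1 hF)
  have c2 := cont_pt_comp (oF2 hF)
  refine hasDerivAt_param_on (G := fun s x => 2 * F (pt s x) * fderiv ℝ F (pt s x) I)
    (G' := fun s x => 2 * (fderiv ℝ F (pt s x) I) ^ 2 +
        2 * F (pt s x) * fderiv ℝ (fderiv ℝ F) (pt s x) I I) isOpen_Ioi ?_ ?_ ?_ _ _ hy
  · exact (continuousOn_const.mul c0).mul (c1.clm_apply continuousOn_const)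
  · exact (continuousOn_const.mul ((c1.clm_apply continuousOn_const).pow 2)).add
      ((continuousOn_const.mul c0).mul ((c2.clm_apply continuousOn_const).clm_apply continuousOn_const))
  · intro r hr x
    have h1 := ((odF hF (pt_mem hr x)).comp_hasDerivAt r (deriv_pt_y r x)).const_mul 2
    have h2 := (odF1 hF (pt_mem hr x)).comp_hasDerivAt r (deriv_pt_y r x)
    have h3 := h2.clm_apply (hasDerivAt_const r I)
    have h4 := h1.mul h3
    refine h4.congr_deriv ?_
    simp only [Function.comp, map_zero, zero_add]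
    ring

omit hF in
theorem fderiv_perW {w : ℝ} (hper : ∀ z ∈ HH, F (z + w) = F z) {z : ℂ} (hz : z ∈ HH) :
    fderiv ℝ F (z + w) = fderiv ℝ F z := by
  have h1 : (fun z => F (z + w)) =ᶠ[nhds z] F := by
    filter_upwards [isOpen_HH.mem_nhds hz] with u hu using hper u hu
  rw [← h1.fderiv_eq, fderiv_comp_add_right]

theorem by_parts' {w : ℝ} (hper : ∀ z ∈ HH, F (z + w) = F z) (a : ℝ) {y : ℝ} (hy : 0 < y) :
    ∫ x in a..(a + w), F (pt y x) * fderiv ℝ (fderiv ℝ F) (pt y x) 1 1 =
      - ∫ x in a..(a + w), (fderiv ℝ F (pt y x) 1) ^ 2 := by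
  have c0 := cont_pt_x (oF hF) hy
  have c1 := cont_pt_x (oF1 hF) hy
  have c2 := cont_pt_x (oF2 hF) hy
  have hd : ∀ x : ℝ, HasDerivAt (fun x : ℝ => F (pt y x) * fderiv ℝ F (pt y x) 1)
      ((fderiv ℝ F (pt y x) 1) ^ 2 + F (pt y x) * fderiv ℝ (fderiv ℝ F) (pt y x) 1 1) x := by
    intro x
    have h1 := (odF hF (pt_mem hy x)).comp_hasDerivAt x (deriv_pt_x y x)
    have h2 := (odF1 hF (pt_mem hy x)).comp_hasDerivAt x (deriv_pt_x y x)
    have h3 := h2.clm_apply (hasDerivAt_const x 1)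
    have h4 := h1.mul h3
    refine h4.congr_deriv ?_
    simp only [Function.comp, map_zero, zero_add]
    ring
  have i1 : Continuous fun x : ℝ => (fderiv ℝ F (pt y x) 1) ^ 2 := (c1.clm_apply continuous_const).pow 2
  have i2 : Continuous fun x : ℝ => F (pt y x) * fderiv ℝ (fderiv ℝ F) (pt y x) 1 1 :=
    c0.mul ((c2.clm_apply continuous_const).clm_apply continuous_const)
  have h0 : ∫ x in a..(a + w), ((fderiv ℝ F (pt y x) 1) ^ 2 +
      F (pt y x) * fderiv ℝ (fderiv ℝ F) (pt y x) 1 1) = 0 := by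
    rw [intervalIntegral.integral_eq_sub_of_hasDerivAt (fun x _ => hd x)
      ((i1.add i2).intervalIntegrable _ _)]
    have e : pt y (a + w) = pt y a + w := by
      unfold pt; push_cast; ring
    rw [e, hper _ (pt_mem hy _), fderiv_perW hper (pt_mem hy _), sub_self]
  rw [intervalIntegral.integral_add (i1.intervalIntegrable _ _) (i2.intervalIntegrable _ _)] at h0
  linarith

theorem poincare' {w : ℝ} (hw : 0 < w) (a : ℝ) {y : ℝ} (hy : 0 < y)
    (hmean : ∫ x in a..(a + w), F (pt y x) = 0) :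
    ∫ x in a..(a + w), F (pt y x) ^ 2 ≤ w ^ 2 * ∫ x in a..(a + w), (fderiv ℝ F (pt y x) 1) ^ 2 := by
  have c0 := cont_pt_x (oF hF) hy
  have c1 := cont_pt_x (oF1 hF) hy
  have haw : a ≤ a + w := by linarith
  have i0 : Continuous fun x : ℝ => fderiv ℝ F (pt y x) 1 := c1.clm_apply continuous_const
  set K := ∫ x in a..(a + w), (fderiv ℝ F (pt y x) 1) ^ 2 with hK
  have hK0 : 0 ≤ K := intervalIntegral.integral_nonneg haw fun x _ => sq_nonneg _
  have hA : ∀ s ∈ Icc a (a + w), ∀ t ∈ Icc a (a + w), s ≤ t →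
      |F (pt y t) - F (pt y s)| ≤ Real.sqrt (w * K) := by
    intro s hs t ht hst
    have e : F (pt y t) - F (pt y s) = ∫ x in s..t, fderiv ℝ F (pt y x) 1 := by
      rw [intervalIntegral.integral_eq_sub_of_hasDerivAt
        (fun x _ => (odF hF (pt_mem hy x)).comp_hasDerivAt x (deriv_pt_x y x))
        (i0.intervalIntegrable _ _)]
      rfl
    rw [e]
    apply Real.abs_le_sqrt
    have h1 := cs_weight (w := fun _ => 1) continuous_const
      (f := fun x => fderiv ℝ F (pt y x) 1) i0 hst (fun _ _ => zero_le_one)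
    simp only [one_mul, intervalIntegral.integral_const, smul_eq_mul, mul_one] at h1
    have h2 : ∫ x in s..t, (fderiv ℝ F (pt y x) 1) ^ 2 ≤ K := by
      rw [hK]
      apply intervalIntegral.integral_mono_interval hs.1 hst ht.2
      · exact Filter.Eventually.of_forall fun x => sq_nonneg _
      · exact (i0.pow 2).intervalIntegrable _ _
    have h3 : 0 ≤ ∫ x in s..t, (fderiv ℝ F (pt y x) 1) ^ 2 :=
      intervalIntegral.integral_nonneg hst fun x _ => sq_nonneg _
    have h4 : t - s ≤ w := by linarith [hs.1, ht.2]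
    have h5 : 0 ≤ t - s := by linarith
    calc (∫ x in s..t, fderiv ℝ F (pt y x) 1) ^ 2 ≤ (t - s) * ∫ x in s..t, (fderiv ℝ F (pt y x) 1) ^ 2 := h1
      _ ≤ w * K := by gcongr
  have hB : ∀ s ∈ Icc a (a + w), ∀ t ∈ Icc a (a + w),
      |F (pt y t) - F (pt y s)| ≤ Real.sqrt (w * K) := by
    intro s hs t ht
    rcases le_total s t with h | h
    · exact hA s hs t ht h
    · rw [abs_sub_comm]; exact hA t ht s hs h
  have hC : ∀ t ∈ Icc a (a + w), F (pt y t) ^ 2 ≤ w * K := by
    intro t ht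
    have e : w * F (pt y t) = ∫ s in a..(a + w), (F (pt y t) - F (pt y s)) := by
      rw [intervalIntegral.integral_sub (intervalIntegrable_const)
        (c0.intervalIntegrable _ _), hmean, intervalIntegral.integral_const, sub_zero, smul_eq_mul]
      ring
    have h5 : |F (pt y t)| ≤ Real.sqrt (w * K) := by
      have := intervalIntegral.norm_integral_le_of_norm_le_const
        (f := fun s => F (pt y t) - F (pt y s)) (a := a) (b := a + w) (C := Real.sqrt (w * K)) (by
          intro s hs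
          rw [uIoc_of_le haw] at hs
          exact hB s (Ioc_subset_Icc_self hs) t ht)
      rw [← e, Real.norm_eq_abs, abs_mul, abs_of_pos hw, show a + w - a = w by ring, abs_of_pos hw,
        mul_comm] at this
      exact le_of_mul_le_mul_right this hw
    rw [← sq_abs]
    calc |F (pt y t)| ^ 2 ≤ Real.sqrt (w * K) ^ 2 := by gcongr
      _ = w * K := Real.sq_sqrt (by positivity)
  have := intervalIntegral.integral_mono_on (f := fun x => F (pt y x) ^ 2) (g := fun _ => w * K)
    (a := a) (b := a + w) (μ := volume) haw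
    ((c0.pow 2).intervalIntegrable _ _) intervalIntegrable_const hC
  rw [intervalIntegral.integral_const, smul_eq_mul, show a + w - a = w by ring] at this
  refine this.trans (le_of_eq ?_)
  ring

end

/-- the mean square on the horocycle of height `y`, over `[a, a + w]` -/
noncomputable def MW (F : ℂ → ℝ) (a w y : ℝ) : ℝ := ∫ x in a..(a + w), F (pt y x) ^ 2

noncomputable def NW (F : ℂ → ℝ) (a w y : ℝ) : ℝ :=
  ∫ x in a..(a + w), 2 * F (pt y x) * fderiv ℝ F (pt y x) I

theorem MW_nonneg (F : ℂ → ℝ) (a : ℝ) {w : ℝ} (hw : 0 < w) (y : ℝ) : 0 ≤ MW F a w y :=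
  intervalIntegral.integral_nonneg (by linarith) fun x _ => sq_nonneg _

section
variable {F : ℂ → ℝ} (hF : ContDiffOn ℝ 2 F HH) {w : ℝ} (hw : 0 < w) (hper : ∀ z ∈ HH, F (z + w) = F z)
  {lam : ℝ} (hlap : ∀ z ∈ HH, z.im ^ 2 * lapl F z = -lam * F z) {a : ℝ}
  (hmean : ∀ y : ℝ, 0 < y → ∫ x in a..(a + w), F (pt y x) = 0)
include hF hw hper hlap hmean

theorem deriv_NW_nonneg {y : ℝ} (hy : 0 < y) (hl : lam * w ^ 2 ≤ y ^ 2) :
    0 ≤ ∫ x in a..(a + w), (2 * (fderiv ℝ F (pt y x) I) ^ 2 +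
        2 * F (pt y x) * fderiv ℝ (fderiv ℝ F) (pt y x) I I) := by
  have haw : a ≤ a + w := by linarith
  have c0 := cont_pt_x (oF hF) hy
  have c1 := cont_pt_x (oF1 hF) hy
  have c2 := cont_pt_x (oF2 hF) hy
  have i1 : Continuous fun x : ℝ => (fderiv ℝ F (pt y x) I) ^ 2 := (c1.clm_apply continuous_const).pow 2
  have i2 : Continuous fun x : ℝ => F (pt y x) * fderiv ℝ (fderiv ℝ F) (pt y x) 1 1 :=
    c0.mul ((c2.clm_apply continuous_const).clm_apply continuous_const)
  have i3 : Continuous fun x : ℝ => F (pt y x) ^ 2 := c0.pow 2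
  have e : ∀ x : ℝ, 2 * (fderiv ℝ F (pt y x) I) ^ 2 + 2 * F (pt y x) * fderiv ℝ (fderiv ℝ F) (pt y x) I I =
      (2 * (fderiv ℝ F (pt y x) I) ^ 2 + (-(2 * (lam / y ^ 2))) * F (pt y x) ^ 2) +
        (-2) * (F (pt y x) * fderiv ℝ (fderiv ℝ F) (pt y x) 1 1) := by
    intro x
    have h := hlap _ (pt_mem hy x)
    have him : (pt y x).im = y := by simp [pt]
    rw [him, lapl] at h
    have h2 : fderiv ℝ (fderiv ℝ F) (pt y x) I I = -lam / y ^ 2 * F (pt y x) -
        fderiv ℝ (fderiv ℝ F) (pt y x) 1 1 := by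
      have hy2 : y ^ 2 ≠ 0 := by positivity
      field_simp
      linarith
    rw [h2]
    ring
  simp_rw [e]
  have j1 : Continuous fun x : ℝ => 2 * (fderiv ℝ F (pt y x) I) ^ 2 := continuous_const.mul i1
  have j2 : Continuous fun x : ℝ => (-2) * (F (pt y x) * fderiv ℝ (fderiv ℝ F) (pt y x) 1 1) :=
    continuous_const.mul i2
  have j3 : Continuous fun x : ℝ => (-(2 * (lam / y ^ 2))) * F (pt y x) ^ 2 := continuous_const.mul i3
  have j4 : Continuous fun x : ℝ => 2 * (fderiv ℝ F (pt y x) I) ^ 2 +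
      (-(2 * (lam / y ^ 2))) * F (pt y x) ^ 2 := j1.add j3
  rw [intervalIntegral.integral_add (j4.intervalIntegrable _ _) (j2.intervalIntegrable _ _),
    intervalIntegral.integral_add (j1.intervalIntegrable _ _) (j3.intervalIntegrable _ _),
    intervalIntegral.integral_const_mul, intervalIntegral.integral_const_mul,
    intervalIntegral.integral_const_mul, by_parts' hF hper a hy]
  have hp := poincare' hF hw a hy (hmean y hy)
  have hM : 0 ≤ ∫ x in a..(a + w), F (pt y x) ^ 2 :=
    intervalIntegral.integral_nonneg haw fun x _ => sq_nonneg _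
  have h1 : 0 ≤ ∫ x in a..(a + w), (fderiv ℝ F (pt y x) I) ^ 2 :=
    intervalIntegral.integral_nonneg haw fun x _ => sq_nonneg _
  have h3 : 0 ≤ ∫ x in a..(a + w), (fderiv ℝ F (pt y x) 1) ^ 2 :=
    intervalIntegral.integral_nonneg haw fun x _ => sq_nonneg _
  have h2 : lam / y ^ 2 * w ^ 2 ≤ 1 := by
    rw [div_mul_eq_mul_div, div_le_one (by positivity)]
    exact hl
  set A := ∫ x in a..(a + w), F (pt y x) ^ 2
  set B := ∫ x in a..(a + w), (fderiv ℝ F (pt y x) 1) ^ 2
  have h4 : lam / y ^ 2 * A ≤ B := by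
    rcases le_or_gt (lam / y ^ 2) 0 with h | h
    · exact (mul_nonpos_of_nonpos_of_nonneg h hM).trans h3
    · calc lam / y ^ 2 * A ≤ lam / y ^ 2 * (w ^ 2 * B) := by gcongr
        _ = (lam / y ^ 2 * w ^ 2) * B := by ring
        _ ≤ 1 * B := by gcongr
        _ = B := one_mul _
  linarith

theorem NW_mono {Y : ℝ} (hY : 0 < Y) (hl : lam * w ^ 2 ≤ Y ^ 2) : MonotoneOn (NW F a w) (Ici Y) := by
  have hd : ∀ y ∈ Ici Y, HasDerivAt (NW F a w) (∫ x in a..(a + w), (2 * (fderiv ℝ F (pt y x) I) ^ 2 +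
        2 * F (pt y x) * fderiv ℝ (fderiv ℝ F) (pt y x) I I)) y := fun y hy => deriv_N' hF _ _ (hY.trans_le hy)
  refine monotoneOn_of_deriv_nonneg (convex_Ici Y) (fun y hy => (hd y hy).continuousAt.continuousWithinAt)
    (fun y hy => (hd y (interior_subset hy)).differentiableAt.differentiableWithinAt) fun y hy => ?_
  rw [(hd y (interior_subset hy)).deriv]
  have hy' : Y ≤ y := interior_subset hy
  refine deriv_NW_nonneg hF hw hper hlap hmean (hY.trans_le hy') (hl.trans ?_)
  gcongr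

theorem NW_nonpos {Y : ℝ} (hY : 0 < Y) (hl : lam * w ^ 2 ≤ Y ^ 2)
    (hfin : ∫⁻ y in Ici Y, ENNReal.ofReal (MW F a w y * (1 / y ^ 2)) ≠ ⊤) : ∀ y ∈ Ici Y, NW F a w y ≤ 0 := by
  intro y₁ hy₁
  by_contra hneg
  push Not at hneg
  set c := NW F a w y₁ with hc
  have hy0 : 0 < y₁ := hY.trans_le hy₁
  have hmono := NW_mono hF hw hper hlap hmean hY hl
  have hgrow : ∀ y, y₁ ≤ y → c * (y - y₁) ≤ MW F a w y := by
    intro y hy
    have h1 : ∫ t in y₁..y, NW F a w t = MW F a w y - MW F a w y₁ := by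
      refine intervalIntegral.integral_eq_sub_of_hasDerivAt (fun t ht => ?_) ?_
      · rw [uIcc_of_le hy] at ht
        exact deriv_M' hF _ _ (hy0.trans_le ht.1)
      · refine ContinuousOn.intervalIntegrable fun t ht => ?_
        rw [uIcc_of_le hy] at ht
        exact (deriv_N' hF _ _ (hy0.trans_le ht.1)).continuousAt.continuousWithinAt
    have h2 : ∫ t in y₁..y, c ≤ ∫ t in y₁..y, NW F a w t := by
      refine intervalIntegral.integral_mono_on hy intervalIntegrable_const ?_ fun t ht => ?_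
      · refine ContinuousOn.intervalIntegrable fun t ht => ?_
        rw [uIcc_of_le hy] at ht
        exact (deriv_N' hF _ _ (hy0.trans_le ht.1)).continuousAt.continuousWithinAt
      · exact hmono hy₁ (le_trans hy₁ ht.1) ht.1
    rw [intervalIntegral.integral_const, smul_eq_mul, h1] at h2
    have := MW_nonneg F a hw y₁
    linarith
  apply hfin
  have h3 : ∫⁻ y in Ioi (2 * y₁), ENNReal.ofReal (c / 2 * y⁻¹) = ⊤ := by
    by_contra h
    have h4 : IntegrableOn (fun y : ℝ => c / 2 * y⁻¹) (Ioi (2 * y₁)) := by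
      refine ⟨by fun_prop, ?_⟩
      rw [hasFiniteIntegral_iff_ofReal]
      · exact lt_top_iff_ne_top.2 h
      · filter_upwards [ae_restrict_mem measurableSet_Ioi] with y hy
        have : 0 < y := lt_trans (by linarith) (mem_Ioi.1 hy)
        simp only [Pi.zero_apply]
        positivity
    have h5 : IntegrableOn (fun y : ℝ => y⁻¹) (Ioi (2 * y₁)) := by
      have := h4.const_mul (2 / c)
      refine this.congr ?_
      refine Filter.Eventually.of_forall fun y => ?_
      simp only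
      field_simp
    exact not_integrableOn_Ioi_inv h5
  rw [← top_le_iff, ← h3]
  calc ∫⁻ y in Ioi (2 * y₁), ENNReal.ofReal (c / 2 * y⁻¹) ≤
      ∫⁻ y in Ioi (2 * y₁), ENNReal.ofReal (MW F a w y * (1 / y ^ 2)) := by
        refine setLIntegral_mono' measurableSet_Ioi fun y hy => ?_
        apply ENNReal.ofReal_le_ofReal
        have hy2 : 2 * y₁ < y := hy
        have hyp : 0 < y := by linarith
        have h6 := hgrow y (by linarith)
        have h7 : c / 2 * y ≤ MW F a w y := by nlinarith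
        have : c / 2 * y⁻¹ = (c / 2 * y) * (1 / y ^ 2) := by field_simp
        rw [this]
        gcongr
    _ ≤ ∫⁻ y in Ici Y, ENNReal.ofReal (MW F a w y * (1 / y ^ 2)) := by
        refine lintegral_mono_set fun y hy => ?_
        have h8 : 2 * y₁ < y := hy
        have h9 : Y ≤ y₁ := hy₁
        show Y ≤ y
        linarith

theorem MW_anti {Y : ℝ} (hY : 0 < Y) (hl : lam * w ^ 2 ≤ Y ^ 2)
    (hfin : ∫⁻ y in Ici Y, ENNReal.ofReal (MW F a w y * (1 / y ^ 2)) ≠ ⊤) : AntitoneOn (MW F a w) (Ici Y) := by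
  have hd : ∀ y ∈ Ici Y, HasDerivAt (MW F a w) (NW F a w y) y := fun y hy => deriv_M' hF _ _ (hY.trans_le hy)
  refine antitoneOn_of_deriv_nonpos (convex_Ici Y) (fun y hy => (hd y hy).continuousAt.continuousWithinAt)
    (fun y hy => (hd y (interior_subset hy)).differentiableAt.differentiableWithinAt) fun y hy => ?_
  rw [(hd y (interior_subset hy)).deriv]
  exact NW_nonpos hF hw hper hlap hmean hY hl hfin y (interior_subset hy)

theorem tail_leW {Y : ℝ} (hY : 0 < Y) (hl : lam * w ^ 2 ≤ Y ^ 2)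
    (hfin : ∫⁻ y in Ici Y, ENNReal.ofReal (MW F a w y * (1 / y ^ 2)) ≠ ⊤) :
    ∫⁻ y in Ici (2 * Y), ENNReal.ofReal (MW F a w y * (1 / y ^ 2)) ≤
      ∫⁻ y in Icc Y (2 * Y), ENNReal.ofReal (MW F a w y * (1 / y ^ 2)) := by
  have hanti := MW_anti hF hw hper hlap hmean hY hl hfin
  have hM := MW_nonneg F a hw (2 * Y)
  have m : Measurable fun y : ℝ => ENNReal.ofReal (1 / y ^ 2) := by fun_prop
  calc ∫⁻ y in Ici (2 * Y), ENNReal.ofReal (MW F a w y * (1 / y ^ 2)) ≤
      ∫⁻ y in Ici (2 * Y), ENNReal.ofReal (MW F a w (2 * Y)) * ENNReal.ofReal (1 / y ^ 2) := by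
        refine setLIntegral_mono' measurableSet_Ici fun y hy => ?_
        have hy2 : 2 * Y ≤ y := hy
        rw [← ENNReal.ofReal_mul hM]
        apply ENNReal.ofReal_le_ofReal
        gcongr
        exact hanti (show Y ≤ 2 * Y by linarith) (show Y ≤ y by linarith) hy2
    _ = ENNReal.ofReal (MW F a w (2 * Y)) * ENNReal.ofReal (1 / (2 * Y)) := by
        rw [lintegral_const_mul _ m, lintegral_inv_sq (by linarith)]
    _ = ∫⁻ y in Icc Y (2 * Y), ENNReal.ofReal (MW F a w (2 * Y)) * ENNReal.ofReal (1 / y ^ 2) := by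
        rw [lintegral_const_mul _ m, lintegral_inv_sq_Icc hY]
    _ ≤ _ := by
        refine setLIntegral_mono' measurableSet_Icc fun y hy => ?_
        rw [← ENNReal.ofReal_mul hM]
        apply ENNReal.ofReal_le_ofReal
        gcongr
        exact hanti hy.1 (show Y ≤ 2 * Y by linarith) hy.2

end

end Pool.Agent.T2H31
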