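import Pool.Agent.T2H31.Level0

/-! Many exceptional primes: uniformity in the number of the primes. -/

set_option autoImplicit false

namespace Pool.Agent.T2H31

open Complex MeasureTheory Set Function UpperHalfPlane ModularGroup
open scoped MatrixGroups Modular

theorem bern (s w : ℝ) (hs : 0 ≤ s) (hw : 0 ≤ w) (k : ℕ) :
    s ^ (k + 1) + (k + 1) * w * s ^ k ≤ (s + w) ^ (k + 1) := by
  induction k with
  | zero => simp
  | succ k ih =>
    push_cast
    have h1 : 0 ≤ w * w * s ^ k * (k + 1) := by positivity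
    calc s ^ (k + 1 + 1) + (k + 1 + 1) * w * s ^ (k + 1) ≤
        (s ^ (k + 1) + (k + 1) * w * s ^ k) * (s + w) := by
          have e : (s ^ (k + 1) + (k + 1) * w * s ^ k) * (s + w) =
            s ^ (k + 1 + 1) + (k + 1 + 1) * w * s ^ (k + 1) + w * w * s ^ k * (k + 1) := by ring
          rw [e]
          linarith
      _ ≤ (s + w) ^ (k + 1) * (s + w) := by gcongr
      _ = _ := by ring

/-- elementary symmetric sums -/
theorem esymm_le' (P : Finset ℕ) (w : ℕ → ℝ) (hw : ∀ p ∈ P, 0 ≤ w p) (k : ℕ) :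
    ∑ K ∈ P.powersetCard k, ∏ p ∈ K, w p ≤ (∑ p ∈ P, w p) ^ k / (k.factorial : ℝ) := by
  classical
  induction P using Finset.induction_on generalizing k with
  | empty =>
    rcases k with _ | k
    · simp
    · have : (∅ : Finset ℕ).powersetCard (k + 1) = ∅ := Finset.powersetCard_eq_empty.2 (by simp)
      rw [this]
      simp
  | insert a P haP ih =>
    have hw' : ∀ p ∈ P, 0 ≤ w p := fun p hp => hw p (Finset.mem_insert_of_mem hp)
    have hwa : 0 ≤ w a := hw a (Finset.mem_insert_self a P)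
    rcases k with _ | k
    · simp
    · rw [Finset.powersetCard_succ_insert haP, Finset.sum_union, Finset.sum_image, Finset.sum_insert haP]
      · have e : ∀ K ∈ P.powersetCard k, ∏ p ∈ insert a K, w p = w a * ∏ p ∈ K, w p := by
          intro K hK
          rw [Finset.prod_insert]
          intro h
          exact haP ((Finset.mem_powersetCard.1 hK).1 h)
        rw [Finset.sum_congr rfl e, ← Finset.mul_sum]
        have h1 := ih hw' (k + 1)
        have h2 := ih hw' k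
        set s := ∑ p ∈ P, w p with hs
        have hs0 : 0 ≤ s := Finset.sum_nonneg hw'
        have hf : (0 : ℝ) < (k.factorial : ℝ) := by exact_mod_cast k.factorial_pos
        have hf' : ((k + 1).factorial : ℝ) = (k + 1) * k.factorial := by
          rw [Nat.factorial_succ]
          push_cast
          ring
        have hk : (0 : ℝ) < (k : ℝ) + 1 := by positivity
        calc ∑ K ∈ P.powersetCard (k + 1), ∏ p ∈ K, w p + w a * ∑ K ∈ P.powersetCard k, ∏ p ∈ K, w p ≤
            s ^ (k + 1) / ((k + 1).factorial : ℝ) + w a * (s ^ k / (k.factorial : ℝ)) := by gcongr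
          _ = (s ^ (k + 1) + (k + 1) * w a * s ^ k) / ((k + 1).factorial : ℝ) := by
              rw [hf']
              field_simp
          _ ≤ (s + w a) ^ (k + 1) / ((k + 1).factorial : ℝ) := by
              have := bern s (w a) hs0 hwa k
              gcongr
          _ = _ := by rw [add_comm s]
      · intro K hK K' hK' h
        have hK1 : a ∉ K := fun h => haP ((Finset.mem_powersetCard.1 hK).1 h)
        have hK2 : a ∉ K' := fun h => haP ((Finset.mem_powersetCard.1 hK').1 h)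
        rw [← Finset.erase_insert hK1, ← Finset.erase_insert hK2, h]
      · refine Finset.disjoint_left.2 fun K hK hK' => ?_
        obtain ⟨K'', _, rfl⟩ := Finset.mem_image.1 hK'
        exact haP ((Finset.mem_powersetCard.1 hK).1 (Finset.mem_insert_self a K''))

section
variable {N : ℕ} {ι : Type*} [Fintype ι] {f : ι → ℍ → ℝ} {lam : ι → ℝ} {L : ℝ}

/-- at least `k` exceptional primes -/
theorem Sys0.count_exceptions' (S : Sys0 (CongruenceSubgroup.Gamma0 N) (rep N) f lam L) (hN : N.Prime)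
    (hL : 1 ≤ L)
    (hcusp : ∀ (j : ι) (y : ℝ), 0 < y → ∫ x in (-(1 / 2) : ℝ)..(1 / 2), fc (f j) (pt y x) = 0)
    (hcusp0 : ∀ (j : ι) (y : ℝ), 0 < y → ∫ x in (-(1 / 2) : ℝ)..(-(1 / 2) + N),
      fc (fun u => f j (ModularGroup.S • u)) (pt y x) = 0)
    (P : Finset ℕ) (hP : ∀ p ∈ P, p.Prime) (M : ℕ → ℕ)
    (a : ι → ℕ → ℝ) (hH : ∀ j, ∀ p ∈ P, HeckeP (f j) p (a j p)) (k : ℕ)
    (ha : ∀ j, k ≤ (P.filter fun p => 2 ≤ |a j p|).card) {X : ℝ} (hX0 : 0 ≤ X)
    (hX : ∀ p ∈ P, (p : ℝ) ^ (2 * M p) ≤ X) :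
    (Fintype.card ι : ℝ) ≤ 5125 * ((N + 1) * L) * ((∑ p ∈ P, ww (M p) 1) ^ k / (k.factorial : ℝ)) +
      2000000000000 * (P.card : ℝ) ^ k * (X ^ k) ^ 5 * (Real.sqrt N * Real.sqrt L) := by
  classical
  have hch : ∀ j, ∃ K ⊆ P.filter fun p => 2 ≤ |a j p|, K.card = k := fun j =>
    Finset.exists_subset_card_eq (ha j)
  choose κ hκ1 hκ2 using hch
  have hmem : ∀ j, κ j ∈ P.powersetCard k := fun j =>
    Finset.mem_powersetCard.2 ⟨(hκ1 j).trans (Finset.filter_subset _ _), hκ2 j⟩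
  have hcard : (Fintype.card ι : ℝ) = ∑ K ∈ P.powersetCard k, (Fintype.card {j : ι // κ j = K} : ℝ) := by
    have h1 := Finset.card_eq_sum_card_fiberwise (s := (Finset.univ : Finset ι)) (t := P.powersetCard k)
      (f := κ) (fun j _ => hmem j)
    rw [Finset.card_univ] at h1
    rw [h1]
    push_cast
    refine Finset.sum_congr rfl fun K _ => ?_
    rw [Fintype.card_subtype]
  have hbound : ∀ K ∈ P.powersetCard k, (Fintype.card {j : ι // κ j = K} : ℝ) ≤
      5125 * ((N + 1) * L) * (∏ p ∈ K, ww (M p) 1) +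
        2000000000000 * (X ^ k) ^ 5 * (Real.sqrt N * Real.sqrt L) := by
    intro K hK
    obtain ⟨hKP, hKk⟩ := Finset.mem_powersetCard.1 hK
    have S' : Sys0 (CongruenceSubgroup.Gamma0 N) (rep N) (fun j : {j : ι // κ j = K} => f j.1)
        (fun j => lam j.1) L :=
      { smooth := fun j => S.smooth j.1
        inv := fun j => S.inv j.1
        lap := fun j => S.lap j.1
        bound := fun j => S.bound j.1
        sq_int := fun j => S.sq_int j.1
        norm := fun j => S.norm j.1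
        orth := fun i j hij => S.orth i.1 j.1 fun h => hij (Subtype.ext h) }
    have h2 := S'.count_primes hN hL (fun j => hcusp j.1) (fun j => hcusp0 j.1) K
      (fun p hp => hP p (hKP hp)) (fun _ => 1)
      (fun p hp => le_rfl) M (fun j => a j.1) (fun j p hp => hH j.1 p (hKP hp)) (by
        rintro ⟨j, rfl⟩ p hp
        have := (Finset.mem_filter.1 (hκ1 j hp)).2
        simp only [inv_one]
        linarith)
    refine h2.trans ?_
    have h3 : ∏ p ∈ K, (p : ℝ) ^ (2 * M p) ≤ X ^ k := by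
      calc ∏ p ∈ K, (p : ℝ) ^ (2 * M p) ≤ ∏ _p ∈ K, X :=
            Finset.prod_le_prod (fun p _ => by positivity) fun p hp => hX p (hKP hp)
        _ = X ^ k := by rw [Finset.prod_const, hKk]
    have h4 : 0 ≤ ∏ p ∈ K, (p : ℝ) ^ (2 * M p) := Finset.prod_nonneg fun p _ => by positivity
    gcongr
  rw [hcard]
  refine (Finset.sum_le_sum hbound).trans ?_
  rw [Finset.sum_add_distrib, ← Finset.mul_sum, Finset.sum_const, nsmul_eq_mul, Finset.card_powersetCard]
  have hw : ∀ p ∈ P, 0 ≤ ww (M p) 1 := by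
    intro p hp
    unfold ww
    positivity
  have h5 := esymm_le' P (fun p => ww (M p) 1) hw k
  have h6 : ((P.card.choose k : ℕ) : ℝ) ≤ (P.card : ℝ) ^ k := by
    exact_mod_cast Nat.choose_le_pow _ _
  have hL0 : 0 ≤ 5125 * ((N + 1 : ℝ) * L) := by positivity
  refine add_le_add (mul_le_mul_of_nonneg_left h5 hL0) ?_
  calc ((P.card.choose k : ℕ) : ℝ) * (2000000000000 * (X ^ k) ^ 5 * (Real.sqrt N * Real.sqrt L)) ≤
      (P.card : ℝ) ^ k * (2000000000000 * (X ^ k) ^ 5 * (Real.sqrt N * Real.sqrt L)) := by gcongr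
    _ = _ := by ring

theorem pow_k (k : ℕ) (x : ℝ) (hx : 0 ≤ x) :
    (192 * (24 * (k : ℝ)) ^ 3 * x) ^ k / (k.factorial : ℝ) ≤ (8000000 * k ^ 2 * x) ^ k := by
  have h1 : ((k : ℝ)) ^ k / (k.factorial : ℝ) ≤ Real.exp k := Real.pow_div_factorial_le_exp k (Nat.cast_nonneg k) k
  have h2 : Real.exp (k : ℝ) = Real.exp 1 ^ k := by
    rw [← Real.exp_nat_mul, mul_one]
  have h3 : Real.exp 1 ≤ 3 := Real.exp_one_lt_three.le
  have hk : (0 : ℝ) ≤ k := Nat.cast_nonneg k
  calc (192 * (24 * (k : ℝ)) ^ 3 * x) ^ k / (k.factorial : ℝ) =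
      (2654208 * k ^ 2 * x) ^ k * ((k : ℝ) ^ k / (k.factorial : ℝ)) := by
        have e : 192 * (24 * (k : ℝ)) ^ 3 * x = (2654208 * k ^ 2 * x) * k := by ring
        rw [e, mul_pow (2654208 * (k : ℝ) ^ 2 * x) (k : ℝ)]
        ring
    _ ≤ (2654208 * k ^ 2 * x) ^ k * (Real.exp 1 ^ k) := by
        rw [h2] at h1
        gcongr
    _ ≤ (2654208 * k ^ 2 * x) ^ k * (3 ^ k) := by
        have := Real.exp_pos 1
        gcongr
    _ = (2654208 * k ^ 2 * x * 3) ^ k := by rw [← mul_pow]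
    _ ≤ _ := by
        apply pow_le_pow_left₀ (by positivity)
        have : 0 ≤ (k : ℝ) ^ 2 * x := by positivity
        nlinarith

theorem final_W (S : Sys0 (CongruenceSubgroup.Gamma0 N) (rep N) f lam L) (hN : N.Prime)
    (hL : 1 ≤ L)
    (hcusp : ∀ (j : ι) (y : ℝ), 0 < y → ∫ x in (-(1 / 2) : ℝ)..(1 / 2), fc (f j) (pt y x) = 0)
    (hcusp0 : ∀ (j : ι) (y : ℝ), 0 < y → ∫ x in (-(1 / 2) : ℝ)..(-(1 / 2) + N),
      fc (fun u => f j (ModularGroup.S • u)) (pt y x) = 0)
    {k : ℕ} (hk : 1 ≤ k) {P : Finset ℕ}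
    (hP : ∀ p ∈ P, p.Prime ∧ (p : ℝ) ≤ ((N : ℝ) * L) ^ (1 / (24 * k) : ℝ))
    (a : ι → ℕ → ℝ) (hH : ∀ j, ∀ p ∈ P, HeckeP (f j) p (a j p))
    (ha : ∀ j, k ≤ (P.filter fun p : ℕ => 2 ≤ |a j p|).card) :
    (Fintype.card ι : ℝ) ≤ 10000 * (N * L) *
        (8000000 * k ^ 2 * ∑ p ∈ P, (Real.log p / Real.log (N * L)) ^ 3) ^ k +
      2000000000000 * ((N : ℝ) * L) ^ (23 / 24 : ℝ) := by
  have hk' : (1 : ℝ) ≤ k := by exact_mod_cast hk
  have hN2 : (2 : ℝ) ≤ N := by exact_mod_cast hN.two_le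
  set V : ℝ := (N : ℝ) * L with hV
  have hV2 : 2 ≤ V := by nlinarith
  have hV0 : 0 < V := by linarith
  set M : ℕ → ℕ := fun p => ⌊Real.log V / (24 * k * Real.log p)⌋₊ with hM
  have hb := fun p (hp : p ∈ P) => ww_bound' (κ := 24 * k) (by linarith : 1 < V) (by positivity) (hP p hp).1
    (hP p hp).2 (le_refl (0 : ℝ)) (M := M p) rfl
  have key := S.count_exceptions' hN hL hcusp hcusp0 P (fun p hp => (hP p hp).1)
    M a hH k ha
    (X := V ^ (2 / (24 * k) : ℝ)) (by positivity) (fun p hp => (hb p hp).2)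
  refine key.trans ?_
  set Z := ∑ p ∈ P, (Real.log p / Real.log V) ^ 3 with hZ
  have hZ0 : 0 ≤ Z := by
    refine Finset.sum_nonneg fun p hp => ?_
    have h3 : 0 ≤ Real.log p := Real.log_nonneg (by exact_mod_cast (hP p hp).1.one_lt.le)
    have h4 : 0 ≤ Real.log V := Real.log_nonneg (by linarith)
    positivity
  have h1 : ∑ p ∈ P, ww (M p) 1 ≤ 192 * (24 * k) ^ 3 * Z := by
    rw [hZ, Finset.mul_sum]
    refine Finset.sum_le_sum fun p hp => ?_
    have h := (hb p hp).1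
    simpa using h
  have hw0 : 0 ≤ ∑ p ∈ P, ww (M p) 1 := by
    refine Finset.sum_nonneg fun p _ => ?_
    unfold ww
    positivity
  have hcardP : (P.card : ℝ) ≤ V ^ (1 / (24 * k) : ℝ) := by
    have hsub : P ⊆ Finset.Icc 1 ⌊V ^ (1 / (24 * k) : ℝ)⌋₊ := by
      intro p hp
      rw [Finset.mem_Icc]
      exact ⟨(hP p hp).1.one_lt.le, Nat.le_floor (hP p hp).2⟩
    have h2 := Finset.card_le_card hsub
    rw [Nat.card_Icc, Nat.add_sub_cancel] at h2
    calc (P.card : ℝ) ≤ (⌊V ^ (1 / (24 * k) : ℝ)⌋₊ : ℝ) := by exact_mod_cast h2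
      _ ≤ _ := Nat.floor_le (by positivity)
  have hcardk : (P.card : ℝ) ^ k ≤ V ^ (1 / 24 : ℝ) := by
    calc (P.card : ℝ) ^ k ≤ (V ^ (1 / (24 * k) : ℝ)) ^ k := by gcongr
      _ = V ^ (1 / 24 : ℝ) := by
          rw [← Real.rpow_natCast, ← Real.rpow_mul hV0.le]
          congr 1
          field_simp
  have hXk : ((V ^ (2 / (24 * k) : ℝ)) ^ k) ^ 5 = V ^ (5 / 12 : ℝ) := by
    rw [← Real.rpow_natCast, ← Real.rpow_natCast, ← Real.rpow_mul hV0.le, ← Real.rpow_mul hV0.le]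
    congr 1
    push_cast
    field_simp
    norm_num
  have hsqrt : Real.sqrt N * Real.sqrt L = V ^ (1 / 2 : ℝ) := by
    rw [← Real.sqrt_mul (by positivity), ← hV, Real.sqrt_eq_rpow]
  have hNV : ((N : ℝ) + 1) * L ≤ 3 / 2 * V := by
    rw [hV]
    nlinarith
  have hNV0 : 0 ≤ ((N : ℝ) + 1) * L := by positivity
  refine add_le_add ?_ ?_
  · have h7 : (∑ p ∈ P, ww (M p) 1) ^ k / (k.factorial : ℝ) ≤ (8000000 * k ^ 2 * Z) ^ k := by
      refine le_trans ?_ (pow_k k Z hZ0)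
      gcongr
    calc 5125 * (((N : ℝ) + 1) * L) * ((∑ p ∈ P, ww (M p) 1) ^ k / (k.factorial : ℝ)) ≤
        5125 * (3 / 2 * V) * (8000000 * k ^ 2 * Z) ^ k := by
          refine mul_le_mul (mul_le_mul_of_nonneg_left hNV (by norm_num)) h7 (by positivity) (by positivity)
      _ = (5125 * (3 / 2)) * (V * (8000000 * k ^ 2 * Z) ^ k) := by ring
      _ ≤ 10000 * (V * (8000000 * k ^ 2 * Z) ^ k) := by
          have h9 : 0 ≤ V * (8000000 * (k : ℝ) ^ 2 * Z) ^ k := by positivity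
          nlinarith
      _ = _ := by ring
  · rw [hXk, hsqrt]
    calc 2000000000000 * (P.card : ℝ) ^ k * V ^ (5 / 12 : ℝ) * V ^ (1 / 2 : ℝ) ≤
        2000000000000 * V ^ (1 / 24 : ℝ) * V ^ (5 / 12 : ℝ) * V ^ (1 / 2 : ℝ) := by gcongr
      _ = 2000000000000 * (V ^ (1 / 24 : ℝ) * V ^ (5 / 12 : ℝ) * V ^ (1 / 2 : ℝ)) := by ring
      _ = 2000000000000 * V ^ (23 / 24 : ℝ) := by
          rw [← Real.rpow_add hV0, ← Real.rpow_add hV0]
          norm_num

end

end Pool.Agent.T2H31
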