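import Pool.Agent.T2H31.Dev0

/-! The choice of the parameters. -/

set_option autoImplicit false

namespace Pool.Agent.T2H31

open Set Function

theorem pi_lower {y : ℝ} (hy : 30 ≤ y) : y / 2 ≤ ((Nat.primesLE ⌊y⌋₊).card : ℝ) * Real.log y := by
  have h1 := Chebyshev.psi_le_primeCounting_mul_log' y
  have h2 := Chebyshev.psi_ge' (x := y) (by linarith)
  rw [← Nat.primesLE_card_eq_primeCounting] at h1
  have h3 : Real.log (y + 2) ≤ (y + 2) / 16 - 1 + 4 * Real.log 2 := by
    have h4 := Real.log_le_sub_one_of_pos (show 0 < (y + 2) / 16 by linarith)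
    rw [Real.log_div (by linarith) (by norm_num)] at h4
    have h5 : Real.log 16 = 4 * Real.log 2 := by
      rw [show (16 : ℝ) = 2 ^ 4 by norm_num, Real.log_pow]
      push_cast
      ring
    linarith
  have h6 := Real.log_two_gt_d9
  have h7 := Real.log_two_lt_d9
  nlinarith

theorem sum_log_cube {y : ℝ} (hy : 1 ≤ y) :
    ∑ p ∈ Nat.primesLE ⌊y⌋₊, Real.log p ^ 3 ≤ Real.log y ^ 2 * (Real.log 4 * y) := by
  have h1 := Chebyshev.theta_le_log4_mul_x (x := y) (by linarith)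
  rw [Chebyshev.theta_eq_sum_primesLE] at h1
  calc ∑ p ∈ Nat.primesLE ⌊y⌋₊, Real.log p ^ 3 ≤ ∑ p ∈ Nat.primesLE ⌊y⌋₊, Real.log y ^ 2 * Real.log p := by
        refine Finset.sum_le_sum fun p hp => ?_
        have hp1 := Nat.prime_of_mem_primesLE hp
        have hp2 := Nat.le_of_mem_primesLE hp
        have h2 : (p : ℝ) ≤ y := by
          have : (p : ℝ) ≤ (⌊y⌋₊ : ℝ) := by exact_mod_cast hp2
          exact this.trans (Nat.floor_le (by linarith))
        have h0 : (1 : ℝ) ≤ p := by exact_mod_cast hp1.one_lt.le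
        have h3 : 0 ≤ Real.log p := Real.log_nonneg h0
        have h4 : Real.log p ≤ Real.log y := Real.log_le_log (by linarith) h2
        calc Real.log p ^ 3 = Real.log p ^ 2 * Real.log p := by ring
          _ ≤ Real.log y ^ 2 * Real.log p := by gcongr
    _ = Real.log y ^ 2 * ∑ p ∈ Nat.primesLE ⌊y⌋₊, Real.log p := by rw [Finset.mul_sum]
    _ ≤ _ := by gcongr

theorem num {ε A : ℝ} (hε : 0 < ε) (hA : 0 < A) : ∃ c : ℝ, 0 < c ∧ ∃ V₀ : ℝ, 1 < V₀ ∧ ∀ V : ℝ, V₀ ≤ V →
    ∃ k : ℕ, 1 ≤ k ∧ (k : ℝ) ≤ ε * ((Nat.primesLE ⌊A * Real.log V⌋₊).card : ℝ) ∧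
      (∀ p ∈ Nat.primesLE ⌊A * Real.log V⌋₊, (p : ℝ) ≤ V ^ (1 / (24 * k) : ℝ)) ∧
      10000 * V * (8000000 * k ^ 2 * ∑ p ∈ Nat.primesLE ⌊A * Real.log V⌋₊,
        (Real.log p / Real.log V) ^ 3) ^ k + 2000000000000 * V ^ (23 / 24 : ℝ) ≤
        V ^ (1 - c / Real.log (Real.log V)) := by
  set κ : ℝ := min (1 / 24) (min (ε * A / 2) (1 / (7000 * (1 + A)))) with hκ
  have hκ0 : 0 < κ := lt_min (by norm_num) (lt_min (by positivity) (by positivity))
  have hκ1 : κ ≤ 1 / 24 := min_le_left _ _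
  have hκ2 : κ ≤ ε * A / 2 := (min_le_right _ _).trans (min_le_left _ _)
  have hκ3 : κ ≤ 1 / (7000 * (1 + A)) := (min_le_right _ _).trans (min_le_right _ _)
  set c : ℝ := κ / 4 with hc
  have hc0 : 0 < c := by positivity
  set ℓ₀ : ℝ := max (max 1000 A) (max (30 / A) ((24 / c) ^ 2)) with hℓ₀
  refine ⟨c, hc0, Real.exp ℓ₀, ?_, ?_⟩
  · have : (1000 : ℝ) ≤ ℓ₀ := (le_max_left _ _).trans (le_max_left _ _)
    exact Real.one_lt_exp_iff.2 (by linarith)
  intro V hV
  have hV0 : 0 < V := (Real.exp_pos _).trans_le hV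
  obtain ⟨ℓ, hℓ⟩ : ∃ ℓ : ℝ, ℓ = Real.log V := ⟨_, rfl⟩
  have hVexp : V = Real.exp ℓ := by rw [hℓ, Real.exp_log hV0]
  have hℓ0 : ℓ₀ ≤ ℓ := by
    rw [hℓ, ← Real.log_exp ℓ₀]
    exact Real.log_le_log (Real.exp_pos _) hV
  have hℓ1 : 1000 ≤ ℓ := ((le_max_left _ _).trans (le_max_left _ _)).trans hℓ0
  have hℓ2 : A ≤ ℓ := ((le_max_right _ _).trans (le_max_left _ _)).trans hℓ0
  have hℓ3 : 30 / A ≤ ℓ := ((le_max_left _ _).trans (le_max_right _ _)).trans hℓ0
  have hℓ4 : (24 / c) ^ 2 ≤ ℓ := ((le_max_right _ _).trans (le_max_right _ _)).trans hℓ0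
  have hℓp : 0 < ℓ := by linarith
  rw [← hℓ]
  set y : ℝ := A * ℓ with hy
  have hy30 : 30 ≤ y := by
    rw [div_le_iff₀ hA] at hℓ3
    rw [hy]
    linarith
  have hlogℓ : 1 ≤ Real.log ℓ := by
    have h1 : Real.exp 1 ≤ ℓ := by
      have := Real.exp_one_lt_three
      linarith
    rw [← Real.log_exp 1]
    exact Real.log_le_log (Real.exp_pos _) h1
  have hlogy : Real.log y ≤ 2 * Real.log ℓ := by
    rw [hy, Real.log_mul hA.ne' hℓp.ne']
    have := Real.log_le_log hA hℓ2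
    linarith
  have hlogy1 : 1 ≤ Real.log y := by
    have h1 : Real.exp 1 ≤ y := by
      have := Real.exp_one_lt_three
      linarith
    rw [← Real.log_exp 1]
    exact Real.log_le_log (Real.exp_pos _) h1
  have hlogy0 : 0 < Real.log y := by linarith
  -- the size of `c ℓ / log ℓ`
  have hsq : 24 / c ≤ Real.sqrt ℓ := Real.le_sqrt_of_sq_le hℓ4
  have hloglt : Real.log ℓ ≤ 2 * Real.sqrt ℓ := by
    have h1 := Real.log_le_sub_one_of_pos (Real.sqrt_pos.2 hℓp)
    rw [Real.log_sqrt hℓp.le] at h1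
    linarith
  have hbig : 12 ≤ c * ℓ / Real.log ℓ := by
    rw [le_div_iff₀ (by linarith)]
    rw [div_le_iff₀ hc0] at hsq
    have hs0 := Real.sqrt_nonneg ℓ
    have hs2 : Real.sqrt ℓ * Real.sqrt ℓ = ℓ := Real.mul_self_sqrt hℓp.le
    nlinarith
  set k : ℕ := ⌊κ * ℓ / Real.log y⌋₊ with hk
  have hkle : (k : ℝ) ≤ κ * ℓ / Real.log y := Nat.floor_le (by positivity)
  have hkgt : κ * ℓ / Real.log y < k + 1 := Nat.lt_floor_add_one _
  have hbig2 : c * ℓ / Real.log ℓ * 2 ≤ κ * ℓ / Real.log y := by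
    have e : c * ℓ / Real.log ℓ * 2 = κ * ℓ / (2 * Real.log ℓ) := by
      rw [hc]
      field_simp
      norm_num
    rw [e]
    gcongr
  have hk1 : 1 ≤ k := by
    apply Nat.le_floor
    push_cast
    linarith
  have hk1' : (1 : ℝ) ≤ k := by exact_mod_cast hk1
  refine ⟨k, hk1, ?_, ?_, ?_⟩
  · have h1 := pi_lower hy30
    have h2 : κ * ℓ ≤ ε * (y / 2) := by
      rw [hy]
      nlinarith
    refine hkle.trans ?_
    rw [div_le_iff₀ hlogy0]
    nlinarith
  · intro p hp
    have hp1 := Nat.prime_of_mem_primesLE hp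
    have hp2 := Nat.le_of_mem_primesLE hp
    have h2 : (p : ℝ) ≤ y := by
      have : (p : ℝ) ≤ (⌊y⌋₊ : ℝ) := by exact_mod_cast hp2
      exact this.trans (Nat.floor_le (by linarith))
    refine h2.trans ?_
    rw [Real.rpow_def_of_pos hV0, ← hℓ]
    rw [← Real.log_le_iff_le_exp (by linarith)]
    rw [mul_one_div, le_div_iff₀ (by positivity)]
    rw [le_div_iff₀ hlogy0] at hkle
    nlinarith
  · have hVlog : Real.log V = ℓ := hℓ.symm
    have hterm : 8000000 * (k : ℝ) ^ 2 * ∑ p ∈ Nat.primesLE ⌊y⌋₊, (Real.log p / ℓ) ^ 3 ≤ Real.exp (-1) := by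
      have h1 : ∑ p ∈ Nat.primesLE ⌊y⌋₊, (Real.log p / ℓ) ^ 3 =
          (∑ p ∈ Nat.primesLE ⌊y⌋₊, Real.log p ^ 3) / ℓ ^ 3 := by
        rw [Finset.sum_div]
        refine Finset.sum_congr rfl fun p _ => by rw [div_pow]
      have h2 := sum_log_cube (y := y) (by linarith)
      have h3 : Real.log 4 ≤ 1.4 := by
        have : Real.log 4 = 2 * Real.log 2 := by
          rw [show (4 : ℝ) = 2 ^ 2 by norm_num, Real.log_pow]
          push_cast
          ring
        have h5 := Real.log_two_lt_d9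
        rw [this]
        linarith
      have h4 : (k : ℝ) * Real.log y ≤ κ * ℓ := by
        rwa [le_div_iff₀ hlogy0] at hkle
      have h5 : ((k : ℝ) * Real.log y) ^ 2 ≤ (κ * ℓ) ^ 2 := by gcongr
      have h6 : κ ^ 2 * A ≤ 1 / 49000000 := by
        have h7 : κ ^ 2 ≤ (1 / (7000 * (1 + A))) ^ 2 := by gcongr
        have h8 : (1 / (7000 * (1 + A))) ^ 2 * A ≤ 1 / 49000000 := by
          rw [div_pow, one_pow, one_div_mul_eq_div, div_le_div_iff₀ (by positivity) (by norm_num)]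
          nlinarith [sq_nonneg A]
        calc κ ^ 2 * A ≤ (1 / (7000 * (1 + A))) ^ 2 * A := by gcongr
          _ ≤ _ := h8
      have h9 : (3 : ℝ)⁻¹ ≤ Real.exp (-1) := by
        rw [Real.exp_neg]
        exact inv_anti₀ (Real.exp_pos 1) Real.exp_one_lt_three.le
      refine le_trans ?_ h9
      rw [h1, mul_div_assoc', div_le_iff₀ (by positivity)]
      calc 8000000 * (k : ℝ) ^ 2 * ∑ p ∈ Nat.primesLE ⌊y⌋₊, Real.log p ^ 3 ≤
          8000000 * (k : ℝ) ^ 2 * (Real.log y ^ 2 * (1.4 * y)) := by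
            have hy0 : 0 ≤ y := by linarith
            gcongr
            exact h2.trans (by gcongr)
        _ = 8000000 * 1.4 * ((k : ℝ) * Real.log y) ^ 2 * y := by ring
        _ ≤ 8000000 * 1.4 * (κ * ℓ) ^ 2 * y := by
            have hy0 : 0 ≤ y := by linarith
            gcongr
        _ = 8000000 * 1.4 * (κ ^ 2 * A) * ℓ ^ 3 := by
            rw [hy]
            ring
        _ ≤ 8000000 * 1.4 * (1 / 49000000) * ℓ ^ 3 := by gcongr
        _ ≤ 3⁻¹ * ℓ ^ 3 := by
            have : 0 ≤ ℓ ^ 3 := by positivity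
            nlinarith
    have hterm0 : 0 ≤ 8000000 * (k : ℝ) ^ 2 * ∑ p ∈ Nat.primesLE ⌊y⌋₊, (Real.log p / ℓ) ^ 3 := by
      have : 0 ≤ ∑ p ∈ Nat.primesLE ⌊y⌋₊, (Real.log p / ℓ) ^ 3 := by
        refine Finset.sum_nonneg fun p hp => ?_
        have hp1 := Nat.prime_of_mem_primesLE hp
        have h3 : 0 ≤ Real.log p := Real.log_nonneg (by exact_mod_cast hp1.one_lt.le)
        positivity
      positivity
    set D : ℝ := c * ℓ / Real.log ℓ with hD
    have hpow : (8000000 * (k : ℝ) ^ 2 * ∑ p ∈ Nat.primesLE ⌊y⌋₊, (Real.log p / ℓ) ^ 3) ^ k ≤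
        Real.exp (1 - 2 * D) := by
      calc (8000000 * (k : ℝ) ^ 2 * ∑ p ∈ Nat.primesLE ⌊y⌋₊, (Real.log p / ℓ) ^ 3) ^ k ≤
          (Real.exp (-1)) ^ k := pow_le_pow_left₀ hterm0 hterm _
        _ = Real.exp (-k) := by
            rw [← Real.exp_nat_mul]
            congr 1
            ring
        _ ≤ _ := by
            apply Real.exp_le_exp.2
            linarith
    have e1 : V ^ (1 - c / Real.log ℓ) = V * Real.exp (-D) := by
      rw [Real.rpow_sub hV0, Real.rpow_one, Real.exp_neg, Real.rpow_def_of_pos hV0, ← hℓ, hD,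
        show ℓ * (c / Real.log ℓ) = c * ℓ / Real.log ℓ by ring]
      rfl
    have e2 : V ^ (23 / 24 : ℝ) = V * Real.exp (-(ℓ / 24)) := by
      rw [show (23 / 24 : ℝ) = 1 - 1 / 24 by norm_num, Real.rpow_sub hV0, Real.rpow_one, Real.exp_neg,
        Real.rpow_def_of_pos hV0, ← hℓ, show ℓ * (1 / 24) = ℓ / 24 by ring]
      rfl
    rw [e1, e2]
    have hD12 : 12 ≤ D := hbig
    have hDle : D ≤ ℓ / 96 := by
      rw [hD, div_le_iff₀ (by linarith)]
      have : c ≤ 1 / 96 := by rw [hc]; linarith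
      have h10 : c * ℓ ≤ 1 / 96 * ℓ := by gcongr
      nlinarith
    have f1 : 10000 * Real.exp (1 - 2 * D) ≤ 1 / 2 * Real.exp (-D) := by
      have h11 : Real.exp (1 - 2 * D) = Real.exp (1 - D) * Real.exp (-D) := by
        rw [← Real.exp_add]
        congr 1
        ring
      have h12 : Real.exp (1 - D) ≤ Real.exp (-11) := Real.exp_le_exp.2 (by linarith)
      have h13 : Real.exp (-11) ≤ 1 / 20000 := by
        rw [Real.exp_neg, inv_eq_one_div]
        apply one_div_le_one_div_of_le (by norm_num)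
        have h14 : Real.exp 11 = Real.exp 1 ^ 11 := by
          rw [← Real.exp_nat_mul]
          norm_num
        rw [h14]
        have h15 : (2.7 : ℝ) ≤ Real.exp 1 := by
          have := Real.exp_one_gt_d9
          linarith
        calc (20000 : ℝ) ≤ 2.7 ^ 11 := by norm_num
          _ ≤ _ := by gcongr
      rw [h11]
      have h16 := Real.exp_pos (-D)
      nlinarith
    have f2 : 2000000000000 * Real.exp (-(ℓ / 24)) ≤ 1 / 2 * Real.exp (-D) := by
      have h11 : Real.exp (-(ℓ / 24)) = Real.exp (D - ℓ / 24) * Real.exp (-D) := by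
        rw [← Real.exp_add]
        congr 1
        ring
      have h12 : Real.exp (D - ℓ / 24) ≤ Real.exp (-31) := Real.exp_le_exp.2 (by linarith)
      have h13 : Real.exp (-31) ≤ 1 / 4000000000000 := by
        rw [Real.exp_neg, inv_eq_one_div]
        apply one_div_le_one_div_of_le (by norm_num)
        have h14 : Real.exp 31 = Real.exp 1 ^ 31 := by
          rw [← Real.exp_nat_mul]
          norm_num
        rw [h14]
        have h15 : (2.7 : ℝ) ≤ Real.exp 1 := by
          have := Real.exp_one_gt_d9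
          linarith
        calc (4000000000000 : ℝ) ≤ 2.7 ^ 31 := by norm_num
          _ ≤ _ := by gcongr
      rw [h11]
      have h16 := Real.exp_pos (-D)
      nlinarith
    calc 10000 * V * (8000000 * (k : ℝ) ^ 2 * ∑ p ∈ Nat.primesLE ⌊y⌋₊, (Real.log p / ℓ) ^ 3) ^ k +
        2000000000000 * (V * Real.exp (-(ℓ / 24))) ≤ 10000 * V * Real.exp (1 - 2 * D) +
        2000000000000 * (V * Real.exp (-(ℓ / 24))) := by gcongr
      _ = V * (10000 * Real.exp (1 - 2 * D) + 2000000000000 * Real.exp (-(ℓ / 24))) := by ring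
      _ ≤ V * (1 / 2 * Real.exp (-D) + 1 / 2 * Real.exp (-D)) := by gcongr
      _ = _ := by ring

end Pool.Agent.T2H31
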