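import Mathlib

/-! A disc estimate: `F(z)² ≤ C (r⁻² ∫ F² + r² ∫ (ΔF)²)`. -/

set_option autoImplicit false

namespace Pool.Agent.T2H31

open Complex MeasureTheory Set Function

/-- the Euclidean Laplacian -/
noncomputable def lapl (F : ℂ → ℝ) (z : ℂ) : ℝ :=
  fderiv ℝ (fderiv ℝ F) z 1 1 + fderiv ℝ (fderiv ℝ F) z I I

theorem hasDerivAt_param {G G' : ℝ → ℝ → ℝ} (hG : Continuous (uncurry G))
    (hG' : Continuous (uncurry G')) (h : ∀ r θ, HasDerivAt (fun s => G s θ) (G' r θ) r)
    (a b r : ℝ) :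
    HasDerivAt (fun s => ∫ θ in a..b, G s θ) (∫ θ in a..b, G' r θ) r := by
  have hcomp : IsCompact ((Metric.closedBall r 1) ×ˢ (uIcc a b)) :=
    (isCompact_closedBall r 1).prod isCompact_uIcc
  obtain ⟨C, hC⟩ := hcomp.exists_bound_of_continuousOn (f := uncurry G') hG'.continuousOn
  refine (intervalIntegral.hasDerivAt_integral_of_dominated_loc_of_deriv_le (bound := fun _ => C)
    (F' := G') (Metric.ball_mem_nhds r one_pos) ?_ ?_ ?_ ?_ ?_ ?_).2
  · refine Filter.Eventually.of_forall fun x => ?_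
    exact (hG.comp (Continuous.prodMk_right x)).aestronglyMeasurable
  · exact (hG.comp (Continuous.prodMk_right r)).intervalIntegrable _ _
  · exact (hG'.comp (Continuous.prodMk_right r)).aestronglyMeasurable
  · refine Filter.Eventually.of_forall fun θ hθ x hx => ?_
    exact hC (x, θ) ⟨Metric.ball_subset_closedBall hx, uIoc_subset_uIcc hθ⟩
  · exact intervalIntegrable_const
  · exact Filter.Eventually.of_forall fun θ _ x _ => h x θ

end Pool.Agent.T2H31
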