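import Pool.Agent.T2H31.Disc

/-! A disc estimate: `F(z)² ≤ C (r⁻² ∫ F² + r² ∫ (ΔF)²)`. -/

set_option autoImplicit false

namespace Pool.Agent.T2H31

open Complex MeasureTheory Set Function

/-- the unit circle -/
noncomputable def ee (θ : ℝ) : ℂ := Complex.exp (θ * I)

theorem ee_eq (θ : ℝ) : ee θ = (Real.cos θ : ℂ) + (Real.sin θ : ℂ) * I := by
  rw [ee, Complex.exp_mul_I, Complex.ofReal_cos, Complex.ofReal_sin]

theorem continuous_ee : Continuous ee := by unfold ee; fun_prop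

theorem hasDerivAt_ee (θ : ℝ) : HasDerivAt ee (I * ee θ) θ := by
  have h : HasDerivAt (fun t : ℝ => (t : ℂ) * I) (1 * I) θ := (Complex.ofRealCLM.hasDerivAt).mul_const I
  have := h.cexp
  unfold ee
  convert this using 1
  ring

theorem lapl_rot (B : ℂ →L[ℝ] ℂ →L[ℝ] ℝ) (θ : ℝ) (hB : B 1 I = B I 1) :
    B (ee θ) (ee θ) + B (I * ee θ) (I * ee θ) = B 1 1 + B I I := by
  have h1 : ee θ = Real.cos θ • (1 : ℂ) + Real.sin θ • I := by
    rw [ee_eq]; simp
  have h2 : I * ee θ = (-Real.sin θ) • (1 : ℂ) + Real.cos θ • I := by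
    rw [ee_eq]
    simp only [Complex.real_smul]
    push_cast
    linear_combination (Complex.sin θ) * Complex.I_mul_I
  rw [h1] at *
  rw [h2]
  simp only [map_add, map_smul, ContinuousLinearMap.add_apply, ContinuousLinearMap.smul_apply, smul_eq_mul, hB]
  have := Real.sin_sq_add_cos_sq θ
  linear_combination (B 1 1 + B I I) * this

section
variable {F : ℂ → ℝ} (hF : ContDiff ℝ 2 F) (z₀ : ℂ)
include hF

theorem cF : Continuous F := hF.continuous
theorem cF1 : Continuous (fderiv ℝ F) := hF.continuous_fderiv (by norm_num)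
theorem dF (z : ℂ) : HasFDerivAt F (fderiv ℝ F z) z := (hF.differentiable (by norm_num) z).hasFDerivAt
theorem cdF1 : ContDiff ℝ 1 (fderiv ℝ F) := hF.fderiv_right (by norm_num)
theorem cF2 : Continuous (fderiv ℝ (fderiv ℝ F)) := (cdF1 hF).continuous_fderiv (by norm_num)
theorem dF1 (z : ℂ) : HasFDerivAt (fderiv ℝ F) (fderiv ℝ (fderiv ℝ F) z) z :=
  ((cdF1 hF).differentiable (by norm_num) z).hasFDerivAt

theorem cont_lapl : Continuous (lapl F) := by
  have := cF2 hF
  unfold lapl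
  fun_prop

theorem symm2 (z : ℂ) (u v : ℂ) : fderiv ℝ (fderiv ℝ F) z u v = fderiv ℝ (fderiv ℝ F) z v u := by
  have h : IsSymmSndFDerivAt ℝ F z := (hF.contDiffAt).isSymmSndFDerivAt (by simp)
  exact h u v

/-- `P(ρ) = ∫ F(z₀ + ρ e(θ)) dθ` has derivative `∫ DF(z₀ + ρ e)(e)`. -/
theorem hasDerivAt_P (ρ : ℝ) :
    HasDerivAt (fun s : ℝ => ∫ θ in (-Real.pi)..Real.pi, F (z₀ + s * ee θ))
      (∫ θ in (-Real.pi)..Real.pi, fderiv ℝ F (z₀ + ρ * ee θ) (ee θ)) ρ := by
  have c1 := cF1 hF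
  have c0 := cF hF
  have ce := continuous_ee
  refine hasDerivAt_param (G := fun s θ => F (z₀ + s * ee θ))
    (G' := fun s θ => fderiv ℝ F (z₀ + s * ee θ) (ee θ)) ?_ ?_ ?_ _ _ _
  · simp only [uncurry_def]; fun_prop
  · simp only [uncurry_def]; fun_prop
  · intro r θ
    have h : HasDerivAt (fun s : ℝ => z₀ + (s : ℂ) * ee θ) (ee θ) r := by
      have := ((Complex.ofRealCLM.hasDerivAt (x := r)).mul_const (ee θ)).const_add z₀
      simpa using this
    exact (dF hF _).comp_hasDerivAt r h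

theorem hasDerivAt_R (ρ : ℝ) :
    HasDerivAt (fun s : ℝ => ∫ θ in (-Real.pi)..Real.pi, fderiv ℝ F (z₀ + s * ee θ) (s * ee θ))
      (ρ * ∫ θ in (-Real.pi)..Real.pi, lapl F (z₀ + ρ * ee θ)) ρ := by
  have c2 := cF2 hF
  have c1 := cF1 hF
  have c0 := cF hF
  have ce := continuous_ee
  have key := hasDerivAt_param (G := fun s θ => fderiv ℝ F (z₀ + s * ee θ) (s * ee θ))
    (G' := fun s θ => fderiv ℝ (fderiv ℝ F) (z₀ + s * ee θ) (ee θ) (s * ee θ) +
      fderiv ℝ F (z₀ + s * ee θ) (ee θ)) (by simp only [uncurry_def]; fun_prop)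
    (by simp only [uncurry_def]; fun_prop) (fun r θ => by
      have h : HasDerivAt (fun s : ℝ => z₀ + (s : ℂ) * ee θ) (ee θ) r := by
        have := ((Complex.ofRealCLM.hasDerivAt (x := r)).mul_const (ee θ)).const_add z₀
        simpa using this
      have h' : HasDerivAt (fun s : ℝ => (s : ℂ) * ee θ) (ee θ) r := by
        have := ((Complex.ofRealCLM.hasDerivAt (x := r)).mul_const (ee θ))
        simpa using this
      exact ((dF1 hF _).comp_hasDerivAt r h).clm_apply h') (-Real.pi) Real.pi ρ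
  convert key using 1
  have hper : ∫ θ in (-Real.pi)..Real.pi, (fderiv ℝ (fderiv ℝ F) (z₀ + ρ * ee θ) (ρ * (I * ee θ)) (I * ee θ) +
      fderiv ℝ F (z₀ + ρ * ee θ) (I * (I * ee θ))) = 0 := by
    have hd : ∀ θ : ℝ, HasDerivAt (fun t : ℝ => fderiv ℝ F (z₀ + ρ * ee t) (I * ee t))
        (fderiv ℝ (fderiv ℝ F) (z₀ + ρ * ee θ) (ρ * (I * ee θ)) (I * ee θ) +
          fderiv ℝ F (z₀ + ρ * ee θ) (I * (I * ee θ))) θ := by
      intro θ
      have h : HasDerivAt (fun t : ℝ => z₀ + (ρ : ℂ) * ee t) (ρ * (I * ee θ)) θ :=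
        ((hasDerivAt_ee θ).const_mul _).const_add z₀
      have h' : HasDerivAt (fun t : ℝ => I * ee t) (I * (I * ee θ)) θ := (hasDerivAt_ee θ).const_mul _
      exact ((dF1 hF _).comp_hasDerivAt θ h).clm_apply h'
    rw [intervalIntegral.integral_eq_sub_of_hasDerivAt (fun θ _ => hd θ)]
    · have : ee Real.pi = ee (-Real.pi) := by rw [ee_eq, ee_eq]; simp
      rw [this, sub_self]
    · refine Continuous.intervalIntegrable ?_ _ _
      fun_prop
  have hsum : ∀ θ : ℝ, ρ * lapl F (z₀ + ρ * ee θ) =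
      (fderiv ℝ (fderiv ℝ F) (z₀ + ρ * ee θ) (ee θ) (ρ * ee θ) + fderiv ℝ F (z₀ + ρ * ee θ) (ee θ)) +
      (fderiv ℝ (fderiv ℝ F) (z₀ + ρ * ee θ) (ρ * (I * ee θ)) (I * ee θ) +
          fderiv ℝ F (z₀ + ρ * ee θ) (I * (I * ee θ))) := by
    intro θ
    have h1 := lapl_rot (fderiv ℝ (fderiv ℝ F) (z₀ + ρ * ee θ)) θ (symm2 hF _ _ _)
    have h2 : I * (I * ee θ) = - ee θ := by rw [← mul_assoc, I_mul_I]; ring
    have h3 : ∀ w : ℂ, (ρ : ℂ) * w = ρ • w := fun w => (Complex.real_smul).symm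
    rw [h2, map_neg, lapl, ← h1, h3 (ee θ), h3 (I * ee θ), map_smul, map_smul, smul_eq_mul]
    simp only [ContinuousLinearMap.smul_apply, smul_eq_mul]
    ring
  rw [← intervalIntegral.integral_const_mul]
  simp_rw [hsum]
  rw [intervalIntegral.integral_add, hper, add_zero]
  · refine Continuous.intervalIntegrable ?_ _ _
    fun_prop
  · refine Continuous.intervalIntegrable ?_ _ _
    fun_prop

end

end Pool.Agent.T2H31
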