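import Pool.Agent.T2H31.Disc2

/-! A disc estimate: `F(z)² ≤ C (r⁻² ∫ F² + r² ∫ (ΔF)²)`. -/

set_option autoImplicit false

namespace Pool.Agent.T2H31

open Complex MeasureTheory Set Function

theorem cs_weight {w f : ℝ → ℝ} (hw : Continuous w) (hf : Continuous f) {a b : ℝ} (hab : a ≤ b)
    (h0 : ∀ x ∈ Icc a b, 0 ≤ w x) :
    (∫ x in a..b, w x * f x) ^ 2 ≤ (∫ x in a..b, w x) * ∫ x in a..b, w x * f x ^ 2 := by
  have h : ∀ t : ℝ, 0 ≤ (∫ x in a..b, w x) * (t * t) + (-2 * ∫ x in a..b, w x * f x) * t +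
      ∫ x in a..b, w x * f x ^ 2 := by
    intro t
    have h1 : 0 ≤ ∫ x in a..b, w x * (f x - t) ^ 2 :=
      intervalIntegral.integral_nonneg hab fun x hx => mul_nonneg (h0 x hx) (sq_nonneg _)
    have h2 : ∫ x in a..b, w x * (f x - t) ^ 2 = (∫ x in a..b, w x * (t * t)) +
        (∫ x in a..b, (-2 * t) * (w x * f x)) + ∫ x in a..b, w x * f x ^ 2 := by
      rw [← intervalIntegral.integral_add, ← intervalIntegral.integral_add]
      · refine intervalIntegral.integral_congr fun x _ => ?_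
        show _ = _
        ring
      all_goals exact Continuous.intervalIntegrable (by fun_prop) _ _
    rw [h2, intervalIntegral.integral_mul_const, intervalIntegral.integral_const_mul] at h1
    linarith
  have := discrim_le_zero h
  rw [discrim] at this
  nlinarith

theorem cs_one {f : ℝ → ℝ} (hf : Continuous f) :
    (∫ x in (-Real.pi)..Real.pi, f x) ^ 2 ≤ 2 * Real.pi * ∫ x in (-Real.pi)..Real.pi, f x ^ 2 := by
  have := cs_weight (w := fun _ => 1) continuous_const hf (a := -Real.pi) (b := Real.pi)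
    (by linarith [Real.pi_pos]) (fun _ _ => zero_le_one)
  simp only [one_mul, intervalIntegral.integral_const, smul_eq_mul, mul_one] at this
  linarith

/-- the integral over a disc in polar coordinates -/
noncomputable def pol (g : ℂ → ℝ) (z₀ : ℂ) (r : ℝ) : ℝ :=
  ∫ s in (0 : ℝ)..r, s * ∫ θ in (-Real.pi)..Real.pi, g (z₀ + s * ee θ)

theorem cont_circ {g : ℂ → ℝ} (hg : Continuous g) (z₀ : ℂ) :
    Continuous fun s : ℝ => ∫ θ in (-Real.pi)..Real.pi, g (z₀ + s * ee θ) := by
  have := continuous_ee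
  apply intervalIntegral.continuous_parametric_intervalIntegral_of_continuous'
  simp only [uncurry_def]
  fun_prop

section
variable {F : ℂ → ℝ} (hF : ContDiff ℝ 2 F) (z₀ : ℂ)
include hF

theorem P_bound {r ρ : ℝ} (hρ : 0 ≤ ρ) (hr : ρ ≤ r) :
    ((∫ θ in (-Real.pi)..Real.pi, F (z₀ + ρ * ee θ)) - 2 * Real.pi * F z₀) ^ 2 ≤
      ρ ^ 2 * (Real.pi * pol (fun z => lapl F z ^ 2) z₀ r) := by
  set L : ℝ → ℝ := fun s => ∫ θ in (-Real.pi)..Real.pi, lapl F (z₀ + s * ee θ) with hL
  set K := pol (fun z => lapl F z ^ 2) z₀ r with hK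
  have cl := cont_lapl hF
  have c1 := cF1 hF
  have c0 := cF hF
  have ce := continuous_ee
  have cL : Continuous L := cont_circ cl z₀
  set R : ℝ → ℝ := fun s => ∫ θ in (-Real.pi)..Real.pi, fderiv ℝ F (z₀ + s * ee θ) (s * ee θ) with hR
  set P : ℝ → ℝ := fun s => ∫ θ in (-Real.pi)..Real.pi, F (z₀ + s * ee θ) with hP
  set Q : ℝ → ℝ := fun s => ∫ θ in (-Real.pi)..Real.pi, fderiv ℝ F (z₀ + s * ee θ) (ee θ) with hQ
  have hRQ : ∀ s, R s = s * Q s := by
    intro s
    rw [hR, hQ]
    simp only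
    rw [← intervalIntegral.integral_const_mul]
    refine intervalIntegral.integral_congr fun θ _ => ?_
    show fderiv ℝ F (z₀ + s * ee θ) (s * ee θ) = s * fderiv ℝ F (z₀ + s * ee θ) (ee θ)
    rw [← Complex.real_smul, map_smul, smul_eq_mul]
  have hR0 : R 0 = 0 := by rw [hRQ, zero_mul]
  have hRint : ∀ s, R s = ∫ t in (0 : ℝ)..s, t * L t := by
    intro s
    rw [intervalIntegral.integral_eq_sub_of_hasDerivAt (fun t _ => hasDerivAt_R hF z₀ t)
      (Continuous.intervalIntegrable (by fun_prop) _ _)]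
    change R s = R s - R 0
    rw [hR0, sub_zero]
  have hQb : ∀ s ∈ Ioc (0 : ℝ) r, |Q s| ≤ Real.sqrt (Real.pi * K) := by
    intro s hs
    apply Real.abs_le_sqrt
    have h1 := cs_weight (w := fun t => t) continuous_id cL hs.1.le (fun x hx => hx.1)
    rw [← hRint, hRQ, integral_id] at h1
    have h2 : ∫ t in (0 : ℝ)..s, t * L t ^ 2 ≤ 2 * Real.pi * K := by
      have h3 : ∫ t in (0 : ℝ)..s, t * L t ^ 2 ≤ ∫ t in (0 : ℝ)..r, t * L t ^ 2 := by
        apply intervalIntegral.integral_mono_interval le_rfl hs.1.le hs.2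
        · filter_upwards [ae_restrict_mem measurableSet_Ioc] with x hx
          have := hx.1.le
          simp only [Pi.zero_apply]
          positivity
        · exact Continuous.intervalIntegrable (by fun_prop) _ _
      refine h3.trans ?_
      rw [hK, pol, ← intervalIntegral.integral_const_mul]
      have c5 := cont_circ (g := fun z => lapl F z ^ 2) (by fun_prop) z₀
      refine intervalIntegral.integral_mono_on (hs.1.le.trans hs.2)
        (Continuous.intervalIntegrable (by fun_prop) _ _) (Continuous.intervalIntegrable (by fun_prop) _ _)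
        fun t ht => ?_
      have h4 := cs_one (f := fun θ => lapl F (z₀ + t * ee θ)) (by fun_prop)
      have h5 : L t ^ 2 ≤ 2 * Real.pi * ∫ θ in (-Real.pi)..Real.pi, lapl F (z₀ + t * ee θ) ^ 2 := h4
      have := mul_le_mul_of_nonneg_left h5 ht.1
      linarith
    have hs2 : 0 < s ^ 2 := by have := hs.1; positivity
    have h6 : (s * Q s) ^ 2 ≤ ((s ^ 2 - 0 ^ 2) / 2) * (2 * Real.pi * K) :=
      h1.trans (mul_le_mul_of_nonneg_left h2 (by nlinarith))
    have h7 : s ^ 2 * Q s ^ 2 ≤ s ^ 2 * (Real.pi * K) := by nlinarith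
    exact le_of_mul_le_mul_left h7 hs2
  have hPQ : P ρ - P 0 = ∫ s in (0 : ℝ)..ρ, Q s := by
    rw [intervalIntegral.integral_eq_sub_of_hasDerivAt (fun t _ => hasDerivAt_P hF z₀ t)]
    refine Continuous.intervalIntegrable ?_ _ _
    apply intervalIntegral.continuous_parametric_intervalIntegral_of_continuous'
    simp only [uncurry_def]
    fun_prop
  have hP0 : P 0 = 2 * Real.pi * F z₀ := by
    rw [hP]
    simp only [Complex.ofReal_zero, zero_mul, add_zero, intervalIntegral.integral_const, smul_eq_mul]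
    ring
  have hfin : |P ρ - P 0| ≤ Real.sqrt (Real.pi * K) * |ρ - 0| := by
    rw [hPQ, ← Real.norm_eq_abs]
    refine intervalIntegral.norm_integral_le_of_norm_le_const fun s hs => ?_
    rw [uIoc_of_le hρ] at hs
    exact hQb s ⟨hs.1, hs.2.trans hr⟩
  rw [sub_zero, abs_of_nonneg hρ] at hfin
  have hK0 : 0 ≤ Real.pi * K := by
    refine mul_nonneg Real.pi_pos.le ?_
    rw [hK, pol]
    refine intervalIntegral.integral_nonneg (hρ.trans hr) fun s hs => mul_nonneg hs.1 ?_
    exact intervalIntegral.integral_nonneg (by linarith [Real.pi_pos]) fun θ _ => sq_nonneg _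
  change (P ρ - 2 * Real.pi * F z₀) ^ 2 ≤ _
  rw [← hP0, ← sq_abs]
  calc |P ρ - P 0| ^ 2 ≤ (Real.sqrt (Real.pi * K) * ρ) ^ 2 := by gcongr
    _ = ρ ^ 2 * (Real.pi * K) := by rw [mul_pow, Real.sq_sqrt hK0]; ring

theorem disc_pol {r : ℝ} (hr : 0 < r) :
    F z₀ ^ 2 ≤ 1 / r ^ 2 * pol (fun z => F z ^ 2) z₀ r + r ^ 2 * pol (fun z => lapl F z ^ 2) z₀ r := by
  set K := pol (fun z => lapl F z ^ 2) z₀ r with hK
  have cl := cont_lapl hF
  have c0 := cF hF
  have ce := continuous_ee
  have hK0 : 0 ≤ K := by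
    rw [hK, pol]
    refine intervalIntegral.integral_nonneg hr.le fun s hs => mul_nonneg hs.1 ?_
    exact intervalIntegral.integral_nonneg (by linarith [Real.pi_pos]) fun θ _ => sq_nonneg _
  have hpi := Real.pi_gt_three
  have hpi4 := Real.pi_lt_four
  have key : ∀ s ∈ Icc (0 : ℝ) r, s * ((2 * Real.pi * F z₀) ^ 2) ≤
      2 * (2 * Real.pi) * (s * ∫ θ in (-Real.pi)..Real.pi, F (z₀ + s * ee θ) ^ 2) + 2 * Real.pi * K * s ^ 3 := by
    intro s hs
    have h1 := P_bound hF z₀ hs.1 hs.2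
    have h2 := cs_one (f := fun θ => F (z₀ + s * ee θ)) (by fun_prop)
    set p := ∫ θ in (-Real.pi)..Real.pi, F (z₀ + s * ee θ)
    set q := ∫ θ in (-Real.pi)..Real.pi, F (z₀ + s * ee θ) ^ 2
    have h3 : (2 * Real.pi * F z₀) ^ 2 ≤ 2 * p ^ 2 + 2 * (p - 2 * Real.pi * F z₀) ^ 2 := by
      nlinarith [sq_nonneg (2 * p - 2 * Real.pi * F z₀)]
    have h4 : (2 * Real.pi * F z₀) ^ 2 ≤ 2 * (2 * Real.pi * q) + 2 * (s ^ 2 * (Real.pi * K)) := by linarith
    have := mul_le_mul_of_nonneg_left h4 hs.1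
    nlinarith
  have c6 := cont_circ (g := fun z => F z ^ 2) (by fun_prop) z₀
  have i1 : IntervalIntegrable (fun s : ℝ => s * ((2 * Real.pi * F z₀) ^ 2)) volume 0 r :=
    Continuous.intervalIntegrable (by fun_prop) _ _
  have i2 : IntervalIntegrable (fun s : ℝ => 2 * (2 * Real.pi) *
      (s * ∫ θ in (-Real.pi)..Real.pi, F (z₀ + s * ee θ) ^ 2) + 2 * Real.pi * K * s ^ 3) volume 0 r :=
    Continuous.intervalIntegrable (by fun_prop) _ _
  have hint := intervalIntegral.integral_mono_on hr.le i1 i2 key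
  rw [intervalIntegral.integral_mul_const, integral_id, intervalIntegral.integral_add,
    intervalIntegral.integral_const_mul, intervalIntegral.integral_const_mul, integral_pow] at hint
  · change _ ≤ 2 * (2 * Real.pi) * pol (fun z => F z ^ 2) z₀ r + _ at hint
    set A := pol (fun z => F z ^ 2) z₀ r
    have hA0 : 0 ≤ A := by
      refine intervalIntegral.integral_nonneg hr.le fun s hs => mul_nonneg hs.1 ?_
      exact intervalIntegral.integral_nonneg (by linarith [Real.pi_pos]) fun θ _ => sq_nonneg _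
    have h5 : (r ^ 2 / 2) * (4 * Real.pi ^ 2 * F z₀ ^ 2) ≤ 4 * Real.pi * A + Real.pi * K * r ^ 4 / 2 := by
      norm_num at hint
      nlinarith
    have hr2 : 0 < r ^ 2 := by positivity
    have h6 : F z₀ ^ 2 * r ^ 2 * (2 * Real.pi ^ 2) ≤ (A + r ^ 4 * K) * (2 * Real.pi ^ 2) := by
      have e1 : 4 * Real.pi * A ≤ A * (2 * Real.pi ^ 2) := by nlinarith [mul_nonneg hA0 Real.pi_pos.le]
      have e2 : Real.pi * K * r ^ 4 / 2 ≤ (r ^ 4 * K) * (2 * Real.pi ^ 2) := by
        have h9 : 0 ≤ K * r ^ 4 := by positivity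
        have h10 : Real.pi / 2 ≤ 2 * Real.pi ^ 2 := by nlinarith
        have := mul_le_mul_of_nonneg_left h10 h9
        linarith
      nlinarith
    have h7 : F z₀ ^ 2 * r ^ 2 ≤ A + r ^ 4 * K := le_of_mul_le_mul_right h6 (by positivity)
    have h8 : 1 / r ^ 2 * A + r ^ 2 * K = (A + r ^ 4 * K) / r ^ 2 := by field_simp
    rw [h8, le_div_iff₀ hr2]
    exact h7
  · exact Continuous.intervalIntegrable (by fun_prop) _ _
  · exact Continuous.intervalIntegrable (by fun_prop) _ _

end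

end Pool.Agent.T2H31
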