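import Pool.Agent.T2H31.Disc3

/-! Polar coordinates and the disc estimate on a set. -/

set_option autoImplicit false

namespace Pool.Agent.T2H31

open Complex MeasureTheory Set Function

theorem pol_eq {g : ℂ → ℝ} (hg : Continuous g) (z₀ : ℂ) {r : ℝ} (hr : 0 < r) :
    pol g z₀ r = ∫ z in Metric.closedBall z₀ r, g z := by
  have ce := continuous_ee
  have h1 : ∫ z in Metric.closedBall z₀ r, g z =
      ∫ w, (Metric.closedBall (0 : ℂ) r).indicator (fun w => g (z₀ + w)) w := by
    rw [← integral_indicator Metric.isClosed_closedBall.measurableSet,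
      ← integral_add_left_eq_self _ z₀]
    refine integral_congr_ae (Filter.Eventually.of_forall fun w => ?_)
    simp only [indicator, Metric.mem_closedBall, dist_eq_norm, add_sub_cancel_left, sub_zero]
  rw [h1, ← Complex.integral_comp_polarCoord_symm]
  have h2 : ∀ p ∈ polarCoord.target, p.1 • (Metric.closedBall (0 : ℂ) r).indicator (fun w => g (z₀ + w))
      (Complex.polarCoord.symm p) = ({q : ℝ × ℝ | q.1 ≤ r}.indicator (fun q => q.1 * g (z₀ + q.1 * ee q.2)) p) := by
    intro p hp
    rw [polarCoord_target] at hp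
    have hp1 : 0 < p.1 := hp.1
    have he : Complex.polarCoord.symm p = p.1 * ee p.2 := by
      rw [Complex.polarCoord_symm_apply, ee_eq]
    have hn : ‖(p.1 : ℂ) * ee p.2‖ = p.1 := by
      rw [norm_mul, ee, Complex.norm_exp_ofReal_mul_I, mul_one, Complex.norm_real, Real.norm_eq_abs,
        abs_of_pos hp1]
    rw [he]
    simp only [indicator, Metric.mem_closedBall, dist_zero_right, hn, smul_eq_mul, mem_setOf_eq]
    split_ifs <;> simp
  rw [setIntegral_congr_fun polarCoord.open_target.measurableSet h2,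
    setIntegral_indicator (measurableSet_le measurable_fst measurable_const)]
  have h3 : polarCoord.target ∩ {q : ℝ × ℝ | q.1 ≤ r} = Ioc 0 r ×ˢ Ioo (-Real.pi) Real.pi := by
    rw [polarCoord_target]
    ext q
    simp only [mem_inter_iff, mem_prod, mem_Ioi, mem_Ioo, mem_setOf_eq, mem_Ioc]
    tauto
  rw [h3, Measure.volume_eq_prod, setIntegral_prod]
  · rw [pol, intervalIntegral.integral_of_le hr.le]
    refine setIntegral_congr_fun measurableSet_Ioc fun s _ => ?_
    simp only
    rw [intervalIntegral.integral_of_le (by linarith [Real.pi_pos]), integral_Ioc_eq_integral_Ioo,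
      integral_const_mul]
  · have : IntegrableOn (fun q : ℝ × ℝ => q.1 * g (z₀ + q.1 * ee q.2)) (Icc 0 r ×ˢ Icc (-Real.pi) Real.pi)
        (volume.prod volume) := by
      rw [← Measure.volume_eq_prod]
      exact ContinuousOn.integrableOn_compact (isCompact_Icc.prod isCompact_Icc) (by fun_prop)
    exact this.mono_set (prod_mono Ioc_subset_Icc_self Ioo_subset_Icc_self)

theorem lapl_congr {F G : ℂ → ℝ} {z : ℂ} (h : F =ᶠ[nhds z] G) : lapl F z = lapl G z := by
  have h1 : fderiv ℝ F =ᶠ[nhds z] fderiv ℝ G := h.fderiv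
  unfold lapl
  rw [h1.fderiv_eq]

/-- the disc estimate for functions which are smooth near the disc -/
theorem disc_est {F : ℂ → ℝ} {U : Set ℂ} (hU : IsOpen U) (hF : ContDiffOn ℝ 2 F U) {z₀ : ℂ} {r r' : ℝ}
    (hr : 0 < r) (hrr : r < r') (hs : Metric.closedBall z₀ r' ⊆ U) :
    F z₀ ^ 2 ≤ 1 / r ^ 2 * (∫ z in Metric.closedBall z₀ r, F z ^ 2) +
      r ^ 2 * ∫ z in Metric.closedBall z₀ r, lapl F z ^ 2 := by
  let χ : ContDiffBump z₀ := ⟨(r + r') / 2, r', by linarith, by linarith⟩
  have hχ : ContDiff ℝ 2 χ := χ.contDiff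
  set G : ℂ → ℝ := fun z => χ z * F z with hG
  have hG2 : ContDiff ℝ 2 G := by
    rw [contDiff_iff_contDiffAt]
    intro z
    by_cases hz : z ∈ U
    · exact (hχ.contDiffAt).mul (hF.contDiffAt (hU.mem_nhds hz))
    · have hz' : z ∈ (Metric.closedBall z₀ r')ᶜ := fun h => hz (hs h)
      have : G =ᶠ[nhds z] fun _ => 0 := by
        filter_upwards [Metric.isClosed_closedBall.isOpen_compl.mem_nhds hz'] with w hw
        rw [hG]
        simp only
        rw [χ.zero_of_le_dist, zero_mul]
        simp only [mem_compl_iff, Metric.mem_closedBall, not_le] at hw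
        exact hw.le
      exact contDiffAt_const.congr_of_eventuallyEq this
  have heq : ∀ z ∈ Metric.closedBall z₀ r, G =ᶠ[nhds z] F := by
    intro z hz
    have hz' : z ∈ Metric.ball z₀ ((r + r') / 2) := by
      rw [Metric.mem_ball]
      rw [Metric.mem_closedBall] at hz
      linarith
    filter_upwards [Metric.isOpen_ball.mem_nhds hz'] with w hw
    rw [hG]
    simp only
    rw [χ.one_of_mem_closedBall (Metric.ball_subset_closedBall hw), one_mul]
  have h := disc_pol hG2 z₀ hr
  rw [pol_eq (g := fun z => G z ^ 2) (by have := cF hG2; fun_prop) z₀ hr,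
    pol_eq (g := fun z => lapl G z ^ 2) (by have := cont_lapl hG2; fun_prop) z₀ hr] at h
  rw [(heq z₀ (Metric.mem_closedBall_self hr.le)).eq_of_nhds] at h
  have e1 : ∫ z in Metric.closedBall z₀ r, G z ^ 2 = ∫ z in Metric.closedBall z₀ r, F z ^ 2 :=
    setIntegral_congr_fun Metric.isClosed_closedBall.measurableSet
      (fun z hz => by show G z ^ 2 = F z ^ 2; rw [(heq z hz).eq_of_nhds])
  have e2 : ∫ z in Metric.closedBall z₀ r, lapl G z ^ 2 = ∫ z in Metric.closedBall z₀ r, lapl F z ^ 2 :=
    setIntegral_congr_fun Metric.isClosed_closedBall.measurableSet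
      (fun z hz => by show lapl G z ^ 2 = lapl F z ^ 2; rw [lapl_congr (heq z hz)])
  rwa [e1, e2] at h

end Pool.Agent.T2H31
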