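import Pool.Agent.T2H31.Kernel

/-! The density theorem. -/

set_option autoImplicit false

namespace Pool.Agent.T2H31

open Complex MeasureTheory Set Function UpperHalfPlane ModularGroup
open scoped MatrixGroups Modular

/-- the saving at one prime -/
noncomputable def ww (M : ℕ) (α : ℝ) : ℝ := 192 / (((M : ℝ) + 1) ^ 3 * (α ^ 2) ^ M)

theorem ker_multi (P : Finset ℕ) (hP : ∀ p ∈ P, p.Prime) (α : ℕ → ℝ) (hα : ∀ p ∈ P, 1 ≤ α p) (M : ℕ → ℕ) :
    ∃ (Q : Finset (ℕ × ℕ × ℕ)) (c : ℕ × ℕ × ℕ → ℝ),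
      (∀ q ∈ Q, IsPrim q ∧ q.1 * q.2.2 ∣ ∏ p ∈ P, p ^ (2 * M p)) ∧
      ∑ q ∈ Q, c q ^ 2 ≤ ∏ p ∈ P, ww (M p) (α p) ∧
      ∀ (f : ℍ → ℝ) (x : ℕ → ℝ), Per f → (∀ p ∈ P, HeckeP f p (x p)) →
        (∀ p ∈ P, α p + (α p)⁻¹ ≤ |x p|) →
        ∃ σ : ℝ, 1 ≤ σ ∧ ∀ z, ∑ q ∈ Q, c q * f (hp q z) = σ * f z := by
  classical
  induction P using Finset.induction_on with
  | empty =>
    refine ⟨{(1, 0, 1)}, fun _ => 1, ?_, by simp, fun f x _ _ _ => ⟨1, le_rfl, fun z => ?_⟩⟩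
    · intro q hq
      rw [Finset.mem_singleton] at hq
      subst hq
      simp [IsPrim]
    · rw [Finset.sum_singleton, hp_id]
  | insert p P hpP ih =>
    obtain ⟨Q, c, h1, h2, h3⟩ := ih (fun q hq => hP q (Finset.mem_insert_of_mem hq))
      (fun q hq => hα q (Finset.mem_insert_of_mem hq))
    have hpp := hP p (Finset.mem_insert_self p P)
    obtain ⟨Q₀, c₀, k1, k2, k3⟩ := ker_prime hpp (hα p (Finset.mem_insert_self p P)) (M p)
    have hco : Nat.Coprime (p ^ (2 * M p)) (∏ q ∈ P, q ^ (2 * M q)) := by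
      refine Nat.Coprime.prod_right fun q hq => ?_
      refine Nat.Coprime.pow _ _ ?_
      rw [Nat.coprime_primes hpp (hP q (Finset.mem_insert_of_mem hq))]
      rintro rfl
      exact hpP hq
    obtain ⟨Q', c', l1, l2, l3⟩ := ker_mul hco c₀ c k1 h1
    refine ⟨Q', c', ?_, ?_, ?_⟩
    · rw [Finset.prod_insert hpP]
      exact l1
    · rw [Finset.prod_insert hpP, l2, ww]
      exact mul_le_mul k2 h2 (Finset.sum_nonneg fun _ _ => sq_nonneg _) (by positivity)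
    · intro f x hf hH hx
      obtain ⟨σ₀, hσ₀, e₀⟩ := k3 f (x p) hf (hH p (Finset.mem_insert_self p P)) (hx p (Finset.mem_insert_self p P))
      obtain ⟨σ, hσ, e⟩ := h3 f x hf (fun q hq => hH q (Finset.mem_insert_of_mem hq))
        (fun q hq => hx q (Finset.mem_insert_of_mem hq))
      exact ⟨σ₀ * σ, by nlinarith, l3 f σ₀ σ hf e₀ e⟩

theorem Sys.count_kernel {ι : Type*} [Fintype ι] {f : ι → ℍ → ℝ} {lam : ι → ℝ} {L : ℝ} (S : Sys f lam L)
    (hL : 1 ≤ L)
    (hcusp : ∀ (j : ι) (y : ℝ), 0 < y → ∫ x in (-(1 / 2) : ℝ)..(1 / 2), fc (f j) (pt y x) = 0)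
    {X : ℕ} (hX : 1 ≤ X) {Q : Finset (ℕ × ℕ × ℕ)} {c : ℕ × ℕ × ℕ → ℝ}
    (hQ : ∀ q ∈ Q, IsPrim q ∧ q.1 * q.2.2 ∣ X)
    (hT : ∀ j, ∃ σ : ℝ, 1 ≤ σ ∧ ∀ z, ∑ q ∈ Q, c q * f j (hp q z) = σ * f j z) :
    (Fintype.card ι : ℝ) ≤ 5125 * L * (∑ q ∈ Q, c q ^ 2) + 10000000000 * X ^ 3 * Real.sqrt L := by
  classical
  have hs1 : 1 ≤ Real.sqrt L := Real.one_le_sqrt.2 hL
  have hsq : Real.sqrt L ^ 2 = L := Real.sq_sqrt (by linarith)
  have hXr : (1 : ℝ) ≤ X := by exact_mod_cast hX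
  have hc0 : 0 ≤ ∑ q ∈ Q, c q ^ 2 := Finset.sum_nonneg fun _ _ => sq_nonneg _
  have main : ∀ (Y : ℕ) (Q : Finset (ℕ × ℕ × ℕ)) (c : ℕ × ℕ × ℕ → ℝ), 1 ≤ Y → (Y : ℝ) ≤ Real.sqrt L →
      (∀ q ∈ Q, IsPrim q ∧ q.1 * q.2.2 ∣ Y) →
      (∀ j, ∃ σ : ℝ, 1 ≤ σ ∧ ∀ z, ∑ q ∈ Q, c q * f j (hp q z) = σ * f j z) →
      (Fintype.card ι : ℝ) ≤ 5125 * L * (∑ q ∈ Q, c q ^ 2) + 9000000000 * Y ^ 3 * Real.sqrt L := by
    intro Y Q c hY hYL hQ hT
    choose σ hσ e using hT
    have hsub : Q ⊆ IX Y := by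
      intro q hq
      rw [mem_IX]
      exact ⟨(hQ q hq).1, Nat.le_of_dvd hY (hQ q hq).2⟩
    have e1 : ∀ F : ℕ × ℕ × ℕ → ℝ, ∑ q ∈ IX Y, (if q ∈ Q then F q else 0) = ∑ q ∈ Q, F q := by
      intro F
      rw [← Finset.sum_filter, Finset.filter_mem_eq_inter, Finset.inter_eq_right.2 hsub]
    have := S.count hL hcusp hY hYL (fun q => if q ∈ Q then c q else 0) σ
      (fun j => by nlinarith [hσ j]) (fun j z => by
        rw [← e j z, ← e1]
        refine Finset.sum_congr rfl fun q _ => ?_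
        split_ifs <;> simp)
    refine this.trans (le_of_eq ?_)
    congr 2
    rw [← e1]
    refine Finset.sum_congr rfl fun q _ => ?_
    split_ifs <;> simp
  by_cases hXL : (X : ℝ) ≤ Real.sqrt L
  · refine (main X Q c hX hXL hQ hT).trans ?_
    gcongr
    norm_num
  · push Not at hXL
    have h0 := main 1 {(1, 0, 1)} (fun _ => 1) le_rfl (by simpa using hs1) (by
      intro q hq
      rw [Finset.mem_singleton] at hq
      subst hq
      simp [IsPrim]) (fun j => ⟨1, le_rfl, fun z => by rw [Finset.sum_singleton, hp_id]⟩)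
    rw [Finset.sum_singleton] at h0
    norm_num at h0
    have h1 : L ≤ (X : ℝ) ^ 3 * Real.sqrt L := by
      calc L = Real.sqrt L ^ 2 := hsq.symm
        _ = Real.sqrt L * Real.sqrt L := sq _
        _ ≤ (X : ℝ) ^ 3 * Real.sqrt L := by
            gcongr
            calc Real.sqrt L ≤ X := hXL.le
              _ = (X : ℝ) ^ 1 := (pow_one _).symm
              _ ≤ (X : ℝ) ^ 3 := pow_le_pow_right₀ hXr (by norm_num)
    have h2 : Real.sqrt L ≤ (X : ℝ) ^ 3 * Real.sqrt L := by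
      have : (1 : ℝ) ≤ (X : ℝ) ^ 3 := one_le_pow₀ hXr
      nlinarith
    have h3 : 0 ≤ 5125 * L * (∑ q ∈ Q, c q ^ 2) := by positivity
    nlinarith

/-- the bound with free parameters -/
theorem Sys.count_primes {ι : Type*} [Fintype ι] {f : ι → ℍ → ℝ} {lam : ι → ℝ} {L : ℝ} (S : Sys f lam L)
    (hL : 1 ≤ L)
    (hcusp : ∀ (j : ι) (y : ℝ), 0 < y → ∫ x in (-(1 / 2) : ℝ)..(1 / 2), fc (f j) (pt y x) = 0)
    (P : Finset ℕ) (hP : ∀ p ∈ P, p.Prime) (α : ℕ → ℝ) (hα : ∀ p ∈ P, 1 ≤ α p) (M : ℕ → ℕ)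
    (a : ι → ℕ → ℝ) (hH : ∀ j, ∀ p ∈ P, HeckeP (f j) p (a j p))
    (ha : ∀ j, ∀ p ∈ P, α p + (α p)⁻¹ ≤ |a j p|) :
    (Fintype.card ι : ℝ) ≤ 5125 * L * (∏ p ∈ P, ww (M p) (α p)) +
      10000000000 * (∏ p ∈ P, (p : ℝ) ^ (2 * M p)) ^ 3 * Real.sqrt L := by
  obtain ⟨Q, c, h1, h2, h3⟩ := ker_multi P hP α hα M
  have hX : 1 ≤ ∏ p ∈ P, p ^ (2 * M p) := Nat.one_le_iff_ne_zero.2 (Finset.prod_ne_zero_iff.2 fun p hp =>
    pow_ne_zero _ (hP p hp).ne_zero)
  have := S.count_kernel hL hcusp hX h1 (fun j => h3 (f j) (a j) (per_of_inv (S.inv j)) (hH j) (ha j))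
  push_cast at this
  refine this.trans ?_
  gcongr

/-- elementary symmetric sums -/
theorem esymm_le (P : Finset ℕ) (w : ℕ → ℝ) (hw : ∀ p ∈ P, 0 ≤ w p) (k : ℕ) :
    ∑ K ∈ P.powersetCard k, ∏ p ∈ K, w p ≤ (∑ p ∈ P, w p) ^ k := by
  classical
  induction P using Finset.induction_on generalizing k with
  | empty =>
    rcases k with _ | k
    · simp
    · have : (∅ : Finset ℕ).powersetCard (k + 1) = ∅ := Finset.powersetCard_eq_empty.2 (by simp)
      rw [this]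
      simp
  | insert a P haP ih =>
    have hw' : ∀ p ∈ P, 0 ≤ w p := fun p hp => hw p (Finset.mem_insert_of_mem hp)
    have hwa : 0 ≤ w a := hw a (Finset.mem_insert_self a P)
    rcases k with _ | k
    · simp
    · rw [Finset.powersetCard_succ_insert haP, Finset.sum_union, Finset.sum_image, Finset.sum_insert haP]
      · have e : ∀ K ∈ P.powersetCard k, ∏ p ∈ insert a K, w p = w a * ∏ p ∈ K, w p := by
          intro K hK
          rw [Finset.prod_insert]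
          intro h
          exact haP ((Finset.mem_powersetCard.1 hK).1 h)
        rw [Finset.sum_congr rfl e, ← Finset.mul_sum]
        have h1 := ih hw' (k + 1)
        have h2 := ih hw' k
        set s := ∑ p ∈ P, w p with hs
        have hs0 : 0 ≤ s := Finset.sum_nonneg hw'
        calc ∑ K ∈ P.powersetCard (k + 1), ∏ p ∈ K, w p + w a * ∑ K ∈ P.powersetCard k, ∏ p ∈ K, w p ≤
            s ^ (k + 1) + w a * s ^ k := by gcongr
          _ = s ^ k * (w a + s) := by ring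
          _ ≤ (w a + s) ^ k * (w a + s) := by
              gcongr
              linarith
          _ = (w a + s) ^ (k + 1) := by ring
      · intro K hK K' hK' h
        have hK1 : a ∉ K := fun h => haP ((Finset.mem_powersetCard.1 hK).1 h)
        have hK2 : a ∉ K' := fun h => haP ((Finset.mem_powersetCard.1 hK').1 h)
        rw [← Finset.erase_insert hK1, ← Finset.erase_insert hK2, h]
      · refine Finset.disjoint_left.2 fun K hK hK' => ?_
        obtain ⟨K'', _, rfl⟩ := Finset.mem_image.1 hK'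
        exact haP ((Finset.mem_powersetCard.1 hK).1 (Finset.mem_insert_self a K''))

/-- at least `k` exceptional primes -/
theorem Sys.count_exceptions {ι : Type*} [Fintype ι] {f : ι → ℍ → ℝ} {lam : ι → ℝ} {L : ℝ} (S : Sys f lam L)
    (hL : 1 ≤ L)
    (hcusp : ∀ (j : ι) (y : ℝ), 0 < y → ∫ x in (-(1 / 2) : ℝ)..(1 / 2), fc (f j) (pt y x) = 0)
    (P : Finset ℕ) (hP : ∀ p ∈ P, p.Prime) (α : ℕ → ℝ) (hα : ∀ p ∈ P, 1 ≤ α p) (M : ℕ → ℕ)
    (a : ι → ℕ → ℝ) (hH : ∀ j, ∀ p ∈ P, HeckeP (f j) p (a j p)) (k : ℕ)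
    (ha : ∀ j, k ≤ (P.filter fun p => α p + (α p)⁻¹ ≤ |a j p|).card) {X : ℝ}
    (hX : ∀ p ∈ P, (p : ℝ) ^ (2 * M p) ≤ X) :
    (Fintype.card ι : ℝ) ≤ 5125 * L * (∑ p ∈ P, ww (M p) (α p)) ^ k +
      10000000000 * (P.card : ℝ) ^ k * (X ^ k) ^ 3 * Real.sqrt L := by
  classical
  have hch : ∀ j, ∃ K ⊆ P.filter fun p => α p + (α p)⁻¹ ≤ |a j p|, K.card = k := fun j =>
    Finset.exists_subset_card_eq (ha j)
  choose κ hκ1 hκ2 using hch
  have hmem : ∀ j, κ j ∈ P.powersetCard k := fun j =>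
    Finset.mem_powersetCard.2 ⟨(hκ1 j).trans (Finset.filter_subset _ _), hκ2 j⟩
  have hcard : (Fintype.card ι : ℝ) = ∑ K ∈ P.powersetCard k, (Fintype.card {j : ι // κ j = K} : ℝ) := by
    have h1 := Finset.card_eq_sum_card_fiberwise (s := (Finset.univ : Finset ι)) (t := P.powersetCard k)
      (f := κ) (fun j _ => hmem j)
    rw [Finset.card_univ] at h1
    rw [h1]
    push_cast
    refine Finset.sum_congr rfl fun K _ => ?_
    rw [Fintype.card_subtype]
  have hbound : ∀ K ∈ P.powersetCard k, (Fintype.card {j : ι // κ j = K} : ℝ) ≤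
      5125 * L * (∏ p ∈ K, ww (M p) (α p)) + 10000000000 * (X ^ k) ^ 3 * Real.sqrt L := by
    intro K hK
    obtain ⟨hKP, hKk⟩ := Finset.mem_powersetCard.1 hK
    have S' : Sys (fun j : {j : ι // κ j = K} => f j.1) (fun j => lam j.1) L :=
      { smooth := fun j => S.smooth j.1
        inv := fun j => S.inv j.1
        lap := fun j => S.lap j.1
        bound := fun j => S.bound j.1
        sq_int := fun j => S.sq_int j.1
        norm := fun j => S.norm j.1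
        orth := fun i j hij => S.orth i.1 j.1 fun h => hij (Subtype.ext h) }
    have h2 := S'.count_primes hL (fun j => hcusp j.1) K (fun p hp => hP p (hKP hp)) α
      (fun p hp => hα p (hKP hp)) M (fun j => a j.1) (fun j p hp => hH j.1 p (hKP hp)) (by
        rintro ⟨j, rfl⟩ p hp
        exact (Finset.mem_filter.1 (hκ1 j hp)).2)
    refine h2.trans ?_
    have h3 : ∏ p ∈ K, (p : ℝ) ^ (2 * M p) ≤ X ^ k := by
      calc ∏ p ∈ K, (p : ℝ) ^ (2 * M p) ≤ ∏ _p ∈ K, X :=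
            Finset.prod_le_prod (fun p _ => by positivity) fun p hp => hX p (hKP hp)
        _ = X ^ k := by rw [Finset.prod_const, hKk]
    have h4 : 0 ≤ ∏ p ∈ K, (p : ℝ) ^ (2 * M p) := Finset.prod_nonneg fun p _ => by positivity
    gcongr
  rw [hcard]
  refine (Finset.sum_le_sum hbound).trans ?_
  rw [Finset.sum_add_distrib, ← Finset.mul_sum, Finset.sum_const, nsmul_eq_mul, Finset.card_powersetCard]
  have hw : ∀ p ∈ P, 0 ≤ ww (M p) (α p) := by
    intro p hp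
    have := hα p hp
    unfold ww
    positivity
  have h5 := esymm_le P (fun p => ww (M p) (α p)) hw k
  have h6 : ((P.card.choose k : ℕ) : ℝ) ≤ (P.card : ℝ) ^ k := by
    exact_mod_cast Nat.choose_le_pow _ _
  have hXk : P.card.choose k ≠ 0 → 0 ≤ X ^ k := by
    intro hne
    rcases P.eq_empty_or_nonempty with rfl | ⟨p, hp⟩
    · rcases k with _ | k
      · simp
      · simp at hne
    · have : 0 ≤ X := le_trans (by positivity) (hX p hp)
      positivity
  have h7 : ((P.card.choose k : ℕ) : ℝ) * (10000000000 * (X ^ k) ^ 3 * Real.sqrt L) ≤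
      10000000000 * (P.card : ℝ) ^ k * (X ^ k) ^ 3 * Real.sqrt L := by
    rcases P.eq_empty_or_nonempty with rfl | ⟨p, hp⟩
    · rcases k with _ | k
      · simp
      · simp
    · have hX0 : 0 ≤ X := le_trans (by positivity) (hX p hp)
      calc ((P.card.choose k : ℕ) : ℝ) * (10000000000 * (X ^ k) ^ 3 * Real.sqrt L) ≤
          (P.card : ℝ) ^ k * (10000000000 * (X ^ k) ^ 3 * Real.sqrt L) := by gcongr
        _ = _ := by ring
  have hL0 : 0 ≤ 5125 * L := by linarith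
  exact add_le_add (mul_le_mul_of_nonneg_left h5 hL0) h7

end Pool.Agent.T2H31
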