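import Pool.Agent.T2H31.Count0

/-! The density theorem for `Γ₀(N)`. -/

set_option autoImplicit false

namespace Pool.Agent.T2H31

open Complex MeasureTheory Set Function UpperHalfPlane ModularGroup
open scoped MatrixGroups Modular

theorem ww_bound' {T κ : ℝ} (hT : 1 < T) (hκ : 0 < κ) {p : ℕ} (hp' : p.Prime)
    (hpT : (p : ℝ) ≤ T ^ (1 / κ)) {θ : ℝ} (hθ : 0 ≤ θ) {M : ℕ}
    (hM : M = ⌊Real.log T / (κ * Real.log p)⌋₊) :
    ww M ((p : ℝ) ^ θ) ≤ 192 * κ ^ 3 * ((Real.log p / Real.log T) ^ 3 * T ^ (-(θ / κ))) ∧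
      (p : ℝ) ^ (2 * M) ≤ T ^ (2 / κ) := by
  have hp2 : (2 : ℝ) ≤ p := by exact_mod_cast hp'.two_le
  have hp0 : (0 : ℝ) < p := by linarith
  have hT0 : 0 < T := by linarith
  have hlp : 0 < Real.log p := Real.log_pos (by linarith)
  have hlT : 0 < Real.log T := Real.log_pos (by linarith)
  set y := Real.log T / (κ * Real.log p) with hy
  have hy1 : 1 ≤ y := by
    rw [hy, le_div_iff₀ (by positivity), one_mul]
    have := Real.log_le_log hp0 hpT
    rw [Real.log_rpow hT0, one_div_mul_eq_div, le_div_iff₀ (by positivity)] at this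
    linarith
  have hMy : (M : ℝ) ≤ y := by
    rw [hM]
    exact Nat.floor_le (by linarith)
  have hyM : y < M + 1 := by
    rw [hM]
    exact Nat.lt_floor_add_one y
  have hM1 : 1 ≤ M := by
    rw [hM]
    exact Nat.le_floor (by simpa using hy1)
  have hM1' : (1 : ℝ) ≤ M := by exact_mod_cast hM1
  have hMy2 : y / 2 ≤ M := by linarith
  have hyl : y * Real.log p = Real.log T / κ := by
    rw [hy]
    field_simp
  constructor
  · have h1 : T ^ (θ / κ) ≤ (((p : ℝ) ^ θ) ^ 2) ^ M := by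
      rw [← Real.rpow_natCast (((p : ℝ) ^ θ) ^ 2) M, ← Real.rpow_natCast ((p : ℝ) ^ θ) 2,
        ← Real.rpow_mul hp0.le, ← Real.rpow_mul hp0.le, Real.rpow_def_of_pos hT0, Real.rpow_def_of_pos hp0]
      apply Real.exp_le_exp.2
      push_cast
      have h2 : Real.log T * (θ / κ) = θ * (y * Real.log p) := by
        rw [hyl]
        ring
      rw [h2]
      have h3 : Real.log p * (θ * 2 * M) = θ * (2 * M * Real.log p) := by ring
      rw [h3]
      gcongr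
      linarith
    have h4 : T ^ (-(θ / κ)) = (T ^ (θ / κ))⁻¹ := Real.rpow_neg hT0.le _
    have h5 : 0 < T ^ (θ / κ) := Real.rpow_pos_of_pos hT0 _
    have h6 : κ ^ 3 * (Real.log p / Real.log T) ^ 3 = (y ^ 3)⁻¹ := by
      rw [hy]
      field_simp
    have h7 : y ^ 3 ≤ ((M : ℝ) + 1) ^ 3 := by gcongr
    have h8 : 0 < y ^ 3 := by positivity
    calc ww M ((p : ℝ) ^ θ) = 192 * ((((M : ℝ) + 1) ^ 3)⁻¹ * ((((p : ℝ) ^ θ) ^ 2) ^ M)⁻¹) := by
          rw [ww, div_eq_mul_inv, mul_inv]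
      _ ≤ 192 * ((y ^ 3)⁻¹ * (T ^ (θ / κ))⁻¹) := by gcongr
      _ = _ := by
          rw [h4, ← h6]
          ring
  · rw [← Real.rpow_natCast, Real.rpow_def_of_pos hT0, Real.rpow_def_of_pos hp0]
    apply Real.exp_le_exp.2
    push_cast
    have h2 : Real.log T * (2 / κ) = 2 * (y * Real.log p) := by
      rw [hyl]
      field_simp
    rw [h2]
    nlinarith

section
variable {N : ℕ} {ι : Type*} [Fintype ι] {f : ι → ℍ → ℝ} {lam : ι → ℝ} {L : ℝ}

theorem per_of_Gamma0 {f : ℍ → ℝ}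
    (hinv : ∀ (γ : CongruenceSubgroup.Gamma0 N) (z : ℍ), f ((γ : SL(2, ℤ)) • z) = f z) : Per f := by
  intro w
  have hT : ModularGroup.T ∈ CongruenceSubgroup.Gamma0 N := mem_of_dvd (by simp [ModularGroup.coe_T])
  rw [← hinv ⟨_, hT⟩ w]
  congr 1
  ext
  rw [coe_hp (q := (1, 1, 1)) (by norm_num) (by norm_num)]
  show _ = ((ModularGroup.T • w : ℍ) : ℂ)
  have := coe_Tpow 1 w
  rw [zpow_one] at this
  rw [this]
  simp

theorem Sys0.count_primes (S : Sys0 (CongruenceSubgroup.Gamma0 N) (rep N) f lam L) (hN : N.Prime)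
    (hL : 1 ≤ L)
    (hcusp : ∀ (j : ι) (y : ℝ), 0 < y → ∫ x in (-(1 / 2) : ℝ)..(1 / 2), fc (f j) (pt y x) = 0)
    (hcusp0 : ∀ (j : ι) (y : ℝ), 0 < y → ∫ x in (-(1 / 2) : ℝ)..(-(1 / 2) + N),
      fc (fun u => f j (ModularGroup.S • u)) (pt y x) = 0)
    (P : Finset ℕ) (hP : ∀ p ∈ P, p.Prime) (α : ℕ → ℝ) (hα : ∀ p ∈ P, 1 ≤ α p) (M : ℕ → ℕ)
    (a : ι → ℕ → ℝ) (hH : ∀ j, ∀ p ∈ P, HeckeP (f j) p (a j p))
    (ha : ∀ j, ∀ p ∈ P, α p + (α p)⁻¹ ≤ |a j p|) :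
    (Fintype.card ι : ℝ) ≤ 5125 * ((N + 1) * L) * (∏ p ∈ P, ww (M p) (α p)) +
      2000000000000 * (∏ p ∈ P, (p : ℝ) ^ (2 * M p)) ^ 5 * (Real.sqrt N * Real.sqrt L) := by
  classical
  obtain ⟨Q, c, h1, h2, h3⟩ := ker_multi P hP α hα M
  set X := ∏ p ∈ P, p ^ (2 * M p) with hXdef
  have hX : 1 ≤ X := Nat.one_le_iff_ne_zero.2 (Finset.prod_ne_zero_iff.2 fun p hp =>
    pow_ne_zero _ (hP p hp).ne_zero)
  have hT := fun j => h3 (f j) (a j) (per_of_Gamma0 (S.inv j)) (hH j) (ha j)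
  choose σ hσ e using hT
  have hsub : Q ⊆ IX X := by
    intro q hq
    rw [mem_IX]
    exact ⟨(h1 q hq).1, Nat.le_of_dvd hX (h1 q hq).2⟩
  have e1 : ∀ F : ℕ × ℕ × ℕ → ℝ, ∑ q ∈ IX X, (if q ∈ Q then F q else 0) = ∑ q ∈ Q, F q := by
    intro F
    rw [← Finset.sum_filter, Finset.filter_mem_eq_inter, Finset.inter_eq_right.2 hsub]
  have key := S.count hN hL hcusp hcusp0 hX (fun q => if q ∈ Q then c q else 0) σ
    (fun j => by nlinarith [hσ j]) (fun j z => by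
      rw [← e j z, ← e1]
      refine Finset.sum_congr rfl fun q _ => ?_
      split_ifs <;> simp)
  have e2 : ∑ q ∈ IX X, (if q ∈ Q then c q else 0) ^ 2 = ∑ q ∈ Q, c q ^ 2 := by
    rw [← e1]
    refine Finset.sum_congr rfl fun q _ => ?_
    split_ifs <;> simp
  rw [e2, hXdef] at key
  push_cast at key
  refine key.trans ?_
  gcongr

/-- at least `k` exceptional primes -/
theorem Sys0.count_exceptions (S : Sys0 (CongruenceSubgroup.Gamma0 N) (rep N) f lam L) (hN : N.Prime)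
    (hL : 1 ≤ L)
    (hcusp : ∀ (j : ι) (y : ℝ), 0 < y → ∫ x in (-(1 / 2) : ℝ)..(1 / 2), fc (f j) (pt y x) = 0)
    (hcusp0 : ∀ (j : ι) (y : ℝ), 0 < y → ∫ x in (-(1 / 2) : ℝ)..(-(1 / 2) + N),
      fc (fun u => f j (ModularGroup.S • u)) (pt y x) = 0)
    (P : Finset ℕ) (hP : ∀ p ∈ P, p.Prime) (α : ℕ → ℝ) (hα : ∀ p ∈ P, 1 ≤ α p) (M : ℕ → ℕ)
    (a : ι → ℕ → ℝ) (hH : ∀ j, ∀ p ∈ P, HeckeP (f j) p (a j p)) (k : ℕ)
    (ha : ∀ j, k ≤ (P.filter fun p => α p + (α p)⁻¹ ≤ |a j p|).card) {X : ℝ} (hX0 : 0 ≤ X)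
    (hX : ∀ p ∈ P, (p : ℝ) ^ (2 * M p) ≤ X) :
    (Fintype.card ι : ℝ) ≤ 5125 * ((N + 1) * L) * (∑ p ∈ P, ww (M p) (α p)) ^ k +
      2000000000000 * (P.card : ℝ) ^ k * (X ^ k) ^ 5 * (Real.sqrt N * Real.sqrt L) := by
  classical
  have hch : ∀ j, ∃ K ⊆ P.filter fun p => α p + (α p)⁻¹ ≤ |a j p|, K.card = k := fun j =>
    Finset.exists_subset_card_eq (ha j)
  choose κ hκ1 hκ2 using hch
  have hmem : ∀ j, κ j ∈ P.powersetCard k := fun j =>
    Finset.mem_powersetCard.2 ⟨(hκ1 j).trans (Finset.filter_subset _ _), hκ2 j⟩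
  have hcard : (Fintype.card ι : ℝ) = ∑ K ∈ P.powersetCard k, (Fintype.card {j : ι // κ j = K} : ℝ) := by
    have h1 := Finset.card_eq_sum_card_fiberwise (s := (Finset.univ : Finset ι)) (t := P.powersetCard k)
      (f := κ) (fun j _ => hmem j)
    rw [Finset.card_univ] at h1
    rw [h1]
    push_cast
    refine Finset.sum_congr rfl fun K _ => ?_
    rw [Fintype.card_subtype]
  have hbound : ∀ K ∈ P.powersetCard k, (Fintype.card {j : ι // κ j = K} : ℝ) ≤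
      5125 * ((N + 1) * L) * (∏ p ∈ K, ww (M p) (α p)) +
        2000000000000 * (X ^ k) ^ 5 * (Real.sqrt N * Real.sqrt L) := by
    intro K hK
    obtain ⟨hKP, hKk⟩ := Finset.mem_powersetCard.1 hK
    have S' : Sys0 (CongruenceSubgroup.Gamma0 N) (rep N) (fun j : {j : ι // κ j = K} => f j.1)
        (fun j => lam j.1) L :=
      { smooth := fun j => S.smooth j.1
        inv := fun j => S.inv j.1
        lap := fun j => S.lap j.1
        bound := fun j => S.bound j.1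
        sq_int := fun j => S.sq_int j.1
        norm := fun j => S.norm j.1
        orth := fun i j hij => S.orth i.1 j.1 fun h => hij (Subtype.ext h) }
    have h2 := S'.count_primes hN hL (fun j => hcusp j.1) (fun j => hcusp0 j.1) K
      (fun p hp => hP p (hKP hp)) α
      (fun p hp => hα p (hKP hp)) M (fun j => a j.1) (fun j p hp => hH j.1 p (hKP hp)) (by
        rintro ⟨j, rfl⟩ p hp
        exact (Finset.mem_filter.1 (hκ1 j hp)).2)
    refine h2.trans ?_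
    have h3 : ∏ p ∈ K, (p : ℝ) ^ (2 * M p) ≤ X ^ k := by
      calc ∏ p ∈ K, (p : ℝ) ^ (2 * M p) ≤ ∏ _p ∈ K, X :=
            Finset.prod_le_prod (fun p _ => by positivity) fun p hp => hX p (hKP hp)
        _ = X ^ k := by rw [Finset.prod_const, hKk]
    have h4 : 0 ≤ ∏ p ∈ K, (p : ℝ) ^ (2 * M p) := Finset.prod_nonneg fun p _ => by positivity
    gcongr
  rw [hcard]
  refine (Finset.sum_le_sum hbound).trans ?_
  rw [Finset.sum_add_distrib, ← Finset.mul_sum, Finset.sum_const, nsmul_eq_mul, Finset.card_powersetCard]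
  have hw : ∀ p ∈ P, 0 ≤ ww (M p) (α p) := by
    intro p hp
    have := hα p hp
    unfold ww
    positivity
  have h5 := esymm_le P (fun p => ww (M p) (α p)) hw k
  have h6 : ((P.card.choose k : ℕ) : ℝ) ≤ (P.card : ℝ) ^ k := by
    exact_mod_cast Nat.choose_le_pow _ _
  have hL0 : 0 ≤ 5125 * ((N + 1 : ℝ) * L) := by positivity
  refine add_le_add (mul_le_mul_of_nonneg_left h5 hL0) ?_
  calc ((P.card.choose k : ℕ) : ℝ) * (2000000000000 * (X ^ k) ^ 5 * (Real.sqrt N * Real.sqrt L)) ≤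
      (P.card : ℝ) ^ k * (2000000000000 * (X ^ k) ^ 5 * (Real.sqrt N * Real.sqrt L)) := by gcongr
    _ = _ := by ring

theorem final_V (S : Sys0 (CongruenceSubgroup.Gamma0 N) (rep N) f lam L) (hN : N.Prime)
    (hL : 1 ≤ L)
    (hcusp : ∀ (j : ι) (y : ℝ), 0 < y → ∫ x in (-(1 / 2) : ℝ)..(1 / 2), fc (f j) (pt y x) = 0)
    (hcusp0 : ∀ (j : ι) (y : ℝ), 0 < y → ∫ x in (-(1 / 2) : ℝ)..(-(1 / 2) + N),
      fc (fun u => f j (ModularGroup.S • u)) (pt y x) = 0)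
    {k : ℕ} (hk : 1 ≤ k) {P : Finset ℕ}
    (hP : ∀ p ∈ P, p.Prime ∧ (p : ℝ) ≤ ((N : ℝ) * L) ^ (1 / (24 * k) : ℝ)) {θ : ℕ → ℝ}
    (hθ : ∀ p ∈ P, 0 ≤ θ p)
    (a : ι → ℕ → ℝ) (hH : ∀ j, ∀ p ∈ P, HeckeP (f j) p (a j p))
    (ha : ∀ j, k ≤ (P.filter fun p : ℕ => (p : ℝ) ^ θ p + (p : ℝ) ^ (-θ p) ≤ |a j p|).card) :
    (Fintype.card ι : ℝ) ≤ 10000 * (192 * (24 * k) ^ 3) ^ k * (N * L) *
        (∑ p ∈ P, (Real.log p / Real.log (N * L)) ^ 3 * ((N : ℝ) * L) ^ (-(θ p / (24 * k)))) ^ k +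
      2000000000000 * ((N : ℝ) * L) ^ (23 / 24 : ℝ) := by
  have hk' : (1 : ℝ) ≤ k := by exact_mod_cast hk
  have hN2 : (2 : ℝ) ≤ N := by exact_mod_cast hN.two_le
  set V : ℝ := (N : ℝ) * L with hV
  have hV2 : 2 ≤ V := by nlinarith
  have hV0 : 0 < V := by linarith
  set M : ℕ → ℕ := fun p => ⌊Real.log V / (24 * k * Real.log p)⌋₊ with hM
  have hα : ∀ p ∈ P, 1 ≤ (p : ℝ) ^ θ p := by
    intro p hp
    apply Real.one_le_rpow _ (hθ p hp)
    exact_mod_cast (hP p hp).1.one_lt.le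
  have hneg : ∀ p ∈ P, (p : ℝ) ^ (-θ p) = ((p : ℝ) ^ θ p)⁻¹ := fun p _ => Real.rpow_neg (by positivity) _
  have hb := fun p (hp : p ∈ P) => ww_bound' (κ := 24 * k) (by linarith : 1 < V) (by positivity) (hP p hp).1
    (hP p hp).2 (hθ p hp) (M := M p) rfl
  have key := S.count_exceptions hN hL hcusp hcusp0 P (fun p hp => (hP p hp).1) (fun p => (p : ℝ) ^ θ p)
    hα M a hH k
    (by
      intro j
      refine (ha j).trans (le_of_eq ?_)
      congr 1
      refine Finset.filter_congr fun p hp => ?_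
      rw [hneg p hp])
    (X := V ^ (2 / (24 * k) : ℝ)) (by positivity) (fun p hp => (hb p hp).2)
  refine key.trans ?_
  have h1 : ∑ p ∈ P, ww (M p) ((p : ℝ) ^ θ p) ≤ 192 * (24 * k) ^ 3 *
      ∑ p ∈ P, (Real.log p / Real.log V) ^ 3 * V ^ (-(θ p / (24 * k))) := by
    rw [Finset.mul_sum]
    exact Finset.sum_le_sum fun p hp => (hb p hp).1
  have hw0 : 0 ≤ ∑ p ∈ P, ww (M p) ((p : ℝ) ^ θ p) := by
    refine Finset.sum_nonneg fun p _ => ?_
    unfold ww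
    positivity
  set Z := ∑ p ∈ P, (Real.log p / Real.log V) ^ 3 * V ^ (-(θ p / (24 * k))) with hZ
  have hcardP : (P.card : ℝ) ≤ V ^ (1 / (24 * k) : ℝ) := by
    have hsub : P ⊆ Finset.Icc 1 ⌊V ^ (1 / (24 * k) : ℝ)⌋₊ := by
      intro p hp
      rw [Finset.mem_Icc]
      exact ⟨(hP p hp).1.one_lt.le, Nat.le_floor (hP p hp).2⟩
    have h2 := Finset.card_le_card hsub
    rw [Nat.card_Icc, Nat.add_sub_cancel] at h2
    calc (P.card : ℝ) ≤ (⌊V ^ (1 / (24 * k) : ℝ)⌋₊ : ℝ) := by exact_mod_cast h2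
      _ ≤ _ := Nat.floor_le (by positivity)
  have hcardk : (P.card : ℝ) ^ k ≤ V ^ (1 / 24 : ℝ) := by
    calc (P.card : ℝ) ^ k ≤ (V ^ (1 / (24 * k) : ℝ)) ^ k := by gcongr
      _ = V ^ (1 / 24 : ℝ) := by
          rw [← Real.rpow_natCast, ← Real.rpow_mul hV0.le]
          congr 1
          field_simp
  have hXk : ((V ^ (2 / (24 * k) : ℝ)) ^ k) ^ 5 = V ^ (5 / 12 : ℝ) := by
    rw [← Real.rpow_natCast, ← Real.rpow_natCast, ← Real.rpow_mul hV0.le, ← Real.rpow_mul hV0.le]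
    congr 1
    push_cast
    field_simp
    norm_num
  have hsqrt : Real.sqrt N * Real.sqrt L = V ^ (1 / 2 : ℝ) := by
    rw [← Real.sqrt_mul (by positivity), ← hV, Real.sqrt_eq_rpow]
  have hNV : ((N : ℝ) + 1) * L ≤ 3 / 2 * V := by
    rw [hV]
    nlinarith
  have hNV0 : 0 ≤ ((N : ℝ) + 1) * L := by positivity
  refine add_le_add ?_ ?_
  · calc 5125 * (((N : ℝ) + 1) * L) * (∑ p ∈ P, ww (M p) ((p : ℝ) ^ θ p)) ^ k ≤
        5125 * (3 / 2 * V) * (192 * (24 * k) ^ 3 * Z) ^ k := by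
          refine mul_le_mul (mul_le_mul_of_nonneg_left hNV (by norm_num)) ?_ (by positivity) (by positivity)
          gcongr
      _ = (5125 * (3 / 2)) * ((192 * (24 * k) ^ 3) ^ k * V * Z ^ k) := by
          rw [mul_pow]
          ring
      _ ≤ 10000 * ((192 * (24 * k) ^ 3) ^ k * V * Z ^ k) := by
          have hZ0 : 0 ≤ Z := by
            refine Finset.sum_nonneg fun p hp => ?_
            have h3 : 0 ≤ Real.log p := Real.log_nonneg (by exact_mod_cast (hP p hp).1.one_lt.le)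
            have h4 : 0 ≤ Real.log V := Real.log_nonneg (by linarith)
            positivity
          gcongr
          norm_num
      _ = _ := by ring
  · rw [hXk, hsqrt]
    calc 2000000000000 * (P.card : ℝ) ^ k * V ^ (5 / 12 : ℝ) * V ^ (1 / 2 : ℝ) ≤
        2000000000000 * V ^ (1 / 24 : ℝ) * V ^ (5 / 12 : ℝ) * V ^ (1 / 2 : ℝ) := by gcongr
      _ = 2000000000000 * (V ^ (1 / 24 : ℝ) * V ^ (5 / 12 : ℝ) * V ^ (1 / 2 : ℝ)) := by ring
      _ = 2000000000000 * V ^ (23 / 24 : ℝ) := by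
          rw [← Real.rpow_add hV0, ← Real.rpow_add hV0]
          norm_num

end

end Pool.Agent.T2H31
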