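import Pool.Agent.T2H31.Main
import Pool.Agent.T2H31.Chain
import Pool.Agent.T2H31.CuspW

/-! Subgroups of finite index: unfolding and the pointwise estimate. -/

set_option autoImplicit false

namespace Pool.Agent.T2H31

open Complex MeasureTheory Set Function UpperHalfPlane ModularGroup
open scoped ENNReal NNReal MatrixGroups Modular

section
variable {Γ : Subgroup SL(2, ℤ)} {R : Type} [Fintype R] {rep : R → SL(2, ℤ)}
  (hcov : ∀ γ : SL(2, ℤ), ∃ (h : Γ) (r : R), γ = h * rep r)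
include hcov

theorem unfold_one0 {B : Set ℍ} (hB : MeasurableSet B) {g : ℍ → ℝ≥0∞} (hg : Measurable g)
    (hinv : ∀ (γ : Γ) (z : ℍ), g ((γ : SL(2, ℤ)) • z) = g z) :
    ∫⁻ u in B, g u ≤ ∑ r : R, ∫⁻ w in 𝒟,
      (∑' h : Γ, B.indicator (fun _ => (1 : ℝ≥0∞)) ((h : SL(2, ℤ)) • rep r • w)) * g (rep r • w) := by
  have := countableSL
  have h1 : B ⊆ ⋃ γ : SL(2, ℤ), (B ∩ {u | γ • u ∈ (𝒟 : Set ℍ)}) := by
    intro u hu
    obtain ⟨γ, hγ⟩ := exists_smul_mem_fd u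
    exact mem_iUnion.2 ⟨γ, hu, hγ⟩
  have hms : ∀ γ : SL(2, ℤ), MeasurableSet {u : ℍ | γ • u ∈ (𝒟 : Set ℍ)} := fun γ =>
    meas_smul γ meas_fd
  calc ∫⁻ u in B, g u ≤ ∫⁻ u in ⋃ γ : SL(2, ℤ), (B ∩ {u | γ • u ∈ (𝒟 : Set ℍ)}), g u :=
        lintegral_mono_set h1
    _ ≤ ∑' γ : SL(2, ℤ), ∫⁻ u in B ∩ {u | γ • u ∈ (𝒟 : Set ℍ)}, g u := lintegral_iUnion_le _ _
    _ = ∑' γ : SL(2, ℤ), ∫⁻ w in 𝒟, B.indicator (fun _ => (1 : ℝ≥0∞)) (γ⁻¹ • w) * g (γ⁻¹ • w) := by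
        refine tsum_congr fun γ => ?_
        rw [← lintegral_indicator (hB.inter (hms γ)), ← (mp_smul γ⁻¹).lintegral_comp
          ((hg.indicator (hB.inter (hms γ)))), ← lintegral_indicator meas_fd]
        refine lintegral_congr fun w => ?_
        have hmem : γ⁻¹ • w ∈ B ∩ {u | γ • u ∈ (𝒟 : Set ℍ)} ↔ γ⁻¹ • w ∈ B ∧ w ∈ (𝒟 : Set ℍ) := by
          constructor
          · rintro ⟨a, b⟩
            refine ⟨a, ?_⟩
            have : γ • γ⁻¹ • w ∈ (𝒟 : Set ℍ) := b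
            rwa [smul_inv_smul] at this
          · rintro ⟨a, b⟩
            refine ⟨a, ?_⟩
            show γ • γ⁻¹ • w ∈ (𝒟 : Set ℍ)
            rwa [smul_inv_smul]
        by_cases h2 : w ∈ (𝒟 : Set ℍ)
        · by_cases h1 : γ⁻¹ • w ∈ B
          · rw [indicator_of_mem (hmem.2 ⟨h1, h2⟩), indicator_of_mem h2, indicator_of_mem h1, one_mul]
          · rw [indicator_of_notMem (fun h => h1 (hmem.1 h).1), indicator_of_mem h2, indicator_of_notMem h1,
              zero_mul]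
        · rw [indicator_of_notMem (fun h => h2 (hmem.1 h).2), indicator_of_notMem h2]
    _ = ∑' γ : SL(2, ℤ), ∫⁻ w in 𝒟, B.indicator (fun _ => (1 : ℝ≥0∞)) (γ • w) * g (γ • w) :=
        (Equiv.inv (SL(2, ℤ))).tsum_eq fun γ =>
          ∫⁻ w in 𝒟, B.indicator (fun _ => (1 : ℝ≥0∞)) (γ • w) * g (γ • w)
    _ ≤ ∑' x : R × Γ, ∫⁻ w in 𝒟, B.indicator (fun _ => (1 : ℝ≥0∞)) (((x.2 : SL(2, ℤ)) * rep x.1) • w) *
          g (((x.2 : SL(2, ℤ)) * rep x.1) • w) := by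
        refine ENNReal.tsum_le_tsum_comp_of_surjective (f := fun x : R × Γ => (x.2 : SL(2, ℤ)) * rep x.1) ?_ _
        intro γ
        obtain ⟨h, r, e⟩ := hcov γ
        exact ⟨(r, h), e.symm⟩
    _ = ∑ r : R, ∑' h : Γ, ∫⁻ w in 𝒟, B.indicator (fun _ => (1 : ℝ≥0∞)) ((h : SL(2, ℤ)) • rep r • w) *
          g (rep r • w) := by
        rw [ENNReal.tsum_prod', tsum_fintype]
        refine Finset.sum_congr rfl fun r _ => tsum_congr fun h => ?_
        refine lintegral_congr fun w => ?_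
        simp only [mul_smul]
        rw [hinv h]
    _ = _ := by
        refine Finset.sum_congr rfl fun r _ => ?_
        rw [← lintegral_tsum]
        · refine lintegral_congr fun w => ?_
          rw [ENNReal.tsum_mul_right]
        · intro h
          refine Measurable.aemeasurable ?_
          refine Measurable.mul ?_ (hg.comp (meas_smul (rep r)))
          exact (measurable_const.indicator hB).comp ((meas_smul (h : SL(2, ℤ))).comp (meas_smul (rep r)))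

theorem unfold_sum0 {ι : Type*} (I : Finset ι) {B : ι → Set ℍ} (hB : ∀ i, MeasurableSet (B i))
    {g : ℍ → ℝ≥0∞} (hg : Measurable g)
    (hinv : ∀ (γ : Γ) (z : ℍ), g ((γ : SL(2, ℤ)) • z) = g z) {M : ℝ≥0∞}
    (hM : ∀ w : ℍ, ∑ i ∈ I, ∑' h : Γ, (B i).indicator (fun _ => (1 : ℝ≥0∞)) ((h : SL(2, ℤ)) • w) ≤ M) :
    ∑ i ∈ I, ∫⁻ u in B i, g u ≤ M * ∑ r : R, ∫⁻ w in 𝒟, g (rep r • w) := by
  have := countableSL
  have hm : ∀ i r, Measurable fun w : ℍ =>
      ∑' h : Γ, (B i).indicator (fun _ => (1 : ℝ≥0∞)) ((h : SL(2, ℤ)) • rep r • w) :=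
    fun i r => Measurable.tsum fun h => (measurable_const.indicator (hB i)).comp
      ((meas_smul (h : SL(2, ℤ))).comp (meas_smul (rep r)))
  have hgr : ∀ r, Measurable fun w : ℍ => g (rep r • w) := fun r => hg.comp (meas_smul (rep r))
  calc ∑ i ∈ I, ∫⁻ u in B i, g u ≤ ∑ i ∈ I, ∑ r : R, ∫⁻ w in 𝒟,
        (∑' h : Γ, (B i).indicator (fun _ => (1 : ℝ≥0∞)) ((h : SL(2, ℤ)) • rep r • w)) * g (rep r • w) :=
        Finset.sum_le_sum fun i _ => unfold_one0 hcov (hB i) hg hinv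
    _ = ∑ r : R, ∑ i ∈ I, ∫⁻ w in 𝒟,
        (∑' h : Γ, (B i).indicator (fun _ => (1 : ℝ≥0∞)) ((h : SL(2, ℤ)) • rep r • w)) * g (rep r • w) :=
        Finset.sum_comm
    _ = ∑ r : R, ∫⁻ w in 𝒟, (∑ i ∈ I, ∑' h : Γ,
        (B i).indicator (fun _ => (1 : ℝ≥0∞)) ((h : SL(2, ℤ)) • rep r • w)) * g (rep r • w) := by
        refine Finset.sum_congr rfl fun r _ => ?_
        rw [← lintegral_finsetSum]
        · refine lintegral_congr fun w => ?_
          rw [Finset.sum_mul]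
        · intro i _
          exact (hm i r).mul (hgr r)
    _ ≤ ∑ r : R, ∫⁻ w in 𝒟, M * g (rep r • w) :=
        Finset.sum_le_sum fun r _ => lintegral_mono fun w => by gcongr; exact hM _
    _ = M * ∑ r : R, ∫⁻ w in 𝒟, g (rep r • w) := by
        rw [Finset.mul_sum]
        refine Finset.sum_congr rfl fun r _ => ?_
        rw [lintegral_const_mul _ (hgr r)]

end

/-- a finite orthonormal system of eigenfunctions of the Laplacian invariant under `Γ` -/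
structure Sys0 (Γ : Subgroup SL(2, ℤ)) {R : Type} [Fintype R] (rep : R → SL(2, ℤ)) {ι : Type*}
    (f : ι → ℍ → ℝ) (lam : ι → ℝ) (L : ℝ) : Prop where
  smooth : ∀ j, Smooth2 (f j)
  inv : ∀ (j : ι) (γ : Γ) (z : ℍ), f j ((γ : SL(2, ℤ)) • z) = f j z
  lap : ∀ (j : ι) (u : ℍ), hyp (f j) u = -lam j * f j u
  bound : ∀ j, |lam j| ≤ L
  sq_int : ∀ j r, IntegrableOn (fun u => f j (rep r • u) ^ 2) 𝒟
  norm : ∀ j, ∑ r : R, ∫ u in 𝒟, f j (rep r • u) ^ 2 = 1
  orth : ∀ i j, i ≠ j → ∑ r : R, ∫ u in 𝒟, f i (rep r • u) * f j (rep r • u) = 0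

section
variable {Γ : Subgroup SL(2, ℤ)} {R : Type} [Fintype R] {rep : R → SL(2, ℤ)}
  {ι : Type*} [Fintype ι] {f : ι → ℍ → ℝ} {lam : ι → ℝ} {L : ℝ} (S : Sys0 Γ rep f lam L)
include S

theorem Sys0.comb_smooth (a : ι → ℝ) : Smooth2 fun u => ∑ j, a j * f j u := by
  have : fc (fun u => ∑ j, a j * f j u) = fun z => ∑ j, a j * fc (f j) z := rfl
  rw [Smooth2, this]
  exact ContDiffOn.sum fun j _ => contDiffOn_const.mul (S.smooth j)

theorem Sys0.comb_hyp (a : ι → ℝ) (u : ℍ) :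
    hyp (fun u => ∑ j, a j * f j u) u = ∑ j, (-(a j * lam j)) * f j u := by
  have : fc (fun u => ∑ j, a j * f j u) = fun z => ∑ j, a j * fc (f j) z := rfl
  rw [hyp, this, lapl_lin a (fun j => S.smooth j) u.im_pos, Finset.mul_sum]
  refine Finset.sum_congr rfl fun j _ => ?_
  have h := S.lap j u
  rw [hyp] at h
  linear_combination a j * h

theorem Sys0.cont (j : ι) (r : R) : Continuous fun u => f j (rep r • u) :=
  cont_f (smooth_smul (S.smooth j) (rep r))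

theorem Sys0.integrable_mul (r : R) (i j : ι) :
    Integrable (fun u => f i (rep r • u) * f j (rep r • u)) (volume.restrict (𝒟 : Set ℍ)) := by
  have h : ∀ j, MemLp (fun u => f j (rep r • u)) 2 (volume.restrict (𝒟 : Set ℍ)) := fun j =>
    (memLp_two_iff_integrable_sq (S.cont j r).aestronglyMeasurable).2 (S.sq_int j r)
  exact (h i).integrable_mul (h j)

theorem Sys0.energy (b : ι → ℝ) :
    ∑ r : R, ∫⁻ u in 𝒟, ENNReal.ofReal ((∑ j, b j * f j (rep r • u)) ^ 2) =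
      ENNReal.ofReal (∑ j, b j ^ 2) := by
  classical
  have e : ∀ r u, (∑ j, b j * f j (rep r • u)) ^ 2 =
      ∑ i, ∑ j, b i * b j * (f i (rep r • u) * f j (rep r • u)) := by
    intro r u
    rw [sq, Finset.sum_mul_sum]
    refine Finset.sum_congr rfl fun i _ => Finset.sum_congr rfl fun j _ => by ring
  have hi : ∀ r i j, Integrable (fun u => b i * b j * (f i (rep r • u) * f j (rep r • u)))
      (volume.restrict (𝒟 : Set ℍ)) :=
    fun r i j => (S.integrable_mul r i j).const_mul _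
  have hint : ∀ r, Integrable (fun u => (∑ j, b j * f j (rep r • u)) ^ 2) (volume.restrict (𝒟 : Set ℍ)) := by
    intro r
    simp_rw [e]
    exact integrable_finsetSum _ fun i _ => integrable_finsetSum _ fun j _ => hi r i j
  have h1 : ∀ r, ∫⁻ u in 𝒟, ENNReal.ofReal ((∑ j, b j * f j (rep r • u)) ^ 2) =
      ENNReal.ofReal (∫ u in 𝒟, (∑ j, b j * f j (rep r • u)) ^ 2) := fun r =>
    (ofReal_integral_eq_lintegral_ofReal (hint r) (Filter.Eventually.of_forall fun u => sq_nonneg _)).symm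
  simp_rw [h1]
  rw [← ENNReal.ofReal_sum_of_nonneg fun r _ => integral_nonneg fun u => sq_nonneg _]
  congr 1
  have h2 : ∀ r, ∫ u in 𝒟, (∑ j, b j * f j (rep r • u)) ^ 2 =
      ∑ i, ∑ j, b i * b j * ∫ u in 𝒟, f i (rep r • u) * f j (rep r • u) := by
    intro r
    simp_rw [e]
    rw [integral_finsetSum _ fun i _ => integrable_finsetSum _ fun j _ => hi r i j]
    refine Finset.sum_congr rfl fun i _ => ?_
    rw [integral_finsetSum _ fun j _ => hi r i j]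
    refine Finset.sum_congr rfl fun j _ => integral_const_mul _ _
  simp_rw [h2]
  rw [Finset.sum_comm]
  refine Finset.sum_congr rfl fun i _ => ?_
  rw [Finset.sum_comm, Finset.sum_eq_single i]
  · rw [← Finset.mul_sum]
    have h := S.norm i
    simp only [sq] at h
    rw [h]
    ring
  · intro j _ hj
    rw [← Finset.mul_sum, S.orth i j (Ne.symm hj), mul_zero]
  · intro h
    exact absurd (Finset.mem_univ i) h

theorem Sys0.point_sum (hcov : ∀ γ : SL(2, ℤ), ∃ (h : Γ) (r : R), γ = h * rep r)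
    {κ : Type*} (I : Finset κ) (w : κ → ℍ) {ρ : ℝ} (h0 : 0 < ρ) (hρ : ρ ≤ 1 / 2)
    {M : ℝ} (hM0 : 0 ≤ M) (hM : ∀ v : ℍ, ∑ i ∈ I, ∑' h : Γ,
      (EB (w i) ρ).indicator (fun _ => (1 : ℝ≥0∞)) ((h : SL(2, ℤ)) • v) ≤ ENNReal.ofReal M) (a : ι → ℝ) :
    ∑ i ∈ I, (∑ j, a j * f j (w i)) ^ 2 ≤ M * ((4 / ρ ^ 2 + 4 * ρ ^ 2 * L ^ 2) * ∑ j, a j ^ 2) := by
  set F : ℍ → ℝ := fun u => ∑ j, a j * f j u with hF
  have hsm := S.comb_smooth a
  have hinvF : ∀ (γ : Γ) (z : ℍ), F ((γ : SL(2, ℤ)) • z) = F z := by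
    intro γ z
    simp only [hF, S.inv]
  have hinvH : ∀ (γ : Γ) (z : ℍ), hyp F ((γ : SL(2, ℤ)) • z) = hyp F z := by
    intro γ z
    rw [hF, S.comb_hyp a, S.comb_hyp a]
    simp only [S.inv]
  have m1 : Measurable fun u : ℍ => ENNReal.ofReal (F u ^ 2) := by
    have := (cont_f hsm).measurable
    fun_prop
  have m2 : Measurable fun u : ℍ => ENNReal.ofReal (hyp F u ^ 2) := by
    have := (cont_hyp hsm).measurable
    fun_prop
  have hB : ∀ i, MeasurableSet (EB (w i) ρ) := fun i => (isClosed_EB _ _).measurableSet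
  have u1 := unfold_sum0 hcov I hB m1 (fun γ z => by rw [hinvF]) hM
  have u2 := unfold_sum0 hcov I hB m2 (fun γ z => by rw [hinvH]) hM
  have e1 : ∑ r : R, ∫⁻ u in 𝒟, ENNReal.ofReal (F (rep r • u) ^ 2) = ENNReal.ofReal (∑ j, a j ^ 2) :=
    S.energy a
  have e2 : ∑ r : R, ∫⁻ u in 𝒟, ENNReal.ofReal (hyp F (rep r • u) ^ 2) ≤
      ENNReal.ofReal (L ^ 2 * ∑ j, a j ^ 2) := by
    have : ∀ u, hyp F u = ∑ j, (-(a j * lam j)) * f j u := fun u => S.comb_hyp a u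
    simp_rw [this]
    rw [S.energy]
    apply ENNReal.ofReal_le_ofReal
    rw [Finset.mul_sum]
    refine Finset.sum_le_sum fun j _ => ?_
    have h1 : lam j ^ 2 ≤ L ^ 2 := by
      rw [← sq_abs (lam j)]
      exact pow_le_pow_left₀ (abs_nonneg _) (S.bound j) 2
    nlinarith [sq_nonneg (a j)]
  have hsum0 : 0 ≤ ∑ j, a j ^ 2 := Finset.sum_nonneg fun j _ => sq_nonneg _
  have key : ∑ i ∈ I, ENNReal.ofReal (F (w i) ^ 2) ≤
      ENNReal.ofReal M * ENNReal.ofReal ((4 / ρ ^ 2 + 4 * ρ ^ 2 * L ^ 2) * ∑ j, a j ^ 2) := by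
    calc ∑ i ∈ I, ENNReal.ofReal (F (w i) ^ 2) ≤
        ∑ i ∈ I, (ENNReal.ofReal (4 / ρ ^ 2) * (∫⁻ u in EB (w i) ρ, ENNReal.ofReal (F u ^ 2)) +
          ENNReal.ofReal (4 * ρ ^ 2) * ∫⁻ u in EB (w i) ρ, ENNReal.ofReal (hyp F u ^ 2)) :=
          Finset.sum_le_sum fun i _ => local_est hsm (w i) h0 hρ
      _ = ENNReal.ofReal (4 / ρ ^ 2) * (∑ i ∈ I, ∫⁻ u in EB (w i) ρ, ENNReal.ofReal (F u ^ 2)) +
          ENNReal.ofReal (4 * ρ ^ 2) * ∑ i ∈ I, ∫⁻ u in EB (w i) ρ, ENNReal.ofReal (hyp F u ^ 2) := by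
          rw [Finset.sum_add_distrib, Finset.mul_sum, Finset.mul_sum]
      _ ≤ ENNReal.ofReal (4 / ρ ^ 2) * (ENNReal.ofReal M * ENNReal.ofReal (∑ j, a j ^ 2)) +
          ENNReal.ofReal (4 * ρ ^ 2) * (ENNReal.ofReal M * ENNReal.ofReal (L ^ 2 * ∑ j, a j ^ 2)) := by
          refine add_le_add (mul_le_mul_right (u1.trans (mul_le_mul_right e1.le _)) _)
            (mul_le_mul_right (u2.trans (mul_le_mul_right e2 _)) _)
      _ = _ := by
          have e3 : (4 / ρ ^ 2 + 4 * ρ ^ 2 * L ^ 2) * ∑ j, a j ^ 2 =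
              4 / ρ ^ 2 * ∑ j, a j ^ 2 + 4 * ρ ^ 2 * (L ^ 2 * ∑ j, a j ^ 2) := by ring
          rw [e3, ENNReal.ofReal_add (by positivity) (by positivity),
            ENNReal.ofReal_mul (p := 4 / ρ ^ 2) (by positivity),
            ENNReal.ofReal_mul (p := 4 * ρ ^ 2) (q := L ^ 2 * ∑ j, a j ^ 2) (by positivity)]
          ring
  rw [← ENNReal.ofReal_sum_of_nonneg fun i _ => sq_nonneg _, ← ENNReal.ofReal_mul hM0,
    ENNReal.ofReal_le_ofReal_iff (by positivity)] at key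
  exact key

end

end Pool.Agent.T2H31
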