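import Pool.Agent.T2H31.Gam
import Pool.Agent.T2H31.Bad

/-! Multiplicities for `Γ₀(N)`. -/

set_option autoImplicit false

namespace Pool.Agent.T2H31

open Complex MeasureTheory Set Function UpperHalfPlane ModularGroup
open scoped ENNReal NNReal MatrixGroups Modular

theorem mult_le0 {Γ : Subgroup SL(2, ℤ)} {ι : Type*} (I : Finset ι) (B : ι → Set ℍ) (w : ℍ) (N : ℕ)
    (h : ∀ S : Finset (ι × Γ), (∀ q ∈ S, q.1 ∈ I ∧ (q.2 : SL(2, ℤ)) • w ∈ B q.1) → S.card ≤ N) :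
    ∑ i ∈ I, ∑' γ : Γ, (B i).indicator (fun _ => (1 : ℝ≥0∞)) ((γ : SL(2, ℤ)) • w) ≤ N := by
  classical
  have h1 : ∑ i ∈ I, ∑' γ : Γ, (B i).indicator (fun _ => (1 : ℝ≥0∞)) ((γ : SL(2, ℤ)) • w) =
      ∑' q : I × Γ, (B q.1.1).indicator (fun _ => (1 : ℝ≥0∞)) ((q.2 : SL(2, ℤ)) • w) := by
    rw [ENNReal.tsum_prod', tsum_fintype]
    rw [← Finset.sum_coe_sort]
  rw [h1, ENNReal.tsum_eq_iSup_sum]
  refine iSup_le fun S => ?_
  have h2 : ∑ q ∈ S, (B (q.1.1)).indicator (fun _ => (1 : ℝ≥0∞)) ((q.2 : SL(2, ℤ)) • w) =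
      ((S.filter fun q => (q.2 : SL(2, ℤ)) • w ∈ B q.1.1).card : ℝ≥0∞) := by
    rw [Finset.card_filter]
    push_cast
    refine Finset.sum_congr rfl fun q _ => ?_
    by_cases hq : (q.2 : SL(2, ℤ)) • w ∈ B q.1.1
    · rw [indicator_of_mem hq, if_pos hq]
    · rw [indicator_of_notMem hq, if_neg hq]
  rw [h2]
  have h3 := h ((S.filter fun q => (q.2 : SL(2, ℤ)) • w ∈ B q.1.1).image fun q => (q.1.1, q.2)) (by
    intro q hq
    obtain ⟨q', hq', rfl⟩ := Finset.mem_image.1 hq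
    exact ⟨q'.1.2, (Finset.mem_filter.1 hq').2⟩)
  rw [Finset.card_image_of_injective] at h3
  · exact_mod_cast h3
  · rintro ⟨a, b⟩ ⟨c, d⟩ h
    simp only [Prod.mk.injEq] at h
    exact Prod.ext (Subtype.ext h.1) h.2

theorem close_of_two {Γ : Subgroup SL(2, ℤ)} {u v w : ℍ} {ρ : ℝ} (h0 : 0 ≤ ρ) (hρ : ρ ≤ 1 / 2) {γ γ' : Γ}
    (h : (γ : SL(2, ℤ)) • w ∈ EB u ρ) (h' : (γ' : SL(2, ℤ)) • w ∈ EB v ρ) :
    dist u (((γ * γ'⁻¹ : Γ) : SL(2, ℤ)) • v) ≤ 4 * ρ := by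
  have d1 := dist_of_EB h0 hρ h
  have d2 := dist_of_EB h0 hρ h'
  have e : dist ((γ : SL(2, ℤ)) • w) (((γ * γ'⁻¹ : Γ) : SL(2, ℤ)) • v) = dist ((γ' : SL(2, ℤ)) • w) v := by
    rw [Subgroup.coe_mul, mul_smul, dist_smul', Subgroup.coe_inv]
    conv_rhs => rw [← dist_smul' (γ' : SL(2, ℤ))⁻¹, inv_smul_smul]
  calc dist u (((γ * γ'⁻¹ : Γ) : SL(2, ℤ)) • v) ≤ dist u ((γ : SL(2, ℤ)) • w) +
        dist ((γ : SL(2, ℤ)) • w) (((γ * γ'⁻¹ : Γ) : SL(2, ℤ)) • v) := dist_triangle _ _ _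
    _ ≤ 2 * ρ + 2 * ρ := by rw [e, dist_comm]; exact add_le_add d1 d2
    _ = 4 * ρ := by ring

/-- no near fixed points for integral matrices with lower left entry divisible by `N` -/
def GoodN (N : ℕ) (ε : ℝ) (X : ℕ) (z : ℍ) : Prop := ∀ a b c d : ℤ, (N : ℤ) ∣ c → 1 ≤ a * d - b * c →
  a * d - b * c ≤ X ^ 2 →
  ‖Qf a b c d z‖ ≤ ε * Real.sqrt ((a * d - b * c : ℤ) : ℝ) * z.im → c = 0 ∧ b = 0 ∧ a = d

theorem dvd_of_mem {N : ℕ} {g : SL(2, ℤ)} (hg : g ∈ CongruenceSubgroup.Gamma0 N) : (N : ℤ) ∣ g 1 0 := by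
  rw [CongruenceSubgroup.Gamma0_mem] at hg
  exact (ZMod.intCast_zmod_eq_zero_iff_dvd _ _).1 hg

theorem mem_of_dvd {N : ℕ} {g : SL(2, ℤ)} (hg : (N : ℤ) ∣ g 1 0) : g ∈ CongruenceSubgroup.Gamma0 N := by
  rw [CongruenceSubgroup.Gamma0_mem]
  exact (ZMod.intCast_zmod_eq_zero_iff_dvd _ _).2 hg

theorem close_uniqueN {N X : ℕ} {ρ : ℝ} (h0 : 0 ≤ ρ) (hρ : ρ ≤ 1 / 2) {z : ℍ} (hz : GoodN N (8 * ρ) X z)
    {q q' : ℕ × ℕ × ℕ} (h : q ∈ IX X) (h' : q' ∈ IX X) (g : SL(2, ℤ))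
    (hg : g ∈ CongruenceSubgroup.Gamma0 N)
    (hd : dist (hp q z) (g • hp q' z) ≤ 4 * ρ) : q = q' ∧ (g = 1 ∨ g = -1) := by
  rw [mem_IX] at h h'
  obtain ⟨hq, hX⟩ := h
  obtain ⟨hq', hX'⟩ := h'
  have p1 := hq.1
  have p2 : 0 < q.2.2 := by have := hq.2.1; omega
  have p1' := hq'.1
  have p2' : 0 < q'.2.2 := by have := hq'.2.1; omega
  have hdet := g.det_coe
  rw [Matrix.det_fin_two] at hdet
  have key := form_small p1 p2 p1' p2' z g h0 hρ hd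
  have hdet2 : ((q.2.2 : ℤ) * (g 0 0 * q'.1) - q.2.1 * (g 1 0 * q'.1)) *
      (q.1 * (g 1 0 * q'.2.1 + g 1 1 * q'.2.2)) -
      (q.2.2 * (g 0 0 * q'.2.1 + g 0 1 * q'.2.2) - q.2.1 * (g 1 0 * q'.2.1 + g 1 1 * q'.2.2)) *
      (q.1 * (g 1 0 * q'.1)) = ((q.1 * q.2.2 * (q'.1 * q'.2.2) : ℕ) : ℤ) := by
    push_cast
    linear_combination ((q.1 : ℤ) * q.2.2 * q'.1 * q'.2.2) * hdet
  have hdvd : (N : ℤ) ∣ (q.1 : ℤ) * (g 1 0 * q'.1) := ((dvd_of_mem hg).mul_right _).mul_left _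
  have hres := hz _ _ _ _ hdvd (by
    rw [hdet2]
    have : 1 ≤ q.1 * q.2.2 * (q'.1 * q'.2.2) := by
      have := Nat.mul_pos (Nat.mul_pos p1 p2) (Nat.mul_pos p1' p2'); omega
    exact_mod_cast this)
    (by
      rw [hdet2]
      have : q.1 * q.2.2 * (q'.1 * q'.2.2) ≤ X ^ 2 := by
        rw [sq]; exact Nat.mul_le_mul hX hX'
      exact_mod_cast this)
    (by rw [hdet2]; exact_mod_cast key)
  exact prim_unique hq hq' g hres.1 hres.2.1 hres.2.2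

theorem mult_goodN {N X : ℕ} {ρ : ℝ} (h0 : 0 ≤ ρ) (hρ : ρ ≤ 1 / 2) {z : ℍ} (hz : GoodN N (8 * ρ) X z)
    (w : ℍ) :
    ∑ q ∈ IX X, ∑' γ : CongruenceSubgroup.Gamma0 N,
      (EB (hp q z) ρ).indicator (fun _ => (1 : ℝ≥0∞)) ((γ : SL(2, ℤ)) • w) ≤ 2 := by
  classical
  have : (2 : ℝ≥0∞) = ((2 : ℕ) : ℝ≥0∞) := by norm_num
  rw [this]
  refine mult_le0 (IX X) (fun q => EB (hp q z) ρ) w 2 fun S hS => ?_
  rcases S.eq_empty_or_nonempty with rfl | ⟨⟨q, γ⟩, hqγ⟩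
  · simp
  have hinj : Function.Injective fun x : (ℕ × ℕ × ℕ) × CongruenceSubgroup.Gamma0 N =>
      (x.1, (x.2 : SL(2, ℤ))) := by
    rintro ⟨a, b⟩ ⟨c, d⟩ h
    simp only [Prod.mk.injEq] at h
    exact Prod.ext h.1 (Subtype.ext h.2)
  rw [← Finset.card_image_of_injective S hinj]
  have hsub : S.image (fun x : (ℕ × ℕ × ℕ) × CongruenceSubgroup.Gamma0 N => (x.1, (x.2 : SL(2, ℤ)))) ⊆
      {(q, (γ : SL(2, ℤ))), (q, -(γ : SL(2, ℤ)))} := by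
    intro x hx
    obtain ⟨⟨q', γ'⟩, h', rfl⟩ := Finset.mem_image.1 hx
    obtain ⟨k1, k2⟩ := hS _ hqγ
    obtain ⟨k1', k2'⟩ := hS _ h'
    simp only at k1 k2 k1' k2'
    have d3 := close_of_two h0 hρ k2 k2'
    obtain ⟨e1, e2⟩ := close_uniqueN h0 hρ hz k1 k1' _ (γ * γ'⁻¹).2 d3
    subst e1
    rw [Subgroup.coe_mul, Subgroup.coe_inv] at e2
    rcases e2 with e2 | e2
    · have : (γ' : SL(2, ℤ)) = γ := (mul_inv_eq_one.1 e2).symm
      rw [this]; simp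
    · have : (γ' : SL(2, ℤ)) = -γ := by
        have h5 : (γ : SL(2, ℤ)) = -1 * γ' := by rw [← e2]; group
        rw [h5]; simp
      rw [this]; simp
  exact (Finset.card_le_card hsub).trans Finset.card_le_two

/-- at most `K` elements of `Γ` nearly fix `z` -/
def Near (Γ : Subgroup SL(2, ℤ)) (z : ℍ) (ρ : ℝ) (K : ℕ) : Prop :=
  ∀ S : Finset SL(2, ℤ), (∀ g ∈ S, g ∈ Γ ∧ dist z (g • z) ≤ 4 * ρ) → S.card ≤ K

theorem mult_near {Γ : Subgroup SL(2, ℤ)} {z : ℍ} {ρ : ℝ} (h0 : 0 ≤ ρ) (hρ : ρ ≤ 1 / 2) {K : ℕ}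
    (hK : Near Γ z ρ K) (w : ℍ) :
    ∑ q ∈ ({()} : Finset Unit), ∑' γ : Γ,
      (EB z ρ).indicator (fun _ => (1 : ℝ≥0∞)) ((γ : SL(2, ℤ)) • w) ≤ K := by
  classical
  refine mult_le0 ({()} : Finset Unit) (fun _ => EB z ρ) w K fun S hS => ?_
  rcases S.eq_empty_or_nonempty with rfl | ⟨⟨_, γ⟩, hqγ⟩
  · simp
  have hinj : Function.Injective fun x : Unit × Γ => ((γ * x.2⁻¹ : Γ) : SL(2, ℤ)) := by
    rintro ⟨⟨⟩, a⟩ ⟨⟨⟩, b⟩ h
    have h1 : γ * a⁻¹ = γ * b⁻¹ := Subtype.ext h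
    have h2 := inv_injective (mul_left_cancel h1)
    rw [h2]
  rw [← Finset.card_image_of_injective S hinj]
  refine hK _ fun g hg => ?_
  obtain ⟨⟨_, γ'⟩, h', rfl⟩ := Finset.mem_image.1 hg
  exact ⟨(γ * γ'⁻¹).2, close_of_two h0 hρ (hS _ hqγ).2 (hS _ h').2⟩

theorem form_small_one {z : ℍ} {g : SL(2, ℤ)} {ρ : ℝ} (h0 : 0 ≤ ρ) (hρ : ρ ≤ 1 / 2)
    (h : dist z (g • z) ≤ 4 * ρ) : ‖Qf (g 0 0) (g 0 1) (g 1 0) (g 1 1) z‖ ≤ 8 * ρ * z.im := by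
  have hf := form_small (q := (1, 0, 1)) (q' := (1, 0, 1)) (by norm_num) (by norm_num) (by norm_num)
    (by norm_num) z g h0 hρ (by rw [hp_one]; exact h)
  simpa only [Nat.cast_one, one_mul, mul_one, Nat.cast_zero, zero_mul, sub_zero, mul_zero, zero_add,
    Real.sqrt_one] using hf

theorem near_conj {Γ : Subgroup SL(2, ℤ)} {δ : SL(2, ℤ)} {v : ℍ} {ρ : ℝ} {K : ℕ}
    (h : ∀ S : Finset SL(2, ℤ), (∀ g ∈ S, δ * g * δ⁻¹ ∈ Γ ∧ dist v (g • v) ≤ 4 * ρ) → S.card ≤ K) :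
    Near Γ (δ • v) ρ K := by
  classical
  intro S hS
  have hinj : Function.Injective fun g : SL(2, ℤ) => δ⁻¹ * g * δ := by
    intro a b h
    simpa using h
  rw [← Finset.card_image_of_injective S hinj]
  refine h _ fun g hg => ?_
  obtain ⟨g', hg', rfl⟩ := Finset.mem_image.1 hg
  obtain ⟨h1, h2⟩ := hS g' hg'
  refine ⟨?_, ?_⟩
  · have : δ * (δ⁻¹ * g' * δ) * δ⁻¹ = g' := by group
    rw [this]
    exact h1
  · rw [← dist_smul' δ]
    have : δ • (δ⁻¹ * g' * δ) • v = g' • δ • v := by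
      rw [← mul_smul, ← mul_smul]
      congr 1
      group
    rw [this]
    exact h2

theorem near_low {ρ : ℝ} (h0 : 0 ≤ ρ) (hρ : ρ ≤ 1 / 8) {v : ℍ} (hv : v ∈ (𝒟 : Set ℍ))
    (hy : 8 * ρ * v.im ≤ 1) (S : Finset SL(2, ℤ)) (hS : ∀ g ∈ S, dist v (g • v) ≤ 4 * ρ) :
    S.card ≤ 194481 := by
  classical
  let φ : SL(2, ℤ) → ℤ × ℤ × ℤ × ℤ := fun g => (g 0 0, g 0 1, g 1 0, g 1 1)
  have hinj : Function.Injective φ := by
    intro g g' h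
    simp only [φ, Prod.mk.injEq] at h
    ext i j
    fin_cases i <;> fin_cases j
    · exact h.1
    · exact h.2.1
    · exact h.2.2.1
    · exact h.2.2.2
  have himg : S.image φ ⊆ Finset.Icc (-10) 10 ×ˢ (Finset.Icc (-10) 10 ×ˢ (Finset.Icc (-10) 10 ×ˢ Finset.Icc (-10) 10)) := by
    intro t ht
    obtain ⟨g, hg, rfl⟩ := Finset.mem_image.1 ht
    have hf := form_small_one h0 (by linarith) (hS g hg)
    have hdet := g.det_coe
    rw [Matrix.det_fin_two] at hdet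
    obtain ⟨k1, k2, k3, k4⟩ := entries_bound hv (δ := 8 * ρ) (by linarith) hy hdet hf
    simp only [φ, Finset.mem_product, Finset.mem_Icc]
    exact ⟨abs_le.1 k1, abs_le.1 k2, abs_le.1 k3, abs_le.1 k4⟩
  rw [← Finset.card_image_of_injective S hinj]
  refine (Finset.card_le_card himg).trans ?_
  simp

/-- the coset representatives -/
def rep (N : ℕ) : Option (Fin N) → SL(2, ℤ)
  | none => 1
  | some j => ModularGroup.S * ModularGroup.T ^ ((j : ℕ) : ℤ)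

theorem rep_some {N : ℕ} (j : Fin N) :
    ((rep N (some j) : SL(2, ℤ)) : Matrix (Fin 2) (Fin 2) ℤ) = !![0, -1; 1, ((j : ℕ) : ℤ)] := by
  show ((ModularGroup.S * ModularGroup.T ^ ((j : ℕ) : ℤ) : SL(2, ℤ)) : Matrix (Fin 2) (Fin 2) ℤ) = _
  rw [Matrix.SpecialLinearGroup.coe_mul, ModularGroup.coe_S, ModularGroup.coe_T_zpow]
  simp [Matrix.mul_fin_two]

theorem conj_entry (δ g : SL(2, ℤ)) : (δ * g * δ⁻¹) 1 0 =
    (δ 1 1) ^ 2 * g 1 0 + (δ 1 0) * (δ 1 1) * (g 0 0 - g 1 1) - (δ 1 0) ^ 2 * g 0 1 := by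
  simp only [Matrix.SpecialLinearGroup.coe_mul, Matrix.SpecialLinearGroup.coe_inv, Matrix.mul_apply,
    Fin.sum_univ_two, Matrix.adjugate_fin_two]
  simp
  ring

theorem hcovN {N : ℕ} (hN : N.Prime) (γ : SL(2, ℤ)) :
    ∃ (h : CongruenceSubgroup.Gamma0 N) (r : Option (Fin N)), γ = h * rep N r := by
  haveI := Fact.mk hN
  by_cases hc : (N : ℤ) ∣ γ 1 0
  · exact ⟨⟨γ, mem_of_dvd hc⟩, none, by simp [rep]⟩
  · have hc' : ((γ 1 0 : ℤ) : ZMod N) ≠ 0 := fun h => hc ((ZMod.intCast_zmod_eq_zero_iff_dvd _ _).1 h)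
    set x : ZMod N := ((γ 1 1 : ℤ) : ZMod N) * ((γ 1 0 : ℤ) : ZMod N)⁻¹ with hx
    have hxlt : x.val < N := ZMod.val_lt x
    refine ⟨⟨γ * (rep N (some ⟨x.val, hxlt⟩))⁻¹, mem_of_dvd ?_⟩, some ⟨x.val, hxlt⟩, by simp⟩
    have e : (γ * (rep N (some ⟨x.val, hxlt⟩))⁻¹) 1 0 = γ 1 0 * x.val - γ 1 1 := by
      have h1 : ((rep N (some ⟨x.val, hxlt⟩))⁻¹ : SL(2, ℤ)) 0 0 = x.val ∧
          ((rep N (some ⟨x.val, hxlt⟩))⁻¹ : SL(2, ℤ)) 1 0 = -1 := by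
        rw [Matrix.SpecialLinearGroup.coe_inv, rep_some, Matrix.adjugate_fin_two]
        simp
      rw [Matrix.SpecialLinearGroup.coe_mul, Matrix.mul_apply, Fin.sum_univ_two, h1.1, h1.2]
      ring
    rw [e, ← ZMod.intCast_zmod_eq_zero_iff_dvd]
    push_cast
    rw [ZMod.natCast_zmod_val, hx]
    field_simp
    ring

theorem near_rep {N : ℕ} (hN : 0 < N) {ρ : ℝ} (h0 : 0 ≤ ρ) (hρ : ρ ≤ 1 / 16) {v : ℍ} (hv : v ∈ (𝒟 : Set ℍ))
    (r : Option (Fin N)) (hy : r = none → 8 * ρ * v.im ≤ 1) (hy' : 8 * ρ * v.im ≤ N) :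
    Near (CongruenceSubgroup.Gamma0 N) (rep N r • v) ρ 194481 := by
  classical
  refine near_conj fun S hS => ?_
  by_cases h1 : 8 * ρ * v.im ≤ 1
  · exact near_low h0 (by linarith) hv h1 S fun g hg => (hS g hg).2
  · rcases r with _ | j
    · exact absurd (hy rfl) h1
    push Not at h1
    have hy0 := v.im_pos
    have hy2 : 2 ≤ v.im := by nlinarith
    -- all elements of `S` are `±1` with upper right entry in `{0, N, -N}`
    have hN' : (0 : ℤ) < N := by exact_mod_cast hN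
    let φ : SL(2, ℤ) → ℤ × ℤ := fun g => (g 0 0, g 0 1)
    have hkey : ∀ g ∈ S, g 1 0 = 0 ∧ (g 0 0 = 1 ∨ g 0 0 = -1) ∧ g 1 1 = g 0 0 ∧
        (g 0 1 = 0 ∨ g 0 1 = N ∨ g 0 1 = -N) := by
      intro g hg
      obtain ⟨hΓ, hd⟩ := hS g hg
      have hf := form_small_one h0 (by linarith) hd
      have hdet := g.det_coe
      rw [Matrix.det_fin_two] at hdet
      have hdet' : ((g 0 0 : ℤ) * (g 1 1 : ℤ) - (g 0 1 : ℤ) * (g 1 0 : ℤ) : ℝ) = 1 := by exact_mod_cast hdet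
      have e := entries_sq (g 0 0) (g 0 1) (g 1 0) (g 1 1) v
      rw [hdet'] at e
      have hQn := norm_nonneg (Qf (g 0 0) (g 0 1) (g 1 0) (g 1 1) v)
      have hQ2 : ‖Qf (g 0 0) (g 0 1) (g 1 0) (g 1 1) v‖ ^ 2 ≤ v.im ^ 2 := by
        have : ‖Qf (g 0 0) (g 0 1) (g 1 0) (g 1 1) v‖ ≤ v.im := hf.trans (by nlinarith)
        nlinarith
      have e2 : (((g 1 0 : ℤ) : ℝ) * v.im) ^ 2 ≤ 3 := by
        have h3 : v.im ^ 2 * (((g 1 0 : ℤ) : ℝ) * v.im) ^ 2 ≤ v.im ^ 2 * 3 := by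
          nlinarith [mul_nonneg (sq_nonneg v.im) (sq_nonneg (((g 1 0 : ℤ) : ℝ) * v.re + (g 1 1 : ℤ))),
            mul_nonneg (sq_nonneg v.im) (sq_nonneg (((g 0 0 : ℤ) : ℝ) - (g 1 0 : ℤ) * v.re))]
        exact le_of_mul_le_mul_left h3 (by positivity)
      have hc0 : g 1 0 = 0 := by
        by_contra hne
        have h4 : (1 : ℝ) ≤ ((g 1 0 : ℤ) : ℝ) ^ 2 := by
          have h5 : (1 : ℤ) ≤ (g 1 0) ^ 2 := by
            have := Int.one_le_abs hne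
            rw [← sq_abs]
            nlinarith
          exact_mod_cast h5
        nlinarith
      have had : g 0 0 * g 1 1 = 1 := by rw [hc0] at hdet; linarith
      have hda : g 1 1 = g 0 0 ∧ (g 0 0 = 1 ∨ g 0 0 = -1) := by
        rcases Int.eq_one_or_neg_one_of_mul_eq_one had with h | h
        · rw [h] at had ⊢
          exact ⟨by linarith, Or.inl rfl⟩
        · rw [h] at had ⊢
          exact ⟨by linarith, Or.inr rfl⟩
      refine ⟨hc0, hda.2, hda.1, ?_⟩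
      have hdvd := dvd_of_mem hΓ
      rw [conj_entry, rep_some, hc0, hda.1] at hdvd
      simp at hdvd
      have hQb : ‖Qf (g 0 0) (g 0 1) (g 1 0) (g 1 1) v‖ = |((g 0 1 : ℤ) : ℝ)| := by
        rw [Qf, hc0, hda.1]
        simp
      rw [hQb] at hf
      have hbN : |((g 0 1 : ℤ) : ℝ)| ≤ N := hf.trans hy'
      have hbN' : |g 0 1| ≤ N := by exact_mod_cast hbN
      obtain ⟨t, ht⟩ := hdvd
      rw [ht, abs_mul, abs_of_pos hN'] at hbN'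
      have ht1 : |t| ≤ 1 := by
        by_contra hlt
        push Not at hlt
        nlinarith
      obtain ⟨h6, h7⟩ := abs_le.1 ht1
      have : t = -1 ∨ t = 0 ∨ t = 1 := by omega
      rcases this with rfl | rfl | rfl
      · right; right; rw [ht]; ring
      · left; rw [ht]; ring
      · right; left; rw [ht]; ring
    have hinj : ∀ g ∈ S, ∀ g' ∈ S, φ g = φ g' → g = g' := by
      intro g hg g' hg' h
      simp only [φ, Prod.mk.injEq] at h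
      obtain ⟨k1, k2, k3, k4⟩ := hkey g hg
      obtain ⟨l1, l2, l3, l4⟩ := hkey g' hg'
      ext i j
      fin_cases i <;> fin_cases j
      · exact h.1
      · exact h.2
      · exact k1.trans l1.symm
      · exact (k3.trans h.1).trans l3.symm
    rw [← Finset.card_image_of_injOn (f := φ) (s := S) hinj]
    have himg : S.image φ ⊆ ({1, -1} : Finset ℤ) ×ˢ ({0, (N : ℤ), -(N : ℤ)} : Finset ℤ) := by
      intro t ht
      obtain ⟨g, hg, rfl⟩ := Finset.mem_image.1 ht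
      obtain ⟨k1, k2, k3, k4⟩ := hkey g hg
      simp only [φ, Finset.mem_product, Finset.mem_insert, Finset.mem_singleton]
      exact ⟨k2, k4⟩
    refine (Finset.card_le_card himg).trans ?_
    rw [Finset.card_product]
    have c1 : ({1, -1} : Finset ℤ).card ≤ 2 := Finset.card_le_two
    have c2 : ({0, (N : ℤ), -(N : ℤ)} : Finset ℤ).card ≤ 3 := Finset.card_le_three
    calc ({1, -1} : Finset ℤ).card * ({0, (N : ℤ), -(N : ℤ)} : Finset ℤ).card ≤ 2 * 3 :=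
          Nat.mul_le_mul c1 c2
      _ ≤ 194481 := by norm_num

end Pool.Agent.T2H31
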