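import Pool.Agent.T2H31.Disc4

/-! The disc estimate on the upper half plane. -/

set_option autoImplicit false

namespace Pool.Agent.T2H31

open Complex MeasureTheory Set Function UpperHalfPlane
open scoped ENNReal NNReal

/-- the open upper half plane in `ℂ` -/
def HH : Set ℂ := {z | 0 < z.im}

theorem isOpen_HH : IsOpen HH := isOpen_lt continuous_const Complex.continuous_im

theorem lintegral_H {h : ℍ → ℝ≥0∞} (hh : Measurable h) {s : Set ℍ} (hs : MeasurableSet s) :
    ∫⁻ u in s, h u = ∫⁻ z in ((↑) : ℍ → ℂ) '' s, h (ofComplex z) * ENNReal.ofReal (1 / z.im ^ 2) := by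
  have hp : MeasurePreserving UpperHalfPlane.coe (volume.comap UpperHalfPlane.coe)
      (volume.restrict (.range UpperHalfPlane.coe)) :=
    ⟨measurable_coe, by rw [measurableEmbedding_coe.map_comap]⟩
  have hm : Measurable fun z : ℍ => ((((1 / NNReal.mk z.im z.im_pos.le : ℝ≥0) ^ 2 : ℝ≥0)) : ℝ≥0∞) := by
    refine Measurable.coe_nnreal_ennreal ?_
    refine Measurable.pow_const ?_ 2
    refine Measurable.div measurable_const ?_
    exact Measurable.subtype_mk (by fun_prop)
  rw [volume_def, restrict_withDensity hs, lintegral_withDensity_eq_lintegral_mul _ hm hh]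
  have h1 : ((↑) : ℍ → ℂ) '' s ⊆ range UpperHalfPlane.coe := image_subset_range _ _
  rw [← inter_eq_self_of_subset_left h1, ← Measure.restrict_restrict']
  · rw [← hp.setLIntegral_comp_emb measurableEmbedding_coe]
    refine lintegral_congr fun z => ?_
    simp only [Pi.mul_apply, ofComplex_apply, UpperHalfPlane.coe_im]
    rw [mul_comm]
    congr 1
    rw [ENNReal.ofReal]
    congr 1
    ext
    rw [Real.coe_toNNReal _ (by positivity)]
    simp
  · exact measurableEmbedding_coe.measurableSet_range

end Pool.Agent.T2H31
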