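import Pool.Agent.T2H31.Count

/-! Hecke operators at prime powers. -/

set_option autoImplicit false

namespace Pool.Agent.T2H31

open Complex Set Function UpperHalfPlane ModularGroup
open scoped MatrixGroups Modular

theorem hp_hp {a b d a' b' d' : ℕ} (ha : 0 < a) (hd : 0 < d) (ha' : 0 < a') (hd' : 0 < d') (z : ℍ) :
    hp (a, b, d) (hp (a', b', d') z) = hp (a * a', a * b' + b * d', d * d') z := by
  ext
  rw [coe_hp (q := (a, b, d)) ha hd, coe_hp (q := (a', b', d')) ha' hd',
    coe_hp (q := (a * a', a * b' + b * d', d * d')) (Nat.mul_pos ha ha') (Nat.mul_pos hd hd')]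
  have h1 : (d : ℂ) ≠ 0 := by exact_mod_cast hd.ne'
  have h2 : (d' : ℂ) ≠ 0 := by exact_mod_cast hd'.ne'
  simp only
  push_cast
  field_simp
  ring

theorem hp_scale {k a b d : ℕ} (hk : 0 < k) (ha : 0 < a) (hd : 0 < d) (z : ℍ) :
    hp (k * a, k * b, k * d) z = hp (a, b, d) z := by
  ext
  rw [coe_hp (q := (k * a, k * b, k * d)) (Nat.mul_pos hk ha) (Nat.mul_pos hk hd),
    coe_hp (q := (a, b, d)) ha hd]
  have h1 : (d : ℂ) ≠ 0 := by exact_mod_cast hd.ne'
  have h2 : (k : ℂ) ≠ 0 := by exact_mod_cast hk.ne'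
  simp only
  push_cast
  field_simp

/-- `f (z + 1) = f z` -/
def Per (f : ℍ → ℝ) : Prop := ∀ w : ℍ, f (hp (1, 1, 1) w) = f w

theorem per_of_inv {f : ℍ → ℝ} (hinv : ∀ (γ : SL(2, ℤ)) (z : ℍ), f (γ • z) = f z) : Per f := by
  intro w
  rw [← hinv ModularGroup.T w]
  congr 1
  ext
  rw [coe_hp (q := (1, 1, 1)) (by norm_num) (by norm_num), UpperHalfPlane.modular_T_smul]
  show ((1 : ℕ) * (w : ℂ) + (1 : ℕ)) / (1 : ℕ) = (((1 : ℝ) +ᵥ w : ℍ) : ℂ)
  simp [add_comm]

theorem hp_add {f : ℍ → ℝ} (hf : Per f) {a b d : ℕ} (ha : 0 < a) (hd : 0 < d) (z : ℍ) :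
    f (hp (a, b + d, d) z) = f (hp (a, b, d) z) := by
  rw [← hf (hp (a, b, d) z), hp_hp (by norm_num) (by norm_num) ha hd]
  congr 3
  · ring
  · rw [Prod.mk.injEq]
    constructor <;> ring

theorem sum_residues {φ : ℕ → ℝ} {M : ℕ} (hφ : ∀ x, φ (x + M) = φ x) {κ : Type*} (s : Finset κ)
    (g : κ → ℕ) (hinj : ∀ x ∈ s, ∀ y ∈ s, g x ≡ g y [MOD M] → x = y) (hcard : s.card = M) :
    ∑ x ∈ s, φ (g x) = ∑ y ∈ Finset.range M, φ y := by
  classical
  rcases Nat.eq_zero_or_pos M with rfl | hM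
  · rw [Finset.card_eq_zero.1 hcard]
    simp
  have hper : Function.Periodic φ M := hφ
  have him : s.image (fun x => g x % M) = Finset.range M := by
    apply Finset.eq_of_subset_of_card_le
    · intro y hy
      obtain ⟨x, _, rfl⟩ := Finset.mem_image.1 hy
      exact Finset.mem_range.2 (Nat.mod_lt _ hM)
    · rw [Finset.card_image_of_injOn, hcard, Finset.card_range]
      intro x hx y hy h
      exact hinj x hx y hy h
  rw [← him, Finset.sum_image]
  · refine Finset.sum_congr rfl fun x _ => ?_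
    rw [hper.map_mod_nat]
  · intro x hx y hy h
    exact hinj x hx y hy h

/-- the sum over upper triangular matrices of determinant `p ^ r` -/
noncomputable def AP (f : ℍ → ℝ) (p r : ℕ) (z : ℍ) : ℝ :=
  ∑ i ∈ Finset.range (r + 1), ∑ b ∈ Finset.range (p ^ (r - i)), f (hp (p ^ i, b, p ^ (r - i)) z)

theorem hp_id (z : ℍ) : hp (1, 0, 1) z = z := hp_one z

theorem AP_zero (f : ℍ → ℝ) (p : ℕ) (z : ℍ) : AP f p 0 z = f z := by
  simp [AP, hp_id]

theorem AP_one (f : ℍ → ℝ) (p : ℕ) (z : ℍ) :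
    AP f p 1 z = f (hp (p, 0, 1) z) + ∑ b ∈ Finset.range p, f (hp (1, b, p) z) := by
  rw [AP, Finset.sum_range_succ, Finset.sum_range_one]
  simp [add_comm]

/-- `T_p A_r = A_{r+1} + p A_{r-1}` -/
theorem AP_rec {f : ℍ → ℝ} (hf : Per f) {p : ℕ} (hp0 : 0 < p) (r : ℕ) (z : ℍ) :
    AP f p (r + 1) (hp (p, 0, 1) z) + ∑ c ∈ Finset.range p, AP f p (r + 1) (hp (1, c, p) z) =
      AP f p (r + 2) z + p * AP f p r z := by
  have e1 : AP f p (r + 1) (hp (p, 0, 1) z) =
      ∑ i ∈ Finset.range (r + 2), ∑ b ∈ Finset.range (p ^ (r + 1 - i)),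
        f (hp (p ^ (i + 1), b, p ^ (r + 1 - i)) z) := by
    rw [AP]
    refine Finset.sum_congr rfl fun i _ => Finset.sum_congr rfl fun b _ => ?_
    rw [hp_hp (by positivity) (by positivity) hp0 (by norm_num)]
    have e : ((p ^ i * p, p ^ i * 0 + b * 1, p ^ (r + 1 - i) * 1) : ℕ × ℕ × ℕ) =
        (p ^ (i + 1), b, p ^ (r + 1 - i)) := by
      simp only [Prod.mk.injEq]
      refine ⟨by ring, by ring, by ring⟩
    rw [e]
  have e2 : ∀ c, AP f p (r + 1) (hp (1, c, p) z) =
      ∑ b ∈ Finset.range (p ^ (r + 1)), f (hp (1, c + b * p, p ^ (r + 2)) z) +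
      ∑ i ∈ Finset.range (r + 1), ∑ b ∈ Finset.range (p ^ (r - i)),
        f (hp (p ^ i, p ^ i * c + b, p ^ (r - i)) z) := by
    intro c
    rw [AP, Finset.sum_range_succ', add_comm]
    congr 1
    · refine Finset.sum_congr (by simp) fun b _ => ?_
      rw [hp_hp (by positivity) (by positivity) (by norm_num) hp0]
      have e : ((p ^ 0 * 1, p ^ 0 * c + b * p, p ^ (r + 1 - 0) * p) : ℕ × ℕ × ℕ) =
          (1, c + b * p, p ^ (r + 2)) := by
        simp only [Prod.mk.injEq, Nat.sub_zero]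
        refine ⟨by ring, by ring, by ring⟩
      rw [e]
    · refine Finset.sum_congr rfl fun i _ => ?_
      rw [show r + 1 - (i + 1) = r - i by omega]
      refine Finset.sum_congr rfl fun b _ => ?_
      rw [hp_hp (by positivity) (by positivity) (by norm_num) hp0,
        ← hp_scale (k := p) (a := p ^ i) (b := p ^ i * c + b) (d := p ^ (r - i)) hp0 (by positivity)
          (by positivity)]
      have e : ((p ^ (i + 1) * 1, p ^ (i + 1) * c + b * p, p ^ (r - i) * p) : ℕ × ℕ × ℕ) =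
          (p * p ^ i, p * (p ^ i * c + b), p * p ^ (r - i)) := by
        simp only [Prod.mk.injEq]
        refine ⟨by ring, by ring, by ring⟩
      rw [e]
  have e3 : ∑ c ∈ Finset.range p, ∑ b ∈ Finset.range (p ^ (r + 1)), f (hp (1, c + b * p, p ^ (r + 2)) z) =
      ∑ b ∈ Finset.range (p ^ (r + 2)), f (hp (1, b, p ^ (r + 2)) z) := by
    rw [← Finset.sum_product']
    refine sum_residues (φ := fun b => f (hp (1, b, p ^ (r + 2)) z))
      (fun x => hp_add hf (by norm_num) (by positivity) z) (Finset.range p ×ˢ Finset.range (p ^ (r + 1)))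
      (fun x => x.1 + x.2 * p) ?_ ?_
    · rintro ⟨c, b⟩ hx ⟨c', b'⟩ hy h
      rw [Finset.mem_product, Finset.mem_range, Finset.mem_range] at hx hy
      simp only at hx hy h
      have hlt : ∀ c b : ℕ, c < p → b < p ^ (r + 1) → c + b * p < p ^ (r + 2) := by
        intro c b hc hb
        have h1 : (b + 1) * p ≤ p ^ (r + 1) * p := Nat.mul_le_mul_right p hb
        have h2 : p ^ (r + 1) * p = p ^ (r + 2) := by ring
        rw [h2] at h1
        linarith
      have h' : c + b * p = c' + b' * p := by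
        have := h
        rw [Nat.ModEq, Nat.mod_eq_of_lt (hlt c b hx.1 hx.2), Nat.mod_eq_of_lt (hlt c' b' hy.1 hy.2)] at this
        exact this
      have hc : c = c' := by
        have := congrArg (· % p) h'
        simpa [Nat.add_mul_mod_self_right, Nat.mod_eq_of_lt hx.1, Nat.mod_eq_of_lt hy.1] using this
      subst hc
      have hb : b * p = b' * p := by omega
      rw [Nat.eq_of_mul_eq_mul_right hp0 hb]
    · rw [Finset.card_product, Finset.card_range, Finset.card_range]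
      ring
  have e4 : ∀ c, ∑ i ∈ Finset.range (r + 1), ∑ b ∈ Finset.range (p ^ (r - i)),
        f (hp (p ^ i, p ^ i * c + b, p ^ (r - i)) z) = AP f p r z := by
    intro c
    rw [AP]
    refine Finset.sum_congr rfl fun i _ => ?_
    refine sum_residues (φ := fun b => f (hp (p ^ i, b, p ^ (r - i)) z))
      (fun x => hp_add hf (by positivity) (by positivity) z) (Finset.range (p ^ (r - i)))
      (fun b => p ^ i * c + b) ?_ (Finset.card_range _)
    intro b hb b' hb' h
    rw [Finset.mem_range] at hb hb'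
    have h2 := Nat.ModEq.add_left_cancel' _ h
    rw [Nat.ModEq, Nat.mod_eq_of_lt hb, Nat.mod_eq_of_lt hb'] at h2
    exact h2
  rw [e1]
  simp_rw [e2]
  rw [Finset.sum_add_distrib, e3]
  simp_rw [e4]
  rw [Finset.sum_const, Finset.card_range, nsmul_eq_mul]
  have e5 : AP f p (r + 2) z = ∑ i ∈ Finset.range (r + 2), ∑ b ∈ Finset.range (p ^ (r + 1 - i)),
        f (hp (p ^ (i + 1), b, p ^ (r + 1 - i)) z) +
      ∑ b ∈ Finset.range (p ^ (r + 2)), f (hp (1, b, p ^ (r + 2)) z) := by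
    rw [AP, Finset.sum_range_succ']
    congr 1
    · simp
  rw [e5]
  ring

end Pool.Agent.T2H31
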