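import Pool.Agent.T2H31.Hecke1

/-! Primitive Hecke operators at prime powers. -/

set_option autoImplicit false

namespace Pool.Agent.T2H31

open Complex Set Function UpperHalfPlane ModularGroup
open scoped MatrixGroups Modular

/-- Chebyshev polynomials of the second kind, `UU x n = U_n(x / 2)` -/
noncomputable def UU (x : ℝ) : ℕ → ℝ
  | 0 => 1
  | 1 => x
  | (n + 2) => x * UU x (n + 1) - UU x n

/-- `T_p f = √p x f` -/
def HeckeP (f : ℍ → ℝ) (p : ℕ) (x : ℝ) : Prop :=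
  ∀ z : ℍ, f (hp (p, 0, 1) z) + ∑ b ∈ Finset.range p, f (hp (1, b, p) z) = Real.sqrt p * x * f z

theorem AP_eig {f : ℍ → ℝ} (hf : Per f) {p : ℕ} (hp0 : 0 < p) {x : ℝ} (h : HeckeP f p x) (r : ℕ) :
    (∀ z, AP f p r z = Real.sqrt p ^ r * UU x r * f z) ∧
      ∀ z, AP f p (r + 1) z = Real.sqrt p ^ (r + 1) * UU x (r + 1) * f z := by
  induction r with
  | zero =>
    refine ⟨fun z => ?_, fun z => ?_⟩
    · rw [AP_zero]
      simp [UU]
    · rw [AP_one, h z]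
      simp [UU]
  | succ r ih =>
    refine ⟨ih.2, fun z => ?_⟩
    have h1 := AP_rec hf hp0 r z
    simp_rw [ih.2] at h1
    rw [ih.1, ← Finset.mul_sum, ← mul_add, h z] at h1
    have h2 : Real.sqrt p ^ 2 = p := Real.sq_sqrt (by positivity)
    have h3 : AP f p (r + 2) z = Real.sqrt p ^ (r + 1) * UU x (r + 1) * (Real.sqrt p * x * f z) -
        p * (Real.sqrt p ^ r * UU x r * f z) := by linarith
    rw [show r + 1 + 1 = r + 2 from rfl, h3, UU]
    have h4 : Real.sqrt p ^ (r + 2) = Real.sqrt p ^ r * p := by rw [pow_add, h2]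
    have h5 : Real.sqrt p ^ (r + 1) * Real.sqrt p = Real.sqrt p ^ r * p := by
      rw [← h4]; ring
    rw [h4]
    linear_combination (UU x (r + 1) * x * f z) * h5

/-- all upper triangular matrices of determinant `p ^ r` -/
def RR (p r : ℕ) : Finset (ℕ × ℕ × ℕ) :=
  ((Finset.range (r + 1)).sigma fun i => Finset.range (p ^ (r - i))).image
    fun x => (p ^ x.1, x.2, p ^ (r - x.1))

theorem sum_RR {p : ℕ} (hp2 : 2 ≤ p) (r : ℕ) (F : ℕ × ℕ × ℕ → ℝ) :
    ∑ q ∈ RR p r, F q = ∑ i ∈ Finset.range (r + 1), ∑ b ∈ Finset.range (p ^ (r - i)),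
      F (p ^ i, b, p ^ (r - i)) := by
  rw [RR, Finset.sum_image, Finset.sum_sigma]
  rintro ⟨i, b⟩ _ ⟨i', b'⟩ _ h
  simp only [Prod.mk.injEq] at h
  have h1 : i = i' := Nat.pow_right_injective hp2 h.1
  subst h1
  rw [h.2.1]

theorem mem_RR {p : ℕ} (hp' : p.Prime) {r : ℕ} {q : ℕ × ℕ × ℕ} :
    q ∈ RR p r ↔ q.1 * q.2.2 = p ^ r ∧ q.2.1 < q.2.2 := by
  obtain ⟨a, b, d⟩ := q
  rw [RR, Finset.mem_image]
  constructor
  · rintro ⟨⟨i, b'⟩, h, he⟩
    rw [Finset.mem_sigma, Finset.mem_range, Finset.mem_range] at h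
    simp only [Prod.mk.injEq] at he h ⊢
    obtain ⟨rfl, rfl, rfl⟩ := he
    refine ⟨?_, h.2⟩
    rw [← pow_add]
    congr 1
    omega
  · rintro ⟨h1, h2⟩
    simp only at h1 h2
    obtain ⟨i, hi, rfl⟩ := (Nat.dvd_prime_pow hp').1 (Dvd.intro _ h1)
    have hd : d = p ^ (r - i) := by
      have h3 : p ^ i * p ^ (r - i) = p ^ r := by rw [← pow_add]; congr 1; omega
      rw [← h3] at h1
      exact Nat.eq_of_mul_eq_mul_left (pow_pos hp'.pos i) h1
    subst hd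
    refine ⟨⟨i, b⟩, ?_, rfl⟩
    rw [Finset.mem_sigma, Finset.mem_range, Finset.mem_range]
    exact ⟨by simp only; omega, h2⟩

/-- the primitive matrices of determinant `p ^ r` -/
def PR (p r : ℕ) : Finset (ℕ × ℕ × ℕ) := (RR p r).filter fun q => Nat.gcd q.1 (Nat.gcd q.2.1 q.2.2) = 1

theorem mem_PR {p : ℕ} (hp' : p.Prime) {r : ℕ} {q : ℕ × ℕ × ℕ} :
    q ∈ PR p r ↔ IsPrim q ∧ q.1 * q.2.2 = p ^ r := by
  rw [PR, Finset.mem_filter, mem_RR hp', IsPrim]
  constructor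
  · rintro ⟨⟨h1, h2⟩, h3⟩
    refine ⟨⟨?_, h2, h3⟩, h1⟩
    rcases Nat.eq_zero_or_pos q.1 with h | h
    · rw [h, zero_mul] at h1
      exact absurd h1.symm (pow_pos hp'.pos r).ne'
    · exact h
  · rintro ⟨⟨_, h2, h3⟩, h1⟩
    exact ⟨⟨h1, h2⟩, h3⟩

theorem RR_split {p : ℕ} (hp' : p.Prime) (r : ℕ) (F : ℕ × ℕ × ℕ → ℝ) :
    ∑ q ∈ RR p (r + 2), F q = ∑ q ∈ PR p (r + 2), F q + ∑ q ∈ RR p r, F (p * q.1, p * q.2.1, p * q.2.2) := by
  classical
  rw [← Finset.sum_filter_add_sum_filter_not (RR p (r + 2))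
    (fun q => Nat.gcd q.1 (Nat.gcd q.2.1 q.2.2) = 1) F]
  congr 1
  have e : (RR p (r + 2)).filter (fun q => ¬ Nat.gcd q.1 (Nat.gcd q.2.1 q.2.2) = 1) =
      (RR p r).image fun q => (p * q.1, p * q.2.1, p * q.2.2) := by
    ext ⟨a, b, d⟩
    rw [Finset.mem_filter, mem_RR hp', Finset.mem_image]
    simp only [Prod.exists, Prod.mk.injEq]
    constructor
    · rintro ⟨⟨h1, h2⟩, h3⟩
      obtain ⟨ℓ, hℓ, hdvd⟩ := Nat.exists_prime_and_dvd h3
      have ha : ℓ ∣ a := hdvd.trans (Nat.gcd_dvd_left _ _)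
      have hb : ℓ ∣ b := (hdvd.trans (Nat.gcd_dvd_right _ _)).trans (Nat.gcd_dvd_left _ _)
      have hd : ℓ ∣ d := (hdvd.trans (Nat.gcd_dvd_right _ _)).trans (Nat.gcd_dvd_right _ _)
      have hℓp : ℓ = p := by
        have : ℓ ∣ p ^ (r + 2) := by
          rw [← h1]
          exact ha.mul_right d
        exact (Nat.prime_dvd_prime_iff_eq hℓ hp').1 (hℓ.dvd_of_dvd_pow this)
      subst hℓp
      obtain ⟨a', rfl⟩ := ha
      obtain ⟨b', rfl⟩ := hb
      obtain ⟨d', rfl⟩ := hd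
      refine ⟨a', b', d', ?_, rfl, rfl, rfl⟩
      rw [mem_RR hℓ]
      refine ⟨?_, Nat.lt_of_mul_lt_mul_left h2⟩
      have hpos : 0 < ℓ * ℓ := Nat.mul_pos hℓ.pos hℓ.pos
      apply Nat.eq_of_mul_eq_mul_left hpos
      simp only
      calc ℓ * ℓ * (a' * d') = ℓ * a' * (ℓ * d') := by ring
        _ = ℓ ^ (r + 2) := h1
        _ = ℓ * ℓ * ℓ ^ r := by ring
    · rintro ⟨a', b', d', h, rfl, rfl, rfl⟩
      rw [mem_RR hp'] at h
      obtain ⟨h1, h2⟩ := h
      simp only at h1 h2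
      refine ⟨⟨?_, Nat.mul_lt_mul_of_pos_left h2 hp'.pos⟩, ?_⟩
      · calc p * a' * (p * d') = p * p * (a' * d') := by ring
          _ = p * p * p ^ r := by rw [h1]
          _ = p ^ (r + 2) := by ring
      · rw [Nat.gcd_mul_left, Nat.gcd_mul_left]
        intro h3
        exact hp'.one_lt.ne' (Nat.eq_one_of_mul_eq_one_right h3)
  rw [e, Finset.sum_image]
  rintro ⟨a, b, d⟩ _ ⟨a', b', d'⟩ _ h
  simp only [Prod.mk.injEq] at h
  have := hp'.pos
  rw [Nat.eq_of_mul_eq_mul_left this h.1, Nat.eq_of_mul_eq_mul_left this h.2.1,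
    Nat.eq_of_mul_eq_mul_left this h.2.2]

/-- `w_s`, the eigenvalue of the primitive operator divided by `p ^ s` -/
noncomputable def WW (p : ℕ) (x : ℝ) : ℕ → ℝ
  | 0 => 1
  | (s + 1) => UU x (2 * s + 2) - UU x (2 * s) / p

theorem PR_eig {f : ℍ → ℝ} (hf : Per f) {p : ℕ} (hp' : p.Prime) {x : ℝ} (h : HeckeP f p x) (s : ℕ) (z : ℍ) :
    ∑ q ∈ PR p (2 * s), f (hp q z) = (p : ℝ) ^ s * WW p x s * f z := by
  have h2 : Real.sqrt p ^ 2 = p := Real.sq_sqrt (by positivity)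
  have hp0 : (p : ℝ) ≠ 0 := by exact_mod_cast hp'.ne_zero
  have hR : ∀ r z, ∑ q ∈ RR p r, f (hp q z) = AP f p r z := fun r z => by
    rw [sum_RR hp'.two_le r fun q => f (hp q z), AP]
  rcases s with _ | s
  · have e : PR p (2 * 0) = {(1, 0, 1)} := by
      ext ⟨a, b, d⟩
      rw [mem_PR hp', IsPrim, Finset.mem_singleton]
      simp only [mul_zero, pow_zero, Prod.mk.injEq, mul_eq_one]
      constructor
      · rintro ⟨⟨_, h4, _⟩, h5, h6⟩
        omega
      · rintro ⟨rfl, rfl, rfl⟩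
        norm_num
    rw [e, Finset.sum_singleton, hp_id]
    simp [WW]
  · have h1 := RR_split hp' (2 * s) fun q => f (hp q z)
    rw [hR] at h1
    have h3 : ∑ q ∈ RR p (2 * s), f (hp (p * q.1, p * q.2.1, p * q.2.2) z) = AP f p (2 * s) z := by
      rw [← hR]
      refine Finset.sum_congr rfl fun q hq => ?_
      rw [mem_RR hp'] at hq
      rw [hp_scale hp'.pos]
      · rcases Nat.eq_zero_or_pos q.1 with h | h
        · rw [h, zero_mul] at hq
          exact absurd hq.1.symm (pow_pos hp'.pos _).ne'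
        · exact h
      · omega
    rw [h3, (AP_eig hf hp'.pos h (2 * s)).1 z, (AP_eig hf hp'.pos h (2 * s + 2)).1 z] at h1
    have h4 : ∑ q ∈ PR p (2 * s + 2), f (hp q z) = Real.sqrt p ^ (2 * s + 2) * UU x (2 * s + 2) * f z -
        Real.sqrt p ^ (2 * s) * UU x (2 * s) * f z := by linarith
    rw [show 2 * (s + 1) = 2 * s + 2 by ring, h4, WW, pow_add, pow_mul, h2, pow_succ]
    field_simp

theorem card_RR {p : ℕ} (hp2 : 2 ≤ p) (r : ℕ) : ((RR p r).card : ℝ) ≤ 2 * (p : ℝ) ^ r := by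
  have h := sum_RR hp2 r fun _ => (1 : ℝ)
  simp only [Finset.sum_const, nsmul_eq_mul, mul_one, Finset.card_range] at h
  rw [h]
  have hp2' : (2 : ℝ) ≤ p := by exact_mod_cast hp2
  have key : ∀ r : ℕ, ∑ i ∈ Finset.range (r + 1), (((p ^ (r - i) : ℕ)) : ℝ) ≤ 2 * (p : ℝ) ^ r - 1 := by
    intro r
    induction r with
    | zero => simp; norm_num
    | succ r ih =>
      rw [Finset.sum_range_succ']
      have e : ∑ i ∈ Finset.range (r + 1), (((p ^ (r + 1 - (i + 1)) : ℕ)) : ℝ) =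
          ∑ i ∈ Finset.range (r + 1), (((p ^ (r - i) : ℕ)) : ℝ) := by
        refine Finset.sum_congr rfl fun i _ => ?_
        rw [show r + 1 - (i + 1) = r - i by omega]
      rw [e]
      push_cast at ih ⊢
      have h3 : 0 < (p : ℝ) ^ r := by positivity
      rw [pow_succ]
      nlinarith
  have := key r
  linarith

end Pool.Agent.T2H31
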