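import Pool.Agent.T2H31.Cheb

/-! Kernels for one prime and products of kernels. -/

set_option autoImplicit false

namespace Pool.Agent.T2H31

open Complex Set Function UpperHalfPlane ModularGroup
open scoped MatrixGroups Modular

theorem WW_lower {p : ℕ} (hp' : p.Prime) {x α : ℝ} (hα : 1 ≤ α) (hx : α + α⁻¹ ≤ |x|) (s : ℕ) :
    VV (α + α⁻¹) s / 2 ≤ WW p x s := by
  rcases s with _ | s
  · rw [VV_zero, WW]
    norm_num
  · have h1 := VV_compare hα hx (s + 1)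
    have h2 := VV_mono hα hx s
    have h3 := VV_pos hα hx s
    have h4 : WW p x (s + 1) = VV x (s + 1) - VV x s / p := by
      rw [WW, VV, VV]
      rfl
    have hp2 : (2 : ℝ) ≤ p := by exact_mod_cast hp'.two_le
    have h5 : VV x s / p ≤ VV x s / 2 := by gcongr
    rw [h4]
    linarith

theorem ker_prime {p : ℕ} (hp' : p.Prime) {α : ℝ} (hα : 1 ≤ α) (M : ℕ) :
    ∃ (Q : Finset (ℕ × ℕ × ℕ)) (c : ℕ × ℕ × ℕ → ℝ), (∀ q ∈ Q, IsPrim q ∧ q.1 * q.2.2 ∣ p ^ (2 * M)) ∧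
      ∑ q ∈ Q, c q ^ 2 ≤ 192 / (((M : ℝ) + 1) ^ 3 * (α ^ 2) ^ M) ∧
      ∀ (f : ℍ → ℝ) (x : ℝ), Per f → HeckeP f p x → α + α⁻¹ ≤ |x| →
        ∃ σ : ℝ, 1 ≤ σ ∧ ∀ z, ∑ q ∈ Q, c q * f (hp q z) = σ * f z := by
  classical
  have hpp : 0 < p := hp'.pos
  have hpr : (0 : ℝ) < p := by exact_mod_cast hpp
  set V : ℕ → ℝ := fun s => VV (α + α⁻¹) s with hV
  have hV1 : ∀ s, 1 ≤ V s := fun s => VV_pos hα (le_abs_self _) s
  set SV := ∑ s ∈ Finset.range (M + 1), V s ^ 2 with hSV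
  have hSV1 : 0 < SV := by
    rw [hSV]
    refine Finset.sum_pos (fun s _ => ?_) ⟨0, by simp⟩
    have := hV1 s
    positivity
  have hlow := sum_VV hα M
  set b : ℕ → ℝ := fun s => V s / (SV / 2) with hb
  set β : ℕ → ℝ := fun s => b s / (p : ℝ) ^ s with hβ
  set c : ℕ × ℕ × ℕ → ℝ := fun q => ∑ s ∈ Finset.range (M + 1), if q.1 * q.2.2 = p ^ (2 * s) then β s else 0
    with hc
  have hcq : ∀ s ∈ Finset.range (M + 1), ∀ q ∈ PR p (2 * s), c q = β s := by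
    intro s hs q hq
    rw [mem_PR hp'] at hq
    rw [hc]
    simp only
    rw [Finset.sum_eq_single s]
    · rw [if_pos hq.2]
    · intro t _ hts
      rw [if_neg]
      rw [hq.2]
      intro h
      have := Nat.pow_right_injective hp'.two_le h
      omega
    · intro h
      exact absurd hs h
  have hdisj : (Finset.range (M + 1) : Set ℕ).PairwiseDisjoint fun s => PR p (2 * s) := by
    intro s _ t _ hst
    refine Finset.disjoint_left.2 fun q hq hq' => ?_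
    rw [mem_PR hp'] at hq hq'
    have h := hq.2.symm.trans hq'.2
    have := Nat.pow_right_injective hp'.two_le h
    omega
  refine ⟨(Finset.range (M + 1)).biUnion fun s => PR p (2 * s), c, ?_, ?_, ?_⟩
  · intro q hq
    obtain ⟨s, hs, hq⟩ := Finset.mem_biUnion.1 hq
    rw [mem_PR hp'] at hq
    refine ⟨hq.1, ?_⟩
    rw [hq.2]
    have := Finset.mem_range.1 hs
    exact pow_dvd_pow p (by omega)
  · rw [Finset.sum_biUnion hdisj]
    have h1 : ∀ s ∈ Finset.range (M + 1), ∑ q ∈ PR p (2 * s), c q ^ 2 ≤ 2 * b s ^ 2 := by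
      intro s hs
      rw [Finset.sum_congr rfl fun q hq => by rw [hcq s hs q hq], Finset.sum_const, nsmul_eq_mul]
      have h2 : ((PR p (2 * s)).card : ℝ) ≤ 2 * (p : ℝ) ^ (2 * s) := by
        refine le_trans ?_ (card_RR hp'.two_le (2 * s))
        exact_mod_cast Finset.card_filter_le _ _
      calc ((PR p (2 * s)).card : ℝ) * β s ^ 2 ≤ (2 * (p : ℝ) ^ (2 * s)) * β s ^ 2 := by gcongr
        _ = 2 * b s ^ 2 := by
            rw [hβ]
            simp only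
            rw [div_pow, ← pow_mul, mul_comm s 2]
            field_simp
    refine (Finset.sum_le_sum h1).trans ?_
    rw [← Finset.mul_sum]
    have h3 : ∑ s ∈ Finset.range (M + 1), b s ^ 2 = 4 / SV := by
      rw [hb]
      simp only [div_pow]
      rw [← Finset.sum_div, ← hSV]
      field_simp
      norm_num
    rw [h3, ← mul_div_assoc, div_le_div_iff₀ hSV1 (by positivity)]
    nlinarith
  · intro f x hf hH hx
    refine ⟨∑ s ∈ Finset.range (M + 1), b s * WW p x s, ?_, fun z => ?_⟩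
    · have h4 : ∑ s ∈ Finset.range (M + 1), b s * (V s / 2) ≤ ∑ s ∈ Finset.range (M + 1), b s * WW p x s := by
        refine Finset.sum_le_sum fun s _ => ?_
        have h5 := WW_lower hp' hα hx s
        have h6 : 0 ≤ b s := by
          rw [hb]
          have := hV1 s
          positivity
        gcongr
      refine le_trans (le_of_eq ?_) h4
      have h7 : ∀ s, b s * (V s / 2) = V s ^ 2 / SV := by
        intro s
        rw [hb]
        field_simp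
      simp_rw [h7]
      rw [← Finset.sum_div, ← hSV, div_self hSV1.ne']
    · rw [Finset.sum_biUnion hdisj, Finset.sum_mul]
      refine Finset.sum_congr rfl fun s hs => ?_
      rw [Finset.sum_congr rfl fun q hq => by rw [hcq s hs q hq], ← Finset.mul_sum, PR_eig hf hp' hH]
      rw [hβ]
      field_simp

/-- product of upper triangular matrices, the upper right entry reduced -/
def tm (q q' : ℕ × ℕ × ℕ) : ℕ × ℕ × ℕ :=
  (q.1 * q'.1, (q.1 * q'.2.1 + q.2.1 * q'.2.2) % (q.2.2 * q'.2.2), q.2.2 * q'.2.2)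

theorem f_tm {f : ℍ → ℝ} (hf : Per f) {q q' : ℕ × ℕ × ℕ} (h1 : 0 < q.1) (h2 : 0 < q.2.2) (h1' : 0 < q'.1)
    (h2' : 0 < q'.2.2) (z : ℍ) : f (hp (tm q q') z) = f (hp q (hp q' z)) := by
  obtain ⟨a, b, d⟩ := q
  obtain ⟨a', b', d'⟩ := q'
  rw [hp_hp h1 h2 h1' h2', tm]
  have hper : Function.Periodic (fun x => f (hp (a * a', x, d * d') z)) (d * d') := fun x =>
    hp_add hf (Nat.mul_pos h1 h1') (Nat.mul_pos h2 h2') z
  exact hper.map_mod_nat _

theorem tm_prim {q q' : ℕ × ℕ × ℕ} (h : IsPrim q) (h' : IsPrim q')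
    (hco : Nat.Coprime (q.1 * q.2.2) (q'.1 * q'.2.2)) : IsPrim (tm q q') := by
  obtain ⟨a, b, d⟩ := q
  obtain ⟨a', b', d'⟩ := q'
  obtain ⟨h1, h2, h3⟩ := h
  obtain ⟨h1', h2', h3'⟩ := h'
  simp only at h1 h2 h3 h1' h2' h3' hco
  have hd : 0 < d := by omega
  have hd' : 0 < d' := by omega
  refine ⟨Nat.mul_pos h1 h1', Nat.mod_lt _ (Nat.mul_pos hd hd'), ?_⟩
  by_contra hne
  obtain ⟨ℓ, hℓ, hdvd⟩ := Nat.exists_prime_and_dvd hne
  simp only [tm] at hdvd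
  have hla : ℓ ∣ a * a' := hdvd.trans (Nat.gcd_dvd_left _ _)
  have hlb : ℓ ∣ (a * b' + b * d') % (d * d') := (hdvd.trans (Nat.gcd_dvd_right _ _)).trans (Nat.gcd_dvd_left _ _)
  have hld : ℓ ∣ d * d' := (hdvd.trans (Nat.gcd_dvd_right _ _)).trans (Nat.gcd_dvd_right _ _)
  have hlb2 : ℓ ∣ a * b' + b * d' := (Nat.dvd_mod_iff hld).1 hlb
  rcases (Nat.Prime.dvd_mul hℓ).1 hla with ha | ha
  · have hnd : ¬ ℓ ∣ a' * d' := fun h => hℓ.one_lt.ne' (Nat.dvd_one.1 (by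
      rw [← hco.gcd_eq_one]
      exact Nat.dvd_gcd (ha.mul_right d) h))
    have hnd1 : ¬ ℓ ∣ d' := fun h => hnd (h.mul_left a')
    have hd1 : ℓ ∣ d := ((Nat.Prime.dvd_mul hℓ).1 hld).resolve_right hnd1
    have hb1 : ℓ ∣ b * d' := (Nat.dvd_add_right (ha.mul_right b')).1 hlb2
    have hb2 : ℓ ∣ b := ((Nat.Prime.dvd_mul hℓ).1 hb1).resolve_right hnd1
    exact hℓ.one_lt.ne' (Nat.dvd_one.1 (by rw [← h3]; exact Nat.dvd_gcd ha (Nat.dvd_gcd hb2 hd1)))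
  · have hnd : ¬ ℓ ∣ a * d := fun h => hℓ.one_lt.ne' (Nat.dvd_one.1 (by
      rw [← hco.gcd_eq_one]
      exact Nat.dvd_gcd h (ha.mul_right d')))
    have hnd1 : ¬ ℓ ∣ d := fun h => hnd (h.mul_left a)
    have hnd2 : ¬ ℓ ∣ a := fun h => hnd (h.mul_right d)
    have hd1 : ℓ ∣ d' := ((Nat.Prime.dvd_mul hℓ).1 hld).resolve_left hnd1
    have hb1 : ℓ ∣ a * b' := (Nat.dvd_add_left (hd1.mul_left b)).1 hlb2
    have hb2 : ℓ ∣ b' := ((Nat.Prime.dvd_mul hℓ).1 hb1).resolve_left hnd2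
    exact hℓ.one_lt.ne' (Nat.dvd_one.1 (by rw [← h3']; exact Nat.dvd_gcd ha (Nat.dvd_gcd hb2 hd1)))

theorem coprime_factor {a a' x x' : ℕ} (hx : 0 < a) (h : a * a' = x * x')
    (h1 : Nat.Coprime a x') (h2 : Nat.Coprime x a') : a = x ∧ a' = x' := by
  have e1 : a ∣ x := h1.dvd_of_dvd_mul_right (h ▸ Dvd.intro _ rfl)
  have e2 : x ∣ a := h2.dvd_of_dvd_mul_right (h.symm ▸ Dvd.intro _ rfl)
  have e := Nat.dvd_antisymm e1 e2
  subst e
  exact ⟨rfl, Nat.eq_of_mul_eq_mul_left hx h⟩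

theorem tm_inj {D D' : ℕ} (hD : Nat.Coprime D D') {q q' r r' : ℕ × ℕ × ℕ}
    (h : IsPrim q) (h' : IsPrim q') (k : IsPrim r) (k' : IsPrim r')
    (hq : q.1 * q.2.2 ∣ D) (hq' : q'.1 * q'.2.2 ∣ D') (hr : r.1 * r.2.2 ∣ D) (hr' : r'.1 * r'.2.2 ∣ D')
    (e : tm q q' = tm r r') : q = r ∧ q' = r' := by
  obtain ⟨a, b, d⟩ := q
  obtain ⟨a', b', d'⟩ := q'
  obtain ⟨x, y, w⟩ := r
  obtain ⟨x', y', w'⟩ := r'
  obtain ⟨h1, h2, -⟩ := h
  obtain ⟨h1', h2', -⟩ := h'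
  obtain ⟨k1, k2, -⟩ := k
  obtain ⟨k1', k2', -⟩ := k'
  simp only at h1 h2 h1' h2' k1 k2 k1' k2' hq hq' hr hr'
  simp only [tm, Prod.mk.injEq] at e
  obtain ⟨e1, e2, e3⟩ := e
  have co : ∀ {u v : ℕ}, u ∣ D → v ∣ D' → Nat.Coprime u v := fun hu hv =>
    Nat.Coprime.coprime_dvd_left hu (Nat.Coprime.coprime_dvd_right hv hD)
  have a1 : a ∣ D := (Dvd.intro _ rfl).trans hq
  have d1 : d ∣ D := (Dvd.intro_left _ rfl).trans hq
  have x1 : x ∣ D := (Dvd.intro _ rfl).trans hr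
  have w1 : w ∣ D := (Dvd.intro_left _ rfl).trans hr
  have a1' : a' ∣ D' := (Dvd.intro _ rfl).trans hq'
  have d1' : d' ∣ D' := (Dvd.intro_left _ rfl).trans hq'
  have x1' : x' ∣ D' := (Dvd.intro _ rfl).trans hr'
  have w1' : w' ∣ D' := (Dvd.intro_left _ rfl).trans hr'
  have hd : 0 < d := by omega
  have hd' : 0 < d' := by omega
  obtain ⟨rfl, rfl⟩ := coprime_factor h1 e1 (co a1 x1') (co x1 a1')
  obtain ⟨rfl, rfl⟩ := coprime_factor hd e3 (co d1 w1') (co w1 d1')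
  have e4 : a * b' + b * d' ≡ a * y' + y * d' [MOD d * d'] := e2
  have hmod : ∀ {u v m : ℕ}, u < m → v < m → u ≡ v [MOD m] → u = v := by
    intro u v m hu hv huv
    rwa [Nat.ModEq, Nat.mod_eq_of_lt hu, Nat.mod_eq_of_lt hv] at huv
  have e5 : a * b' ≡ a * y' [MOD d'] := by
    have h6 : a * b' + b * d' ≡ a * y' + y * d' [MOD d'] := e4.of_dvd (Dvd.intro_left _ rfl)
    have h7 : b * d' ≡ y * d' [MOD d'] := by
      rw [Nat.ModEq, Nat.mul_mod_left, Nat.mul_mod_left]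
    exact Nat.ModEq.add_right_cancel h7 h6
  have e6 : b' = y' := by
    refine hmod h2' k2' (Nat.ModEq.cancel_left_of_coprime ?_ e5)
    exact (co a1 d1').symm
  subst e6
  have e7 : b * d' ≡ y * d' [MOD d * d'] := Nat.ModEq.add_left_cancel' _ e4
  have e8 : b ≡ y [MOD d] := Nat.ModEq.mul_right_cancel' hd'.ne' e7
  rw [hmod h2 k2 e8]
  exact ⟨rfl, rfl⟩

theorem ker_mul {D D' : ℕ} (hD : Nat.Coprime D D') {Q Q' : Finset (ℕ × ℕ × ℕ)} (c c' : ℕ × ℕ × ℕ → ℝ)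
    (hQ : ∀ q ∈ Q, IsPrim q ∧ q.1 * q.2.2 ∣ D) (hQ' : ∀ q ∈ Q', IsPrim q ∧ q.1 * q.2.2 ∣ D') :
    ∃ (Q'' : Finset (ℕ × ℕ × ℕ)) (c'' : ℕ × ℕ × ℕ → ℝ), (∀ q ∈ Q'', IsPrim q ∧ q.1 * q.2.2 ∣ D * D') ∧
      ∑ q ∈ Q'', c'' q ^ 2 = (∑ q ∈ Q, c q ^ 2) * ∑ q ∈ Q', c' q ^ 2 ∧
      ∀ (f : ℍ → ℝ) (σ σ' : ℝ), Per f → (∀ z, ∑ q ∈ Q, c q * f (hp q z) = σ * f z) →
        (∀ z, ∑ q ∈ Q', c' q * f (hp q z) = σ' * f z) →
        ∀ z, ∑ q ∈ Q'', c'' q * f (hp q z) = σ * σ' * f z := by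
  classical
  set g : (ℕ × ℕ × ℕ) × (ℕ × ℕ × ℕ) → ℕ × ℕ × ℕ := fun x => tm x.1 x.2 with hg
  have hinj : ∀ x ∈ Q ×ˢ Q', ∀ y ∈ Q ×ˢ Q', g x = g y → x = y := by
    rintro ⟨q, q'⟩ hx ⟨r, r'⟩ hy e
    rw [Finset.mem_product] at hx hy
    obtain ⟨e1, e2⟩ := tm_inj hD (hQ _ hx.1).1 (hQ' _ hx.2).1 (hQ _ hy.1).1 (hQ' _ hy.2).1
      (hQ _ hx.1).2 (hQ' _ hx.2).2 (hQ _ hy.1).2 (hQ' _ hy.2).2 e
    simp only at e1 e2
    rw [e1, e2]
  set c'' : ℕ × ℕ × ℕ → ℝ := fun q => ∑ x ∈ (Q ×ˢ Q').filter (fun x => g x = q), c x.1 * c' x.2 with hc''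
  have hcg : ∀ x ∈ Q ×ˢ Q', c'' (g x) = c x.1 * c' x.2 := by
    intro x hx
    have : (Q ×ˢ Q').filter (fun y => g y = g x) = {x} := by
      ext y
      rw [Finset.mem_filter, Finset.mem_singleton]
      constructor
      · rintro ⟨hy, e⟩
        exact hinj y hy x hx e
      · rintro rfl
        exact ⟨hx, rfl⟩
    rw [hc'']
    simp only
    rw [this, Finset.sum_singleton]
  refine ⟨(Q ×ˢ Q').image g, c'', ?_, ?_, ?_⟩
  · intro q hq
    obtain ⟨x, hx, rfl⟩ := Finset.mem_image.1 hq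
    rw [Finset.mem_product] at hx
    refine ⟨tm_prim (hQ _ hx.1).1 (hQ' _ hx.2).1 ?_, ?_⟩
    · exact Nat.Coprime.coprime_dvd_left (hQ _ hx.1).2 (Nat.Coprime.coprime_dvd_right (hQ' _ hx.2).2 hD)
    · have := Nat.mul_dvd_mul (hQ _ hx.1).2 (hQ' _ hx.2).2
      have e : (g x).1 * (g x).2.2 = x.1.1 * x.1.2.2 * (x.2.1 * x.2.2.2) := by
        simp only [hg, tm]
        ring
      rw [e]
      exact this
  · rw [Finset.sum_image hinj, Finset.sum_congr rfl fun x hx => by rw [hcg x hx], Finset.sum_product,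
      Finset.sum_mul_sum]
    refine Finset.sum_congr rfl fun q _ => Finset.sum_congr rfl fun q' _ => by ring
  · intro f σ σ' hf h1 h2 z
    rw [Finset.sum_image hinj, Finset.sum_congr rfl fun x hx => by rw [hcg x hx], Finset.sum_product_right]
    have e1 : ∀ q' ∈ Q', ∑ q ∈ Q, c q * c' q' * f (hp (g (q, q')) z) = c' q' * (σ * f (hp q' z)) := by
      intro q' hq'
      have hq1 := (hQ' q' hq').1
      rw [← h1 (hp q' z), Finset.mul_sum]
      refine Finset.sum_congr rfl fun q hq => ?_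
      have hq2 := (hQ q hq).1
      have e2 : f (hp (g (q, q')) z) = f (hp q (hp q' z)) :=
        f_tm hf hq2.1 (by have := hq2.2.1; omega) hq1.1 (by have := hq1.2.1; omega) z
      rw [e2]
      ring
    rw [Finset.sum_congr rfl e1]
    have e3 : ∀ q' ∈ Q', c' q' * (σ * f (hp q' z)) = σ * (c' q' * f (hp q' z)) := fun q' _ => by ring
    rw [Finset.sum_congr rfl e3, ← Finset.mul_sum, h2 z]
    ring

end Pool.Agent.T2H31
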