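import Pool.Agent.T2H31.Final0

/-! Periodicity lemmas for the level `N` statement. -/

set_option autoImplicit false

namespace Pool.Agent.T2H31

open Complex MeasureTheory Set Function UpperHalfPlane ModularGroup
open scoped MatrixGroups Modular

theorem perS {N : ℕ} {f : ℍ → ℝ}
    (hinv : ∀ (γ : CongruenceSubgroup.Gamma0 N) (z : ℍ), f ((γ : SL(2, ℤ)) • z) = f z) {z : ℂ} (hz : z ∈ HH) :
    fc (fun u => f (ModularGroup.S • u)) (z + (N : ℝ)) = fc (fun u => f (ModularGroup.S • u)) z := by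
  have h := fc_Tpow (fun u => f (ModularGroup.S • u)) (N : ℤ) hz
  have hmem : ModularGroup.S * ModularGroup.T ^ (N : ℤ) * ModularGroup.S⁻¹ ∈ CongruenceSubgroup.Gamma0 N := by
    apply mem_of_dvd
    rw [conj_entry, ModularGroup.coe_S, ModularGroup.coe_T_zpow]
    simp
  have e : fc (fun u => f (ModularGroup.S • ModularGroup.T ^ (N : ℤ) • u)) z =
      fc (fun u => f (ModularGroup.S • u)) z := by
    simp only [fc]
    have h3 := hinv ⟨_, hmem⟩ (ModularGroup.S • (ofComplex z : ℍ))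
    rw [← h3]
    congr 1
    simp only [← mul_smul]
    congr 1
    group
  rw [e] at h
  rw [h]
  congr 1

theorem perT {N : ℕ} {f : ℍ → ℝ}
    (hinv : ∀ (γ : CongruenceSubgroup.Gamma0 N) (z : ℍ), f ((γ : SL(2, ℤ)) • z) = f z) {z : ℂ} (hz : z ∈ HH) :
    fc f (z + 1) = fc f z := by
  have hT : ModularGroup.T ∈ CongruenceSubgroup.Gamma0 N := mem_of_dvd (by simp [ModularGroup.coe_T])
  have h := fc_Tpow f 1 hz
  have e : fc (fun u => f (ModularGroup.T ^ (1 : ℤ) • u)) z = fc f z := by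
    simp only [fc, zpow_one]
    exact hinv ⟨_, hT⟩ _
  rw [e] at h
  rw [h]
  simp

theorem shift_infty {N : ℕ} {f : ℍ → ℝ}
    (hinv : ∀ (γ : CongruenceSubgroup.Gamma0 N) (z : ℍ), f ((γ : SL(2, ℤ)) • z) = f z) {y : ℝ} (hy : 0 < y) :
    ∫ x in (-(1 / 2) : ℝ)..(1 / 2), fc f (pt y x) = ∫ x in (0 : ℝ)..1, fc f (pt y x) := by
  have hper : Function.Periodic (fun x : ℝ => fc f (pt y x)) 1 := by
    intro x
    have h := perT hinv (pt_mem hy x)
    show fc f (pt y (x + 1)) = fc f (pt y x)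
    rw [← h]
    congr 1
    unfold pt
    push_cast
    ring
  have h1 := hper.intervalIntegral_add_eq (-(1 / 2)) 0
  have e1 : (-(1 / 2) : ℝ) + 1 = 1 / 2 := by norm_num
  rw [e1, zero_add] at h1
  exact h1

theorem shift_zero {N : ℕ} {f : ℍ → ℝ}
    (hinv : ∀ (γ : CongruenceSubgroup.Gamma0 N) (z : ℍ), f ((γ : SL(2, ℤ)) • z) = f z) {y : ℝ} (hy : 0 < y) :
    ∫ x in (-(1 / 2) : ℝ)..(-(1 / 2) + N), fc (fun u => f (ModularGroup.S • u)) (pt y x) =
      ∫ x in (0 : ℝ)..N, fc (fun u => f (ModularGroup.S • u)) (pt y x) := by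
  have hper : Function.Periodic (fun x : ℝ => fc (fun u => f (ModularGroup.S • u)) (pt y x)) N := by
    intro x
    have h := perS hinv (pt_mem hy x)
    show fc (fun u => f (ModularGroup.S • u)) (pt y (x + N)) = fc (fun u => f (ModularGroup.S • u)) (pt y x)
    rw [← h]
    congr 1
    unfold pt
    push_cast
    ring
  have h1 := hper.intervalIntegral_add_eq (-(1 / 2)) 0
  rw [zero_add] at h1
  exact h1

end Pool.Agent.T2H31
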