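import Pool.Agent.T2H31.HMeas

/-! The local estimate on the upper half plane. -/

set_option autoImplicit false

namespace Pool.Agent.T2H31

open Complex MeasureTheory Set Function UpperHalfPlane
open scoped ENNReal NNReal

/-- the function on `ℂ` -/
noncomputable def fc (f : ℍ → ℝ) (z : ℂ) : ℝ := f (ofComplex z)

/-- `f` is twice continuously differentiable -/
def Smooth2 (f : ℍ → ℝ) : Prop := ContDiffOn ℝ 2 (fc f) HH

/-- `y² Δ f` -/
noncomputable def hyp (f : ℍ → ℝ) (u : ℍ) : ℝ := u.im ^ 2 * lapl (fc f) u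

/-- the Euclidean ball about `w` of radius `ρ Im w` -/
def EB (w : ℍ) (ρ : ℝ) : Set ℍ := {u | dist (u : ℂ) (w : ℂ) ≤ ρ * w.im}

theorem isClosed_EB (w : ℍ) (ρ : ℝ) : IsClosed (EB w ρ) :=
  isClosed_le (by fun_prop) continuous_const

theorem abs_im_sub {w : ℍ} {ρ : ℝ} {z : ℂ} (hz : z ∈ Metric.closedBall (w : ℂ) (ρ * w.im)) :
    |z.im - w.im| ≤ ρ * w.im := by
  rw [Metric.mem_closedBall, Complex.dist_eq] at hz
  have := Complex.abs_im_le_norm (z - w)
  simp only [Complex.sub_im, UpperHalfPlane.coe_im] at this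
  linarith

theorem im_bounds {w : ℍ} {ρ : ℝ} (hρ : ρ ≤ 1 / 2) {z : ℂ}
    (hz : z ∈ Metric.closedBall (w : ℂ) (ρ * w.im)) : w.im / 2 ≤ z.im ∧ z.im ≤ 3 / 2 * w.im := by
  have h := abs_le.1 (abs_im_sub hz)
  have := w.im_pos
  constructor <;> nlinarith [h.1, h.2]

theorem closedBall_sub {w : ℍ} {ρ : ℝ} (hρ : ρ ≤ 1 / 2) :
    Metric.closedBall (w : ℂ) (ρ * w.im) ⊆ HH := fun z hz => by
  have := (im_bounds hρ hz).1
  have h2 := w.im_pos
  show 0 < z.im
  linarith

theorem image_EB {w : ℍ} {ρ : ℝ} (hρ : ρ ≤ 1 / 2) :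
    ((↑) : ℍ → ℂ) '' EB w ρ = Metric.closedBall (w : ℂ) (ρ * w.im) := by
  ext z
  constructor
  · rintro ⟨u, hu, rfl⟩
    exact hu
  · intro hz
    have hz' : 0 < z.im := closedBall_sub hρ hz
    exact ⟨⟨z, hz'⟩, hz, rfl⟩

section
variable {f : ℍ → ℝ} (hf : Smooth2 f)
include hf

theorem contOn_fc : ContinuousOn (fc f) HH := hf.continuousOn

theorem contOn_lapl : ContinuousOn (lapl (fc f)) HH := by
  have h1 : ContDiffOn ℝ 1 (fderiv ℝ (fc f)) HH := hf.fderiv_of_isOpen isOpen_HH (by norm_num)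
  have h2 : ContinuousOn (fderiv ℝ (fderiv ℝ (fc f))) HH := h1.continuousOn_fderiv_of_isOpen isOpen_HH (by norm_num)
  unfold lapl
  fun_prop

theorem cont_f : Continuous f := by
  have h := contOn_fc hf
  have h2 : Continuous fun u : ℍ => fc f (u : ℂ) :=
    h.comp_continuous (by fun_prop) fun u => u.im_pos
  simpa [fc] using h2

theorem cont_hyp : Continuous (hyp f) := by
  have h := contOn_lapl hf
  have h2 : Continuous fun u : ℍ => lapl (fc f) (u : ℂ) :=
    h.comp_continuous (by fun_prop) fun u => u.im_pos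
  unfold hyp
  fun_prop

theorem local_est (w : ℍ) {ρ : ℝ} (h0 : 0 < ρ) (hρ : ρ ≤ 1 / 2) :
    ENNReal.ofReal (f w ^ 2) ≤ ENNReal.ofReal (4 / ρ ^ 2) * (∫⁻ u in EB w ρ, ENNReal.ofReal (f u ^ 2)) +
      ENNReal.ofReal (4 * ρ ^ 2) * ∫⁻ u in EB w ρ, ENNReal.ofReal (hyp f u ^ 2) := by
  have hw := w.im_pos
  set r := ρ * w.im with hr
  have hr0 : 0 < r := by positivity
  have hsub : Metric.closedBall (w : ℂ) (3 / 4 * w.im) ⊆ HH := by
    intro z hz
    rw [Metric.mem_closedBall, Complex.dist_eq] at hz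
    have := Complex.abs_im_le_norm (z - w)
    simp only [Complex.sub_im, UpperHalfPlane.coe_im] at this
    have h3 := (abs_le.1 (this.trans hz)).1
    show 0 < z.im
    linarith
  have hsub2 : Metric.closedBall (w : ℂ) r ⊆ HH := closedBall_sub hρ
  have key := disc_est isOpen_HH hf hr0 (r' := 3 / 4 * w.im) (by rw [hr]; nlinarith) hsub
  have hcf := contOn_fc hf
  have hcl := contOn_lapl hf
  have hw2 : fc f w = f w := by simp [fc]
  rw [hw2] at key
  have i1 : ENNReal.ofReal (∫ z in Metric.closedBall (w : ℂ) r, fc f z ^ 2) =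
      ∫⁻ z in Metric.closedBall (w : ℂ) r, ENNReal.ofReal (fc f z ^ 2) := by
    refine ofReal_integral_eq_lintegral_ofReal ?_ (Filter.Eventually.of_forall fun z => sq_nonneg _)
    exact ((hcf.mono hsub2).pow 2).integrableOn_compact (isCompact_closedBall _ _)
  have i2 : ENNReal.ofReal (∫ z in Metric.closedBall (w : ℂ) r, lapl (fc f) z ^ 2) =
      ∫⁻ z in Metric.closedBall (w : ℂ) r, ENNReal.ofReal (lapl (fc f) z ^ 2) := by
    refine ofReal_integral_eq_lintegral_ofReal ?_ (Filter.Eventually.of_forall fun z => sq_nonneg _)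
    exact ((hcl.mono hsub2).pow 2).integrableOn_compact (isCompact_closedBall _ _)
  have m1 : Measurable fun u : ℍ => ENNReal.ofReal (f u ^ 2) := by
    have := (cont_f hf).measurable
    fun_prop
  have m2 : Measurable fun u : ℍ => ENNReal.ofReal (hyp f u ^ 2) := by
    have := (cont_hyp hf).measurable
    fun_prop
  rw [lintegral_H m1 (isClosed_EB w ρ).measurableSet, lintegral_H m2 (isClosed_EB w ρ).measurableSet,
    image_EB hρ, ← hr]
  have hcb : MeasurableSet (Metric.closedBall (w : ℂ) r) := Metric.isClosed_closedBall.measurableSet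
  have j1 : ∫⁻ z in Metric.closedBall (w : ℂ) r, ENNReal.ofReal (fc f z ^ 2) ≤
      ENNReal.ofReal (9 / 4 * w.im ^ 2) * ∫⁻ z in Metric.closedBall (w : ℂ) r,
        ENNReal.ofReal (f (ofComplex z) ^ 2) * ENNReal.ofReal (1 / z.im ^ 2) := by
    rw [← lintegral_const_mul' _ _ ENNReal.ofReal_ne_top]
    refine setLIntegral_mono' hcb fun z hz => ?_
    obtain ⟨hz1, hz2⟩ := im_bounds hρ hz
    have hz0 : 0 < z.im := hsub2 hz
    rw [← ENNReal.ofReal_mul (sq_nonneg _), ← ENNReal.ofReal_mul (by positivity)]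
    apply ENNReal.ofReal_le_ofReal
    show fc f z ^ 2 ≤ 9 / 4 * w.im ^ 2 * (fc f z ^ 2 * (1 / z.im ^ 2))
    have : 1 ≤ 9 / 4 * w.im ^ 2 * (1 / z.im ^ 2) := by
      rw [mul_one_div, one_le_div (by positivity)]
      nlinarith
    nlinarith [sq_nonneg (fc f z)]
  have j2 : ∫⁻ z in Metric.closedBall (w : ℂ) r, ENNReal.ofReal (lapl (fc f) z ^ 2) ≤
      ENNReal.ofReal (4 / w.im ^ 2) * ∫⁻ z in Metric.closedBall (w : ℂ) r,
        ENNReal.ofReal (hyp f (ofComplex z) ^ 2) * ENNReal.ofReal (1 / z.im ^ 2) := by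
    rw [← lintegral_const_mul' _ _ ENNReal.ofReal_ne_top]
    refine setLIntegral_mono' hcb fun z hz => ?_
    obtain ⟨hz1, hz2⟩ := im_bounds hρ hz
    have hz0 : 0 < z.im := hsub2 hz
    rw [← ENNReal.ofReal_mul (sq_nonneg _), ← ENNReal.ofReal_mul (by positivity)]
    apply ENNReal.ofReal_le_ofReal
    have e : hyp f (ofComplex z) = z.im ^ 2 * lapl (fc f) z := by
      rw [hyp, ofComplex_apply_of_im_pos hz0]
      rfl
    rw [e]
    have e2 : 4 / w.im ^ 2 * ((z.im ^ 2 * lapl (fc f) z) ^ 2 * (1 / z.im ^ 2)) =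
        (4 * z.im ^ 2 / w.im ^ 2) * lapl (fc f) z ^ 2 := by field_simp
    rw [e2]
    have : 1 ≤ 4 * z.im ^ 2 / w.im ^ 2 := by
      rw [one_le_div (by positivity)]
      nlinarith
    nlinarith [sq_nonneg (lapl (fc f) z)]
  calc ENNReal.ofReal (f w ^ 2) ≤ ENNReal.ofReal (1 / r ^ 2 * (∫ z in Metric.closedBall (w : ℂ) r, fc f z ^ 2) +
        r ^ 2 * ∫ z in Metric.closedBall (w : ℂ) r, lapl (fc f) z ^ 2) := ENNReal.ofReal_le_ofReal key
    _ ≤ ENNReal.ofReal (1 / r ^ 2) * (∫⁻ z in Metric.closedBall (w : ℂ) r, ENNReal.ofReal (fc f z ^ 2)) +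
        ENNReal.ofReal (r ^ 2) * ∫⁻ z in Metric.closedBall (w : ℂ) r, ENNReal.ofReal (lapl (fc f) z ^ 2) := by
      rw [← i1, ← i2, ← ENNReal.ofReal_mul (by positivity), ← ENNReal.ofReal_mul (by positivity)]
      exact ENNReal.ofReal_add_le
    _ ≤ _ := by
      refine add_le_add ?_ ?_
      · refine (mul_le_mul_right j1 _).trans ?_
        rw [← mul_assoc, ← ENNReal.ofReal_mul (by positivity)]
        refine mul_le_mul_left (ENNReal.ofReal_le_ofReal ?_) _
        rw [hr]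
        have e : 1 / (ρ * w.im) ^ 2 * (9 / 4 * w.im ^ 2) = (9 / 4) / ρ ^ 2 := by field_simp
        rw [e]
        gcongr
        norm_num
      · refine (mul_le_mul_right j2 _).trans ?_
        rw [← mul_assoc, ← ENNReal.ofReal_mul (by positivity)]
        refine mul_le_mul_left (ENNReal.ofReal_le_ofReal ?_) _
        rw [hr]
        have e : (ρ * w.im) ^ 2 * (4 / w.im ^ 2) = 4 * ρ ^ 2 := by field_simp
        rw [e]

end

end Pool.Agent.T2H31
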