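import Pool.Agent.T2H31.Cusp3

/-! The main estimate. -/

set_option autoImplicit false

namespace Pool.Agent.T2H31

open Complex MeasureTheory Set Function UpperHalfPlane ModularGroup
open scoped ENNReal NNReal MatrixGroups Modular

theorem lapl_lin {ι : Type*} [Fintype ι] (a : ι → ℝ) {g : ι → ℂ → ℝ} (hg : ∀ j, ContDiffOn ℝ 2 (g j) HH)
    {z : ℂ} (hz : z ∈ HH) :
    lapl (fun w => ∑ j, a j * g j w) z = ∑ j, a j * lapl (g j) z := by
  have h1 : ∀ w ∈ HH, fderiv ℝ (fun w => ∑ j, a j * g j w) w = ∑ j, a j • fderiv ℝ (g j) w := by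
    intro w hw
    exact (HasFDerivAt.fun_sum fun j _ => (odF (hg j) hw).const_mul (a j)).fderiv
  have h2 : fderiv ℝ (fderiv ℝ (fun w => ∑ j, a j * g j w)) z = ∑ j, a j • fderiv ℝ (fderiv ℝ (g j)) z := by
    have : (fderiv ℝ (fun w => ∑ j, a j * g j w)) =ᶠ[nhds z] fun w => ∑ j, a j • fderiv ℝ (g j) w := by
      filter_upwards [isOpen_HH.mem_nhds hz] with w hw using h1 w hw
    rw [this.fderiv_eq]
    exact (HasFDerivAt.fun_sum fun j _ => (odF1 (hg j) hz).const_smul (a j)).fderiv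
  rw [lapl, h2]
  simp only [lapl, ContinuousLinearMap.sum_apply, ContinuousLinearMap.smul_apply, smul_eq_mul, mul_add,
    Finset.sum_add_distrib]

/-- a finite orthonormal system of invariant eigenfunctions of the Laplacian -/
structure Sys {ι : Type*} (f : ι → ℍ → ℝ) (lam : ι → ℝ) (L : ℝ) : Prop where
  smooth : ∀ j, Smooth2 (f j)
  inv : ∀ (j : ι) (γ : SL(2, ℤ)) (z : ℍ), f j (γ • z) = f j z
  lap : ∀ (j : ι) (u : ℍ), hyp (f j) u = -lam j * f j u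
  bound : ∀ j, |lam j| ≤ L
  sq_int : ∀ j, IntegrableOn (fun u => f j u ^ 2) 𝒟
  norm : ∀ j, ∫ u in 𝒟, f j u ^ 2 = 1
  orth : ∀ i j, i ≠ j → ∫ u in 𝒟, f i u * f j u = 0

section
variable {ι : Type*} [Fintype ι] {f : ι → ℍ → ℝ} {lam : ι → ℝ} {L : ℝ} (S : Sys f lam L)
include S

theorem Sys.comb_smooth (a : ι → ℝ) : Smooth2 fun u => ∑ j, a j * f j u := by
  have : fc (fun u => ∑ j, a j * f j u) = fun z => ∑ j, a j * fc (f j) z := rfl
  rw [Smooth2, this]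
  exact ContDiffOn.sum fun j _ => contDiffOn_const.mul (S.smooth j)

theorem Sys.comb_hyp (a : ι → ℝ) (u : ℍ) :
    hyp (fun u => ∑ j, a j * f j u) u = ∑ j, (-(a j * lam j)) * f j u := by
  have : fc (fun u => ∑ j, a j * f j u) = fun z => ∑ j, a j * fc (f j) z := rfl
  rw [hyp, this, lapl_lin a (fun j => S.smooth j) u.im_pos, Finset.mul_sum]
  refine Finset.sum_congr rfl fun j _ => ?_
  have h := S.lap j u
  rw [hyp] at h
  linear_combination a j * h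

theorem Sys.integrable_mul (i j : ι) : Integrable (fun u => f i u * f j u) (volume.restrict (𝒟 : Set ℍ)) := by
  have h : ∀ j, MemLp (f j) 2 (volume.restrict (𝒟 : Set ℍ)) := fun j =>
    (memLp_two_iff_integrable_sq (cont_f (S.smooth j)).aestronglyMeasurable).2 (S.sq_int j)
  exact (h i).integrable_mul (h j)

theorem Sys.energy (b : ι → ℝ) :
    ∫⁻ u in 𝒟, ENNReal.ofReal ((∑ j, b j * f j u) ^ 2) = ENNReal.ofReal (∑ j, b j ^ 2) := by
  classical
  have e : ∀ u, (∑ j, b j * f j u) ^ 2 = ∑ i, ∑ j, b i * b j * (f i u * f j u) := by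
    intro u
    rw [sq, Finset.sum_mul_sum]
    refine Finset.sum_congr rfl fun i _ => Finset.sum_congr rfl fun j _ => by ring
  have hi : ∀ i j, Integrable (fun u => b i * b j * (f i u * f j u)) (volume.restrict (𝒟 : Set ℍ)) :=
    fun i j => (S.integrable_mul i j).const_mul _
  have hint : Integrable (fun u => (∑ j, b j * f j u) ^ 2) (volume.restrict (𝒟 : Set ℍ)) := by
    simp_rw [e]
    exact integrable_finsetSum _ fun i _ => integrable_finsetSum _ fun j _ => hi i j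
  rw [← ofReal_integral_eq_lintegral_ofReal hint (Filter.Eventually.of_forall fun u => sq_nonneg _)]
  congr 1
  simp_rw [e]
  rw [integral_finsetSum _ fun i _ => integrable_finsetSum _ fun j _ => hi i j]
  refine Finset.sum_congr rfl fun i _ => ?_
  rw [integral_finsetSum _ fun j _ => hi i j, Finset.sum_eq_single i]
  · rw [integral_const_mul]
    have h := S.norm i
    simp only [sq] at h
    rw [h]
    ring
  · intro j _ hj
    rw [integral_const_mul, S.orth i j (Ne.symm hj), mul_zero]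
  · intro h
    exact absurd (Finset.mem_univ i) h

theorem Sys.point_sum {κ : Type*} (I : Finset κ) (w : κ → ℍ) {ρ : ℝ} (h0 : 0 < ρ) (hρ : ρ ≤ 1 / 2)
    {M : ℝ≥0∞} (hM : ∀ v ∈ (𝒟 : Set ℍ), ∑ i ∈ I, ∑' γ : SL(2, ℤ),
      (EB (w i) ρ).indicator (fun _ => (1 : ℝ≥0∞)) (γ • v) ≤ M) (a : ι → ℝ) :
    ∑ i ∈ I, ENNReal.ofReal ((∑ j, a j * f j (w i)) ^ 2) ≤
      M * ENNReal.ofReal ((4 / ρ ^ 2 + 4 * ρ ^ 2 * L ^ 2) * ∑ j, a j ^ 2) := by
  set F : ℍ → ℝ := fun u => ∑ j, a j * f j u with hF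
  have hsm := S.comb_smooth a
  have hinvF : ∀ (γ : SL(2, ℤ)) (z : ℍ), F (γ • z) = F z := by
    intro γ z
    simp only [hF, S.inv]
  have hinvH : ∀ (γ : SL(2, ℤ)) (z : ℍ), hyp F (γ • z) = hyp F z := by
    intro γ z
    rw [hF, S.comb_hyp a, S.comb_hyp a]
    simp only [S.inv]
  have m1 : Measurable fun u : ℍ => ENNReal.ofReal (F u ^ 2) := by
    have := (cont_f hsm).measurable
    fun_prop
  have m2 : Measurable fun u : ℍ => ENNReal.ofReal (hyp F u ^ 2) := by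
    have := (cont_hyp hsm).measurable
    fun_prop
  have hB : ∀ i, MeasurableSet (EB (w i) ρ) := fun i => (isClosed_EB _ _).measurableSet
  have u1 := unfold_sum I hB m1 (fun γ z => by rw [hinvF]) hM
  have u2 := unfold_sum I hB m2 (fun γ z => by rw [hinvH]) hM
  have e1 : ∫⁻ u in 𝒟, ENNReal.ofReal (F u ^ 2) = ENNReal.ofReal (∑ j, a j ^ 2) := S.energy a
  have e2 : ∫⁻ u in 𝒟, ENNReal.ofReal (hyp F u ^ 2) ≤ ENNReal.ofReal (L ^ 2 * ∑ j, a j ^ 2) := by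
    have : ∀ u, hyp F u = ∑ j, (-(a j * lam j)) * f j u := fun u => S.comb_hyp a u
    simp_rw [this]
    rw [S.energy]
    apply ENNReal.ofReal_le_ofReal
    rw [Finset.mul_sum]
    refine Finset.sum_le_sum fun j _ => ?_
    have h1 : lam j ^ 2 ≤ L ^ 2 := by
      rw [← sq_abs (lam j)]
      exact pow_le_pow_left₀ (abs_nonneg _) (S.bound j) 2
    nlinarith [sq_nonneg (a j)]
  have hsum0 : 0 ≤ ∑ j, a j ^ 2 := Finset.sum_nonneg fun j _ => sq_nonneg _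
  calc ∑ i ∈ I, ENNReal.ofReal (F (w i) ^ 2) ≤
      ∑ i ∈ I, (ENNReal.ofReal (4 / ρ ^ 2) * (∫⁻ u in EB (w i) ρ, ENNReal.ofReal (F u ^ 2)) +
        ENNReal.ofReal (4 * ρ ^ 2) * ∫⁻ u in EB (w i) ρ, ENNReal.ofReal (hyp F u ^ 2)) :=
        Finset.sum_le_sum fun i _ => local_est hsm (w i) h0 hρ
    _ = ENNReal.ofReal (4 / ρ ^ 2) * (∑ i ∈ I, ∫⁻ u in EB (w i) ρ, ENNReal.ofReal (F u ^ 2)) +
        ENNReal.ofReal (4 * ρ ^ 2) * ∑ i ∈ I, ∫⁻ u in EB (w i) ρ, ENNReal.ofReal (hyp F u ^ 2) := by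
        rw [Finset.sum_add_distrib, Finset.mul_sum, Finset.mul_sum]
    _ ≤ ENNReal.ofReal (4 / ρ ^ 2) * (M * ENNReal.ofReal (∑ j, a j ^ 2)) +
        ENNReal.ofReal (4 * ρ ^ 2) * (M * ENNReal.ofReal (L ^ 2 * ∑ j, a j ^ 2)) := by
        refine add_le_add (mul_le_mul_right (u1.trans (mul_le_mul_right e1.le _)) _)
          (mul_le_mul_right (u2.trans (mul_le_mul_right e2 _)) _)
    _ = M * ENNReal.ofReal ((4 / ρ ^ 2 + 4 * ρ ^ 2 * L ^ 2) * ∑ j, a j ^ 2) := by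
        have e3 : (4 / ρ ^ 2 + 4 * ρ ^ 2 * L ^ 2) * ∑ j, a j ^ 2 =
            4 / ρ ^ 2 * ∑ j, a j ^ 2 + 4 * ρ ^ 2 * (L ^ 2 * ∑ j, a j ^ 2) := by ring
        rw [e3, ENNReal.ofReal_add (by positivity) (by positivity),
          ENNReal.ofReal_mul (p := 4 / ρ ^ 2) (by positivity),
          ENNReal.ofReal_mul (p := 4 * ρ ^ 2) (q := L ^ 2 * ∑ j, a j ^ 2) (by positivity)]
        ring

/-- the same with real numbers -/
theorem Sys.point_sum' {κ : Type*} (I : Finset κ) (w : κ → ℍ) {ρ : ℝ} (h0 : 0 < ρ) (hρ : ρ ≤ 1 / 2)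
    {M : ℝ} (hM0 : 0 ≤ M) (hM : ∀ v ∈ (𝒟 : Set ℍ), ∑ i ∈ I, ∑' γ : SL(2, ℤ),
      (EB (w i) ρ).indicator (fun _ => (1 : ℝ≥0∞)) (γ • v) ≤ ENNReal.ofReal M) (a : ι → ℝ) :
    ∑ i ∈ I, (∑ j, a j * f j (w i)) ^ 2 ≤ M * ((4 / ρ ^ 2 + 4 * ρ ^ 2 * L ^ 2) * ∑ j, a j ^ 2) := by
  have h := S.point_sum I w h0 hρ hM a
  have hsum0 : 0 ≤ ∑ j, a j ^ 2 := Finset.sum_nonneg fun j _ => sq_nonneg _
  rw [← ENNReal.ofReal_sum_of_nonneg fun i _ => sq_nonneg _, ← ENNReal.ofReal_mul hM0,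
    ENNReal.ofReal_le_ofReal_iff (by positivity)] at h
  exact h

end

end Pool.Agent.T2H31
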