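import Pool.Agent.T2H31.Geom

/-! Multiplicities. -/

set_option autoImplicit false

namespace Pool.Agent.T2H31

open Complex MeasureTheory Set Function UpperHalfPlane ModularGroup
open scoped ENNReal NNReal MatrixGroups Modular

/-- primitive upper triangular matrices `(a, b; 0, d)` with `0 ≤ b < d` -/
def IsPrim (q : ℕ × ℕ × ℕ) : Prop := 0 < q.1 ∧ q.2.1 < q.2.2 ∧ Nat.gcd q.1 (Nat.gcd q.2.1 q.2.2) = 1

theorem prim_unique {q q' : ℕ × ℕ × ℕ} (h : IsPrim q) (h' : IsPrim q') (g : SL(2, ℤ))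
    (h1 : (q.1 : ℤ) * (g 1 0 * q'.1) = 0)
    (h2 : (q.2.2 : ℤ) * (g 0 0 * q'.2.1 + g 0 1 * q'.2.2) - q.2.1 * (g 1 0 * q'.2.1 + g 1 1 * q'.2.2) = 0)
    (h3 : (q.2.2 : ℤ) * (g 0 0 * q'.1) - q.2.1 * (g 1 0 * q'.1) = q.1 * (g 1 0 * q'.2.1 + g 1 1 * q'.2.2)) :
    q = q' ∧ (g = 1 ∨ g = -1) := by
  obtain ⟨a, b, d⟩ := q
  obtain ⟨a', b', d'⟩ := q'
  obtain ⟨ha, hb, hg⟩ := h
  obtain ⟨ha', hb', hg'⟩ := h'
  simp only at *
  have hd : 0 < d := by omega
  have hd' : 0 < d' := by omega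
  have hdet := g.det_coe
  rw [Matrix.det_fin_two] at hdet
  have haz : (a : ℤ) ≠ 0 := by exact_mod_cast ha.ne'
  have haz' : (a' : ℤ) ≠ 0 := by exact_mod_cast ha'.ne'
  have hdz : (0 : ℤ) < d := by exact_mod_cast hd
  have hdz' : (0 : ℤ) < d' := by exact_mod_cast hd'
  have hc : (g 1 0 : ℤ) = 0 := by
    rcases mul_eq_zero.1 h1 with h | h
    · exact absurd h haz
    · rcases mul_eq_zero.1 h with h | h
      · exact h
      · exact absurd h haz'
  rw [hc] at h2 h3 hdet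
  simp only [zero_mul, zero_add, mul_zero, sub_zero] at h2 h3 hdet
  have hs : (g 0 0 : ℤ) = 1 ∧ (g 1 1 : ℤ) = 1 ∨ (g 0 0 : ℤ) = -1 ∧ (g 1 1 : ℤ) = -1 :=
    Int.mul_eq_one_iff_eq_one_or_neg_one.1 hdet
  -- reduce to the sign `+`
  obtain ⟨t, ht1, ht2, ht3⟩ : ∃ t : ℤ, (d : ℤ) * a' = a * d' ∧ (d : ℤ) * (b' + t * d') = b * d' ∧
      (t = 0 → (g 0 1 : ℤ) = 0) := by
    rcases hs with ⟨e1, e2⟩ | ⟨e1, e2⟩
    · rw [e1, e2] at h2 h3
      exact ⟨g 0 1, by linarith, by linarith, fun h => h⟩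
    · rw [e1, e2] at h2 h3
      exact ⟨-g 0 1, by linarith, by linarith, fun h => by linarith⟩
  have hdd' : d' = d := by
    apply Nat.dvd_antisymm
    · -- `d' ∣ d`
      have k1 : d' ∣ d * a' := by
        have : (d' : ℤ) ∣ d * a' := ⟨a, by linarith⟩
        exact_mod_cast this
      have k2 : d' ∣ d * b' := by
        have : (d' : ℤ) ∣ d * b' := ⟨b - d * t, by linarith⟩
        exact_mod_cast this
      have k3 : d' ∣ d * d' := Dvd.intro_left _ rfl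
      have := Nat.dvd_gcd k1 (Nat.dvd_gcd k2 k3)
      rwa [Nat.gcd_mul_left, Nat.gcd_mul_left, hg', mul_one] at this
    · have k1 : d ∣ d' * a := by
        have : (d : ℤ) ∣ d' * a := ⟨a', by linarith⟩
        exact_mod_cast this
      have k2 : d ∣ d' * b := by
        have : (d : ℤ) ∣ d' * b := ⟨b' + t * d', by linarith⟩
        exact_mod_cast this
      have k3 : d ∣ d' * d := Dvd.intro_left _ rfl
      have := Nat.dvd_gcd k1 (Nat.dvd_gcd k2 k3)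
      rwa [Nat.gcd_mul_left, Nat.gcd_mul_left, hg, mul_one] at this
  subst hdd'
  have haa : (a' : ℤ) = a := by
    have : (d' : ℤ) * a' = d' * a := by linarith
    exact mul_left_cancel₀ hdz.ne' this
  have hbb : (b' : ℤ) + t * d' = b := by
    have : (d' : ℤ) * (b' + t * d') = d' * b := by linarith
    exact mul_left_cancel₀ hdz.ne' this
  have ht0 : t = 0 := by
    have k1 : (b : ℤ) < d' := by exact_mod_cast hb
    have k2 : (b' : ℤ) < d' := by exact_mod_cast hb'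
    have k3 : (0 : ℤ) ≤ b := by positivity
    have k4 : (0 : ℤ) ≤ b' := by positivity
    by_contra hne
    rcases lt_or_gt_of_ne hne with h | h
    · nlinarith
    · nlinarith
  have hbb2 : b' = b := by
    rw [ht0, zero_mul, add_zero] at hbb
    exact_mod_cast hbb
  have haa2 : a' = a := by exact_mod_cast haa
  subst hbb2 haa2
  refine ⟨rfl, ?_⟩
  have h01 := ht3 ht0
  rcases hs with ⟨e1, e2⟩ | ⟨e1, e2⟩
  · left
    ext i j
    fin_cases i <;> fin_cases j <;> simp [e1, e2, hc, h01]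
  · right
    ext i j
    fin_cases i <;> fin_cases j <;> simp [e1, e2, hc, h01]

/-- the set of the Hecke points of determinant at most `X` -/
def IX (X : ℕ) : Finset (ℕ × ℕ × ℕ) :=
  (Finset.range (X + 1) ×ˢ (Finset.range (X + 1) ×ˢ Finset.range (X + 1))).filter fun q =>
    0 < q.1 ∧ q.2.1 < q.2.2 ∧ q.1 * q.2.2 ≤ X ∧ Nat.gcd q.1 (Nat.gcd q.2.1 q.2.2) = 1

theorem mem_IX {X : ℕ} {q : ℕ × ℕ × ℕ} : q ∈ IX X ↔ IsPrim q ∧ q.1 * q.2.2 ≤ X := by
  rw [IX, Finset.mem_filter, Finset.mem_product, Finset.mem_product, Finset.mem_range, Finset.mem_range,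
    Finset.mem_range, IsPrim]
  constructor
  · rintro ⟨_, h1, h2, h3, h4⟩
    exact ⟨⟨h1, h2, h4⟩, h3⟩
  · rintro ⟨⟨h1, h2, h4⟩, h3⟩
    have h5 : 1 ≤ q.2.2 := by omega
    have h6 : q.1 ≤ X := le_trans (Nat.le_mul_of_pos_right _ h5) h3
    have h7 : q.2.2 ≤ X := le_trans (Nat.le_mul_of_pos_left _ h1) h3
    exact ⟨⟨by omega, by omega, by omega⟩, h1, h2, h3, h4⟩

theorem close_unique {X : ℕ} {ρ : ℝ} (h0 : 0 ≤ ρ) (hρ : ρ ≤ 1 / 2) {z : ℍ} (hz : Good (8 * ρ) X z)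
    {q q' : ℕ × ℕ × ℕ} (h : q ∈ IX X) (h' : q' ∈ IX X) (g : SL(2, ℤ))
    (hd : dist (hp q z) (g • hp q' z) ≤ 4 * ρ) : q = q' ∧ (g = 1 ∨ g = -1) := by
  rw [mem_IX] at h h'
  obtain ⟨hq, hX⟩ := h
  obtain ⟨hq', hX'⟩ := h'
  have p1 := hq.1
  have p2 : 0 < q.2.2 := by have := hq.2.1; omega
  have p1' := hq'.1
  have p2' : 0 < q'.2.2 := by have := hq'.2.1; omega
  have hdet := g.det_coe
  rw [Matrix.det_fin_two] at hdet
  have key := form_small p1 p2 p1' p2' z g h0 hρ hd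
  have hdet2 : ((q.2.2 : ℤ) * (g 0 0 * q'.1) - q.2.1 * (g 1 0 * q'.1)) *
      (q.1 * (g 1 0 * q'.2.1 + g 1 1 * q'.2.2)) -
      (q.2.2 * (g 0 0 * q'.2.1 + g 0 1 * q'.2.2) - q.2.1 * (g 1 0 * q'.2.1 + g 1 1 * q'.2.2)) *
      (q.1 * (g 1 0 * q'.1)) = ((q.1 * q.2.2 * (q'.1 * q'.2.2) : ℕ) : ℤ) := by
    push_cast
    linear_combination ((q.1 : ℤ) * q.2.2 * q'.1 * q'.2.2) * hdet
  have hres := hz _ _ _ _ (by rw [hdet2]; have : 1 ≤ q.1 * q.2.2 * (q'.1 * q'.2.2) := by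
                                have := Nat.mul_pos (Nat.mul_pos p1 p2) (Nat.mul_pos p1' p2'); omega
                              exact_mod_cast this)
    (by rw [hdet2]; have : q.1 * q.2.2 * (q'.1 * q'.2.2) ≤ X ^ 2 := by
                      rw [sq]; exact Nat.mul_le_mul hX hX'
        exact_mod_cast this)
    (by rw [hdet2]; exact_mod_cast key)
  exact prim_unique hq hq' g hres.1 hres.2.1 hres.2.2

theorem mult_good {X : ℕ} {ρ : ℝ} (h0 : 0 ≤ ρ) (hρ : ρ ≤ 1 / 2) {z : ℍ} (hz : Good (8 * ρ) X z) (w : ℍ) :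
    ∑ q ∈ IX X, ∑' γ : SL(2, ℤ), (EB (hp q z) ρ).indicator (fun _ => (1 : ℝ≥0∞)) (γ • w) ≤ 2 := by
  classical
  have : (2 : ℝ≥0∞) = ((2 : ℕ) : ℝ≥0∞) := by norm_num
  rw [this]
  refine mult_le (IX X) (fun q => EB (hp q z) ρ) w 2 fun S hS => ?_
  rcases S.eq_empty_or_nonempty with rfl | ⟨⟨q, γ⟩, hqγ⟩
  · simp
  have hsub : S ⊆ {(q, γ), (q, -γ)} := by
    rintro ⟨q', γ'⟩ h'
    obtain ⟨k1, k2⟩ := hS _ hqγ
    obtain ⟨k1', k2'⟩ := hS _ h'
    simp only at k1 k2 k1' k2'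
    have d1 := dist_of_EB h0 hρ k2
    have d2 := dist_of_EB h0 hρ k2'
    have d3 : dist (hp q z) ((γ * γ'⁻¹) • hp q' z) ≤ 4 * ρ := by
      have e : dist (γ • w) ((γ * γ'⁻¹) • hp q' z) = dist (γ' • w) (hp q' z) := by
        rw [mul_smul, dist_smul']
        conv_rhs => rw [← dist_smul' γ'⁻¹, inv_smul_smul]
      calc dist (hp q z) ((γ * γ'⁻¹) • hp q' z) ≤ dist (hp q z) (γ • w) + dist (γ • w) ((γ * γ'⁻¹) • hp q' z) :=
            dist_triangle _ _ _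
        _ ≤ 2 * ρ + 2 * ρ := by rw [e, dist_comm]; exact add_le_add d1 d2
        _ = 4 * ρ := by ring
    obtain ⟨e1, e2⟩ := close_unique h0 hρ hz k1 k1' _ d3
    subst e1
    rcases e2 with e2 | e2
    · have : γ' = γ := by
        have := mul_inv_eq_one.1 e2
        exact this.symm
      rw [this]; simp
    · have : γ' = -γ := by
        have h5 : γ = -1 * γ' := by rw [← e2]; group
        rw [h5]; simp
      rw [this]; simp
  exact (Finset.card_le_card hsub).trans Finset.card_le_two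

end Pool.Agent.T2H31
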