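import Pool.Agent.T2H31.Chain

/-! Circle means of eigenfunctions on the unit disc. -/

set_option autoImplicit false

namespace Pool.Agent.T2H31

open Complex MeasureTheory Set Function UpperHalfPlane
open scoped ENNReal NNReal

/-- the unit disc -/
def DD : Set ℂ := Metric.ball 0 1

theorem isOpen_DD : IsOpen DD := Metric.isOpen_ball

theorem norm_ee (θ : ℝ) : ‖ee θ‖ = 1 := by
  rw [ee, Complex.norm_exp_ofReal_mul_I]

theorem ee_mem {s : ℝ} (hs : |s| < 1) (θ : ℝ) : (s : ℂ) * ee θ ∈ DD := by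
  rw [DD, mem_ball_zero_iff, norm_mul, norm_ee, mul_one, Complex.norm_real, Real.norm_eq_abs]
  exact hs

section
variable {G : ℂ → ℝ} (hG : ContDiffOn ℝ 2 G DD)
include hG

/-- a cut off version -/
theorem cutoff {ρ : ℝ} (h0 : 0 ≤ ρ) (h1 : ρ < 1) : ∃ K : ℂ → ℝ, ContDiff ℝ 2 K ∧
    ∀ z ∈ Metric.closedBall (0 : ℂ) ρ, K =ᶠ[nhds z] G := by
  let χ : ContDiffBump (0 : ℂ) := ⟨(ρ + (ρ + 1) / 2) / 2, (ρ + 1) / 2, by linarith, by linarith⟩
  have hχ : ContDiff ℝ 2 χ := χ.contDiff
  refine ⟨fun z => χ z * G z, ?_, ?_⟩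
  · rw [contDiff_iff_contDiffAt]
    intro z
    by_cases hz : z ∈ DD
    · exact (hχ.contDiffAt).mul (hG.contDiffAt (isOpen_DD.mem_nhds hz))
    · have hz' : z ∈ (Metric.closedBall (0 : ℂ) ((ρ + 1) / 2))ᶜ := by
        intro h
        apply hz
        rw [DD, mem_ball_zero_iff]
        rw [mem_closedBall_zero_iff] at h
        linarith
      have : (fun z => χ z * G z) =ᶠ[nhds z] fun _ => 0 := by
        filter_upwards [Metric.isClosed_closedBall.isOpen_compl.mem_nhds hz'] with w hw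
        rw [χ.zero_of_le_dist, zero_mul]
        simp only [mem_compl_iff, Metric.mem_closedBall, not_le] at hw
        exact hw.le
      exact contDiffAt_const.congr_of_eventuallyEq this
  · intro z hz
    have hz' : z ∈ Metric.ball (0 : ℂ) ((ρ + (ρ + 1) / 2) / 2) := by
      rw [mem_ball_zero_iff]
      rw [mem_closedBall_zero_iff] at hz
      linarith
    filter_upwards [Metric.isOpen_ball.mem_nhds hz'] with w hw
    rw [χ.one_of_mem_closedBall (Metric.ball_subset_closedBall hw), one_mul]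

/-- the circle mean and its derivative -/
theorem deriv_PR {s : ℝ} (hs : |s| < 1) :
    HasDerivAt (fun s : ℝ => ∫ θ in (-Real.pi)..Real.pi, G (s * ee θ))
      (∫ θ in (-Real.pi)..Real.pi, fderiv ℝ G (s * ee θ) (ee θ)) s ∧
    HasDerivAt (fun s : ℝ => ∫ θ in (-Real.pi)..Real.pi, fderiv ℝ G (s * ee θ) (s * ee θ))
      (s * ∫ θ in (-Real.pi)..Real.pi, lapl G (s * ee θ)) s := by
  obtain ⟨K, hK, hKG⟩ := cutoff hG (ρ := (|s| + 1) / 2) (by positivity) (by linarith)
  have hnear : ∀ᶠ t : ℝ in nhds s, ∀ θ, K =ᶠ[nhds ((t : ℂ) * ee θ)] G := by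
    have h1 : Metric.ball s ((1 - |s|) / 2) ∈ nhds s := Metric.ball_mem_nhds _ (by linarith)
    filter_upwards [h1] with t ht θ
    apply hKG
    rw [mem_closedBall_zero_iff, norm_mul, norm_ee, mul_one, Complex.norm_real, Real.norm_eq_abs]
    rw [Metric.mem_ball, Real.dist_eq] at ht
    have := abs_sub_abs_le_abs_sub t s
    linarith
  have hs0 := hnear.self_of_nhds
  have hP := hasDerivAt_P hK 0 s
  have hR := hasDerivAt_R hK 0 s
  simp only [zero_add] at hP hR
  constructor
  · have e1 : ∫ θ in (-Real.pi)..Real.pi, fderiv ℝ K (s * ee θ) (ee θ) =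
        ∫ θ in (-Real.pi)..Real.pi, fderiv ℝ G (s * ee θ) (ee θ) := by
      congr 1
      funext θ
      rw [(hs0 θ).fderiv_eq]
    rw [← e1]
    refine hP.congr_of_eventuallyEq ?_
    filter_upwards [hnear] with t ht
    congr 1
    funext θ
    exact (ht θ).eq_of_nhds.symm
  · have e1 : ∫ θ in (-Real.pi)..Real.pi, lapl K (s * ee θ) =
        ∫ θ in (-Real.pi)..Real.pi, lapl G (s * ee θ) := by
      congr 1
      funext θ
      rw [lapl_congr (hs0 θ)]
    rw [← e1]
    refine hR.congr_of_eventuallyEq ?_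
    filter_upwards [hnear] with t ht
    congr 1
    funext θ
    rw [(ht θ).fderiv_eq]

theorem deriv_P {s : ℝ} (hs : |s| < 1) :
    HasDerivAt (fun s : ℝ => ∫ θ in (-Real.pi)..Real.pi, G (s * ee θ))
      (∫ θ in (-Real.pi)..Real.pi, fderiv ℝ G (s * ee θ) (ee θ)) s := (deriv_PR hG hs).1

theorem R_eq (s : ℝ) : ∫ θ in (-Real.pi)..Real.pi, fderiv ℝ G (s * ee θ) (s * ee θ) =
    s * ∫ θ in (-Real.pi)..Real.pi, fderiv ℝ G (s * ee θ) (ee θ) := by
  rw [← intervalIntegral.integral_const_mul]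
  congr 1
  funext θ
  rw [← Complex.real_smul, map_smul, smul_eq_mul]

end

/-- two eigenfunctions with the same eigenvalue have proportional circle means -/
theorem mean_prop {G H : ℂ → ℝ} (hG : ContDiffOn ℝ 2 G DD) (hH : ContDiffOn ℝ 2 H DD) {lam : ℝ}
    (lG : ∀ w ∈ DD, lapl G w = -4 * lam / (1 - ‖w‖ ^ 2) ^ 2 * G w)
    (lH : ∀ w ∈ DD, lapl H w = -4 * lam / (1 - ‖w‖ ^ 2) ^ 2 * H w)
    (hpos : ∀ w ∈ DD, 0 < H w) {r : ℝ} (h0 : 0 ≤ r) (h1 : r < 1) :
    (∫ θ in (-Real.pi)..Real.pi, G (r * ee θ)) * H 0 =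
      (∫ θ in (-Real.pi)..Real.pi, H (r * ee θ)) * G 0 := by
  set PG : ℝ → ℝ := fun s => ∫ θ in (-Real.pi)..Real.pi, G (s * ee θ) with hPG
  set PH : ℝ → ℝ := fun s => ∫ θ in (-Real.pi)..Real.pi, H (s * ee θ) with hPH
  set PG' : ℝ → ℝ := fun s => ∫ θ in (-Real.pi)..Real.pi, fderiv ℝ G (s * ee θ) (ee θ) with hPG'
  set PH' : ℝ → ℝ := fun s => ∫ θ in (-Real.pi)..Real.pi, fderiv ℝ H (s * ee θ) (ee θ) with hPH'
  have dPG : ∀ s : ℝ, |s| < 1 → HasDerivAt PG (PG' s) s := fun s hs => deriv_P hG hs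
  have dPH : ∀ s : ℝ, |s| < 1 → HasDerivAt PH (PH' s) s := fun s hs => deriv_P hH hs
  have lap_int : ∀ {F : ℂ → ℝ}, (∀ w ∈ DD, lapl F w = -4 * lam / (1 - ‖w‖ ^ 2) ^ 2 * F w) → ∀ s : ℝ, |s| < 1 →
      ∫ θ in (-Real.pi)..Real.pi, lapl F (s * ee θ) =
        -4 * lam / (1 - s ^ 2) ^ 2 * ∫ θ in (-Real.pi)..Real.pi, F (s * ee θ) := by
    intro F lF s hs
    rw [← intervalIntegral.integral_const_mul]
    congr 1
    funext θ
    rw [lF _ (ee_mem hs θ), norm_mul, norm_ee, mul_one, Complex.norm_real, Real.norm_eq_abs, sq_abs]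
  have dRG : ∀ s : ℝ, |s| < 1 → HasDerivAt (fun s => s * PG' s) (s * (-4 * lam / (1 - s ^ 2) ^ 2 * PG s)) s := by
    intro s hs
    have h := (deriv_PR hG hs).2
    rw [lap_int lG s hs] at h
    have e : (fun s : ℝ => ∫ θ in (-Real.pi)..Real.pi, fderiv ℝ G (s * ee θ) (s * ee θ)) =
        fun s => s * PG' s := by
      funext s
      exact R_eq hG s
    rw [e] at h
    exact h
  have dRH : ∀ s : ℝ, |s| < 1 → HasDerivAt (fun s => s * PH' s) (s * (-4 * lam / (1 - s ^ 2) ^ 2 * PH s)) s := by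
    intro s hs
    have h := (deriv_PR hH hs).2
    rw [lap_int lH s hs] at h
    have e : (fun s : ℝ => ∫ θ in (-Real.pi)..Real.pi, fderiv ℝ H (s * ee θ) (s * ee θ)) =
        fun s => s * PH' s := by
      funext s
      exact R_eq hH s
    rw [e] at h
    exact h
  have habs : ∀ s ∈ Icc (0 : ℝ) r, |s| < 1 := fun s hs => by
    rw [abs_of_nonneg hs.1]
    exact hs.2.trans_lt h1
  -- the Wronskian
  have hW : ∀ s ∈ Icc (0 : ℝ) r, s * PG' s * PH s - PG s * (s * PH' s) = 0 := by
    have hd : ∀ s : ℝ, |s| < 1 → HasDerivAt (fun s => s * PG' s * PH s - PG s * (s * PH' s)) 0 s := by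
      intro s hs
      have h2 := ((dRG s hs).mul (dPH s hs)).sub ((dPG s hs).mul (dRH s hs))
      refine h2.congr_deriv ?_
      ring
    intro s hs
    have hc : ∀ x ∈ Icc (0 : ℝ) r, (fun s => s * PG' s * PH s - PG s * (s * PH' s)) x =
        (fun s => s * PG' s * PH s - PG s * (s * PH' s)) 0 := by
      refine constant_of_has_deriv_right_zero ?_ ?_
      · intro x hx
        exact (hd x (habs x hx)).continuousAt.continuousWithinAt
      · intro x hx
        exact (hd x (habs x ⟨hx.1, hx.2.le⟩)).hasDerivWithinAt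
    have := hc s hs
    simp only [zero_mul, mul_zero, sub_zero] at this
    exact this
  have hPHpos : ∀ s ∈ Icc (0 : ℝ) r, 0 < PH s := by
    intro s hs
    have hcH : Continuous fun θ : ℝ => H (s * ee θ) := by
      have h2 : ContinuousOn H DD := hH.continuousOn
      have ce := continuous_ee
      exact h2.comp_continuous (by fun_prop) fun θ => ee_mem (habs s hs) θ
    refine intervalIntegral.intervalIntegral_pos_of_pos (hcH.intervalIntegrable _ _)
      (fun θ => hpos _ (ee_mem (habs s hs) θ)) (by linarith [Real.pi_pos])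
  rcases h0.eq_or_lt with h | h
  · rw [← h]
    simp only [Complex.ofReal_zero, zero_mul, intervalIntegral.integral_const, smul_eq_mul]
    ring
  · have hcont : ContinuousOn (fun s => PG s / PH s) (Icc 0 r) := fun x hx =>
      ((dPG x (habs x hx)).div (dPH x (habs x hx)) (hPHpos x hx).ne').continuousAt.continuousWithinAt
    have hderiv : ∀ x ∈ Ioo (0 : ℝ) r, HasDerivAt (fun s => PG s / PH s) 0 x := by
      intro x hx
      have hx' : x ∈ Icc (0 : ℝ) r := Ioo_subset_Icc_self hx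
      have h2 := (dPG x (habs x hx')).div (dPH x (habs x hx')) (hPHpos x hx').ne'
      refine h2.congr_deriv ?_
      have h3 : PG' x * PH x - PG x * PH' x = 0 := by
        have h4 := hW x hx'
        have h5 : x * (PG' x * PH x - PG x * PH' x) = 0 := by linarith
        exact (mul_eq_zero.1 h5).resolve_left hx.1.ne'
      rw [h3, zero_div]
    obtain ⟨c, hc, hc2⟩ := exists_hasDerivAt_eq_slope (fun s => PG s / PH s) (fun _ => 0) h hcont hderiv
    have h6 : PG r / PH r = PG 0 / PH 0 := by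
      have h7 : r - 0 ≠ 0 := by simpa using h.ne'
      have h8 := hc2.symm
      rw [div_eq_zero_iff] at h8
      rcases h8 with h8 | h8
      · linarith
      · exact absurd h8 h7
    have e1 : PG 0 = 2 * Real.pi * G 0 := by
      simp only [hPG, Complex.ofReal_zero, zero_mul, intervalIntegral.integral_const, smul_eq_mul]
      ring
    have e2 : PH 0 = 2 * Real.pi * H 0 := by
      simp only [hPH, Complex.ofReal_zero, zero_mul, intervalIntegral.integral_const, smul_eq_mul]
      ring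
    have hp := Real.pi_pos
    have hH0 : 0 < H 0 := hpos 0 (by rw [DD]; simp)
    have hPr := hPHpos r ⟨h0, le_rfl⟩
    rw [e1, e2, div_eq_div_iff hPr.ne' (by positivity)] at h6
    show PG r * H 0 = PH r * G 0
    have h9 : 2 * Real.pi * (PG r * H 0) = 2 * Real.pi * (PH r * G 0) := by linarith
    exact mul_left_cancel₀ (by positivity) h9

end Pool.Agent.T2H31
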