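import Pool.Agent.T2H31.Sph1

/-! The Cayley map and spherical means of eigenfunctions. -/

set_option autoImplicit false

namespace Pool.Agent.T2H31

open Complex MeasureTheory Set Function
open UpperHalfPlane hiding I
open scoped ENNReal NNReal

/-- the Cayley map with centre `z` -/
noncomputable def cay (z : ℍ) (w : ℂ) : ℂ := z.re + I * z.im * ((1 + w) / (1 - w))

theorem one_sub_ne {w : ℂ} (hw : w ∈ DD) : (1 : ℂ) - w ≠ 0 := by
  intro h
  rw [DD, mem_ball_zero_iff] at hw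
  have : w = 1 := (sub_eq_zero.1 h).symm
  rw [this] at hw
  simp at hw

theorem norm_sq_lt {w : ℂ} (hw : w ∈ DD) : ‖w‖ ^ 2 < 1 := by
  rw [DD, mem_ball_zero_iff] at hw
  have := norm_nonneg w
  nlinarith

theorem im_cay (z : ℍ) {w : ℂ} (hw : w ∈ DD) : (cay z w).im = z.im * ((1 - ‖w‖ ^ 2) / ‖1 - w‖ ^ 2) := by
  have h1 := one_sub_ne hw
  have h2 : ‖(1 : ℂ) - w‖ ^ 2 ≠ 0 := pow_ne_zero 2 (norm_ne_zero_iff.2 h1)
  have h3 : ((1 + w) / (1 - w)).re = (1 - ‖w‖ ^ 2) / ‖1 - w‖ ^ 2 := by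
    rw [Complex.div_re, ← Complex.normSq_eq_norm_sq, ← Complex.normSq_eq_norm_sq, ← add_div]
    congr 1
    rw [Complex.normSq_apply]
    simp
    ring
  rw [cay]
  have h4 : (↑z.re + I * ↑z.im * ((1 + w) / (1 - w))).im = z.im * ((1 + w) / (1 - w)).re := by
    rw [Complex.add_im, Complex.ofReal_im, mul_assoc, Complex.I_mul_im, Complex.re_ofReal_mul]
    ring
  rw [h4, h3]

theorem cay_mem (z : ℍ) {w : ℂ} (hw : w ∈ DD) : cay z w ∈ HH := by
  show 0 < (cay z w).im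
  rw [im_cay z hw]
  have h1 := norm_sq_lt hw
  have h2 : 0 < ‖(1 : ℂ) - w‖ := norm_pos_iff.2 (one_sub_ne hw)
  have h3 := z.im_pos
  have h4 : 0 < 1 - ‖w‖ ^ 2 := by linarith
  positivity

theorem hasDerivAt_cay (z : ℍ) {w : ℂ} (hw : w ∈ DD) :
    HasDerivAt (cay z) (2 * I * z.im / (1 - w) ^ 2) w := by
  have h0 := one_sub_ne hw
  have h1 : HasDerivAt (fun w : ℂ => 1 + w) 1 w := by
    simpa using (hasDerivAt_id w).const_add 1
  have h2 : HasDerivAt (fun w : ℂ => 1 - w) (-1) w := by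
    simpa using (hasDerivAt_id w).const_sub 1
  have h3 := ((h1.div h2 h0).const_mul (I * z.im)).const_add (z.re : ℂ)
  refine h3.congr_deriv ?_
  field_simp
  ring

theorem norm_deriv_cay (z : ℍ) {w : ℂ} (hw : w ∈ DD) :
    ‖deriv (cay z) w‖ ^ 2 = 4 / (1 - ‖w‖ ^ 2) ^ 2 * (cay z w).im ^ 2 := by
  have h1 := norm_sq_lt hw
  have h2 : 0 < ‖(1 : ℂ) - w‖ := norm_pos_iff.2 (one_sub_ne hw)
  have h3 := z.im_pos
  have h4 : 0 < 1 - ‖w‖ ^ 2 := by linarith
  rw [(hasDerivAt_cay z hw).deriv, im_cay z hw, norm_div, norm_mul, norm_mul, norm_pow, Complex.norm_I,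
    Complex.norm_real, Real.norm_eq_abs, abs_of_pos h3, Complex.norm_ofNat]
  field_simp
  norm_num

theorem cay_zero (z : ℍ) : cay z 0 = z := by
  rw [cay]
  simp only [add_zero, sub_zero, div_one, mul_one]
  rw [mul_comm]
  exact (Complex.re_add_im (z : ℂ))

/-- the pull back of an eigenfunction to the disc -/
theorem cay_comp {f : ℍ → ℝ} (hf : Smooth2 f) {lam : ℝ} (hlap : ∀ u, hyp f u = -lam * f u) (z : ℍ) :
    ContDiffOn ℝ 2 (fc f ∘ cay z) DD ∧
      ∀ w ∈ DD, lapl (fc f ∘ cay z) w = -4 * lam / (1 - ‖w‖ ^ 2) ^ 2 * (fc f ∘ cay z) w := by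
  have hd : DifferentiableOn ℂ (cay z) DD := fun w hw =>
    (hasDerivAt_cay z hw).differentiableAt.differentiableWithinAt
  have h := fun (w : ℂ) (hw : w ∈ DD) => lapl_comp isOpen_DD isOpen_HH hd hf (fun w hw => cay_mem z hw) hw
  refine ⟨(h 0 (by rw [DD]; simp)).1, fun w hw => ?_⟩
  rw [(h w hw).2, norm_deriv_cay z hw]
  have h5 : 0 < (cay z w).im := cay_mem z hw
  have h6 := hlap ⟨cay z w, h5⟩
  rw [hyp] at h6
  have h7 : (cay z w).im ^ 2 * lapl (fc f) (cay z w) = -lam * fc f (cay z w) := by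
    rw [fc, ofComplex_apply_of_im_pos h5]
    exact h6
  rw [comp_apply, mul_assoc, h7]
  ring

/-- the power of the imaginary part -/
noncomputable def imp (s : ℝ) (u : ℍ) : ℝ := u.im ^ s

theorem fc_imp (s : ℝ) : EqOn (fc (imp s)) (fun z => z.im ^ s) HH := by
  intro z hz
  have hz' : 0 < z.im := hz
  simp only [fc, imp]
  rw [ofComplex_apply_of_im_pos hz']
  rfl

theorem smooth_imp (s : ℝ) : Smooth2 (imp s) := by
  have h : ContDiffOn ℝ 2 (fun z : ℂ => z.im ^ s) HH := by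
    intro z hz
    have hz' : 0 < z.im := hz
    have h1 : ContDiffAt ℝ 2 (fun z : ℂ => z.im) z := Complex.imCLM.contDiff.contDiffAt
    exact (h1.rpow_const_of_ne hz'.ne').contDiffWithinAt
  exact h.congr (fc_imp s)

theorem hyp_imp (s : ℝ) (u : ℍ) : hyp (imp s) u = -(s * (1 - s)) * imp s u := by
  have hu := u.im_pos
  have hF : ContDiffOn ℝ 2 (fun z : ℂ => z.im ^ s) HH := (smooth_imp s).congr fun z hz => (fc_imp s hz).symm
  have he : fc (imp s) =ᶠ[nhds (u : ℂ)] (fun z : ℂ => z.im ^ s) := by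
    filter_upwards [isOpen_HH.mem_nhds u.im_pos] with w hw using fc_imp s hw
  rw [hyp, lapl_congr he]
  have hfd : ∀ w ∈ HH, ∀ v : ℂ, fderiv ℝ (fun z : ℂ => z.im ^ s) w v = s * w.im ^ (s - 1) * v.im := by
    intro w hw v
    have hw' : 0 < w.im := hw
    have h1 : HasFDerivAt (fun z : ℂ => z.im) (Complex.imCLM) w := Complex.imCLM.hasFDerivAt
    have h2 := (h1.rpow_const (p := s) (Or.inl hw'.ne')).fderiv
    rw [h2]
    simp
  have hline : ∀ v : ℂ, ∀ᶠ t : ℝ in nhds 0, (u : ℂ) + t * v ∈ HH := by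
    intro v
    have hc : ContinuousAt (fun t : ℝ => (u : ℂ) + t * v) 0 := by fun_prop
    apply hc.preimage_mem_nhds
    simp only [Complex.ofReal_zero, zero_mul, add_zero]
    exact isOpen_HH.mem_nhds u.im_pos
  have k1 : fderiv ℝ (fderiv ℝ (fun z : ℂ => z.im ^ s)) (u : ℂ) 1 1 = 0 := by
    have h1 := second_dir isOpen_HH hF u.im_pos 1
    have h2 : (fun t : ℝ => fderiv ℝ (fun z : ℂ => z.im ^ s) ((u : ℂ) + t * 1) 1) =ᶠ[nhds 0] fun _ => 0 := by
      filter_upwards [hline 1] with t ht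
      rw [hfd _ ht]
      simp
    exact (h1.congr_of_eventuallyEq h2.symm).unique (hasDerivAt_const _ _)
  have k2 : fderiv ℝ (fderiv ℝ (fun z : ℂ => z.im ^ s)) (u : ℂ) I I = s * (s - 1) * u.im ^ (s - 2) := by
    have h1 := second_dir isOpen_HH hF u.im_pos I
    have h2 : (fun t : ℝ => fderiv ℝ (fun z : ℂ => z.im ^ s) ((u : ℂ) + t * I) I) =ᶠ[nhds 0]
        fun t => s * (u.im + t) ^ (s - 1) := by
      filter_upwards [hline I] with t ht
      rw [hfd _ ht]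
      simp
    have h3 : HasDerivAt (fun t : ℝ => s * (u.im + t) ^ (s - 1)) (s * (s - 1) * u.im ^ (s - 2)) 0 := by
      have h4 : HasDerivAt (fun t : ℝ => u.im + t) 1 0 := by
        simpa using (hasDerivAt_id (0 : ℝ)).const_add u.im
      have h5 := (h4.rpow_const (p := s - 1) (Or.inl (by simpa using hu.ne'))).const_mul s
      refine h5.congr_deriv ?_
      rw [add_zero, show s - 1 - 1 = s - 2 by ring]
      ring
    exact (h1.congr_of_eventuallyEq h2.symm).unique h3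
  rw [lapl, k1, k2, imp, zero_add]
  have h6 : u.im ^ 2 * u.im ^ (s - 2) = u.im ^ s := by
    rw [← Real.rpow_natCast, ← Real.rpow_add hu]
    congr 1
    push_cast
    ring
  linear_combination s * (s - 1) * h6

/-- the spherical function -/
noncomputable def Sph (s r : ℝ) : ℝ :=
  ∫ θ in (-Real.pi)..Real.pi, ((1 - r ^ 2) / ‖1 - (r : ℂ) * ee θ‖ ^ 2) ^ s

theorem mean_eq {f : ℍ → ℝ} (hf : Smooth2 f) {s : ℝ} (hlap : ∀ u, hyp f u = -(s * (1 - s)) * f u)
    (z : ℍ) {r : ℝ} (h0 : 0 ≤ r) (h1 : r < 1) :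
    ∫ θ in (-Real.pi)..Real.pi, fc f (cay z (r * ee θ)) = Sph s r * f z := by
  obtain ⟨cG, lG⟩ := cay_comp hf hlap z
  obtain ⟨cH, lH⟩ := cay_comp (smooth_imp s) (hyp_imp s) UpperHalfPlane.I
  have hH : ∀ w ∈ DD, (fc (imp s) ∘ cay UpperHalfPlane.I) w = ((1 - ‖w‖ ^ 2) / ‖1 - w‖ ^ 2) ^ s := by
    intro w hw
    rw [comp_apply, fc_imp s (cay_mem _ hw)]
    simp only
    rw [im_cay _ hw]
    simp
  have hpos : ∀ w ∈ DD, 0 < (fc (imp s) ∘ cay UpperHalfPlane.I) w := by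
    intro w hw
    rw [hH w hw]
    have h2 := norm_sq_lt hw
    have h3 : 0 < ‖(1 : ℂ) - w‖ := norm_pos_iff.2 (one_sub_ne hw)
    have h4 : 0 < 1 - ‖w‖ ^ 2 := by linarith
    positivity
  have key := mean_prop cG cH lG lH hpos h0 h1
  have e0 : (fc (imp s) ∘ cay UpperHalfPlane.I) 0 = 1 := by
    rw [hH 0 (by rw [DD]; simp)]
    simp
  have e1 : (fc f ∘ cay z) 0 = f z := by
    rw [comp_apply, cay_zero, fc]
    simp
  rw [e0, e1, mul_one] at key
  have e2 : ∫ θ in (-Real.pi)..Real.pi, (fc (imp s) ∘ cay UpperHalfPlane.I) (r * ee θ) = Sph s r := by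
    rw [Sph]
    congr 1
    funext θ
    have habs : |r| < 1 := by rw [abs_of_nonneg h0]; exact h1
    rw [hH _ (ee_mem habs θ), norm_mul, norm_ee, mul_one, Complex.norm_real, Real.norm_eq_abs, sq_abs]
  rw [e2] at key
  exact key

theorem sinh_cay (z : ℍ) {w : ℂ} (hw : w ∈ DD) :
    Real.sinh (dist z (⟨cay z w, cay_mem z hw⟩ : ℍ) / 2) = ‖w‖ / Real.sqrt (1 - ‖w‖ ^ 2) := by
  have h1 := norm_sq_lt hw
  have h2 : 0 < ‖(1 : ℂ) - w‖ := norm_pos_iff.2 (one_sub_ne hw)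
  have h3 := z.im_pos
  have h4 : 0 < 1 - ‖w‖ ^ 2 := by linarith
  rw [sinh_half_dist, Complex.dist_eq]
  have e1 : ((z : ℂ) - ((⟨cay z w, cay_mem z hw⟩ : ℍ) : ℂ)) = -(I * z.im * (2 * w / (1 - w))) := by
    show (z : ℂ) - cay z w = _
    have hne := one_sub_ne hw
    rw [cay]
    have hz : (z : ℂ) = z.re + I * z.im := by
      rw [mul_comm]
      exact (Complex.re_add_im (z : ℂ)).symm
    nth_rewrite 1 [hz]
    field_simp
    ring
  have e2 : z.im * (⟨cay z w, cay_mem z hw⟩ : ℍ).im = (z.im * (Real.sqrt (1 - ‖w‖ ^ 2) / ‖1 - w‖)) ^ 2 := by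
    have : (⟨cay z w, cay_mem z hw⟩ : ℍ).im = (cay z w).im := rfl
    rw [this, im_cay z hw, mul_pow, div_pow, Real.sq_sqrt h4.le]
    ring
  have h5 : 0 < Real.sqrt (1 - ‖w‖ ^ 2) := Real.sqrt_pos.2 h4
  rw [e1, e2, Real.sqrt_sq (by positivity), norm_neg, norm_mul, norm_mul, norm_div, norm_mul, Complex.norm_I,
    Complex.norm_real, Real.norm_eq_abs, abs_of_pos h3, Complex.norm_ofNat]
  field_simp

end Pool.Agent.T2H31
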