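import Pool.Agent.T2H31.Sph2

/-! Polar coordinates on hyperbolic balls, and a lower bound for the spherical function. -/

set_option autoImplicit false

namespace Pool.Agent.T2H31

open Complex MeasureTheory Set Function
open UpperHalfPlane hiding I
open scoped ENNReal NNReal

theorem det_mul (c : ℂ) (A : ℂ →L[ℝ] ℂ) (hA : ∀ v, A v = c * v) : A.det = ‖c‖ ^ 2 := by
  have e : (A : ℂ →ₗ[ℝ] ℂ) = Algebra.lmul ℝ ℂ c := by
    ext v <;> simp [hA]
  rw [ContinuousLinearMap.det, e, ← Algebra.norm_apply, Algebra.norm_complex_apply, Complex.normSq_eq_norm_sq]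

theorem cay_inj (z : ℍ) : InjOn (cay z) DD := by
  intro w hw w' hw' h
  have h1 := one_sub_ne hw
  have h2 := one_sub_ne hw'
  have hz : (z.im : ℂ) ≠ 0 := by exact_mod_cast z.im_pos.ne'
  have h3 : (1 + w) / (1 - w) = (1 + w') / (1 - w') := by
    simp only [cay] at h
    have h4 := add_left_cancel h
    exact mul_left_cancel₀ (mul_ne_zero I_ne_zero hz) h4
  rw [div_eq_div_iff h1 h2] at h3
  linear_combination (1 / 2) * h3

/-- polar coordinates on a hyperbolic ball -/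
theorem polar_le {f : ℍ → ℝ} (hf : Smooth2 f) (z : ℍ) {r₀ ρ : ℝ} (h1 : r₀ < 1)
    (hρ : ∀ w : ℂ, ∀ hw : w ∈ DD, ‖w‖ ≤ r₀ → dist (⟨cay z w, cay_mem z hw⟩ : ℍ) z ≤ ρ) :
    ∫⁻ r in Ioo 0 r₀, ENNReal.ofReal (4 * r / (1 - r ^ 2) ^ 2) *
        ENNReal.ofReal (∫ θ in (-Real.pi)..Real.pi, fc f (cay z (r * ee θ)) ^ 2) ≤
      ∫⁻ u in Metric.closedBall z ρ, ENNReal.ofReal (f u ^ 2) := by
  have ce := continuous_ee
  have hpi := Real.pi_pos
  set D0 : Set ℂ := Metric.ball 0 r₀ with hD0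
  have hD : D0 ⊆ DD := Metric.ball_subset_ball h1.le
  have hmD : MeasurableSet D0 := Metric.isOpen_ball.measurableSet
  have mf : Measurable fun u : ℍ => ENNReal.ofReal (f u ^ 2) := by
    have := (cont_f hf).measurable
    fun_prop
  have hdc : ∀ w ∈ D0, HasFDerivWithinAt (cay z)
      (ContinuousLinearMap.mul ℝ ℂ (2 * I * z.im / (1 - w) ^ 2)) D0 w := by
    intro w hw
    have h := (hasDerivAt_cay z (hD hw)).hasFDerivAt.restrictScalars ℝ
    refine (h.congr_fderiv ?_).hasFDerivWithinAt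
    ext v
    simp [mul_comm]
  have hdet : ∀ w : ℂ, (ContinuousLinearMap.mul ℝ ℂ (2 * I * z.im / (1 - w) ^ 2)).det =
      ‖2 * I * z.im / (1 - w) ^ 2‖ ^ 2 := fun w => det_mul _ _ fun v => rfl
  -- the image of the disc
  have himg : cay z '' D0 ⊆ ((↑) : ℍ → ℂ) '' Metric.closedBall z ρ := by
    rintro _ ⟨w, hw, rfl⟩
    refine ⟨⟨cay z w, cay_mem z (hD hw)⟩, ?_, rfl⟩
    rw [Metric.mem_closedBall]
    refine hρ w (hD hw) ?_
    rw [hD0, mem_ball_zero_iff] at hw
    exact hw.le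
  have s1 : ∫⁻ w in D0, ENNReal.ofReal (4 / (1 - ‖w‖ ^ 2) ^ 2 * fc f (cay z w) ^ 2) ≤
      ∫⁻ u in Metric.closedBall z ρ, ENNReal.ofReal (f u ^ 2) := by
    rw [lintegral_H mf Metric.isClosed_closedBall.measurableSet]
    refine le_trans (le_of_eq ?_) (lintegral_mono_set himg)
    rw [lintegral_image_eq_lintegral_abs_det_fderiv_mul volume hmD hdc ((cay_inj z).mono hD)]
    refine setLIntegral_congr_fun hmD fun w hw => ?_
    have h2 := norm_deriv_cay z (hD hw)
    rw [(hasDerivAt_cay z (hD hw)).deriv] at h2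
    have h3 : 0 < (cay z w).im := cay_mem z (hD hw)
    simp only [hdet]
    rw [abs_of_nonneg (sq_nonneg _), h2, ← ENNReal.ofReal_mul (sq_nonneg _), ← ENNReal.ofReal_mul (by positivity)]
    congr 1
    show _ = 4 / (1 - ‖w‖ ^ 2) ^ 2 * (cay z w).im ^ 2 * (fc f (cay z w) ^ 2 * (1 / (cay z w).im ^ 2))
    field_simp
  refine le_trans ?_ s1
  -- polar coordinates
  rw [← lintegral_indicator hmD, ← Complex.lintegral_comp_polarCoord_symm]
  have hcont : ContinuousOn (fun p : ℝ × ℝ => 4 * p.1 / (1 - p.1 ^ 2) ^ 2 *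
      fc f (cay z (p.1 * ee p.2)) ^ 2) (Ioo 0 r₀ ×ˢ Ioo (-Real.pi) Real.pi) := by
    have hc1 : ContinuousOn (fun w : ℂ => fc f (cay z w)) DD := by
      refine (contOn_fc hf).comp (fun w hw => (hasDerivAt_cay z hw).continuousAt.continuousWithinAt)
        fun w hw => cay_mem z hw
    have hc2 : ContinuousOn (fun p : ℝ × ℝ => fc f (cay z (p.1 * ee p.2)))
        (Ioo 0 r₀ ×ˢ Ioo (-Real.pi) Real.pi) := by
      refine hc1.comp (f := fun p : ℝ × ℝ => (p.1 : ℂ) * ee p.2) (by fun_prop) ?_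
      rintro p ⟨hp, -⟩
      exact ee_mem (by rw [abs_of_pos hp.1]; exact hp.2.trans h1) _
    refine ContinuousOn.mul (ContinuousOn.div (by fun_prop) (by fun_prop) ?_) (hc2.pow 2)
    rintro p ⟨hp, -⟩
    have h4 : p.1 < 1 := hp.2.trans h1
    have h5 : p.1 ^ 2 < 1 := by
      have := hp.1
      nlinarith
    have h6 : 0 < 1 - p.1 ^ 2 := by linarith
    positivity
  have hsub : Ioo 0 r₀ ×ˢ Ioo (-Real.pi) Real.pi ⊆ polarCoord.target := by
    rw [polarCoord_target]
    exact prod_mono (fun x hx => hx.1) Subset.rfl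
  have hmeas : MeasurableSet (Ioo 0 r₀ ×ˢ Ioo (-Real.pi) Real.pi) := measurableSet_Ioo.prod measurableSet_Ioo
  have s2 : ∫⁻ p in Ioo 0 r₀ ×ˢ Ioo (-Real.pi) Real.pi, ENNReal.ofReal (4 * p.1 / (1 - p.1 ^ 2) ^ 2 *
      fc f (cay z (p.1 * ee p.2)) ^ 2) ≤
      ∫⁻ p in polarCoord.target, ENNReal.ofReal p.1 • D0.indicator (fun w : ℂ =>
        ENNReal.ofReal (4 / (1 - ‖w‖ ^ 2) ^ 2 * fc f (cay z w) ^ 2)) (Complex.polarCoord.symm p) := by
    refine le_trans (le_of_eq ?_) (lintegral_mono_set hsub)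
    refine setLIntegral_congr_fun hmeas fun p hp => ?_
    obtain ⟨hp1, -⟩ := hp
    have he : Complex.polarCoord.symm p = p.1 * ee p.2 := by
      rw [Complex.polarCoord_symm_apply, ee_eq]
    have hn : ‖(p.1 : ℂ) * ee p.2‖ = p.1 := by
      rw [norm_mul, norm_ee, mul_one, Complex.norm_real, Real.norm_eq_abs, abs_of_pos hp1.1]
    have hmem : (p.1 : ℂ) * ee p.2 ∈ D0 := by
      rw [hD0, mem_ball_zero_iff, hn]
      exact hp1.2
    rw [he, indicator_of_mem hmem, hn, smul_eq_mul, ← ENNReal.ofReal_mul hp1.1.le]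
    congr 1
    ring
  refine le_trans (le_of_eq ?_) s2
  rw [Measure.volume_eq_prod, ← Measure.prod_restrict, lintegral_prod]
  · refine setLIntegral_congr_fun measurableSet_Ioo fun r hr => ?_
    have hr1 : r < 1 := hr.2.trans h1
    have hr2 : 0 < 1 - r ^ 2 := by nlinarith [hr.1]
    have hr3 : 0 ≤ 4 * r / (1 - r ^ 2) ^ 2 := by
      have := hr.1
      positivity
    have hcr : Continuous fun θ : ℝ => fc f (cay z (r * ee θ)) ^ 2 := by
      have hc1 : ContinuousOn (fun w : ℂ => fc f (cay z w)) DD := by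
        refine (contOn_fc hf).comp (fun w hw => (hasDerivAt_cay z hw).continuousAt.continuousWithinAt)
          fun w hw => cay_mem z hw
      refine Continuous.pow ?_ 2
      exact hc1.comp_continuous (f := fun θ : ℝ => (r : ℂ) * ee θ) (by fun_prop)
        fun θ => ee_mem (by rw [abs_of_pos hr.1]; exact hr1) θ
    have e1 : ∀ θ : ℝ, ENNReal.ofReal (4 * r / (1 - r ^ 2) ^ 2 * fc f (cay z (r * ee θ)) ^ 2) =
        ENNReal.ofReal (4 * r / (1 - r ^ 2) ^ 2) * ENNReal.ofReal (fc f (cay z (r * ee θ)) ^ 2) :=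
      fun θ => ENNReal.ofReal_mul hr3
    simp_rw [e1]
    rw [lintegral_const_mul' _ _ ENNReal.ofReal_ne_top]
    congr 1
    rw [intervalIntegral.integral_of_le (by linarith), integral_Ioc_eq_integral_Ioo,
      ofReal_integral_eq_lintegral_ofReal]
    · exact (hcr.integrableOn_Icc (a := -Real.pi) (b := Real.pi)).mono_set Ioo_subset_Icc_self
    · exact Filter.Eventually.of_forall fun θ => sq_nonneg _
  · rw [Measure.prod_restrict, ← Measure.volume_eq_prod]
    exact (hcont.aemeasurable hmeas).ennreal_ofReal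

end Pool.Agent.T2H31
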