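import Pool.Agent.T2H31.Sph3

/-! A lower bound for the spherical function. -/

set_option autoImplicit false

namespace Pool.Agent.T2H31

open Complex MeasureTheory Set Function
open UpperHalfPlane hiding I
open scoped ENNReal NNReal

theorem norm_one_sub (r θ : ℝ) : ‖1 - (r : ℂ) * ee θ‖ ^ 2 = 1 - 2 * r * Real.cos θ + r ^ 2 := by
  have e : 1 - (r : ℂ) * ee θ = ((1 - r * Real.cos θ : ℝ) : ℂ) + ((-(r * Real.sin θ) : ℝ) : ℂ) * I := by
    rw [ee_eq]
    push_cast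
    ring
  rw [e, ← Complex.normSq_eq_norm_sq, Complex.normSq_add_mul_I]
  have := Real.sin_sq_add_cos_sq θ
  linear_combination r ^ 2 * this

theorem Sph_ge {s ϑ r : ℝ} (hϑ : 0 ≤ ϑ) (hs : 1 / 2 + ϑ ≤ s) (h0 : 0 ≤ r) (h1 : r < 1) :
    1 / 8 * (1 - r ^ 2) ^ (1 / 2 - ϑ / 4) * (1 - Real.log (1 - r ^ 2)) ≤ Sph s r := by
  have hpi := Real.pi_gt_three
  have ce := continuous_ee
  obtain ⟨η, hη⟩ : ∃ η : ℝ, η = 1 - r ^ 2 := ⟨_, rfl⟩
  have hη0 : 0 < η := by rw [hη]; nlinarith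
  have hη1 : η ≤ 1 := by rw [hη]; nlinarith
  rw [Sph, ← hη]
  have hc0 : ∀ θ : ℝ, 0 < ‖1 - (r : ℂ) * ee θ‖ := by
    intro θ
    rw [norm_pos_iff]
    exact one_sub_ne (ee_mem (by rw [abs_of_nonneg h0]; exact h1) θ)
  have hcont : Continuous fun θ : ℝ => (η / ‖1 - (r : ℂ) * ee θ‖ ^ 2) ^ s := by
    refine Continuous.rpow_const ?_ fun θ => Or.inl ?_
    · refine Continuous.div continuous_const (by fun_prop) fun θ => ?_
      exact (pow_pos (hc0 θ) 2).ne'
    · exact (div_pos hη0 (pow_pos (hc0 θ) 2)).ne'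
  set τ : ℝ := 4 / 5 * η ^ (5 / 8 : ℝ) with hτ
  have hη58 : 0 < η ^ (5 / 8 : ℝ) := Real.rpow_pos_of_pos hη0 _
  have hη58' : η ^ (5 / 8 : ℝ) ≤ 1 := Real.rpow_le_one hη0.le hη1 (by norm_num)
  have hτ0 : 0 < τ := by positivity
  have hτ1 : τ ≤ 1 := by rw [hτ]; linarith
  have hη54 : (η ^ (5 / 8 : ℝ)) ^ 2 = η ^ (5 / 4 : ℝ) := by
    rw [← Real.rpow_natCast, ← Real.rpow_mul hη0.le]
    norm_num
  have hηs : (Real.sqrt η) ^ 2 = η := Real.sq_sqrt hη0.le
  -- the pointwise bound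
  have hpt : ∀ θ ∈ Icc 0 τ, η ^ (1 / 2 - ϑ / 4) * (η + θ)⁻¹ ≤ (η / ‖1 - (r : ℂ) * ee θ‖ ^ 2) ^ s := by
    intro θ hθ
    have hθ0 := hθ.1
    have hcos := Real.one_sub_sq_div_two_le_cos (x := θ)
    set c := ‖1 - (r : ℂ) * ee θ‖ ^ 2 with hc
    have hcpos : 0 < c := pow_pos (hc0 θ) 2
    have hc1 : c ≤ (1 - r) ^ 2 + r * θ ^ 2 := by
      rw [hc, norm_one_sub]
      nlinarith
    have hr1 : 1 - r ≤ η := by rw [hη]; nlinarith
    have hr2 : (1 - r) ^ 2 ≤ η ^ 2 := by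
      have : 0 ≤ 1 - r := by linarith
      gcongr
    have hc2 : c ≤ (η + θ) ^ 2 := by nlinarith [mul_nonneg hη0.le hθ0, sq_nonneg θ]
    have hηη : η ^ 2 ≤ η ^ (5 / 4 : ℝ) := by
      rw [← Real.rpow_natCast]
      exact Real.rpow_le_rpow_of_exponent_ge hη0 hη1 (by norm_num)
    have hθ2 : θ ^ 2 ≤ 16 / 25 * η ^ (5 / 4 : ℝ) := by
      have : θ ^ 2 ≤ τ ^ 2 := by
        have := hθ.2
        gcongr
      rw [hτ, mul_pow, hη54] at this
      linarith
    have hη54p : 0 < η ^ (5 / 4 : ℝ) := Real.rpow_pos_of_pos hη0 _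
    have hc3 : c ≤ η ^ (5 / 4 : ℝ) := by
      have e1 : (1 - r) ^ 2 * (1 + r) ^ 2 = η ^ 2 := by rw [hη]; ring
      have e2 : (1 - r) ^ 2 ≤ (1 - 16 / 25 * r) * η ^ (5 / 4 : ℝ) := by
        have h5 : 1 ≤ (1 - 16 / 25 * r) * (1 + r) ^ 2 := by
          have : 0 ≤ r * (34 - 7 * r - 16 * r ^ 2) := mul_nonneg h0 (by nlinarith)
          nlinarith
        have h6 : (1 - r) ^ 2 * 1 ≤ (1 - r) ^ 2 * ((1 - 16 / 25 * r) * (1 + r) ^ 2) :=
          mul_le_mul_of_nonneg_left h5 (sq_nonneg _)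
        have h7 : (1 - r) ^ 2 * ((1 - 16 / 25 * r) * (1 + r) ^ 2) = (1 - 16 / 25 * r) * η ^ 2 := by
          rw [← e1]; ring
        have h8 : 0 ≤ 1 - 16 / 25 * r := by linarith
        nlinarith
      nlinarith
    set q := η / c with hq
    have hq0 : 0 < q := div_pos hη0 hcpos
    have hq1 : η ^ (-(1 / 4) : ℝ) ≤ q := by
      rw [hq, le_div_iff₀ hcpos]
      calc η ^ (-(1 / 4) : ℝ) * c ≤ η ^ (-(1 / 4) : ℝ) * η ^ (5 / 4 : ℝ) := by gcongr
        _ = η := by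
            rw [← Real.rpow_add hη0]
            norm_num
    have hq2 : 1 ≤ η ^ (-(1 / 4) : ℝ) := Real.one_le_rpow_of_pos_of_le_one_of_nonpos hη0 hη1 (by norm_num)
    have hq3 : 1 ≤ q := hq2.trans hq1
    have hq4 : η / (η + θ) ^ 2 ≤ q := by
      rw [hq]
      gcongr
    have h9 : Real.sqrt η / (η + θ) ≤ Real.sqrt q := by
      apply Real.le_sqrt_of_sq_le
      rw [div_pow, hηs]
      exact hq4
    have h10 : η ^ (-(ϑ / 4) : ℝ) ≤ q ^ ϑ := by
      calc η ^ (-(ϑ / 4) : ℝ) = (η ^ (-(1 / 4) : ℝ)) ^ ϑ := by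
            rw [← Real.rpow_mul hη0.le]
            congr 1
            ring
        _ ≤ q ^ ϑ := by gcongr
    calc η ^ (1 / 2 - ϑ / 4) * (η + θ)⁻¹ = (Real.sqrt η / (η + θ)) * η ^ (-(ϑ / 4) : ℝ) := by
          rw [Real.sqrt_eq_rpow, sub_eq_add_neg, Real.rpow_add hη0]
          ring
      _ ≤ Real.sqrt q * q ^ ϑ := by gcongr
      _ = q ^ (1 / 2 + ϑ) := by rw [Real.sqrt_eq_rpow, ← Real.rpow_add hq0]
      _ ≤ q ^ s := Real.rpow_le_rpow_of_exponent_le hq3 hs
  have hint : ∫ θ in (0 : ℝ)..τ, η ^ (1 / 2 - ϑ / 4) * (η + θ)⁻¹ =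
      η ^ (1 / 2 - ϑ / 4) * (Real.log (η + τ) - Real.log η) := by
    rw [intervalIntegral.integral_const_mul]
    congr 1
    have hd : ∀ x ∈ uIcc (0 : ℝ) τ, HasDerivAt (fun x => Real.log (η + x)) (η + x)⁻¹ x := by
      intro x hx
      rw [uIcc_of_le hτ0.le] at hx
      have h2 : HasDerivAt (fun x : ℝ => η + x) 1 x := by
        simpa using (hasDerivAt_id x).const_add η
      have h3 := h2.log (by linarith [hx.1])
      simpa using h3
    rw [intervalIntegral.integral_eq_sub_of_hasDerivAt hd]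
    · simp
    · refine ContinuousOn.intervalIntegrable ?_
      rw [uIcc_of_le hτ0.le]
      refine ContinuousOn.inv₀ (by fun_prop) fun x hx => ?_
      linarith [hx.1]
  have hlow : η ^ (1 / 2 - ϑ / 4) * (Real.log (η + τ) - Real.log η) ≤
      ∫ θ in (-Real.pi)..Real.pi, (η / ‖1 - (r : ℂ) * ee θ‖ ^ 2) ^ s := by
    rw [← hint]
    calc ∫ θ in (0 : ℝ)..τ, η ^ (1 / 2 - ϑ / 4) * (η + θ)⁻¹ ≤
        ∫ θ in (0 : ℝ)..τ, (η / ‖1 - (r : ℂ) * ee θ‖ ^ 2) ^ s := by
          refine intervalIntegral.integral_mono_on hτ0.le ?_ (hcont.intervalIntegrable _ _) hpt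
          refine ContinuousOn.intervalIntegrable ?_
          rw [uIcc_of_le hτ0.le]
          refine ContinuousOn.mul continuousOn_const (ContinuousOn.inv₀ (by fun_prop) fun x hx => ?_)
          linarith [hx.1]
      _ ≤ _ := by
          refine intervalIntegral.integral_mono_interval (by linarith) hτ0.le (by linarith) ?_
            (hcont.intervalIntegrable _ _)
          exact Filter.Eventually.of_forall fun θ => Real.rpow_nonneg (by positivity) _
  refine le_trans ?_ hlow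
  have hlogη : Real.log η ≤ 0 := Real.log_nonpos hη0.le hη1
  have hlog : 1 / 8 * (1 - Real.log η) ≤ Real.log (η + τ) - Real.log η := by
    have h2 : 2 * (Real.log (η + τ)) ≥ Real.log (4 * η * τ) := by
      have h3 : 4 * η * τ ≤ (η + τ) ^ 2 := by nlinarith [sq_nonneg (η - τ)]
      have h4 := Real.log_le_log (by positivity) h3
      rw [Real.log_pow] at h4
      push_cast at h4
      exact h4
    have h5 : Real.log (4 * η * τ) = Real.log 4 + Real.log η + Real.log (4 / 5) + 5 / 8 * Real.log η := by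
      rw [hτ, Real.log_mul (by positivity) (by positivity), Real.log_mul (by norm_num) hη0.ne',
        Real.log_mul (by norm_num) hη58.ne', Real.log_rpow hη0]
      ring
    have h6 : Real.log 4 = 2 * Real.log 2 := by
      rw [show (4 : ℝ) = 2 ^ 2 by norm_num, Real.log_pow]
      push_cast
      ring
    have h7 : -(1 / 4) ≤ Real.log (4 / 5) := by
      have h8 := Real.log_le_sub_one_of_pos (show (0 : ℝ) < 5 / 4 by norm_num)
      have h9 : Real.log (4 / 5) = - Real.log (5 / 4) := by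
        rw [← Real.log_inv]
        norm_num
      rw [h9]
      linarith
    have h10 := Real.log_two_gt_d9
    rw [h5, h6] at h2
    linarith
  have hηp : 0 < η ^ (1 / 2 - ϑ / 4) := Real.rpow_pos_of_pos hη0 _
  calc 1 / 8 * η ^ (1 / 2 - ϑ / 4) * (1 - Real.log η) = η ^ (1 / 2 - ϑ / 4) * (1 / 8 * (1 - Real.log η)) := by
        ring
    _ ≤ _ := by gcongr

/-- the weight integral -/
theorem weight_ge {U ϑ : ℝ} (hU : 1 ≤ U) (hϑ : 0 ≤ ϑ) :
    ENNReal.ofReal (Real.log U ^ 3 * U ^ (ϑ / 4) / 110) ≤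
      ∫⁻ r in Ioo 0 (Real.sqrt (1 - 1 / U)), ENNReal.ofReal (4 * r / (1 - r ^ 2) ^ 2) *
        ENNReal.ofReal ((1 / 8 * (1 - r ^ 2) ^ (1 / 2 - ϑ / 4) * (1 - Real.log (1 - r ^ 2))) ^ 2) := by
  have hU0 : 0 < U := by linarith
  set r₀ := Real.sqrt (1 - 1 / U) with hr₀
  set r₁ := Real.sqrt (1 - 1 / Real.sqrt U) with hr₁
  have hsU : 1 ≤ Real.sqrt U := Real.one_le_sqrt.2 hU
  have hsU0 : 0 < Real.sqrt U := by linarith
  have hsU2 : Real.sqrt U ^ 2 = U := Real.sq_sqrt hU0.le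
  have hsUU : Real.sqrt U ≤ U := by nlinarith
  have h1 : 0 ≤ 1 - 1 / U := by
    rw [sub_nonneg, div_le_one hU0]
    exact hU
  have h2 : 0 ≤ 1 - 1 / Real.sqrt U := by
    rw [sub_nonneg, div_le_one hsU0]
    exact hsU
  have hr₀2 : 1 - r₀ ^ 2 = 1 / U := by rw [hr₀, Real.sq_sqrt h1]; ring
  have hr₁2 : 1 - r₁ ^ 2 = 1 / Real.sqrt U := by rw [hr₁, Real.sq_sqrt h2]; ring
  have hr₁0 : 0 ≤ r₁ := Real.sqrt_nonneg _
  have hr01 : r₁ ≤ r₀ := by
    apply Real.sqrt_le_sqrt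
    have : 1 / U ≤ 1 / Real.sqrt U := by gcongr
    linarith
  have hr₀1 : r₀ < 1 := by
    rw [hr₀, Real.sqrt_lt' one_pos]
    have : 0 < 1 / U := by positivity
    linarith
  set l := Real.log U with hl
  have hl0 : 0 ≤ l := Real.log_nonneg hU
  have hpos : ∀ r ∈ Icc r₁ r₀, 0 < 1 - r ^ 2 := by
    intro r hr
    have h3 : 0 ≤ r := hr₁0.trans hr.1
    have h4 : r < 1 := hr.2.trans_lt hr₀1
    nlinarith
  set g : ℝ → ℝ := fun r => U ^ (ϑ / 4) / 32 * ((1 - Real.log (1 - r ^ 2)) ^ 2 * (2 * r / (1 - r ^ 2))) with hg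
  have hgc : ContinuousOn g (Icc r₁ r₀) := by
    rw [hg]
    refine continuousOn_const.mul (ContinuousOn.mul (ContinuousOn.pow (continuousOn_const.sub
      (ContinuousOn.log (by fun_prop) fun r hr => (hpos r hr).ne')) 2) ?_)
    exact ContinuousOn.div (by fun_prop) (by fun_prop) fun r hr => (hpos r hr).ne'
  have hgi : ∫ r in r₁..r₀, g r = U ^ (ϑ / 4) / 32 * (((1 + l) ^ 3 - (1 + l / 2) ^ 3) / 3) := by
    rw [hg, intervalIntegral.integral_const_mul]
    congr 1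
    have hd : ∀ x ∈ uIcc r₁ r₀, HasDerivAt (fun r : ℝ => (1 - Real.log (1 - r ^ 2)) ^ 3 / 3)
        ((1 - Real.log (1 - x ^ 2)) ^ 2 * (2 * x / (1 - x ^ 2))) x := by
      intro x hx
      rw [uIcc_of_le hr01] at hx
      have h3 : HasDerivAt (fun r : ℝ => 1 - r ^ 2) (-(2 * x)) x := by
        simpa using ((hasDerivAt_id x).pow 2).const_sub 1
      have h4 := ((((h3.log (hpos x hx).ne').const_sub 1).pow 3).div_const 3)
      refine h4.congr_deriv ?_
      simp only [Nat.cast_ofNat, Nat.add_one_sub_one]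
      ring
    rw [intervalIntegral.integral_eq_sub_of_hasDerivAt hd]
    · rw [hr₀2, hr₁2, one_div, one_div, Real.log_inv, Real.log_inv, Real.log_sqrt hU0.le, ← hl]
      ring
    · refine ContinuousOn.intervalIntegrable ?_
      rw [uIcc_of_le hr01]
      refine ContinuousOn.mul (ContinuousOn.pow (continuousOn_const.sub
        (ContinuousOn.log (by fun_prop) fun r hr => (hpos r hr).ne')) 2) ?_
      exact ContinuousOn.div (by fun_prop) (by fun_prop) fun r hr => (hpos r hr).ne'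
  have hUϑ : 0 < U ^ (ϑ / 4) := Real.rpow_pos_of_pos hU0 _
  calc ENNReal.ofReal (l ^ 3 * U ^ (ϑ / 4) / 110) ≤ ENNReal.ofReal (∫ r in r₁..r₀, g r) := by
        apply ENNReal.ofReal_le_ofReal
        rw [hgi]
        have h5 : 7 / 8 * l ^ 3 ≤ (1 + l) ^ 3 - (1 + l / 2) ^ 3 := by nlinarith [sq_nonneg l]
        have h6 : 0 ≤ l ^ 3 := by positivity
        have h7 : l ^ 3 / 110 ≤ ((1 + l) ^ 3 - (1 + l / 2) ^ 3) / 3 / 32 := by linarith
        calc l ^ 3 * U ^ (ϑ / 4) / 110 = U ^ (ϑ / 4) * (l ^ 3 / 110) := by ring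
          _ ≤ U ^ (ϑ / 4) * (((1 + l) ^ 3 - (1 + l / 2) ^ 3) / 3 / 32) := by gcongr
          _ = _ := by ring
    _ = ∫⁻ r in Ioo r₁ r₀, ENNReal.ofReal (g r) := by
        rw [intervalIntegral.integral_of_le hr01, integral_Ioc_eq_integral_Ioo,
          ofReal_integral_eq_lintegral_ofReal]
        · exact (hgc.integrableOn_Icc).mono_set Ioo_subset_Icc_self
        · refine (ae_restrict_iff' measurableSet_Ioo).2 (Filter.Eventually.of_forall fun r hr => ?_)
          have h8 := hpos r (Ioo_subset_Icc_self hr)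
          have h9 : 0 ≤ r := hr₁0.trans hr.1.le
          simp only [hg, Pi.zero_apply]
          positivity
    _ ≤ ∫⁻ r in Ioo r₁ r₀, ENNReal.ofReal (4 * r / (1 - r ^ 2) ^ 2) *
        ENNReal.ofReal ((1 / 8 * (1 - r ^ 2) ^ (1 / 2 - ϑ / 4) * (1 - Real.log (1 - r ^ 2))) ^ 2) := by
        refine setLIntegral_mono' measurableSet_Ioo fun r hr => ?_
        have h8 := hpos r (Ioo_subset_Icc_self hr)
        have h9 : 0 ≤ r := hr₁0.trans hr.1.le
        rw [← ENNReal.ofReal_mul (by positivity)]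
        apply ENNReal.ofReal_le_ofReal
        simp only [hg]
        obtain ⟨η, hη⟩ : ∃ η : ℝ, η = 1 - r ^ 2 := ⟨_, rfl⟩
        rw [← hη] at h8 ⊢
        have hη1 : η ≤ 1 / Real.sqrt U := by
          rw [hη, ← hr₁2]
          have := hr.1.le
          gcongr
        have h10 : (η ^ (1 / 2 - ϑ / 4)) ^ 2 = η * η ^ (-(ϑ / 2)) := by
          rw [← Real.rpow_natCast, ← Real.rpow_mul h8.le]
          nth_rewrite 2 [← Real.rpow_one η]
          rw [← Real.rpow_add h8]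
          congr 1
          push_cast
          ring
        have h11 : U ^ (ϑ / 4) ≤ η ^ (-(ϑ / 2)) := by
          have h12 : U ^ (ϑ / 4) = (1 / Real.sqrt U) ^ (-(ϑ / 2)) := by
            rw [one_div, Real.inv_rpow hsU0.le, ← Real.rpow_neg hsU0.le, neg_neg, Real.sqrt_eq_rpow,
              ← Real.rpow_mul hU0.le]
            congr 1
            ring
          rw [h12]
          exact Real.rpow_le_rpow_of_nonpos h8 hη1 (by linarith)
        calc U ^ (ϑ / 4) / 32 * ((1 - Real.log η) ^ 2 * (2 * r / η)) ≤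
            η ^ (-(ϑ / 2)) / 32 * ((1 - Real.log η) ^ 2 * (2 * r / η)) := by gcongr
          _ = 4 * r / η ^ 2 * (1 / 8 * η ^ (1 / 2 - ϑ / 4) * (1 - Real.log η)) ^ 2 := by
              rw [mul_pow, mul_pow, h10]
              field_simp
              ring
    _ ≤ _ := lintegral_mono_set (Ioo_subset_Ioo_left hr₁0)

end Pool.Agent.T2H31
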