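import Pool.Agent.T2H31.Sph4
import Pool.Agent.T2H31.Count0

/-! Multiplicities for large balls. -/

set_option autoImplicit false

namespace Pool.Agent.T2H31

open Complex MeasureTheory Set Function
open UpperHalfPlane hiding I
open ModularGroup
open scoped ENNReal NNReal MatrixGroups Modular

/-- two Hecke points modulo `SL(2, ℤ)` -/
theorem form_small' {q q' : ℕ × ℕ × ℕ} (h1 : 0 < q.1) (h2 : 0 < q.2.2) (h1' : 0 < q'.1) (h2' : 0 < q'.2.2)
    (z : ℍ) (g : SL(2, ℤ)) {τ : ℝ}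
    (hs2 : Real.sinh (dist (hp q z) (g • hp q' z) / 2) ≤ τ) :
    ‖Qf (q.2.2 * (g 0 0 * q'.1) - q.2.1 * (g 1 0 * q'.1))
        (q.2.2 * (g 0 0 * q'.2.1 + g 0 1 * q'.2.2) - q.2.1 * (g 1 0 * q'.2.1 + g 1 1 * q'.2.2))
        (q.1 * (g 1 0 * q'.1)) (q.1 * (g 1 0 * q'.2.1 + g 1 1 * q'.2.2)) z‖ ≤
      (2 * τ) * Real.sqrt ((q.1 * q.2.2 * (q'.1 * q'.2.2) : ℕ) : ℝ) * z.im := by
  have hz := z.im_pos
  obtain ⟨a, b, d⟩ := q
  obtain ⟨a', b', d'⟩ := q'
  simp only at h1 h2 h1' h2' hs2 ⊢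
  have e1 := coe_hp (q := (a, b, d)) h1 h2 z
  have e2 := coe_hp (q := (a', b', d')) h1' h2' z
  have i1 := im_hp (q := (a, b, d)) h1 h2 z
  have i2 := im_hp (q := (a', b', d')) h1' h2' z
  simp only at e1 e2 i1 i2
  have e3 := coe_smul g (hp (a', b', d') z)
  have i3 := im_smul' g (hp (a', b', d') z)
  rw [e2] at e3 i3
  rw [i2] at i3
  have ha : (0 : ℝ) < a := by exact_mod_cast h1
  have hd : (0 : ℝ) < d := by exact_mod_cast h2
  have ha' : (0 : ℝ) < a' := by exact_mod_cast h1'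
  have hd' : (0 : ℝ) < d' := by exact_mod_cast h2'
  have hdc : (d : ℂ) ≠ 0 := by exact_mod_cast h2.ne'
  have hdc' : (d' : ℂ) ≠ 0 := by exact_mod_cast h2'.ne'
  set D : ℂ := (g 1 0 : ℤ) * (a' * z + b') + (g 1 1 : ℤ) * d' with hD
  have hden : ((g 1 0 : ℤ) : ℂ) * ((a' * z + b') / d') + (g 1 1 : ℤ) = D / d' := by
    rw [hD]; field_simp
  have hDne : D / d' ≠ 0 := by
    rw [← hden]
    intro h0
    have h5 := (g • hp (a', b', d') z).im_pos
    rw [i3, h0] at h5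
    simp at h5
  have hD0 : D ≠ 0 := fun h => hDne (by rw [h, zero_div])
  have hnD : 0 < ‖D‖ := norm_pos_iff.2 hD0
  rw [hden] at e3 i3
  -- the distance
  have hs := sinh_half_dist (hp (a, b, d) z) (g • hp (a', b', d') z)
  have hprod : (hp (a, b, d) z).im * (g • hp (a', b', d') z).im =
      (Real.sqrt ((a * d * (a' * d') : ℕ) : ℝ) * z.im / (d * ‖D‖)) ^ 2 := by
    rw [i1, i3, div_pow, mul_pow, Real.sq_sqrt (by positivity), norm_div, Complex.norm_natCast]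
    push_cast
    field_simp
  rw [hprod, Real.sqrt_sq (by positivity)] at hs
  rw [hs, div_le_iff₀ (by positivity), Complex.dist_eq, e1, e3] at hs2
  have hQ : ((a : ℂ) * z + b) / d - ((g 0 0 : ℤ) * ((a' * z + b') / d') + (g 0 1 : ℤ)) / (D / d') =
      Qf (d * (g 0 0 * a') - b * (g 1 0 * a'))
        (d * (g 0 0 * b' + g 0 1 * d') - b * (g 1 0 * b' + g 1 1 * d'))
        (a * (g 1 0 * a')) (a * (g 1 0 * b' + g 1 1 * d')) z / (d * D) := by
    rw [Qf]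
    field_simp
    rw [hD]
    push_cast
    ring
  rw [hQ, norm_div, norm_mul, Complex.norm_natCast, div_le_iff₀ (by positivity)] at hs2
  refine hs2.trans (le_of_eq ?_)
  field_simp

/-- the radius attached to `U` -/
noncomputable def rad (U : ℝ) : ℝ := 2 * Real.arsinh (Real.sqrt (U - 1))

theorem sinh_rad {U : ℝ} (hU : 1 ≤ U) : Real.sinh (rad U) ≤ 2 * U := by
  have e : rad U = 2 * Real.arsinh (Real.sqrt (U - 1)) := rfl
  have h0 : 0 ≤ U - 1 := by linarith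
  rw [e, Real.sinh_two_mul, Real.sinh_arsinh, Real.cosh_arsinh, Real.sq_sqrt h0]
  have h1 : Real.sqrt (U - 1) ≤ Real.sqrt U := Real.sqrt_le_sqrt (by linarith)
  have h2 : Real.sqrt (1 + (U - 1)) = Real.sqrt U := by congr 1; ring
  have h3 : Real.sqrt U ^ 2 = U := Real.sq_sqrt (by linarith)
  have h4 := Real.sqrt_nonneg U
  have h5 := Real.sqrt_nonneg (U - 1)
  rw [h2]
  nlinarith

theorem dist_rad {U : ℝ} (hU : 1 ≤ U) (z : ℍ) (w : ℂ) (hw : w ∈ DD) (h : ‖w‖ ≤ Real.sqrt (1 - 1 / U)) :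
    dist (⟨cay z w, cay_mem z hw⟩ : ℍ) z ≤ rad U := by
  have hU0 : 0 < U := by linarith
  have h1 : 0 ≤ 1 - 1 / U := by
    rw [sub_nonneg, div_le_one hU0]
    exact hU
  have h2 : ‖w‖ ^ 2 ≤ 1 - 1 / U := by
    calc ‖w‖ ^ 2 ≤ Real.sqrt (1 - 1 / U) ^ 2 := by gcongr
      _ = _ := Real.sq_sqrt h1
  have h3 := norm_sq_lt hw
  have h4 : 0 < 1 - ‖w‖ ^ 2 := by linarith
  have h5 : Real.sinh (dist (⟨cay z w, cay_mem z hw⟩ : ℍ) z / 2) ≤ Real.sqrt (U - 1) := by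
    rw [dist_comm, sinh_cay z hw]
    apply Real.le_sqrt_of_sq_le
    rw [div_pow, Real.sq_sqrt h4.le, div_le_iff₀ h4]
    have h6 : 1 / U ≤ 1 - ‖w‖ ^ 2 := by linarith
    have h7 : 1 ≤ U * (1 - ‖w‖ ^ 2) := by
      rw [div_le_iff₀ hU0] at h6
      linarith
    nlinarith
  have h6 := Real.arsinh_le_arsinh.2 h5
  rw [Real.arsinh_sinh] at h6
  rw [rad]
  linarith

theorem close_of_two' {Γ : Subgroup SL(2, ℤ)} {u v w : ℍ} {ρ : ℝ} {γ γ' : Γ}
    (h : (γ : SL(2, ℤ)) • w ∈ Metric.closedBall u ρ) (h' : (γ' : SL(2, ℤ)) • w ∈ Metric.closedBall v ρ) :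
    dist u (((γ * γ'⁻¹ : Γ) : SL(2, ℤ)) • v) ≤ 2 * ρ := by
  rw [Metric.mem_closedBall] at h h'
  have e : dist ((γ : SL(2, ℤ)) • w) (((γ * γ'⁻¹ : Γ) : SL(2, ℤ)) • v) = dist ((γ' : SL(2, ℤ)) • w) v := by
    rw [Subgroup.coe_mul, mul_smul, dist_smul', Subgroup.coe_inv]
    conv_rhs => rw [← dist_smul' (γ' : SL(2, ℤ))⁻¹, inv_smul_smul]
  calc dist u (((γ * γ'⁻¹ : Γ) : SL(2, ℤ)) • v) ≤ dist u ((γ : SL(2, ℤ)) • w) +
        dist ((γ : SL(2, ℤ)) • w) (((γ * γ'⁻¹ : Γ) : SL(2, ℤ)) • v) := dist_triangle _ _ _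
    _ ≤ ρ + ρ := by rw [e, dist_comm]; exact add_le_add h h'
    _ = 2 * ρ := by ring

theorem close_uniqueU {N X : ℕ} {U : ℝ} (hU : 1 ≤ U) {z : ℍ} (hz : GoodN N (4 * U) X z)
    {q q' : ℕ × ℕ × ℕ} (h : q ∈ IX X) (h' : q' ∈ IX X) (g : SL(2, ℤ))
    (hg : g ∈ CongruenceSubgroup.Gamma0 N)
    (hd : dist (hp q z) (g • hp q' z) ≤ 2 * rad U) : q = q' ∧ (g = 1 ∨ g = -1) := by
  rw [mem_IX] at h h'
  obtain ⟨hq, hX⟩ := h
  obtain ⟨hq', hX'⟩ := h'
  have p1 := hq.1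
  have p2 : 0 < q.2.2 := by have := hq.2.1; omega
  have p1' := hq'.1
  have p2' : 0 < q'.2.2 := by have := hq'.2.1; omega
  have hdet := g.det_coe
  rw [Matrix.det_fin_two] at hdet
  have hs : Real.sinh (dist (hp q z) (g • hp q' z) / 2) ≤ 2 * U :=
    (Real.sinh_le_sinh.2 (by linarith)).trans (sinh_rad hU)
  have key := form_small' p1 p2 p1' p2' z g hs
  have h22 : 2 * (2 * U) = 4 * U := by ring
  rw [h22] at key
  have hdet2 : ((q.2.2 : ℤ) * (g 0 0 * q'.1) - q.2.1 * (g 1 0 * q'.1)) *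
      (q.1 * (g 1 0 * q'.2.1 + g 1 1 * q'.2.2)) -
      (q.2.2 * (g 0 0 * q'.2.1 + g 0 1 * q'.2.2) - q.2.1 * (g 1 0 * q'.2.1 + g 1 1 * q'.2.2)) *
      (q.1 * (g 1 0 * q'.1)) = ((q.1 * q.2.2 * (q'.1 * q'.2.2) : ℕ) : ℤ) := by
    push_cast
    linear_combination ((q.1 : ℤ) * q.2.2 * q'.1 * q'.2.2) * hdet
  have hdvd : (N : ℤ) ∣ (q.1 : ℤ) * (g 1 0 * q'.1) := ((dvd_of_mem hg).mul_right _).mul_left _
  have hres := hz _ _ _ _ hdvd (by
    rw [hdet2]
    have : 1 ≤ q.1 * q.2.2 * (q'.1 * q'.2.2) := by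
      have := Nat.mul_pos (Nat.mul_pos p1 p2) (Nat.mul_pos p1' p2'); omega
    exact_mod_cast this)
    (by
      rw [hdet2]
      have : q.1 * q.2.2 * (q'.1 * q'.2.2) ≤ X ^ 2 := by
        rw [sq]; exact Nat.mul_le_mul hX hX'
      exact_mod_cast this)
    (by rw [hdet2]; exact_mod_cast key)
  exact prim_unique hq hq' g hres.1 hres.2.1 hres.2.2

theorem mult_goodU {N X : ℕ} {U : ℝ} (hU : 1 ≤ U) {z : ℍ} (hz : GoodN N (4 * U) X z) (w : ℍ) :
    ∑ q ∈ IX X, ∑' γ : CongruenceSubgroup.Gamma0 N,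
      (Metric.closedBall (hp q z) (rad U)).indicator (fun _ => (1 : ℝ≥0∞)) ((γ : SL(2, ℤ)) • w) ≤ 2 := by
  classical
  have : (2 : ℝ≥0∞) = ((2 : ℕ) : ℝ≥0∞) := by norm_num
  rw [this]
  refine mult_le0 (IX X) (fun q => Metric.closedBall (hp q z) (rad U)) w 2 fun S hS => ?_
  rcases S.eq_empty_or_nonempty with rfl | ⟨⟨q, γ⟩, hqγ⟩
  · simp
  have hinj : Function.Injective fun x : (ℕ × ℕ × ℕ) × CongruenceSubgroup.Gamma0 N =>
      (x.1, (x.2 : SL(2, ℤ))) := by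
    rintro ⟨a, b⟩ ⟨c, d⟩ h
    simp only [Prod.mk.injEq] at h
    exact Prod.ext h.1 (Subtype.ext h.2)
  rw [← Finset.card_image_of_injective S hinj]
  have hsub : S.image (fun x : (ℕ × ℕ × ℕ) × CongruenceSubgroup.Gamma0 N => (x.1, (x.2 : SL(2, ℤ)))) ⊆
      {(q, (γ : SL(2, ℤ))), (q, -(γ : SL(2, ℤ)))} := by
    intro x hx
    obtain ⟨⟨q', γ'⟩, h', rfl⟩ := Finset.mem_image.1 hx
    obtain ⟨k1, k2⟩ := hS _ hqγ
    obtain ⟨k1', k2'⟩ := hS _ h'
    simp only at k1 k2 k1' k2'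
    have d3 := close_of_two' k2 k2'
    obtain ⟨e1, e2⟩ := close_uniqueU hU hz k1 k1' _ (γ * γ'⁻¹).2 d3
    subst e1
    rw [Subgroup.coe_mul, Subgroup.coe_inv] at e2
    rcases e2 with e2 | e2
    · have : (γ' : SL(2, ℤ)) = γ := (mul_inv_eq_one.1 e2).symm
      rw [this]; simp
    · have : (γ' : SL(2, ℤ)) = -γ := by
        have h5 : (γ : SL(2, ℤ)) = -1 * γ' := by rw [← e2]; group
        rw [h5]; simp
      rw [this]; simp
  exact (Finset.card_le_card hsub).trans Finset.card_le_two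

section
variable {N : ℕ} {ι : Type*} [Fintype ι] {f : ι → ℍ → ℝ} {lam : ι → ℝ} {L : ℝ}
  (S : Sys0 (CongruenceSubgroup.Gamma0 N) (rep N) f lam L)
include S

/-- the pointwise bound with large balls -/
theorem Sys0.good_boundU (hN : N.Prime) {X : ℕ} (c : ℕ × ℕ × ℕ → ℝ) (σ : ι → ℝ)
    (hσ : ∀ j, 1 ≤ σ j ^ 2)
    (hT : ∀ (j : ι) (z : ℍ), ∑ q ∈ IX X, c q * f j (hp q z) = σ j * f j z)
    {ϑ : ℝ} (hϑ : 0 ≤ ϑ) (s : ι → ℝ) (hs : ∀ j, 1 / 2 + ϑ ≤ s j) (hls : ∀ j, lam j = s j * (1 - s j))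
    {U : ℝ} (hU : 1 ≤ U) {z : ℍ} (hz : GoodN N (4 * U) X z) :
    (Real.log U ^ 3 * U ^ (ϑ / 4) / 110) * ∑ j, f j z ^ 2 ≤ 4 * Real.pi * ∑ q ∈ IX X, c q ^ 2 := by
  have ce := continuous_ee
  have hpi := Real.pi_pos
  have hU0 : 0 < U := by linarith
  set r₀ := Real.sqrt (1 - 1 / U) with hr₀
  have hr₀1 : r₀ < 1 := by
    rw [hr₀, Real.sqrt_lt' one_pos]
    have : 0 < 1 / U := by positivity
    linarith
  set a : ι → ℝ := fun j => σ j * f j z with ha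
  set F : ℍ → ℝ := fun u => ∑ j, a j * f j u with hF
  have hsm : Smooth2 F := S.comb_smooth a
  set T := ∑ j, a j ^ 2 with hTdef
  have hT0 : 0 ≤ T := Finset.sum_nonneg fun j _ => sq_nonneg _
  have hc0 : 0 ≤ ∑ q ∈ IX X, c q ^ 2 := Finset.sum_nonneg fun j _ => sq_nonneg _
  -- continuity on circles
  have hcirc : ∀ (g : ℍ → ℝ), Smooth2 g → ∀ (v : ℍ) (r : ℝ), 0 ≤ r → r < 1 →
      Continuous fun θ : ℝ => fc g (cay v (r * ee θ)) := by
    intro g hg v r h0 h1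
    have hc1 : ContinuousOn (fun w : ℂ => fc g (cay v w)) DD := by
      refine (contOn_fc hg).comp (fun w hw => (hasDerivAt_cay v hw).continuousAt.continuousWithinAt)
        fun w hw => cay_mem v hw
    exact hc1.comp_continuous (f := fun θ : ℝ => (r : ℂ) * ee θ) (by fun_prop)
      fun θ => ee_mem (by rw [abs_of_nonneg h0]; exact h1) θ
  -- the circle means
  have hmean : ∀ (v : ℍ) (r : ℝ), 0 ≤ r → r < 1 →
      ∫ θ in (-Real.pi)..Real.pi, fc F (cay v (r * ee θ)) = ∑ j, a j * (Sph (s j) r * f j v) := by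
    intro v r h0 h1
    have e1 : ∀ θ : ℝ, fc F (cay v (r * ee θ)) = ∑ j, a j * fc (f j) (cay v (r * ee θ)) := fun θ => rfl
    simp_rw [e1]
    rw [intervalIntegral.integral_finsetSum]
    · refine Finset.sum_congr rfl fun j _ => ?_
      rw [intervalIntegral.integral_const_mul, mean_eq (S.smooth j) (s := s j) (fun u => by
        rw [S.lap j u, hls j]) v h0 h1]
    · intro j _
      exact ((hcirc _ (S.smooth j) v r h0 h1).const_mul _).intervalIntegrable _ _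
  -- the main inequality on a circle
  have hmain : ∀ r : ℝ, 0 ≤ r → r < 1 →
      (1 / 8 * (1 - r ^ 2) ^ (1 / 2 - ϑ / 4) * (1 - Real.log (1 - r ^ 2))) ^ 2 * T ^ 2 ≤
      (2 * Real.pi * ∑ q ∈ IX X, c q ^ 2) *
        ∑ q ∈ IX X, ∫ θ in (-Real.pi)..Real.pi, fc F (cay (hp q z) (r * ee θ)) ^ 2 := by
    intro r h0 h1
    set φ := 1 / 8 * (1 - r ^ 2) ^ (1 / 2 - ϑ / 4) * (1 - Real.log (1 - r ^ 2)) with hφ
    have hη0 : 0 < 1 - r ^ 2 := by nlinarith
    have hη1 : 1 - r ^ 2 ≤ 1 := by nlinarith [sq_nonneg r]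
    have hφ0 : 0 ≤ φ := by
      have h2 := Real.log_nonpos hη0.le hη1
      have h3 := Real.rpow_nonneg hη0.le (1 / 2 - ϑ / 4)
      have h4 : 0 ≤ 1 - Real.log (1 - r ^ 2) := by linarith
      positivity
    have h3 : ∑ q ∈ IX X, c q * ∫ θ in (-Real.pi)..Real.pi, fc F (cay (hp q z) (r * ee θ)) =
        ∑ j, Sph (s j) r * a j ^ 2 := by
      calc ∑ q ∈ IX X, c q * ∫ θ in (-Real.pi)..Real.pi, fc F (cay (hp q z) (r * ee θ)) =
          ∑ q ∈ IX X, ∑ j, a j * Sph (s j) r * (c q * f j (hp q z)) := by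
            refine Finset.sum_congr rfl fun q _ => ?_
            rw [hmean _ r h0 h1, Finset.mul_sum]
            refine Finset.sum_congr rfl fun j _ => by ring
        _ = ∑ j, ∑ q ∈ IX X, a j * Sph (s j) r * (c q * f j (hp q z)) := Finset.sum_comm
        _ = _ := by
            refine Finset.sum_congr rfl fun j _ => ?_
            rw [← Finset.mul_sum, hT, ha]
            ring
    have h4 : φ * T ≤ ∑ j, Sph (s j) r * a j ^ 2 := by
      rw [hTdef, Finset.mul_sum]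
      refine Finset.sum_le_sum fun j _ => ?_
      exact mul_le_mul_of_nonneg_right (Sph_ge hϑ (hs j) h0 h1) (sq_nonneg _)
    have cs := Finset.sum_mul_sq_le_sq_mul_sq (IX X) c
      fun q => ∫ θ in (-Real.pi)..Real.pi, fc F (cay (hp q z) (r * ee θ))
    rw [h3] at cs
    have h5 : ∀ q ∈ IX X, (∫ θ in (-Real.pi)..Real.pi, fc F (cay (hp q z) (r * ee θ))) ^ 2 ≤
        2 * Real.pi * ∫ θ in (-Real.pi)..Real.pi, fc F (cay (hp q z) (r * ee θ)) ^ 2 := by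
      intro q _
      have h6 := cs_weight (w := fun _ => 1) continuous_const (hcirc F hsm (hp q z) r h0 h1)
        (a := -Real.pi) (b := Real.pi) (by linarith) (fun _ _ => zero_le_one)
      simp only [one_mul, intervalIntegral.integral_const, smul_eq_mul, mul_one] at h6
      refine h6.trans (le_of_eq ?_)
      ring
    calc φ ^ 2 * T ^ 2 = (φ * T) ^ 2 := by ring
      _ ≤ (∑ j, Sph (s j) r * a j ^ 2) ^ 2 := by gcongr
      _ ≤ (∑ q ∈ IX X, c q ^ 2) * ∑ q ∈ IX X,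
          (∫ θ in (-Real.pi)..Real.pi, fc F (cay (hp q z) (r * ee θ))) ^ 2 := cs
      _ ≤ (∑ q ∈ IX X, c q ^ 2) * ∑ q ∈ IX X,
          2 * Real.pi * ∫ θ in (-Real.pi)..Real.pi, fc F (cay (hp q z) (r * ee θ)) ^ 2 := by
          gcongr with q hq
          exact h5 q hq
      _ = _ := by
          rw [← Finset.mul_sum]
          ring
  -- integration over the radius
  have hmeasr : ∀ q ∈ IX X, AEMeasurable (fun r : ℝ => ENNReal.ofReal (4 * r / (1 - r ^ 2) ^ 2) *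
      ENNReal.ofReal (∫ θ in (-Real.pi)..Real.pi, fc F (cay (hp q z) (r * ee θ)) ^ 2))
      (volume.restrict (Ioo 0 r₀)) := by
    intro q _
    have hd : DifferentiableOn ℂ (cay (hp q z)) DD := fun w hw =>
      (hasDerivAt_cay _ hw).differentiableAt.differentiableWithinAt
    have hG : ContDiffOn ℝ 2 (fc F ∘ cay (hp q z)) DD :=
      (lapl_comp isOpen_DD isOpen_HH hd hsm (fun w hw => cay_mem _ hw) (z := 0) (by rw [DD]; simp)).1
    have hG2 : ContDiffOn ℝ 2 (fun w => (fc F ∘ cay (hp q z)) w ^ 2) DD := hG.pow 2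
    have hcont : ContinuousOn (fun r : ℝ => ∫ θ in (-Real.pi)..Real.pi,
        fc F (cay (hp q z) (r * ee θ)) ^ 2) (Ioo 0 r₀) := by
      intro r hr
      exact (deriv_P hG2 (s := r) (by rw [abs_of_pos hr.1]; exact hr.2.trans hr₀1)).continuousAt.continuousWithinAt
    refine AEMeasurable.mul ?_ (hcont.aemeasurable measurableSet_Ioo).ennreal_ofReal
    have : Measurable fun r : ℝ => ENNReal.ofReal (4 * r / (1 - r ^ 2) ^ 2) := by fun_prop
    exact this.aemeasurable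
  have m1 : Measurable fun u : ℍ => ENNReal.ofReal (F u ^ 2) := by
    have := (cont_f hsm).measurable
    fun_prop
  have hunf := unfold_sum0 (hcovN hN) (IX X) (B := fun q => Metric.closedBall (hp q z) (rad U))
    (fun q => Metric.isClosed_closedBall.measurableSet) m1
    (fun γ u => by simp only [hF, S.inv]) (mult_goodU hU hz)
  have hen : ∑ r : Option (Fin N), ∫⁻ u in 𝒟, ENNReal.ofReal (F (rep N r • u) ^ 2) = ENNReal.ofReal T :=
    S.energy a
  rw [hen] at hunf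
  have key : ENNReal.ofReal (Real.log U ^ 3 * U ^ (ϑ / 4) / 110) * ENNReal.ofReal (T ^ 2) ≤
      ENNReal.ofReal (2 * Real.pi * ∑ q ∈ IX X, c q ^ 2) * (2 * ENNReal.ofReal T) := by
    calc ENNReal.ofReal (Real.log U ^ 3 * U ^ (ϑ / 4) / 110) * ENNReal.ofReal (T ^ 2) ≤
        (∫⁻ r in Ioo 0 r₀, ENNReal.ofReal (4 * r / (1 - r ^ 2) ^ 2) *
        ENNReal.ofReal ((1 / 8 * (1 - r ^ 2) ^ (1 / 2 - ϑ / 4) * (1 - Real.log (1 - r ^ 2))) ^ 2)) *
          ENNReal.ofReal (T ^ 2) := mul_le_mul_left (weight_ge hU hϑ) _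
      _ = ∫⁻ r in Ioo 0 r₀, ENNReal.ofReal (4 * r / (1 - r ^ 2) ^ 2) *
        ENNReal.ofReal ((1 / 8 * (1 - r ^ 2) ^ (1 / 2 - ϑ / 4) * (1 - Real.log (1 - r ^ 2))) ^ 2) *
          ENNReal.ofReal (T ^ 2) := (lintegral_mul_const' _ _ ENNReal.ofReal_ne_top).symm
      _ ≤ ∫⁻ r in Ioo 0 r₀, ENNReal.ofReal (2 * Real.pi * ∑ q ∈ IX X, c q ^ 2) * ∑ q ∈ IX X,
          ENNReal.ofReal (4 * r / (1 - r ^ 2) ^ 2) *
          ENNReal.ofReal (∫ θ in (-Real.pi)..Real.pi, fc F (cay (hp q z) (r * ee θ)) ^ 2) := by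
          refine setLIntegral_mono' measurableSet_Ioo fun r hr => ?_
          have h6 := hmain r hr.1.le (hr.2.trans hr₀1)
          have e1 : ∑ q ∈ IX X, ENNReal.ofReal (4 * r / (1 - r ^ 2) ^ 2) *
              ENNReal.ofReal (∫ θ in (-Real.pi)..Real.pi, fc F (cay (hp q z) (r * ee θ)) ^ 2) =
              ENNReal.ofReal (4 * r / (1 - r ^ 2) ^ 2) * ENNReal.ofReal (∑ q ∈ IX X,
                ∫ θ in (-Real.pi)..Real.pi, fc F (cay (hp q z) (r * ee θ)) ^ 2) := by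
            rw [← Finset.mul_sum, ENNReal.ofReal_sum_of_nonneg fun q _ =>
              intervalIntegral.integral_nonneg (by linarith) fun θ _ => sq_nonneg _]
          rw [e1]
          have hK0 : 0 ≤ 2 * Real.pi * ∑ q ∈ IX X, c q ^ 2 := by positivity
          rw [mul_assoc, ← ENNReal.ofReal_mul (sq_nonneg _)]
          refine (mul_le_mul_right (ENNReal.ofReal_le_ofReal h6) _).trans (le_of_eq ?_)
          rw [ENNReal.ofReal_mul hK0, mul_left_comm]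
      _ = ENNReal.ofReal (2 * Real.pi * ∑ q ∈ IX X, c q ^ 2) * ∑ q ∈ IX X, ∫⁻ r in Ioo 0 r₀,
          ENNReal.ofReal (4 * r / (1 - r ^ 2) ^ 2) *
          ENNReal.ofReal (∫ θ in (-Real.pi)..Real.pi, fc F (cay (hp q z) (r * ee θ)) ^ 2) := by
          rw [lintegral_const_mul' _ _ ENNReal.ofReal_ne_top, lintegral_finsetSum' _ hmeasr]
      _ ≤ ENNReal.ofReal (2 * Real.pi * ∑ q ∈ IX X, c q ^ 2) * ∑ q ∈ IX X,
          ∫⁻ u in Metric.closedBall (hp q z) (rad U), ENNReal.ofReal (F u ^ 2) := by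
          refine mul_le_mul_right (Finset.sum_le_sum fun q _ => ?_) _
          exact polar_le hsm (hp q z) hr₀1 fun w hw h => dist_rad hU _ w hw h
      _ ≤ _ := mul_le_mul_right hunf _
  have h2e : (2 : ℝ≥0∞) = ENNReal.ofReal 2 := by norm_num
  have hJ0 : 0 ≤ Real.log U ^ 3 * U ^ (ϑ / 4) / 110 := by
    have := Real.log_nonneg hU
    positivity
  rw [h2e, ← ENNReal.ofReal_mul (p := 2) (q := T) (by norm_num), ← ENNReal.ofReal_mul (q := T ^ 2) hJ0,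
    ← ENNReal.ofReal_mul (q := 2 * T) (by positivity), ENNReal.ofReal_le_ofReal_iff (by positivity)] at key
  have hfin : (Real.log U ^ 3 * U ^ (ϑ / 4) / 110) * T ≤ 4 * Real.pi * ∑ q ∈ IX X, c q ^ 2 := by
    rcases hT0.eq_or_lt with h | h
    · rw [← h, mul_zero]
      positivity
    · have h7 : (Real.log U ^ 3 * U ^ (ϑ / 4) / 110 * T) * T ≤ (4 * Real.pi * ∑ q ∈ IX X, c q ^ 2) * T := by
        calc (Real.log U ^ 3 * U ^ (ϑ / 4) / 110 * T) * T = Real.log U ^ 3 * U ^ (ϑ / 4) / 110 * T ^ 2 := by ring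
          _ ≤ 2 * Real.pi * (∑ q ∈ IX X, c q ^ 2) * (2 * T) := key
          _ = _ := by ring
      exact le_of_mul_le_mul_right h7 h
  refine le_trans (mul_le_mul_of_nonneg_left ?_ hJ0) hfin
  rw [hTdef]
  refine Finset.sum_le_sum fun j _ => ?_
  rw [ha]
  simp only [mul_pow]
  nlinarith [hσ j, sq_nonneg (f j z)]

end

end Pool.Agent.T2H31
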