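import Pool.Agent.T2H31.Sph5

/-! The exceptional set for large balls, and counting. -/

set_option autoImplicit false

namespace Pool.Agent.T2H31

open Complex MeasureTheory Set Function
open UpperHalfPlane hiding I
open ModularGroup
open scoped ENNReal NNReal MatrixGroups Modular

/-- the entries of a matrix which moves a point of the fundamental domain by a bounded amount -/
theorem near_casesA {ε : ℝ} {X A : ℕ} (hX : 1 ≤ X) (hXA : X ≤ A) (hε0 : 0 < ε) (hε : ε * X ≤ A) {z : ℍ}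
    (hz : z ∈ (𝒟 : Set ℍ)) {a b c d : ℤ} (h1 : 1 ≤ a * d - b * c) (h2 : a * d - b * c ≤ X ^ 2)
    (h3 : ‖Qf a b c d z‖ ≤ ε * Real.sqrt ((a * d - b * c : ℤ) : ℝ) * z.im) :
    c ∈ Finset.Icc (-(3 * A : ℤ)) (3 * A) ∧ (d - a) ∈ Finset.Icc (-(8 * A : ℤ)) (8 * A) ∧
      |(b : ℝ)| ≤ 21 * A ^ 2 + A * z.im ∧
      (c = 0 → a = d → |(b : ℝ)| ≤ A * z.im) := by
  have hy := z.im_pos
  obtain ⟨hy2, hx⟩ := fd_bounds hz
  have hXr : (1 : ℝ) ≤ X := by exact_mod_cast hX
  set D : ℤ := a * d - b * c with hD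
  have hD1 : (1 : ℝ) ≤ D := by exact_mod_cast h1
  have hD2 : (D : ℝ) ≤ (X : ℝ) ^ 2 := by exact_mod_cast h2
  have hsD : Real.sqrt (D : ℝ) ≤ X := by
    rw [Real.sqrt_le_left (by positivity)]
    exact hD2
  have hsD2 : Real.sqrt (D : ℝ) ^ 2 = D := Real.sq_sqrt (by linarith)
  have hsD0 : 0 ≤ Real.sqrt (D : ℝ) := Real.sqrt_nonneg _
  have hQn := norm_nonneg (Qf a b c d z)
  have e1 := entries_sq a b c d z
  have hD' : (a * d - b * c : ℝ) = D := by rw [hD]; push_cast; ring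
  rw [hD'] at e1
  have hXA' : (X : ℝ) ≤ A := by exact_mod_cast hXA
  have hA1 : (1 : ℝ) ≤ A := hXr.trans hXA'
  have hεD : ε * Real.sqrt (D : ℝ) ≤ A := by
    refine le_trans ?_ hε
    gcongr
  have hQ1 : ‖Qf a b c d z‖ ≤ A * z.im := by
    refine h3.trans ?_
    gcongr
  have hQ2 : ‖Qf a b c d z‖ ^ 2 ≤ z.im ^ 2 * A ^ 2 := by
    calc ‖Qf a b c d z‖ ^ 2 ≤ (A * z.im) ^ 2 := by gcongr
      _ = z.im ^ 2 * A ^ 2 := by ring
  have hDA : (D : ℝ) ≤ (A : ℝ) ^ 2 := by
    refine hD2.trans ?_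
    gcongr
  have hall : (c * z.im) ^ 2 + (c * z.re + d) ^ 2 + (a - c * z.re) ^ 2 ≤ 3 * (A : ℝ) ^ 2 := by
    have h6 : z.im ^ 2 * ((c * z.im) ^ 2 + (c * z.re + d) ^ 2 + (a - c * z.re) ^ 2) ≤
        z.im ^ 2 * (3 * (A : ℝ) ^ 2) := by
      have : z.im ^ 2 * D ≤ z.im ^ 2 * (A : ℝ) ^ 2 := by gcongr
      nlinarith
    exact le_of_mul_le_mul_left h6 (by positivity)
  have q1 : |(c : ℝ) * z.im| ≤ 2 * A := by
    apply abs_le_of_sq_le_sq
    · nlinarith [sq_nonneg (c * z.re + d : ℝ), sq_nonneg (a - c * z.re : ℝ)]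
    · positivity
  have q2 : |(c : ℝ) * z.re + d| ≤ 2 * A := by
    apply abs_le_of_sq_le_sq
    · nlinarith [sq_nonneg (c * z.im : ℝ), sq_nonneg (a - c * z.re : ℝ)]
    · positivity
  have q3 : |(a : ℝ) - c * z.re| ≤ 2 * A := by
    apply abs_le_of_sq_le_sq
    · nlinarith [sq_nonneg (c * z.im : ℝ), sq_nonneg (c * z.re + d : ℝ)]
    · positivity
  have hyl : 4 / 5 ≤ z.im := fd_im hz
  have hc : |(c : ℝ)| ≤ 3 * A := by
    rw [abs_mul, abs_of_pos hy] at q1
    nlinarith [abs_nonneg (c : ℝ)]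
  have hcx : |(c : ℝ) * z.re| ≤ 3 * A / 2 := by
    rw [abs_mul]
    calc |(c : ℝ)| * |z.re| ≤ (3 * A) * (1 / 2) := by gcongr
      _ = 3 * A / 2 := by ring
  have hc' := abs_le.1 hc
  have hcx' := abs_le.1 hcx
  have q2' := abs_le.1 q2
  have q3' := abs_le.1 q3
  have hd4 : |(d : ℝ)| ≤ 4 * A := abs_le.2 ⟨by linarith, by linarith⟩
  have ha4 : |(a : ℝ)| ≤ 4 * A := abs_le.2 ⟨by linarith, by linarith⟩
  have hd' := abs_le.1 hd4
  have ha' := abs_le.1 ha4
  have hre := (abs_re_le a b c d z).trans hQ1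
  refine ⟨?_, ?_, ?_, ?_⟩
  · rw [Finset.mem_Icc]
    constructor
    · exact_mod_cast hc'.1
    · exact_mod_cast hc'.2
  · rw [Finset.mem_Icc]
    have k1 : -(8 * A : ℝ) ≤ d - a := by linarith
    have k2 : (d - a : ℝ) ≤ 8 * A := by linarith
    constructor
    · exact_mod_cast k1
    · exact_mod_cast k2
  · by_cases hc0 : c = 0
    · rw [hc0] at hre
      simp only [Int.cast_zero, zero_mul, zero_add] at hre
      have t4 : |((d : ℝ) - a) * z.re| ≤ 4 * A ^ 2 := by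
        rw [abs_mul]
        have : |(d : ℝ) - a| ≤ 8 * A := abs_le.2 ⟨by linarith, by linarith⟩
        calc |(d : ℝ) - a| * |z.re| ≤ (8 * A) * (1 / 2) := by gcongr
          _ = 4 * A * 1 := by ring
          _ ≤ 4 * A * A := by gcongr
          _ = 4 * A ^ 2 := by ring
      have u4 := abs_le.1 t4
      have u5 := abs_le.1 hre
      have hX2 : (0 : ℝ) ≤ A ^ 2 := by positivity
      exact abs_le.2 ⟨by linarith, by linarith⟩
    · have hc1 : (1 : ℝ) ≤ |(c : ℝ)| := by exact_mod_cast Int.one_le_abs hc0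
      have hbc : (b : ℝ) * c = a * d - D := by linarith
      have h6 : |(b : ℝ) * c| ≤ 17 * A ^ 2 := by
        rw [hbc]
        have : |(a : ℝ) * d| ≤ 16 * A ^ 2 := by
          rw [abs_mul]
          calc |(a : ℝ)| * |(d : ℝ)| ≤ (4 * A) * (4 * A) := by gcongr
            _ = 16 * A ^ 2 := by ring
        have := abs_le.1 this
        exact abs_le.2 ⟨by linarith, by linarith⟩
      rw [abs_mul] at h6
      have h7 : |(b : ℝ)| ≤ |(b : ℝ)| * |(c : ℝ)| := le_mul_of_one_le_right (abs_nonneg _) hc1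
      have h8 : 0 ≤ A * z.im := by positivity
      have hX2 : (0 : ℝ) ≤ A ^ 2 := by positivity
      linarith
  · intro hc0 hda
    have hQb : ‖Qf a b c d z‖ = |(b : ℝ)| := by
      rw [Qf, hc0, hda]
      simp
    rw [← hQb]
    exact hQ1

theorem bad_measA {N : ℕ} (hN : N.Prime) {ε : ℝ} {X A : ℕ} (hX : 1 ≤ X) (hXA : X ≤ A) (hε0 : 0 < ε) (hε : ε * X ≤ A) :
    ∑ r : Option (Fin N), (volume : Measure ℍ) {v : ℍ | v ∈ (𝒟 : Set ℍ) ∧ ¬ GoodN N ε X (rep N r • v)} ≤
      ENNReal.ofReal (2700 * A ^ 3 * Real.sqrt N) := by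
  have hA : 1 ≤ A := hX.trans hXA
  have hXr : (1 : ℝ) ≤ A := by exact_mod_cast hA
  have hN1 : (1 : ℝ) ≤ N := by exact_mod_cast hN.one_lt.le
  have hNr : (0 : ℝ) < N := by linarith
  have hsN1 : 1 ≤ Real.sqrt N := Real.one_le_sqrt.2 hN1
  have hsN : Real.sqrt N ^ 2 = N := Real.sq_sqrt hNr.le
  have htriv : ∀ r : Option (Fin N), (volume : Measure ℍ) {v : ℍ | v ∈ (𝒟 : Set ℍ) ∧
      ¬ GoodN N ε X (rep N r • v)} ≤ ENNReal.ofReal (5 / 4) := fun r =>
    (measure_mono fun v hv => hv.1).trans vol_fd'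
  by_cases hNX : N ≤ 64 * A ^ 2
  · refine (Finset.sum_le_sum fun r _ => htriv r).trans ?_
    rw [Finset.sum_const, Finset.card_univ, Fintype.card_option, Fintype.card_fin, nsmul_eq_mul,
      ← ENNReal.ofReal_natCast, ← ENNReal.ofReal_mul (by positivity)]
    apply ENNReal.ofReal_le_ofReal
    have h2 : ((N + 1 : ℕ) : ℝ) ≤ 65 * A ^ 2 := by
      have : N + 1 ≤ 65 * A ^ 2 := by
        have : 1 ≤ A ^ 2 := Nat.one_le_pow _ _ hA
        omega
      exact_mod_cast this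
    have h3 : (A : ℝ) ^ 2 ≤ A ^ 3 := pow_le_pow_right₀ hXr (by norm_num)
    have h4 : (0 : ℝ) ≤ A ^ 3 := by positivity
    nlinarith
  · push Not at hNX
    have hNX' : (64 * A ^ 2 : ℝ) < N := by exact_mod_cast hNX
    have hX8 : 8 * A < Real.sqrt N := by
      apply Real.lt_sqrt_of_sq_lt
      nlinarith
    have hNX8 : 8 * A < N := by
      have : (8 * A : ℝ) < N := by nlinarith
      exact_mod_cast this
    set B := ⌊4 * (A * Real.sqrt N)⌋₊ with hB
    set Bx := (Finset.Icc (-(3 * A : ℤ)) (3 * A)) ×ˢ ((Finset.Icc (-(8 * A : ℤ)) (8 * A)) ×ˢ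
      (Finset.Icc (-(B : ℤ)) B)) with hBx
    have hndvd : ∀ c : ℤ, -(8 * A : ℤ) ≤ c → c ≤ 8 * A → (N : ℤ) ∣ c → c = 0 := by
      intro c h1 h2 hdvd
      apply Int.eq_zero_of_abs_lt_dvd hdvd
      rw [abs_lt]
      constructor <;> omega
    have hsome : ∀ j : Fin N, (volume : Measure ℍ) {v : ℍ | v ∈ (𝒟 : Set ℍ) ∧
        ¬ GoodN N ε X (rep N (some j) • v)} ≤ ENNReal.ofReal (1 / Real.sqrt N) +
        ∑ t ∈ Bx, if (¬ ((N : ℤ) ∣ t.1 ∧ (N : ℤ) ∣ t.2.1)) ∧
          (N : ℤ) ∣ ((j : ℕ) : ℤ) ^ 2 * t.1 - ((j : ℕ) : ℤ) * t.2.1 - t.2.2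
          then ENNReal.ofReal (5 / 4) else 0 := by
      intro j
      have hsub : {v : ℍ | v ∈ (𝒟 : Set ℍ) ∧ ¬ GoodN N ε X (rep N (some j) • v)} ⊆
          {z : ℍ | z.re ∈ Icc (-(1 / 2 : ℝ)) (1 / 2) ∧ Real.sqrt N ≤ z.im} ∪
          ⋃ t ∈ Bx.filter fun t => (¬ ((N : ℤ) ∣ t.1 ∧ (N : ℤ) ∣ t.2.1)) ∧
            (N : ℤ) ∣ ((j : ℕ) : ℤ) ^ 2 * t.1 - ((j : ℕ) : ℤ) * t.2.1 - t.2.2, (𝒟 : Set ℍ) := by
        rintro v ⟨hv, hb⟩
        obtain ⟨a, b, c, d, h0, h1, h2, h3, h4⟩ := bad_conj hb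
        obtain ⟨k1, k2, k3, k4⟩ := near_casesA hX hXA hε0 hε hv h1 h2 h3
        have hvy := v.im_pos
        by_cases hhigh : Real.sqrt N ≤ v.im
        · left
          exact ⟨abs_le.1 (fd_bounds hv).2, hhigh⟩
        · right
          push Not at hhigh
          have h0' : (N : ℤ) ∣ ((j : ℕ) : ℤ) ^ 2 * c - ((j : ℕ) : ℤ) * (d - a) - b := by
            rw [rep_some] at h0
            simp at h0
            have e : ((j : ℕ) : ℤ) ^ 2 * c - ((j : ℕ) : ℤ) * (d - a) - b =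
                ((j : ℕ) : ℤ) ^ 2 * c + ((j : ℕ) : ℤ) * (a - d) - b := by ring
            rw [e]
            exact h0
          have hb4 : |(b : ℝ)| ≤ 4 * (A * Real.sqrt N) := by
            have t1 : (A : ℝ) * v.im ≤ A * Real.sqrt N := by gcongr
            have t2 : (21 : ℝ) * A ^ 2 ≤ 3 * (A * Real.sqrt N) := by nlinarith
            linarith
          have hbB : |b| ≤ (B : ℤ) := by
            have h5 : (b.natAbs : ℝ) ≤ 4 * (A * Real.sqrt N) := by
              rw [Nat.cast_natAbs]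
              push_cast
              exact hb4
            have h6 : b.natAbs ≤ B := Nat.le_floor h5
            rw [Int.abs_eq_natAbs]
            exact_mod_cast h6
          rw [mem_iUnion₂]
          refine ⟨(c, d - a, b), ?_, hv⟩
          rw [Finset.mem_filter, hBx, Finset.mem_product, Finset.mem_product]
          refine ⟨⟨k1, k2, Finset.mem_Icc.2 (abs_le.1 hbB)⟩, ?_, h0'⟩
          rintro ⟨n1, n2⟩
          rw [Finset.mem_Icc] at k1 k2
          simp only at n1 n2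
          have hc0 : c = 0 := hndvd c (by omega) (by omega) n1
          have he0 : d - a = 0 := hndvd _ k2.1 k2.2 n2
          have hda : a = d := by omega
          have hb0 : b ≠ 0 := fun h => h4 ⟨hc0, h, hda⟩
          rw [hc0, he0] at h0'
          simp at h0'
          have hbN : (N : ℤ) ≤ |b| := Int.le_of_dvd (abs_pos.2 hb0) ((dvd_abs _ _).2 h0')
          have hbN' : (N : ℝ) ≤ |(b : ℝ)| := by exact_mod_cast hbN
          have h7 := k4 hc0 hda
          have h8 : (A : ℝ) * v.im < N := by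
            calc (A : ℝ) * v.im ≤ A * Real.sqrt N := by gcongr
              _ < Real.sqrt N * Real.sqrt N := by
                  gcongr
                  linarith
              _ = N := by rw [← sq, hsN]
          linarith
      refine (measure_mono hsub).trans ((measure_union_le _ _).trans (add_le_add ?_ ?_))
      · refine (vol_strip _ _ (by positivity)).trans ?_
        rw [← ENNReal.ofReal_mul (by norm_num)]
        apply ENNReal.ofReal_le_ofReal
        norm_num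
      · rw [← Finset.sum_filter]
        exact (measure_biUnion_finset_le _ _).trans (Finset.sum_le_sum fun t _ => vol_fd')
    rw [Fintype.sum_option]
    have hBr : (B : ℝ) ≤ 4 * (A * Real.sqrt N) := Nat.floor_le (by positivity)
    have hcard : (Bx.card : ℝ) ≤ 1071 * (A ^ 3 * Real.sqrt N) := by
      rw [hBx, Finset.card_product, Finset.card_product, Int.card_Icc, Int.card_Icc, Int.card_Icc]
      have c1 : (3 * (A : ℤ) + 1 - -(3 * A)).toNat = 6 * A + 1 := by omega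
      have c2 : (8 * (A : ℤ) + 1 - -(8 * A)).toNat = 16 * A + 1 := by omega
      have c3 : ((B : ℤ) + 1 - -(B : ℤ)).toNat = 2 * B + 1 := by omega
      rw [c1, c2, c3]
      push_cast
      have d1 : (6 * (A : ℝ) + 1) ≤ 7 * A := by linarith
      have d2 : (16 * (A : ℝ) + 1) ≤ 17 * A := by linarith
      have d3 : (2 * (B : ℝ) + 1) ≤ 9 * (A * Real.sqrt N) := by nlinarith
      calc (6 * (A : ℝ) + 1) * ((16 * (A : ℝ) + 1) * (2 * (B : ℝ) + 1)) ≤
          (7 * (A : ℝ)) * ((17 * (A : ℝ)) * (9 * (A * Real.sqrt N))) := by gcongr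
        _ = 1071 * (A ^ 3 * Real.sqrt N) := by ring
    calc (volume : Measure ℍ) {v : ℍ | v ∈ (𝒟 : Set ℍ) ∧ ¬ GoodN N ε X (rep N none • v)} +
        ∑ j : Fin N, (volume : Measure ℍ) {v : ℍ | v ∈ (𝒟 : Set ℍ) ∧ ¬ GoodN N ε X (rep N (some j) • v)} ≤
        ENNReal.ofReal (5 / 4) + ∑ j : Fin N, (ENNReal.ofReal (1 / Real.sqrt N) +
        ∑ t ∈ Bx, if (¬ ((N : ℤ) ∣ t.1 ∧ (N : ℤ) ∣ t.2.1)) ∧
          (N : ℤ) ∣ ((j : ℕ) : ℤ) ^ 2 * t.1 - ((j : ℕ) : ℤ) * t.2.1 - t.2.2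
          then ENNReal.ofReal (5 / 4) else 0) :=
          add_le_add (htriv none) (Finset.sum_le_sum fun j _ => hsome j)
      _ = ENNReal.ofReal (5 / 4) + (N * ENNReal.ofReal (1 / Real.sqrt N) +
        ∑ t ∈ Bx, ∑ j : Fin N, if (¬ ((N : ℤ) ∣ t.1 ∧ (N : ℤ) ∣ t.2.1)) ∧
          (N : ℤ) ∣ ((j : ℕ) : ℤ) ^ 2 * t.1 - ((j : ℕ) : ℤ) * t.2.1 - t.2.2
          then ENNReal.ofReal (5 / 4) else 0) := by
          rw [Finset.sum_add_distrib, Finset.sum_const, Finset.card_univ, Fintype.card_fin, nsmul_eq_mul,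
            Finset.sum_comm]
      _ ≤ ENNReal.ofReal (5 / 4) + (ENNReal.ofReal (Real.sqrt N) +
        ∑ t ∈ Bx, 2 * ENNReal.ofReal (5 / 4)) := by
          refine add_le_add le_rfl (add_le_add ?_ (Finset.sum_le_sum fun t _ => ?_))
          · rw [← ENNReal.ofReal_natCast, ← ENNReal.ofReal_mul (by positivity)]
            apply ENNReal.ofReal_le_ofReal
            rw [mul_one_div, div_le_iff₀ (by positivity), ← sq, hsN]
          · by_cases ht : (N : ℤ) ∣ t.1 ∧ (N : ℤ) ∣ t.2.1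
            · have : ∀ j : Fin N, (if (¬ ((N : ℤ) ∣ t.1 ∧ (N : ℤ) ∣ t.2.1)) ∧
                (N : ℤ) ∣ ((j : ℕ) : ℤ) ^ 2 * t.1 - ((j : ℕ) : ℤ) * t.2.1 - t.2.2
                then ENNReal.ofReal (5 / 4) else 0) = 0 := fun j => if_neg fun h => h.1 ht
              simp_rw [this]
              simp
            · have h5 := roots_le' hN (b := t.2.2) ht
              have : ∀ j : Fin N, (if (¬ ((N : ℤ) ∣ t.1 ∧ (N : ℤ) ∣ t.2.1)) ∧
                (N : ℤ) ∣ ((j : ℕ) : ℤ) ^ 2 * t.1 - ((j : ℕ) : ℤ) * t.2.1 - t.2.2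
                then ENNReal.ofReal (5 / 4) else 0) =
                if (N : ℤ) ∣ ((j : ℕ) : ℤ) ^ 2 * t.1 - ((j : ℕ) : ℤ) * t.2.1 - t.2.2
                then ENNReal.ofReal (5 / 4) else 0 := by
                intro j
                simp only [ht, not_false_eq_true, true_and]
              simp_rw [this]
              rw [← Finset.sum_filter, Finset.sum_const, nsmul_eq_mul]
              gcongr
              exact_mod_cast h5
      _ = ENNReal.ofReal (5 / 4 + (Real.sqrt N + Bx.card * (2 * (5 / 4)))) := by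
          rw [Finset.sum_const, nsmul_eq_mul, ENNReal.ofReal_add (by positivity) (by positivity),
            ENNReal.ofReal_add (by positivity) (by positivity),
            ENNReal.ofReal_mul (p := (Bx.card : ℝ)) (by positivity),
            ENNReal.ofReal_mul (p := 2) (by positivity), ENNReal.ofReal_natCast]
          norm_num
      _ ≤ ENNReal.ofReal (2700 * A ^ 3 * Real.sqrt N) := by
          apply ENNReal.ofReal_le_ofReal
          have h6 : (1 : ℝ) ≤ A ^ 3 := one_le_pow₀ hXr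
          have h7 : (1 : ℝ) ≤ A ^ 3 * Real.sqrt N := one_le_mul_of_one_le_of_one_le h6 hsN1
          have h8 : Real.sqrt N ≤ A ^ 3 * Real.sqrt N := le_mul_of_one_le_left (by positivity) h6
          nlinarith

end Pool.Agent.T2H31
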