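import Pool.Agent.T2H31.Sph6
import Pool.Agent.T2H31.Level0

/-! Counting exceptional eigenvalues for `Γ₀(N)`. -/

set_option autoImplicit false

namespace Pool.Agent.T2H31

open Complex MeasureTheory Set Function
open UpperHalfPlane hiding I
open ModularGroup
open scoped ENNReal NNReal MatrixGroups Modular

section
variable {N : ℕ} {ι : Type*} [Fintype ι] {f : ι → ℍ → ℝ} {lam : ι → ℝ} {L : ℝ}
  (S : Sys0 (CongruenceSubgroup.Gamma0 N) (rep N) f lam L)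
include S

/-- counting from a bound at good points -/
theorem Sys0.count_gen (hN : N.Prime) (hL : 1 ≤ L)
    (hcusp : ∀ (j : ι) (y : ℝ), 0 < y → ∫ x in (-(1 / 2) : ℝ)..(1 / 2), fc (f j) (pt y x) = 0)
    (hcusp0 : ∀ (j : ι) (y : ℝ), 0 < y → ∫ x in (-(1 / 2) : ℝ)..(-(1 / 2) + N),
      fc (fun u => f j (ModularGroup.S • u)) (pt y x) = 0)
    {X : ℕ} {ε K1 m : ℝ} (hK10 : 0 ≤ K1) (hm0 : 0 ≤ m)
    (hgood : ∀ z : ℍ, GoodN N ε X z → ∑ j, f j z ^ 2 ≤ K1)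
    (hm : ∑ r : Option (Fin N), (volume : Measure ℍ) {v : ℍ | v ∈ (𝒟 : Set ℍ) ∧
      ¬ GoodN N ε X (rep N r • v)} ≤ ENNReal.ofReal m) :
    (Fintype.card ι : ℝ) ≤ 2 * ((N + 1) * (K1 * (5 / 4)) + 194481 * 1025 * L * m) := by
  have hN1 : (1 : ℝ) ≤ N := by exact_mod_cast hN.one_lt.le
  have hsN1 : 1 ≤ Real.sqrt N := Real.one_le_sqrt.2 hN1
  have hs0 : 0 < Real.sqrt L := Real.sqrt_pos.2 (by linarith)
  have hs1 : 1 ≤ Real.sqrt L := Real.one_le_sqrt.2 hL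
  have hsq : Real.sqrt L ^ 2 = L := Real.sq_sqrt (by linarith)
  set K2 : ℝ := 194481 * 1025 * L with hK2
  have hK20 : 0 ≤ K2 := by positivity
  set B : Option (Fin N) → Set ℍ := fun r =>
    toMeasurable (volume : Measure ℍ) {v : ℍ | v ∈ (𝒟 : Set ℍ) ∧ ¬ GoodN N ε X (rep N r • v)} with hB
  have hBm : ∀ r, MeasurableSet (B r) := fun r => measurableSet_toMeasurable _ _
  have hBv : ∑ r, (volume : Measure ℍ) (B r) ≤ ENNReal.ofReal m := by
    simp only [hB, measure_toMeasurable]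
    exact hm
  have hlow : ∀ r, MeasurableSet ((𝒟 : Set ℍ) ∩ {u | u.im ≤ hgt N (Real.sqrt L) r}) := fun r =>
    meas_fd.inter (meas_im measurableSet_Iic)
  have hone : ∀ j, ∑ r : Option (Fin N), ∫⁻ u in 𝒟, ENNReal.ofReal (f j (rep N r • u) ^ 2) = 1 := by
    intro j
    have h1 : ∀ r, ∫⁻ u in 𝒟, ENNReal.ofReal (f j (rep N r • u) ^ 2) =
        ENNReal.ofReal (∫ u in 𝒟, f j (rep N r • u) ^ 2) := fun r =>
      (ofReal_integral_eq_lintegral_ofReal (S.sq_int j r) (Filter.Eventually.of_forall fun u => sq_nonneg _)).symm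
    simp_rw [h1]
    rw [← ENNReal.ofReal_sum_of_nonneg fun r _ => integral_nonneg fun u => sq_nonneg _, S.norm j,
      ENNReal.ofReal_one]
  have hmj : ∀ j r, Measurable fun u : ℍ => ENNReal.ofReal (f j (rep N r • u) ^ 2) := by
    intro j r
    have := (S.cont j r).measurable
    exact (this.pow_const 2).ennreal_ofReal
  have h1 : (Fintype.card ι : ℝ≥0∞) ≤ 2 * ∑ r : Option (Fin N),
      ∫⁻ u in 𝒟 ∩ {u | u.im ≤ hgt N (Real.sqrt L) r}, ENNReal.ofReal (∑ j, f j (rep N r • u) ^ 2) := by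
    calc (Fintype.card ι : ℝ≥0∞) =
        ∑ j : ι, ∑ r : Option (Fin N), ∫⁻ u in 𝒟, ENNReal.ofReal (f j (rep N r • u) ^ 2) := by
          simp_rw [hone]
          rw [Finset.sum_const, nsmul_eq_mul, mul_one, Finset.card_univ]
      _ ≤ ∑ j : ι, 2 * ∑ r : Option (Fin N),
          ∫⁻ u in 𝒟 ∩ {u | u.im ≤ hgt N (Real.sqrt L) r}, ENNReal.ofReal (f j (rep N r • u) ^ 2) := by
          refine Finset.sum_le_sum fun j _ => ?_
          refine mass_lowN hN.one_lt.le (S.smooth j) (S.inv j) (S.lap j) (hcusp j) (hcusp0 j) (fun r => ?_) hs1 ?_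
          · exact ne_top_of_le_ne_top ENNReal.one_ne_top ((Finset.single_le_sum
              (f := fun r => ∫⁻ u in 𝒟, ENNReal.ofReal (f j (rep N r • u) ^ 2))
              (fun _ _ => zero_le) (Finset.mem_univ r)).trans_eq (hone j))
          · rw [hsq]
            exact (le_abs_self _).trans (S.bound j)
      _ = 2 * ∑ j : ι, ∑ r : Option (Fin N),
          ∫⁻ u in 𝒟 ∩ {u | u.im ≤ hgt N (Real.sqrt L) r}, ENNReal.ofReal (f j (rep N r • u) ^ 2) := by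
          rw [Finset.mul_sum]
      _ = _ := by
          rw [Finset.sum_comm]
          congr 1
          refine Finset.sum_congr rfl fun r _ => ?_
          rw [← lintegral_finsetSum _ fun j _ => hmj j r]
          refine lintegral_congr fun u => ?_
          rw [ENNReal.ofReal_sum_of_nonneg fun j _ => sq_nonneg _]
  have h2 : ∀ r : Option (Fin N), ∫⁻ u in 𝒟 ∩ {u | u.im ≤ hgt N (Real.sqrt L) r},
      ENNReal.ofReal (∑ j, f j (rep N r • u) ^ 2) ≤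
      ENNReal.ofReal (K1 * (5 / 4)) + ENNReal.ofReal K2 * (volume : Measure ℍ) (B r) := by
    intro r
    calc ∫⁻ u in 𝒟 ∩ {u | u.im ≤ hgt N (Real.sqrt L) r}, ENNReal.ofReal (∑ j, f j (rep N r • u) ^ 2) ≤
        ∫⁻ u in 𝒟 ∩ {u | u.im ≤ hgt N (Real.sqrt L) r}, (ENNReal.ofReal K1 +
          (B r).indicator (fun _ => ENNReal.ofReal K2) u) := by
          refine setLIntegral_mono' (hlow r) fun u hu => ?_
          by_cases hg : GoodN N ε X (rep N r • u)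
          · exact (ENNReal.ofReal_le_ofReal (hgood _ hg)).trans le_self_add
          · have hmem : u ∈ B r := subset_toMeasurable _ _ ⟨hu.1, hg⟩
            rw [indicator_of_mem hmem]
            exact (ENNReal.ofReal_le_ofReal (S.triv_bound hN hL hu.1 r hu.2)).trans le_add_self
      _ = ENNReal.ofReal K1 * volume ((𝒟 : Set ℍ) ∩ {u | u.im ≤ hgt N (Real.sqrt L) r}) +
          ∫⁻ u in 𝒟 ∩ {u | u.im ≤ hgt N (Real.sqrt L) r}, (B r).indicator (fun _ => ENNReal.ofReal K2) u := by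
          rw [lintegral_add_left measurable_const, setLIntegral_const]
      _ ≤ ENNReal.ofReal K1 * ENNReal.ofReal (5 / 4) + ENNReal.ofReal K2 * (volume : Measure ℍ) (B r) := by
          refine add_le_add (mul_le_mul_right ((measure_mono inter_subset_left).trans vol_fd') _) ?_
          refine (setLIntegral_le_lintegral _ _).trans ?_
          rw [lintegral_indicator_const (hBm r)]
      _ = _ := by
          rw [ENNReal.ofReal_mul hK10]
  have h3 : (Fintype.card ι : ℝ≥0∞) ≤ ENNReal.ofReal (2 * ((N + 1) * (K1 * (5 / 4)) + K2 * m)) := by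
    calc (Fintype.card ι : ℝ≥0∞) ≤ 2 * ∑ r : Option (Fin N),
        ∫⁻ u in 𝒟 ∩ {u | u.im ≤ hgt N (Real.sqrt L) r}, ENNReal.ofReal (∑ j, f j (rep N r • u) ^ 2) := h1
      _ ≤ 2 * ∑ r : Option (Fin N), (ENNReal.ofReal (K1 * (5 / 4)) +
          ENNReal.ofReal K2 * (volume : Measure ℍ) (B r)) :=
          mul_le_mul_right (Finset.sum_le_sum fun r _ => h2 r) _
      _ = 2 * ((N + 1) * ENNReal.ofReal (K1 * (5 / 4)) +
          ENNReal.ofReal K2 * ∑ r : Option (Fin N), (volume : Measure ℍ) (B r)) := by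
          rw [Finset.sum_add_distrib, Finset.sum_const, Finset.card_univ, Fintype.card_option,
            Fintype.card_fin, nsmul_eq_mul, Finset.mul_sum]
          push_cast
          rfl
      _ ≤ 2 * ((N + 1) * ENNReal.ofReal (K1 * (5 / 4)) + ENNReal.ofReal K2 * ENNReal.ofReal m) := by
          gcongr
      _ = _ := by
          rw [ENNReal.ofReal_mul (p := 2) (by norm_num), ENNReal.ofReal_add (by positivity) (by positivity),
            ENNReal.ofReal_mul (p := (N + 1 : ℝ)) (by positivity), ENNReal.ofReal_mul hK20]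
          congr 3
          · norm_num
          · rw [ENNReal.ofReal_add (by positivity) (by norm_num), ENNReal.ofReal_natCast, ENNReal.ofReal_one]
  rw [← ENNReal.ofReal_natCast, ENNReal.ofReal_le_ofReal_iff (by positivity)] at h3
  exact h3

end

section
variable {N : ℕ} {ι : Type*} [Fintype ι] {f : ι → ℍ → ℝ} {lam : ι → ℝ}

theorem Sys0.countU (S : Sys0 (CongruenceSubgroup.Gamma0 N) (rep N) f lam 1) (hN : N.Prime)
    (hcusp : ∀ (j : ι) (y : ℝ), 0 < y → ∫ x in (-(1 / 2) : ℝ)..(1 / 2), fc (f j) (pt y x) = 0)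
    (hcusp0 : ∀ (j : ι) (y : ℝ), 0 < y → ∫ x in (-(1 / 2) : ℝ)..(-(1 / 2) + N),
      fc (fun u => f j (ModularGroup.S • u)) (pt y x) = 0)
    {X : ℕ} (hX : 1 ≤ X) (c : ℕ × ℕ × ℕ → ℝ) (σ : ι → ℝ) (hσ : ∀ j, 1 ≤ σ j ^ 2)
    (hT : ∀ (j : ι) (z : ℍ), ∑ q ∈ IX X, c q * f j (hp q z) = σ j * f j z)
    {ϑ : ℝ} (hϑ : 0 ≤ ϑ) (s : ι → ℝ) (hs : ∀ j, 1 / 2 + ϑ ≤ s j) (hls : ∀ j, lam j = s j * (1 - s j))
    {U : ℝ} (hU : 1 < U) :
    (Fintype.card ι : ℝ) ≤ 3500 * ((N + 1) / (Real.log U ^ 3 * U ^ (ϑ / 4))) * (∑ q ∈ IX X, c q ^ 2) +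
      140000000000000 * (U ^ 3 * X ^ 3 * Real.sqrt N) := by
  have hXr : (1 : ℝ) ≤ X := by exact_mod_cast hX
  have hU0 : 0 < U := by linarith
  have hl : 0 < Real.log U := Real.log_pos hU
  have hUϑ : 0 < U ^ (ϑ / 4) := Real.rpow_pos_of_pos hU0 _
  have hc0 : 0 ≤ ∑ q ∈ IX X, c q ^ 2 := Finset.sum_nonneg fun j _ => sq_nonneg _
  set J := Real.log U ^ 3 * U ^ (ϑ / 4) with hJ
  have hJ0 : 0 < J := by positivity
  set A : ℕ := ⌈4 * U⌉₊ * X with hA
  have hceil : 4 * U ≤ (⌈4 * U⌉₊ : ℝ) := Nat.le_ceil _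
  have hceil2 : (⌈4 * U⌉₊ : ℝ) ≤ 5 * U := by
    have := (Nat.ceil_lt_add_one (show 0 ≤ 4 * U by positivity)).le
    linarith
  have hc1 : 1 ≤ ⌈4 * U⌉₊ := by
    have : (1 : ℝ) ≤ (⌈4 * U⌉₊ : ℝ) := by linarith
    exact_mod_cast this
  have hXA : X ≤ A := by
    rw [hA]
    exact Nat.le_mul_of_pos_left X hc1
  have hεA : 4 * U * (X : ℝ) ≤ (A : ℝ) := by
    rw [hA]
    push_cast
    gcongr
  have hAU : (A : ℝ) ≤ 5 * U * X := by
    rw [hA]
    push_cast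
    gcongr
  have hpi := Real.pi_lt_d2
  have key := S.count_gen hN le_rfl hcusp hcusp0 (X := X) (ε := 4 * U)
    (K1 := 110 * (4 * Real.pi * ∑ q ∈ IX X, c q ^ 2) / J) (m := 2700 * (A : ℝ) ^ 3 * Real.sqrt N)
    (by positivity) (by positivity)
    (fun z hz => by
      have h1 := S.good_boundU hN c σ hσ hT hϑ s hs hls hU.le hz
      rw [le_div_iff₀ hJ0]
      rw [← hJ] at h1
      linarith)
    (bad_measA hN hX hXA (by positivity) hεA)
  refine key.trans ?_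
  rw [mul_add]
  refine add_le_add ?_ ?_
  · have h2 : 2 * ((N + 1) * (110 * (4 * Real.pi * ∑ q ∈ IX X, c q ^ 2) / J * (5 / 4))) =
        (1100 * Real.pi) * ((N + 1) / J * ∑ q ∈ IX X, c q ^ 2) := by
      field_simp
      ring
    rw [h2, mul_assoc 3500]
    have h3 : 0 ≤ ((N : ℝ) + 1) / J * ∑ q ∈ IX X, c q ^ 2 := by positivity
    exact mul_le_mul_of_nonneg_right (by linarith) h3
  · have h4 : (A : ℝ) ^ 3 ≤ 125 * (U ^ 3 * X ^ 3) := by
      calc (A : ℝ) ^ 3 ≤ (5 * U * X) ^ 3 := by gcongr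
        _ = _ := by ring
    have h5 : (A : ℝ) ^ 3 * Real.sqrt N ≤ 125 * (U ^ 3 * X ^ 3) * Real.sqrt N := by gcongr
    have h6 : 0 ≤ U ^ 3 * (X : ℝ) ^ 3 * Real.sqrt N := by positivity
    nlinarith

theorem Sys0.count_primesU (S : Sys0 (CongruenceSubgroup.Gamma0 N) (rep N) f lam 1) (hN : N.Prime)
    (hcusp : ∀ (j : ι) (y : ℝ), 0 < y → ∫ x in (-(1 / 2) : ℝ)..(1 / 2), fc (f j) (pt y x) = 0)
    (hcusp0 : ∀ (j : ι) (y : ℝ), 0 < y → ∫ x in (-(1 / 2) : ℝ)..(-(1 / 2) + N),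
      fc (fun u => f j (ModularGroup.S • u)) (pt y x) = 0)
    (P : Finset ℕ) (hP : ∀ p ∈ P, p.Prime) (α : ℕ → ℝ) (hα : ∀ p ∈ P, 1 ≤ α p) (M : ℕ → ℕ)
    (a : ι → ℕ → ℝ) (hH : ∀ j, ∀ p ∈ P, HeckeP (f j) p (a j p))
    (ha : ∀ j, ∀ p ∈ P, α p + (α p)⁻¹ ≤ |a j p|)
    {ϑ : ℝ} (hϑ : 0 ≤ ϑ) (s : ι → ℝ) (hs : ∀ j, 1 / 2 + ϑ ≤ s j) (hls : ∀ j, lam j = s j * (1 - s j))
    {U : ℝ} (hU : 1 < U) :
    (Fintype.card ι : ℝ) ≤ 3500 * ((N + 1) / (Real.log U ^ 3 * U ^ (ϑ / 4))) * (∏ p ∈ P, ww (M p) (α p)) +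
      140000000000000 * (U ^ 3 * (∏ p ∈ P, (p : ℝ) ^ (2 * M p)) ^ 3 * Real.sqrt N) := by
  classical
  obtain ⟨Q, c, h1, h2, h3⟩ := ker_multi P hP α hα M
  set X := ∏ p ∈ P, p ^ (2 * M p) with hXdef
  have hX : 1 ≤ X := Nat.one_le_iff_ne_zero.2 (Finset.prod_ne_zero_iff.2 fun p hp =>
    pow_ne_zero _ (hP p hp).ne_zero)
  have hT := fun j => h3 (f j) (a j) (per_of_Gamma0 (S.inv j)) (hH j) (ha j)
  choose σ hσ e using hT
  have hsub : Q ⊆ IX X := by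
    intro q hq
    rw [mem_IX]
    exact ⟨(h1 q hq).1, Nat.le_of_dvd hX (h1 q hq).2⟩
  have e1 : ∀ F : ℕ × ℕ × ℕ → ℝ, ∑ q ∈ IX X, (if q ∈ Q then F q else 0) = ∑ q ∈ Q, F q := by
    intro F
    rw [← Finset.sum_filter, Finset.filter_mem_eq_inter, Finset.inter_eq_right.2 hsub]
  have key := S.countU hN hcusp hcusp0 hX (fun q => if q ∈ Q then c q else 0) σ
    (fun j => by nlinarith [hσ j]) (fun j z => by
      rw [← e j z, ← e1]
      refine Finset.sum_congr rfl fun q _ => ?_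
      split_ifs <;> simp) hϑ s hs hls hU
  have e2 : ∑ q ∈ IX X, (if q ∈ Q then c q else 0) ^ 2 = ∑ q ∈ Q, c q ^ 2 := by
    rw [← e1]
    refine Finset.sum_congr rfl fun q _ => ?_
    split_ifs <;> simp
  rw [e2, hXdef] at key
  push_cast at key
  refine key.trans ?_
  have hl : 0 < Real.log U := Real.log_pos hU
  have hUϑ : 0 < U ^ (ϑ / 4) := Real.rpow_pos_of_pos (by linarith) _
  gcongr

theorem Sys0.count_exceptionsU (S : Sys0 (CongruenceSubgroup.Gamma0 N) (rep N) f lam 1) (hN : N.Prime)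
    (hcusp : ∀ (j : ι) (y : ℝ), 0 < y → ∫ x in (-(1 / 2) : ℝ)..(1 / 2), fc (f j) (pt y x) = 0)
    (hcusp0 : ∀ (j : ι) (y : ℝ), 0 < y → ∫ x in (-(1 / 2) : ℝ)..(-(1 / 2) + N),
      fc (fun u => f j (ModularGroup.S • u)) (pt y x) = 0)
    (P : Finset ℕ) (hP : ∀ p ∈ P, p.Prime) (α : ℕ → ℝ) (hα : ∀ p ∈ P, 1 ≤ α p) (M : ℕ → ℕ)
    (a : ι → ℕ → ℝ) (hH : ∀ j, ∀ p ∈ P, HeckeP (f j) p (a j p)) (k : ℕ)
    (ha : ∀ j, k ≤ (P.filter fun p => α p + (α p)⁻¹ ≤ |a j p|).card) {X : ℝ} (hX0 : 0 ≤ X)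
    (hX : ∀ p ∈ P, (p : ℝ) ^ (2 * M p) ≤ X)
    {ϑ : ℝ} (hϑ : 0 ≤ ϑ) (s : ι → ℝ) (hs : ∀ j, 1 / 2 + ϑ ≤ s j) (hls : ∀ j, lam j = s j * (1 - s j))
    {U : ℝ} (hU : 1 < U) :
    (Fintype.card ι : ℝ) ≤ 3500 * ((N + 1) / (Real.log U ^ 3 * U ^ (ϑ / 4))) * (∑ p ∈ P, ww (M p) (α p)) ^ k +
      (P.card : ℝ) ^ k * (140000000000000 * (U ^ 3 * (X ^ k) ^ 3 * Real.sqrt N)) := by
  classical
  have hl : 0 < Real.log U := Real.log_pos hU
  have hU0 : 0 < U := by linarith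
  have hUϑ : 0 < U ^ (ϑ / 4) := Real.rpow_pos_of_pos (by linarith) _
  have hch : ∀ j, ∃ K ⊆ P.filter fun p => α p + (α p)⁻¹ ≤ |a j p|, K.card = k := fun j =>
    Finset.exists_subset_card_eq (ha j)
  choose κ hκ1 hκ2 using hch
  have hmem : ∀ j, κ j ∈ P.powersetCard k := fun j =>
    Finset.mem_powersetCard.2 ⟨(hκ1 j).trans (Finset.filter_subset _ _), hκ2 j⟩
  have hcard : (Fintype.card ι : ℝ) = ∑ K ∈ P.powersetCard k, (Fintype.card {j : ι // κ j = K} : ℝ) := by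
    have h1 := Finset.card_eq_sum_card_fiberwise (s := (Finset.univ : Finset ι)) (t := P.powersetCard k)
      (f := κ) (fun j _ => hmem j)
    rw [Finset.card_univ] at h1
    rw [h1]
    push_cast
    refine Finset.sum_congr rfl fun K _ => ?_
    rw [Fintype.card_subtype]
  have hbound : ∀ K ∈ P.powersetCard k, (Fintype.card {j : ι // κ j = K} : ℝ) ≤
      3500 * ((N + 1) / (Real.log U ^ 3 * U ^ (ϑ / 4))) * (∏ p ∈ K, ww (M p) (α p)) +
        140000000000000 * (U ^ 3 * (X ^ k) ^ 3 * Real.sqrt N) := by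
    intro K hK
    obtain ⟨hKP, hKk⟩ := Finset.mem_powersetCard.1 hK
    have S' : Sys0 (CongruenceSubgroup.Gamma0 N) (rep N) (fun j : {j : ι // κ j = K} => f j.1)
        (fun j => lam j.1) 1 :=
      { smooth := fun j => S.smooth j.1
        inv := fun j => S.inv j.1
        lap := fun j => S.lap j.1
        bound := fun j => S.bound j.1
        sq_int := fun j => S.sq_int j.1
        norm := fun j => S.norm j.1
        orth := fun i j hij => S.orth i.1 j.1 fun h => hij (Subtype.ext h) }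
    have h2 := S'.count_primesU hN (fun j => hcusp j.1) (fun j => hcusp0 j.1) K
      (fun p hp => hP p (hKP hp)) α
      (fun p hp => hα p (hKP hp)) M (fun j => a j.1) (fun j p hp => hH j.1 p (hKP hp)) (by
        rintro ⟨j, rfl⟩ p hp
        exact (Finset.mem_filter.1 (hκ1 j hp)).2) hϑ (fun j => s j.1) (fun j => hs j.1) (fun j => hls j.1) hU
    refine h2.trans ?_
    have h3 : ∏ p ∈ K, (p : ℝ) ^ (2 * M p) ≤ X ^ k := by
      calc ∏ p ∈ K, (p : ℝ) ^ (2 * M p) ≤ ∏ _p ∈ K, X :=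
            Finset.prod_le_prod (fun p _ => by positivity) fun p hp => hX p (hKP hp)
        _ = X ^ k := by rw [Finset.prod_const, hKk]
    have h4 : 0 ≤ ∏ p ∈ K, (p : ℝ) ^ (2 * M p) := Finset.prod_nonneg fun p _ => by positivity
    gcongr
  rw [hcard]
  refine (Finset.sum_le_sum hbound).trans ?_
  rw [Finset.sum_add_distrib, ← Finset.mul_sum, Finset.sum_const, nsmul_eq_mul, Finset.card_powersetCard]
  have hw : ∀ p ∈ P, 0 ≤ ww (M p) (α p) := by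
    intro p hp
    have := hα p hp
    unfold ww
    positivity
  have h5 := esymm_le P (fun p => ww (M p) (α p)) hw k
  have h6 : ((P.card.choose k : ℕ) : ℝ) ≤ (P.card : ℝ) ^ k := by
    exact_mod_cast Nat.choose_le_pow _ _
  have hL0 : 0 ≤ 3500 * ((N + 1 : ℝ) / (Real.log U ^ 3 * U ^ (ϑ / 4))) := by positivity
  have hR0 : 0 ≤ 140000000000000 * (U ^ 3 * (X ^ k) ^ 3 * Real.sqrt N) := by positivity
  exact add_le_add (mul_le_mul_of_nonneg_left h5 hL0) (mul_le_mul_of_nonneg_right h6 hR0)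

theorem final_U (S : Sys0 (CongruenceSubgroup.Gamma0 N) (rep N) f lam 1) (hN : N.Prime)
    (hcusp : ∀ (j : ι) (y : ℝ), 0 < y → ∫ x in (-(1 / 2) : ℝ)..(1 / 2), fc (f j) (pt y x) = 0)
    (hcusp0 : ∀ (j : ι) (y : ℝ), 0 < y → ∫ x in (-(1 / 2) : ℝ)..(-(1 / 2) + N),
      fc (fun u => f j (ModularGroup.S • u)) (pt y x) = 0)
    (k : ℕ) {P : Finset ℕ}
    (hP : ∀ p ∈ P, p.Prime ∧ (p : ℝ) ≤ (N : ℝ) ^ (1 / (24 * (k + 1)) : ℝ)) {θ : ℕ → ℝ}
    (hθ : ∀ p ∈ P, 0 ≤ θ p)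
    (a : ι → ℕ → ℝ) (hH : ∀ j, ∀ p ∈ P, HeckeP (f j) p (a j p))
    (ha : ∀ j, k ≤ (P.filter fun p : ℕ => (p : ℝ) ^ θ p + (p : ℝ) ^ (-θ p) ≤ |a j p|).card)
    {ϑ : ℝ} (hϑ : 0 ≤ ϑ) (s : ι → ℝ) (hs : ∀ j, 1 / 2 + ϑ ≤ s j) (hls : ∀ j, lam j = s j * (1 - s j)) :
    (Fintype.card ι : ℝ) ≤ 80000000 * (192 * (24 * (k + 1)) ^ 3) ^ k *
        ((N : ℝ) ^ (1 - ϑ / 96) / Real.log N ^ 3) *
        (∑ p ∈ P, (Real.log p / Real.log N) ^ 3 * (N : ℝ) ^ (-(θ p / (24 * (k + 1))))) ^ k +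
      140000000000000 * (N : ℝ) ^ (11 / 12 : ℝ) := by
  have hN2 : (2 : ℝ) ≤ N := by exact_mod_cast hN.two_le
  have hN0 : (0 : ℝ) < N := by linarith
  have hlN : 0 < Real.log N := Real.log_pos (by linarith)
  have hk0 : (0 : ℝ) ≤ k := Nat.cast_nonneg k
  set U : ℝ := (N : ℝ) ^ (1 / 24 : ℝ) with hU
  have hU1 : 1 < U := Real.one_lt_rpow (by linarith) (by norm_num)
  have hlU : Real.log U = Real.log N / 24 := by
    rw [hU, Real.log_rpow hN0]
    ring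
  have hUϑ : U ^ (ϑ / 4) = (N : ℝ) ^ (ϑ / 96) := by
    rw [hU, ← Real.rpow_mul hN0.le]
    congr 1
    ring
  have hU3 : U ^ 3 = (N : ℝ) ^ (1 / 8 : ℝ) := by
    rw [hU, ← Real.rpow_natCast, ← Real.rpow_mul hN0.le]
    norm_num
  set κ : ℝ := 24 * ((k : ℝ) + 1) with hκ
  have hκ0 : 0 < κ := by positivity
  set M : ℕ → ℕ := fun p => ⌊Real.log N / (κ * Real.log p)⌋₊ with hM
  have hα : ∀ p ∈ P, 1 ≤ (p : ℝ) ^ θ p := by
    intro p hp
    apply Real.one_le_rpow _ (hθ p hp)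
    exact_mod_cast (hP p hp).1.one_lt.le
  have hneg : ∀ p ∈ P, (p : ℝ) ^ (-θ p) = ((p : ℝ) ^ θ p)⁻¹ := fun p _ => Real.rpow_neg (by positivity) _
  have hb := fun p (hp : p ∈ P) => ww_bound' (κ := κ) (by linarith : (1 : ℝ) < N) hκ0 (hP p hp).1
    (hP p hp).2 (hθ p hp) (M := M p) rfl
  have key := S.count_exceptionsU hN hcusp hcusp0 P (fun p hp => (hP p hp).1) (fun p => (p : ℝ) ^ θ p)
    hα M a hH k
    (by
      intro j
      refine (ha j).trans (le_of_eq ?_)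
      congr 1
      refine Finset.filter_congr fun p hp => ?_
      rw [hneg p hp])
    (X := (N : ℝ) ^ (2 / κ)) (by positivity) (fun p hp => (hb p hp).2) hϑ s hs hls hU1
  refine key.trans ?_
  set Z := ∑ p ∈ P, (Real.log p / Real.log N) ^ 3 * (N : ℝ) ^ (-(θ p / κ)) with hZ
  have hZ0 : 0 ≤ Z := by
    refine Finset.sum_nonneg fun p hp => ?_
    have h3 : 0 ≤ Real.log p := Real.log_nonneg (by exact_mod_cast (hP p hp).1.one_lt.le)
    positivity
  have h1 : ∑ p ∈ P, ww (M p) ((p : ℝ) ^ θ p) ≤ 192 * κ ^ 3 * Z := by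
    rw [hZ, Finset.mul_sum]
    exact Finset.sum_le_sum fun p hp => (hb p hp).1
  have hw0 : 0 ≤ ∑ p ∈ P, ww (M p) ((p : ℝ) ^ θ p) := by
    refine Finset.sum_nonneg fun p _ => ?_
    unfold ww
    positivity
  refine add_le_add ?_ ?_
  · have e1 : (N : ℝ) ^ (1 - ϑ / 96) = N / (N : ℝ) ^ (ϑ / 96) := by
      rw [Real.rpow_sub hN0, Real.rpow_one]
    have hNϑ : 0 < (N : ℝ) ^ (ϑ / 96) := Real.rpow_pos_of_pos hN0 _
    rw [hlU, hUϑ, e1]
    have h2 : ((N : ℝ) + 1) / ((Real.log N / 24) ^ 3 * (N : ℝ) ^ (ϑ / 96)) ≤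
        20736 * (N / (N : ℝ) ^ (ϑ / 96) / Real.log N ^ 3) := by
      have e2 : ((N : ℝ) + 1) / ((Real.log N / 24) ^ 3 * (N : ℝ) ^ (ϑ / 96)) =
          (13824 * ((N : ℝ) + 1)) * (1 / ((N : ℝ) ^ (ϑ / 96) * Real.log N ^ 3)) := by
        field_simp
        norm_num
      have e3 : 20736 * (N / (N : ℝ) ^ (ϑ / 96) / Real.log N ^ 3) =
          (20736 * N) * (1 / ((N : ℝ) ^ (ϑ / 96) * Real.log N ^ 3)) := by
        field_simp
      rw [e2, e3]
      exact mul_le_mul_of_nonneg_right (by linarith) (by positivity)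
    calc 3500 * (((N : ℝ) + 1) / ((Real.log N / 24) ^ 3 * (N : ℝ) ^ (ϑ / 96))) *
        (∑ p ∈ P, ww (M p) ((p : ℝ) ^ θ p)) ^ k ≤
        3500 * (20736 * (N / (N : ℝ) ^ (ϑ / 96) / Real.log N ^ 3)) * (192 * κ ^ 3 * Z) ^ k := by
          gcongr
      _ = (3500 * 20736) * ((192 * κ ^ 3) ^ k * (N / (N : ℝ) ^ (ϑ / 96) / Real.log N ^ 3) * Z ^ k) := by
          rw [mul_pow (192 * κ ^ 3) Z]
          ring
      _ ≤ 80000000 * ((192 * κ ^ 3) ^ k * (N / (N : ℝ) ^ (ϑ / 96) / Real.log N ^ 3) * Z ^ k) := by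
          gcongr
          norm_num
      _ = _ := by ring
  · have hcardP : (P.card : ℝ) ≤ (N : ℝ) ^ (1 / κ) := by
      have hsub : P ⊆ Finset.Icc 1 ⌊(N : ℝ) ^ (1 / κ)⌋₊ := by
        intro p hp
        rw [Finset.mem_Icc]
        exact ⟨(hP p hp).1.one_lt.le, Nat.le_floor (hP p hp).2⟩
      have h2 := Finset.card_le_card hsub
      rw [Nat.card_Icc, Nat.add_sub_cancel] at h2
      calc (P.card : ℝ) ≤ (⌊(N : ℝ) ^ (1 / κ)⌋₊ : ℝ) := by exact_mod_cast h2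
        _ ≤ _ := Nat.floor_le (by positivity)
    have hfrac : (k : ℝ) / ((k : ℝ) + 1) ≤ 1 := by
      rw [div_le_one (by positivity)]
      linarith
    have hcardk : (P.card : ℝ) ^ k ≤ (N : ℝ) ^ (1 / 24 : ℝ) := by
      calc (P.card : ℝ) ^ k ≤ ((N : ℝ) ^ (1 / κ)) ^ k := by gcongr
        _ = (N : ℝ) ^ (1 / κ * k) := by
            rw [← Real.rpow_natCast, ← Real.rpow_mul hN0.le]
        _ ≤ (N : ℝ) ^ (1 / 24 : ℝ) := by
            apply Real.rpow_le_rpow_of_exponent_le (by linarith)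
            have : 1 / κ * k = 1 / 24 * (k / ((k : ℝ) + 1)) := by
              rw [hκ]
              field_simp
            rw [this]
            linarith
    have hXk : (((N : ℝ) ^ (2 / κ)) ^ k) ^ 3 ≤ (N : ℝ) ^ (1 / 4 : ℝ) := by
      calc (((N : ℝ) ^ (2 / κ)) ^ k) ^ 3 = (N : ℝ) ^ (2 / κ * k * 3) := by
            rw [← Real.rpow_natCast, ← Real.rpow_natCast, ← Real.rpow_mul hN0.le, ← Real.rpow_mul hN0.le]
            norm_num
        _ ≤ _ := by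
            apply Real.rpow_le_rpow_of_exponent_le (by linarith)
            have : 2 / κ * k * 3 = 1 / 4 * (k / ((k : ℝ) + 1)) := by
              rw [hκ]
              field_simp
              ring
            rw [this]
            linarith
    calc (P.card : ℝ) ^ k * (140000000000000 * (U ^ 3 * (((N : ℝ) ^ (2 / κ)) ^ k) ^ 3 * Real.sqrt N)) ≤
        (N : ℝ) ^ (1 / 24 : ℝ) * (140000000000000 * ((N : ℝ) ^ (1 / 8 : ℝ) * (N : ℝ) ^ (1 / 4 : ℝ) *
          (N : ℝ) ^ (1 / 2 : ℝ))) := by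
          rw [hU3, ← Real.sqrt_eq_rpow]
          gcongr
      _ = 140000000000000 * ((N : ℝ) ^ (1 / 24 : ℝ) * ((N : ℝ) ^ (1 / 8 : ℝ) * (N : ℝ) ^ (1 / 4 : ℝ) *
          (N : ℝ) ^ (1 / 2 : ℝ))) := by ring
      _ = _ := by
          rw [← Real.rpow_add hN0, ← Real.rpow_add hN0, ← Real.rpow_add hN0]
          norm_num

end

end Pool.Agent.T2H31
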