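import Pool.Agent.T2H31.Mult

/-! The trivial multiplicity, and the shape of the exceptional set. -/

set_option autoImplicit false

namespace Pool.Agent.T2H31

open Complex MeasureTheory Set Function UpperHalfPlane ModularGroup
open scoped ENNReal NNReal MatrixGroups Modular

theorem Qf_re (a b c d : ℤ) (z : ℍ) : (Qf a b c d z).re = c * (z.re ^ 2 - z.im ^ 2) + (d - a) * z.re - b := by
  simp [Qf, sq]

theorem Qf_im (a b c d : ℤ) (z : ℍ) : (Qf a b c d z).im = z.im * (2 * c * z.re + (d - a)) := by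
  simp [Qf, sq]; ring

theorem Qf_sq (a b c d : ℤ) (z : ℍ) : ‖Qf a b c d z‖ ^ 2 =
    (c * (z.re ^ 2 - z.im ^ 2) + (d - a) * z.re - b) ^ 2 + (z.im * (2 * c * z.re + (d - a))) ^ 2 := by
  rw [← Complex.normSq_eq_norm_sq, Complex.normSq_apply, Qf_re, Qf_im]; ring

theorem abs_re_le (a b c d : ℤ) (z : ℍ) :
    |c * (z.re ^ 2 - z.im ^ 2) + (d - a) * z.re - b| ≤ ‖Qf a b c d z‖ := by
  rw [← Qf_re]; exact Complex.abs_re_le_norm _

theorem abs_im_le (a b c d : ℤ) (z : ℍ) :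
    z.im * |2 * c * z.re + (d - a)| ≤ ‖Qf a b c d z‖ := by
  have := Complex.abs_im_le_norm (Qf a b c d z)
  rwa [Qf_im, abs_mul, abs_of_pos z.im_pos] at this

/-- `(c y)² + (c x + d)² + (a - c x)² ≤ 2 det + |Q|² / y²` -/
theorem entries_sq (a b c d : ℤ) (z : ℍ) :
    z.im ^ 2 * ((c * z.im) ^ 2 + (c * z.re + d) ^ 2 + (a - c * z.re) ^ 2) ≤
      2 * z.im ^ 2 * (a * d - b * c) + ‖Qf a b c d z‖ ^ 2 := by
  rw [Qf_sq]
  have h : z.im ^ 2 * ((c * z.im) ^ 2 + (c * z.re + d) ^ 2 + (a - c * z.re) ^ 2) +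
      (-c * z.re ^ 2 + (a - d) * z.re + b) ^ 2 = 2 * z.im ^ 2 * (a * d - b * c) +
      ((c * (z.re ^ 2 - z.im ^ 2) + (d - a) * z.re - b) ^ 2 + (z.im * (2 * c * z.re + (d - a))) ^ 2) := by ring
  nlinarith [sq_nonneg (-c * z.re ^ 2 + (a - d) * z.re + b : ℝ)]

theorem fd_bounds {z : ℍ} (hz : z ∈ (𝒟 : Set ℍ)) : 3 / 4 ≤ z.im ^ 2 ∧ |z.re| ≤ 1 / 2 := by
  have := three_le_four_mul_im_sq_of_mem_fd hz
  exact ⟨by linarith, hz.2⟩

theorem fd_im {z : ℍ} (hz : z ∈ (𝒟 : Set ℍ)) : 4 / 5 ≤ z.im := by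
  have := (fd_bounds hz).1
  have h := z.im_pos
  nlinarith

theorem entries_bound {z : ℍ} (hz : z ∈ (𝒟 : Set ℍ)) {δ : ℝ} (h1 : δ ≤ 1) (h2 : δ * z.im ≤ 1)
    {a b c d : ℤ} (hdet : a * d - b * c = 1) (hQ : ‖Qf a b c d z‖ ≤ δ * z.im) :
    |a| ≤ 10 ∧ |b| ≤ 10 ∧ |c| ≤ 10 ∧ |d| ≤ 10 := by
  have hy := z.im_pos
  obtain ⟨hy2, hx⟩ := fd_bounds hz
  have hx' := abs_le.1 hx
  have e := entries_sq a b c d z
  have hdet' : (a * d - b * c : ℝ) = 1 := by exact_mod_cast hdet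
  have hQn := norm_nonneg (Qf a b c d z)
  have hQ2 : ‖Qf a b c d z‖ ^ 2 ≤ z.im ^ 2 := by
    have : ‖Qf a b c d z‖ ≤ z.im := hQ.trans (by nlinarith)
    nlinarith
  rw [hdet'] at e
  have e2 : (c * z.im) ^ 2 + (c * z.re + d) ^ 2 + (a - c * z.re) ^ 2 ≤ 3 := by
    have h3 : z.im ^ 2 * ((c * z.im) ^ 2 + (c * z.re + d) ^ 2 + (a - c * z.re) ^ 2) ≤ z.im ^ 2 * 3 := by
      linarith
    exact le_of_mul_le_mul_left h3 (by positivity)
  have hc2 : (c : ℝ) ^ 2 ≤ 4 := by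
    have : (c * z.im) ^ 2 ≤ 3 := by nlinarith [sq_nonneg (c * z.re + d : ℝ), sq_nonneg (a - c * z.re : ℝ)]
    nlinarith [sq_nonneg (c : ℝ)]
  have hc : |c| ≤ 2 := by
    have : c ^ 2 ≤ 4 := by exact_mod_cast hc2
    exact abs_le.2 ⟨by nlinarith, by nlinarith⟩
  have hcr : |(c : ℝ)| ≤ 2 := by exact_mod_cast hc
  have hcx : |(c : ℝ) * z.re| ≤ 1 := by
    rw [abs_mul]
    exact (mul_le_mul hcr hx (abs_nonneg _) (by norm_num)).trans (by norm_num)
  have hcx' := abs_le.1 hcx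
  have hd1 : (c * z.re + d : ℝ) ^ 2 ≤ 2 ^ 2 := by
    linarith [sq_nonneg (c * z.im : ℝ), sq_nonneg (a - c * z.re : ℝ)]
  have ha1 : (a - c * z.re : ℝ) ^ 2 ≤ 2 ^ 2 := by
    linarith [sq_nonneg (c * z.im : ℝ), sq_nonneg (c * z.re + d : ℝ)]
  have hd1' := abs_le.1 (abs_le_of_sq_le_sq hd1 (by norm_num))
  have ha1' := abs_le.1 (abs_le_of_sq_le_sq ha1 (by norm_num))
  have hd : |d| ≤ 3 := by
    have h5 : (d : ℝ) ≤ 3 := by linarith
    have h6 : -3 ≤ (d : ℝ) := by linarith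
    have h7 : d ≤ 3 := by exact_mod_cast h5
    have h8 : -3 ≤ d := by exact_mod_cast h6
    exact abs_le.2 ⟨by omega, by omega⟩
  have ha : |a| ≤ 3 := by
    have h5 : (a : ℝ) ≤ 3 := by linarith
    have h6 : -3 ≤ (a : ℝ) := by linarith
    have h7 : a ≤ 3 := by exact_mod_cast h5
    have h8 : -3 ≤ a := by exact_mod_cast h6
    exact abs_le.2 ⟨by omega, by omega⟩
  have hb : |b| ≤ 10 := by
    by_cases hc0 : c = 0
    · have h5 := (abs_re_le a b c d z).trans (hQ.trans h2)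
      rw [hc0] at h5
      simp only [Int.cast_zero, zero_mul, zero_add] at h5
      have ha' := abs_le.1 ha
      have hd' := abs_le.1 hd
      have k1 : (-3 : ℝ) ≤ a := by exact_mod_cast ha'.1
      have k2 : (a : ℝ) ≤ 3 := by exact_mod_cast ha'.2
      have k3 : (-3 : ℝ) ≤ d := by exact_mod_cast hd'.1
      have k4 : (d : ℝ) ≤ 3 := by exact_mod_cast hd'.2
      have h6 := abs_le.1 h5
      have k5 : |(d - a : ℝ) * z.re| ≤ 3 := by
        rw [abs_mul]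
        have : |(d - a : ℝ)| ≤ 6 := abs_le.2 ⟨by linarith, by linarith⟩
        exact (mul_le_mul this hx (abs_nonneg _) (by norm_num)).trans (by norm_num)
      have k6 := abs_le.1 k5
      have h7 : (b : ℝ) ≤ 4 := by linarith
      have h8 : (-4 : ℝ) ≤ b := by linarith
      have h9 : b ≤ 4 := by exact_mod_cast h7
      have h10 : -4 ≤ b := by exact_mod_cast h8
      exact abs_le.2 ⟨by omega, by omega⟩
    · have h5 : b * c = a * d - 1 := by linarith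
      have h6 : |b * c| ≤ 10 := by
        rw [h5]
        have ha' := abs_le.1 ha
        have hd' := abs_le.1 hd
        have : |a * d| ≤ 9 := by
          rw [abs_mul]; exact mul_le_mul ha hd (abs_nonneg d) (by norm_num)
        have := abs_le.1 this
        exact abs_le.2 ⟨by omega, by omega⟩
      rw [abs_mul] at h6
      have : 1 ≤ |c| := Int.one_le_abs hc0
      exact (le_mul_of_one_le_right (abs_nonneg b) this).trans h6
  exact ⟨by omega, hb, by omega, by omega⟩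

theorem hp_one (z : ℍ) : hp (1, 0, 1) z = z := by
  ext
  rw [coe_hp (by norm_num) (by norm_num)]
  simp

theorem mult_triv {ρ : ℝ} (h0 : 0 ≤ ρ) (hρ : ρ ≤ 1 / 8) {z : ℍ} (hz : z ∈ (𝒟 : Set ℍ))
    (hy : 8 * ρ * z.im ≤ 1) (w : ℍ) :
    ∑ q ∈ ({()} : Finset Unit), ∑' γ : SL(2, ℤ), (EB z ρ).indicator (fun _ => (1 : ℝ≥0∞)) (γ • w) ≤ 194481 := by
  classical
  have : (194481 : ℝ≥0∞) = ((194481 : ℕ) : ℝ≥0∞) := by norm_num
  rw [this]
  refine mult_le ({()} : Finset Unit) (fun _ => EB z ρ) w 194481 fun S hS => ?_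
  rcases S.eq_empty_or_nonempty with rfl | ⟨⟨_, γ⟩, hqγ⟩
  · simp
  let φ : Unit × SL(2, ℤ) → ℤ × ℤ × ℤ × ℤ := fun p =>
    ((γ * p.2⁻¹) 0 0, (γ * p.2⁻¹) 0 1, (γ * p.2⁻¹) 1 0, (γ * p.2⁻¹) 1 1)
  have hinj : Function.Injective φ := by
    rintro ⟨⟨⟩, g⟩ ⟨⟨⟩, g'⟩ h
    simp only [φ, Prod.mk.injEq] at h
    have : γ * g⁻¹ = γ * g'⁻¹ := by
      ext i j
      fin_cases i <;> fin_cases j
      · exact h.1
      · exact h.2.1
      · exact h.2.2.1
      · exact h.2.2.2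
    have h2 := inv_injective (mul_left_cancel this)
    rw [h2]
  have himg : S.image φ ⊆ Finset.Icc (-10) 10 ×ˢ (Finset.Icc (-10) 10 ×ˢ (Finset.Icc (-10) 10 ×ˢ Finset.Icc (-10) 10)) := by
    intro t ht
    obtain ⟨⟨_, γ'⟩, h', rfl⟩ := Finset.mem_image.1 ht
    have d1 := dist_of_EB h0 (by linarith) (hS _ hqγ).2
    have d2 := dist_of_EB h0 (by linarith) (hS _ h').2
    simp only at d1 d2
    have d3 : dist z ((γ * γ'⁻¹) • z) ≤ 4 * ρ := by
      have e : dist (γ • w) ((γ * γ'⁻¹) • z) = dist (γ' • w) z := by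
        rw [mul_smul, dist_smul']
        conv_rhs => rw [← dist_smul' γ'⁻¹, inv_smul_smul]
      calc dist z ((γ * γ'⁻¹) • z) ≤ dist z (γ • w) + dist (γ • w) ((γ * γ'⁻¹) • z) :=
            dist_triangle _ _ _
        _ ≤ 2 * ρ + 2 * ρ := by rw [e, dist_comm]; exact add_le_add d1 d2
        _ = 4 * ρ := by ring
    have hf := form_small (q := (1, 0, 1)) (q' := (1, 0, 1)) (by norm_num) (by norm_num) (by norm_num)
      (by norm_num) z (γ * γ'⁻¹) h0 (by linarith) (by rw [hp_one]; exact d3)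
    simp only [Nat.cast_one, one_mul, mul_one, Nat.cast_zero, zero_mul, sub_zero, mul_zero, zero_add,
      Real.sqrt_one] at hf
    have hdet := (γ * γ'⁻¹).det_coe
    rw [Matrix.det_fin_two] at hdet
    obtain ⟨k1, k2, k3, k4⟩ := entries_bound hz (δ := 8 * ρ) (by linarith) hy hdet hf
    simp only [φ, Finset.mem_product, Finset.mem_Icc]
    exact ⟨abs_le.1 k1, abs_le.1 k2, abs_le.1 k3, abs_le.1 k4⟩
  rw [← Finset.card_image_of_injective S hinj]
  refine (Finset.card_le_card himg).trans ?_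
  simp

end Pool.Agent.T2H31
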