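import Pool.Agent.T2H31.Local

/-! Unfolding. -/

set_option autoImplicit false

namespace Pool.Agent.T2H31

open Complex MeasureTheory Set Function UpperHalfPlane ModularGroup
open scoped ENNReal NNReal MatrixGroups Modular

theorem mp_smul (γ : SL(2, ℤ)) : MeasurePreserving (fun z : ℍ => γ • z) volume volume :=
  measurePreserving_smul (γ : GL (Fin 2) ℝ) (volume : Measure ℍ)

theorem meas_smul (γ : SL(2, ℤ)) : Measurable fun z : ℍ => γ • z := (mp_smul γ).measurable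

theorem meas_fd : MeasurableSet (𝒟 : Set ℍ) := isClosed_fd.measurableSet

theorem countableSL : Countable SL(2, ℤ) := by
  have : Countable (Matrix (Fin 2) (Fin 2) ℤ) := inferInstanceAs (Countable (Fin 2 → Fin 2 → ℤ))
  exact inferInstanceAs (Countable {A : Matrix (Fin 2) (Fin 2) ℤ // A.det = 1})

theorem unfold_one {B : Set ℍ} (hB : MeasurableSet B) {g : ℍ → ℝ≥0∞} (hg : Measurable g)
    (hinv : ∀ (γ : SL(2, ℤ)) (z : ℍ), g (γ • z) = g z) :
    ∫⁻ u in B, g u ≤ ∫⁻ w in 𝒟, (∑' γ : SL(2, ℤ), B.indicator (fun _ => (1 : ℝ≥0∞)) (γ • w)) * g w := by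
  have := countableSL
  have h1 : B ⊆ ⋃ γ : SL(2, ℤ), (B ∩ {u | γ • u ∈ (𝒟 : Set ℍ)}) := by
    intro u hu
    obtain ⟨γ, hγ⟩ := exists_smul_mem_fd u
    exact mem_iUnion.2 ⟨γ, hu, hγ⟩
  have hms : ∀ γ : SL(2, ℤ), MeasurableSet {u : ℍ | γ • u ∈ (𝒟 : Set ℍ)} := fun γ =>
    meas_smul γ meas_fd
  calc ∫⁻ u in B, g u ≤ ∫⁻ u in ⋃ γ : SL(2, ℤ), (B ∩ {u | γ • u ∈ (𝒟 : Set ℍ)}), g u :=
        lintegral_mono_set h1
    _ ≤ ∑' γ : SL(2, ℤ), ∫⁻ u in B ∩ {u | γ • u ∈ (𝒟 : Set ℍ)}, g u := lintegral_iUnion_le _ _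
    _ = ∑' γ : SL(2, ℤ), ∫⁻ w in 𝒟, B.indicator (fun _ => (1 : ℝ≥0∞)) (γ⁻¹ • w) * g w := by
        refine tsum_congr fun γ => ?_
        rw [← lintegral_indicator (hB.inter (hms γ)), ← (mp_smul γ⁻¹).lintegral_comp
          ((hg.indicator (hB.inter (hms γ)))), ← lintegral_indicator meas_fd]
        refine lintegral_congr fun w => ?_
        have hmem : γ⁻¹ • w ∈ B ∩ {u | γ • u ∈ (𝒟 : Set ℍ)} ↔ γ⁻¹ • w ∈ B ∧ w ∈ (𝒟 : Set ℍ) := by
          constructor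
          · rintro ⟨a, b⟩
            refine ⟨a, ?_⟩
            have : γ • γ⁻¹ • w ∈ (𝒟 : Set ℍ) := b
            rwa [smul_inv_smul] at this
          · rintro ⟨a, b⟩
            refine ⟨a, ?_⟩
            show γ • γ⁻¹ • w ∈ (𝒟 : Set ℍ)
            rwa [smul_inv_smul]
        by_cases h2 : w ∈ (𝒟 : Set ℍ)
        · by_cases h1 : γ⁻¹ • w ∈ B
          · rw [indicator_of_mem (hmem.2 ⟨h1, h2⟩), indicator_of_mem h2, indicator_of_mem h1, hinv, one_mul]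
          · rw [indicator_of_notMem (fun h => h1 (hmem.1 h).1), indicator_of_mem h2, indicator_of_notMem h1,
              zero_mul]
        · rw [indicator_of_notMem (fun h => h2 (hmem.1 h).2), indicator_of_notMem h2]
    _ = ∑' γ : SL(2, ℤ), ∫⁻ w in 𝒟, B.indicator (fun _ => (1 : ℝ≥0∞)) (γ • w) * g w :=
        (Equiv.inv (SL(2, ℤ))).tsum_eq fun γ => ∫⁻ w in 𝒟, B.indicator (fun _ => (1 : ℝ≥0∞)) (γ • w) * g w
    _ = ∫⁻ w in 𝒟, (∑' γ : SL(2, ℤ), B.indicator (fun _ => (1 : ℝ≥0∞)) (γ • w)) * g w := by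
        rw [← lintegral_tsum]
        · refine lintegral_congr fun w => ?_
          rw [ENNReal.tsum_mul_right]
        · intro γ
          refine Measurable.aemeasurable ?_
          exact ((measurable_const.indicator hB).comp (meas_smul γ)).mul hg

theorem unfold_sum {ι : Type*} (I : Finset ι) {B : ι → Set ℍ} (hB : ∀ i, MeasurableSet (B i))
    {g : ℍ → ℝ≥0∞} (hg : Measurable g)
    (hinv : ∀ (γ : SL(2, ℤ)) (z : ℍ), g (γ • z) = g z) {M : ℝ≥0∞}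
    (hM : ∀ w ∈ (𝒟 : Set ℍ), ∑ i ∈ I, ∑' γ : SL(2, ℤ), (B i).indicator (fun _ => (1 : ℝ≥0∞)) (γ • w) ≤ M) :
    ∑ i ∈ I, ∫⁻ u in B i, g u ≤ M * ∫⁻ w in 𝒟, g w := by
  have := countableSL
  have hm : ∀ i, Measurable fun w : ℍ => ∑' γ : SL(2, ℤ), (B i).indicator (fun _ => (1 : ℝ≥0∞)) (γ • w) :=
    fun i => Measurable.tsum fun γ => (measurable_const.indicator (hB i)).comp (meas_smul γ)
  calc ∑ i ∈ I, ∫⁻ u in B i, g u ≤ ∑ i ∈ I, ∫⁻ w in 𝒟,
        (∑' γ : SL(2, ℤ), (B i).indicator (fun _ => (1 : ℝ≥0∞)) (γ • w)) * g w :=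
        Finset.sum_le_sum fun i _ => unfold_one (hB i) hg hinv
    _ = ∫⁻ w in 𝒟, (∑ i ∈ I, ∑' γ : SL(2, ℤ), (B i).indicator (fun _ => (1 : ℝ≥0∞)) (γ • w)) * g w := by
        rw [← lintegral_finsetSum]
        · refine lintegral_congr fun w => ?_
          rw [Finset.sum_mul]
        · intro i _
          exact (hm i).mul hg
    _ ≤ ∫⁻ w in 𝒟, M * g w := setLIntegral_mono' meas_fd fun w hw => by gcongr; exact hM w hw
    _ = M * ∫⁻ w in 𝒟, g w := lintegral_const_mul _ hg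

/-- the multiplicity as a cardinality -/
theorem mult_le {ι : Type*} (I : Finset ι) (B : ι → Set ℍ) (w : ℍ) (N : ℕ)
    (h : ∀ S : Finset (ι × SL(2, ℤ)), (∀ q ∈ S, q.1 ∈ I ∧ q.2 • w ∈ B q.1) → S.card ≤ N) :
    ∑ i ∈ I, ∑' γ : SL(2, ℤ), (B i).indicator (fun _ => (1 : ℝ≥0∞)) (γ • w) ≤ N := by
  classical
  have h1 : ∑ i ∈ I, ∑' γ : SL(2, ℤ), (B i).indicator (fun _ => (1 : ℝ≥0∞)) (γ • w) =
      ∑' q : I × SL(2, ℤ), (B q.1.1).indicator (fun _ => (1 : ℝ≥0∞)) (q.2 • w) := by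
    rw [ENNReal.tsum_prod', tsum_fintype]
    rw [← Finset.sum_coe_sort]
  rw [h1, ENNReal.tsum_eq_iSup_sum]
  refine iSup_le fun S => ?_
  have h2 : ∑ q ∈ S, (B (q.1.1)).indicator (fun _ => (1 : ℝ≥0∞)) (q.2 • w) =
      ((S.filter fun q => q.2 • w ∈ B q.1.1).card : ℝ≥0∞) := by
    rw [Finset.card_filter]
    push_cast
    refine Finset.sum_congr rfl fun q _ => ?_
    by_cases hq : q.2 • w ∈ B q.1.1
    · rw [indicator_of_mem hq, if_pos hq]
    · rw [indicator_of_notMem hq, if_neg hq]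
  rw [h2]
  have h3 := h ((S.filter fun q => q.2 • w ∈ B q.1.1).image fun q => (q.1.1, q.2)) (by
    intro q hq
    obtain ⟨q', hq', rfl⟩ := Finset.mem_image.1 hq
    exact ⟨q'.1.2, (Finset.mem_filter.1 hq').2⟩)
  rw [Finset.card_image_of_injective] at h3
  · exact_mod_cast h3
  · rintro ⟨a, b⟩ ⟨c, d⟩ h
    simp only [Prod.mk.injEq] at h
    exact Prod.ext (Subtype.ext h.1) h.2

end Pool.Agent.T2H31
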